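import Pool.Agent.Lib.MP_fd2900_lc.Basis1

namespace Pool.Agent.MP_fd2900_lc

open FirstOrder FirstOrder.Language

section basis

variable {L : FirstOrder.Language.{0, 0}} {M : Type} [L.Structure M]

/-- algebraic over a list -/
private def BasisAlg (j : ℕ → M) (l : List M) (e : M) : Prop :=
  Alg (L := L) j (fun k : Fin l.length => l.getD k (j 0)) e

open Classical in
/-- the greedy list -/
private noncomputable def basisG (j m : ℕ → M) : ℕ → List M
  | 0 => []
  | s + 1 => if BasisAlg (L := L) j (basisG j m s) (m s) then basisG j m s
      else basisG j m s ++ [m s]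

private lemma basisG_getD_succ (j m : ℕ → M) (s k : ℕ) (h : k < (basisG (L := L) j m s).length) :
    k < (basisG (L := L) j m (s + 1)).length ∧
      (basisG (L := L) j m (s + 1)).getD k (j 0) = (basisG (L := L) j m s).getD k (j 0) := by
  rw [basisG]
  split_ifs with h1
  · exact ⟨h, rfl⟩
  · refine ⟨?_, ?_⟩
    · rw [List.length_append]
      omega
    · rw [List.getD_append _ _ _ _ h]

private lemma basisG_getD_le (j m : ℕ → M) (s s' k : ℕ) (hs : s ≤ s')
    (h : k < (basisG (L := L) j m s).length) :
    k < (basisG (L := L) j m s').length ∧
      (basisG (L := L) j m s').getD k (j 0) = (basisG (L := L) j m s).getD k (j 0) := by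
  induction s', hs using Nat.le_induction with
  | base => exact ⟨h, rfl⟩
  | succ s' _ ih =>
    have h1 := basisG_getD_succ (L := L) j m s' k ih.1
    exact ⟨h1.1, h1.2.trans ih.2⟩

open Classical in
/-- the limit sequence -/
private noncomputable def basisB (j m : ℕ → M) (k : ℕ) : M :=
  if h : ∃ s, k < (basisG (L := L) j m s).length then
    (basisG (L := L) j m h.choose).getD k (j 0) else j 0

private lemma basisB_eq (j m : ℕ → M) (s k : ℕ) (h : k < (basisG (L := L) j m s).length) :
    basisB (L := L) j m k = (basisG (L := L) j m s).getD k (j 0) := by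
  have hex : ∃ s, k < (basisG (L := L) j m s).length := ⟨s, h⟩
  unfold basisB
  rw [dif_pos hex]
  rcases le_total hex.choose s with hle | hle
  · exact (basisG_getD_le (L := L) j m _ _ k hle hex.choose_spec).2.symm
  · exact (basisG_getD_le (L := L) j m _ _ k hle h).2

private lemma basis_tuple (j m : ℕ → M) (s : ℕ) :
    (fun k : Fin (basisG (L := L) j m s).length => basisB (L := L) j m k) =
      fun k : Fin (basisG (L := L) j m s).length => (basisG (L := L) j m s).getD k (j 0) := by
  funext k
  exact basisB_eq j m s k k.2

private lemma basis_indep (j m : ℕ → M) (s : ℕ) : ∀ i < (basisG (L := L) j m s).length,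
    ¬ Alg (L := L) j (fun k : Fin i => basisB (L := L) j m k) (basisB (L := L) j m i) := by
  induction s with
  | zero =>
    intro i hi
    simp [basisG] at hi
  | succ s ih =>
    intro i hi
    by_cases h : i < (basisG (L := L) j m s).length
    · exact ih i h
    · by_cases h1 : BasisAlg (L := L) j (basisG (L := L) j m s) (m s)
      · rw [basisG, if_pos h1] at hi
        exact absurd hi h
      · have hi' := hi
        rw [basisG, if_neg h1, List.length_append, List.length_singleton] at hi'
        have hieq : i = (basisG (L := L) j m s).length := by omega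
        have hb : basisB (L := L) j m i = m s := by
          rw [basisB_eq j m (s + 1) i hi, basisG, if_neg h1, hieq]
          simp
        rw [hb]
        subst hieq
        intro h2
        apply h1
        unfold BasisAlg
        rw [← basis_tuple]
        exact h2

/-- an element is algebraic over itself -/
private lemma basis_self (j : ℕ → M) {n : ℕ} (c : Fin n → M) (k : Fin n) : Alg (L := L) j c (c k) := by
  refine ⟨(Term.var (Sum.inl (Sum.inr k))).equal (Term.var (Sum.inr ())), ?_, ?_⟩
  · rw [Formula.realize_equal]
    simp
  · apply (Set.finite_singleton (c k)).subset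
    intro y hy
    rw [Set.mem_ofPred_eq, Formula.realize_equal] at hy
    simp only [Term.realize_var, Sum.elim_inl, Sum.elim_inr] at hy
    exact hy.symm

end basis

theorem exists_basis {L : FirstOrder.Language.{0, 0}} {M : Type} [L.Structure M] [Countable M]
    (j : ℕ → M) :
    ∃ (b : ℕ → M) (V : ℕ → Prop), V 0 ∧ ComputablePred V ∧
      (∀ d, V d → ∀ i < d, ¬ Alg (L := L) j (fun k : Fin i => b k) (b i)) ∧
      ∀ e : M, ∃ d, V d ∧ Alg (L := L) j (fun k : Fin d => b k) e := by
  classical
  have : Nonempty M := ⟨j 0⟩
  obtain ⟨m, hm⟩ := exists_surjective_nat M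
  refine ⟨basisB (L := L) j m, fun d => ∃ s, d ≤ (basisG (L := L) j m s).length, ⟨0, Nat.zero_le _⟩,
    ?_, ?_, ?_⟩
  · by_cases hall : ∀ d, ∃ s, d ≤ (basisG (L := L) j m s).length
    · apply ComputablePred.of_eq (p := fun _ : ℕ => True)
      · exact PrimrecPred.computablePred (by
          exact (PrimrecRel.comp Primrec.eq (Primrec.const 0) (Primrec.const 0)).of_eq (fun _ => by simp))
      · intro d
        exact ⟨fun _ => hall d, fun _ => trivial⟩
    · push Not at hall
      have hD := Nat.find_spec hall
      have hmin := fun k => Nat.find_min (m := k) hall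
      set D := Nat.find hall with hDdef
      apply ComputablePred.of_eq (p := fun d : ℕ => d < D)
      · exact PrimrecPred.computablePred (PrimrecRel.comp Primrec.nat_lt Primrec.id (Primrec.const D))
      · intro d
        constructor
        · intro h
          have h1 := hmin d h
          push Not at h1
          exact h1
        · rintro ⟨s, hs⟩
          have := hD s
          omega
  · rintro d ⟨s, hs⟩ i hi
    exact basis_indep (L := L) j m s i (by omega)
  · intro e
    obtain ⟨s, rfl⟩ := hm e
    by_cases h : BasisAlg (L := L) j (basisG (L := L) j m s) (m s)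
    · refine ⟨(basisG (L := L) j m s).length, ⟨s, le_rfl⟩, ?_⟩
      rw [basis_tuple]
      exact h
    · have hlen : (basisG (L := L) j m (s + 1)).length = (basisG (L := L) j m s).length + 1 := by
        rw [basisG, if_neg h, List.length_append, List.length_singleton]
      refine ⟨(basisG (L := L) j m s).length + 1, ⟨s + 1, hlen.ge⟩, ?_⟩
      have hb : basisB (L := L) j m (basisG (L := L) j m s).length = m s := by
        rw [basisB_eq j m (s + 1) _ (by omega), basisG, if_neg h]
        simp
      have h1 := basis_self (L := L) j
        (fun k : Fin ((basisG (L := L) j m s).length + 1) => basisB (L := L) j m k)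
        (Fin.last (basisG (L := L) j m s).length)
      simp only [Fin.val_last] at h1
      rw [hb] at h1
      exact h1

end Pool.Agent.MP_fd2900_lc
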