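import Pool.Agent.Lib.MP_fd2900_lc.ModDefs

/-! a basis over the elementary submodel; minimality for all parameter types -/

namespace Pool.Agent.MP_fd2900_lc

open FirstOrder FirstOrder.Language

/-- minimality with an arbitrary set of parameters -/
theorem min_any {L : FirstOrder.Language.{0, 0}} {M : Type} [L.Structure M]
    (hmin : ∀ (n : ℕ) (φ : L.Formula (Fin n ⊕ Unit)) (c : Fin n → M),
      {y : M | φ.Realize (Sum.elim c fun _ => y)}.Finite ∨
        {y : M | ¬ φ.Realize (Sum.elim c fun _ => y)}.Finite)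
    {α : Type} (φ : L.Formula (α ⊕ Unit)) (c : α → M) :
    {y : M | φ.Realize (Sum.elim c fun _ => y)}.Finite ∨
      {y : M | ¬ φ.Realize (Sum.elim c fun _ => y)}.Finite := by
  classical
  let s : Finset α := φ.freeVarFinset.toLeft
  let e : s ≃ Fin s.card := s.equivFin
  have hs : ∀ a : φ.freeVarFinset, ∀ x, a.1 = Sum.inl x → x ∈ s := by
    rintro ⟨a, ha⟩ x hx
    simp only at hx
    subst hx
    exact Finset.mem_toLeft.2 ha
  let f : φ.freeVarFinset → Fin s.card ⊕ Unit := fun a =>
    match h : a.1 with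
    | Sum.inl x => Sum.inl (e ⟨x, hs a x h⟩)
    | Sum.inr u => Sum.inr u
  let φ' : L.Formula (Fin s.card ⊕ Unit) := BoundedFormula.restrictFreeVar φ f
  let c' : Fin s.card → M := fun i => c (e.symm i)
  have key : ∀ y : M, φ'.Realize (Sum.elim c' fun _ => y) ↔ φ.Realize (Sum.elim c fun _ => y) := by
    intro y
    refine BoundedFormula.realize_restrictFreeVar (φ := φ) (f := f)
      (Sum.elim c fun _ : Unit => y) ?_
    rintro ⟨a, ha⟩
    rcases a with x | u
    · show Sum.elim c' (fun _ => y) (Sum.inl (e ⟨x, _⟩)) = c x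
      simp [c']
    · rfl
  have := hmin s.card φ' c'
  simpa only [key] using this

/-- monotonicity of algebraicity in the initial segments of `b` -/
theorem Alg.mono {L : FirstOrder.Language.{0, 0}} {M : Type} [L.Structure M] (j : ℕ → M) (b : ℕ → M)
    {d d' : ℕ} (h : d ≤ d') {e : M} (ha : Alg (L := L) j (fun k : Fin d => b k) e) :
    Alg (L := L) j (fun k : Fin d' => b k) e := by
  obtain ⟨φ, h1, h2⟩ := ha
  have key : ∀ y : M, (φ.relabel (Sum.map (Sum.map id (Fin.castLE h)) id)).Realize
      (Sum.elim (Sum.elim j (fun k : Fin d' => b k)) fun _ => y) ↔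
      φ.Realize (Sum.elim (Sum.elim j (fun k : Fin d => b k)) fun _ => y) := by
    intro y
    rw [Formula.realize_relabel]
    have e1 : (Sum.elim (Sum.elim j (fun k : Fin d' => b k)) fun _ : Unit => y) ∘
        (Sum.map (Sum.map id (Fin.castLE h)) id) =
        Sum.elim (Sum.elim j (fun k : Fin d => b k)) fun _ => y := by
      funext x
      rcases x with (x | x) | x <;> rfl
    rw [e1]
  refine ⟨φ.relabel (Sum.map (Sum.map id (Fin.castLE h)) id), (key e).2 h1, ?_⟩
  simpa only [key] using h2

end Pool.Agent.MP_fd2900_lc
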