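import Pool.Agent.Lib.MP_fd2900_lc.Cnt1

namespace Pool.Agent.MP_fd2900_lc

open Fr

private theorem cnt3_ugmono {d d' : ℕ} (h : d ≤ d') {ψ : Psi} (hu : UGψ d ψ) : UGψ d' ψ :=
  fun l hl a ha t ht h1 => lt_of_lt_of_le (hu l hl a ha t ht h1) h

/-- the lists of length `K` without repetition of elements of a set of size `K` -/
private theorem cnt3_lists {T : Type} (S : Set T) (hS : S.Finite) (K : ℕ) (hK : S.ncard = K) :
    {w : List T | w.length = K ∧ w.Nodup ∧ ∀ y ∈ w, y ∈ S}.encard = (K.factorial : ℕ∞) := by
  classical
  have hcard : hS.toFinset.card = K := by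
    rw [← hK, Set.ncard_eq_toFinset_card S hS]
  have key : {w : List T | w.length = K ∧ w.Nodup ∧ ∀ y ∈ w, y ∈ S} =
      ((hS.toFinset.toList.permutations.toFinset : Finset (List T)) : Set (List T)) := by
    ext w
    simp only [Set.mem_setOf_eq, List.coe_toFinset, List.mem_permutations]
    constructor
    · rintro ⟨h1, h2, h3⟩
      have hsub : w.toFinset ⊆ hS.toFinset := by
        intro y hy
        simp only [List.mem_toFinset] at hy
        simpa using h3 y hy
      have heq : w.toFinset = hS.toFinset := by
        apply Finset.eq_of_subset_of_card_le hsub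
        rw [hcard, List.toFinset_card_of_nodup h2, h1]
      apply (List.perm_ext_iff_of_nodup h2 (Finset.nodup_toList _)).2
      intro y
      rw [Finset.mem_toList, ← heq, List.mem_toFinset]
    · intro hp
      refine ⟨?_, ?_, ?_⟩
      · rw [hp.length_eq, Finset.length_toList, hcard]
      · exact hp.nodup_iff.2 (Finset.nodup_toList _)
      · intro y hy
        have := hp.mem_iff.1 hy
        rw [Finset.mem_toList] at this
        simpa using this
  rw [key, Set.encard_coe_eq_coe_finsetCard, List.toFinset_card_of_nodup
    (List.nodup_permutations _ (Finset.nodup_toList _)), List.length_permutations,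
    Finset.length_toList, hcard]

namespace Setup

variable (A : Setup)

/-- `psi r` has exactly the right number of solutions -/
theorem CExt.ok {r κ : ℕ} {s s' : NmN} (h : CExt r κ s s') (hs : A.Ok s) (hκ : κ = A.kapInf r) :
    A.Ok s' := by
  obtain ⟨hwf, ⟨d, hVd, hUd⟩, hex⟩ := hs
  rcases h with ⟨_, rfl⟩ | ⟨K, rfl, rfl⟩
  · refine ⟨?_, ⟨d, hVd, ?_⟩, ?_⟩
    · intro e he
      simp only [List.mem_append, List.mem_singleton] at he
      rcases he with he | rfl
      · exact hwf e he
      · constructor
        · intro h; simp at h
        · intro h; simp at h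
    · intro e he
      simp only [NmN.nm, List.mem_append, List.mem_singleton] at he
      rcases he with he | rfl
      · exact hUd e he
      · intro l hl
        simp [ψ0] at hl
    · have : A.sol (NmN.nm (s.1, s.2.1 ++ [(3, s.1, 0, [], ψ0)], s.2.2)) = A.sol s.nm := by
        ext v
        simp only [sol, NmN.nm, Sol, Set.mem_setOf_eq]
        constructor
        · rintro ⟨h1, h2⟩
          exact ⟨h1, fun e he => h2 e (List.mem_append_left _ he)⟩
        · rintro ⟨h1, h2⟩
          refine ⟨h1, fun e he => ?_⟩
          simp only [List.mem_append, List.mem_singleton] at he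
          rcases he with he | rfl
          · exact h2 e he
          · refine ⟨fun h => ?_, fun h => ?_, fun h => ?_⟩ <;> simp at h
      unfold Exact at hex ⊢
      rw [this]
      exact hex
  · have hfin : A.VN (nmψ r) ∧ {y | A.F.Sat2 A.b (psi r) y}.Finite := by
      by_contra hcon
      rw [kapInf, if_neg hcon] at hκ
      exact absurd hκ (Nat.succ_ne_zero K)
    have hnc : {y | A.F.Sat2 A.b (psi r) y}.ncard = K := by
      rw [kapInf, if_pos hfin] at hκ
      omega
    obtain ⟨⟨d', hVd', hUd'⟩, hfi⟩ := hfin
    have hψ : UGψ d' (psi r) := hUd' (2, 0, 1, [], psi r) (by simp [nmψ])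
    refine ⟨?_, ?_, ?_⟩
    · intro e he
      simp only [List.mem_append, List.mem_singleton] at he
      rcases he with he | rfl
      · obtain ⟨h1, h2⟩ := hwf e he
        exact ⟨fun h => by have := h1 h; simp only; omega, fun h => by have := h2 h; simp only; omega⟩
      · constructor
        · intro h; simp at h
        · intro _; exact le_rfl
    · rcases le_total d d' with hdd | hdd
      · refine ⟨d', hVd', ?_⟩
        intro e he
        simp only [NmN.nm, List.mem_append, List.mem_singleton] at he
        rcases he with he | rfl
        · exact cnt3_ugmono hdd (hUd e he)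
        · exact hψ
      · refine ⟨d, hVd, ?_⟩
        intro e he
        simp only [NmN.nm, List.mem_append, List.mem_singleton] at he
        rcases he with he | rfl
        · exact hUd e he
        · exact cnt3_ugmono hdd hψ
    · have hL := cnt3_lists {y | A.F.Sat2 A.b (psi r) y} hfi K hnc
      set L : Set (List A.M) := {w : List A.M | w.length = K ∧ w.Nodup ∧
        ∀ y ∈ w, y ∈ {y | A.F.Sat2 A.b (psi r) y}} with hLdef
      have hsol : A.sol (NmN.nm (s.1 + K, s.2.1 ++ [(2, s.1, K, [], psi r)], s.2.2 * K.factorial)) =
          (fun q : List A.M × List A.M => q.1 ++ q.2) '' (A.sol s.nm ×ˢ L) := by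
        ext v
        simp only [Set.mem_image, Set.mem_prod, Prod.exists]
        constructor
        · rintro ⟨h1, h2⟩
          simp only [NmN.nm] at h1 h2
          have hlt : (v.take s.1).length = s.1 := by rw [List.length_take]; omega
          have hvv : v.take s.1 ++ v.drop s.1 = v := List.take_append_drop _ _
          refine ⟨v.take s.1, v.drop s.1, ⟨⟨hlt, fun e he => ?_⟩, ?_⟩, hvv⟩
          · have := h2 e (List.mem_append_left _ he)
            rw [← hvv] at this
            exact (solE_append A.F A.b hwf he hlt).1 this
          · obtain ⟨_, _, h3⟩ := h2 (2, s.1, K, [], psi r) (by simp)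
            obtain ⟨h4, h5⟩ := h3 rfl
            have hdl : (v.drop s.1).length = K := by rw [List.length_drop]; omega
            have hdt : (v.drop s.1).take K = v.drop s.1 := by
              rw [← hdl]; exact List.take_length
            simp only at h4 h5
            rw [hdt] at h4 h5
            exact ⟨hdl, h4, h5⟩
        · rintro ⟨v1, w, ⟨⟨h1, h2⟩, h3, h4, h5⟩, rfl⟩
          simp only [NmN.nm] at h1 h2
          refine ⟨?_, fun e he => ?_⟩
          · simp only [NmN.nm, List.length_append]; omega
          · simp only [NmN.nm, List.mem_append, List.mem_singleton] at he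
            rcases he with he | rfl
            · exact (solE_append A.F A.b hwf he h1).2 (h2 e he)
            · refine ⟨fun h => by simp at h, fun h => by simp at h, fun _ => ?_⟩
              have hd : ((v1 ++ w).drop s.1).take K = w := by
                rw [← h1, List.drop_left, ← h3]; exact List.take_length
              simp only
              rw [hd]
              exact ⟨h4, h5⟩
      have hinj : Set.InjOn (fun q : List A.M × List A.M => q.1 ++ q.2) (A.sol s.nm ×ˢ L) := by
        rintro ⟨v1, w1⟩ ⟨hv1, hw1⟩ ⟨v2, w2⟩ ⟨hv2, hw2⟩ heq
        simp only at heq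
        have hl : v1.length = v2.length := hv1.1.trans hv2.1.symm
        obtain ⟨ha, hb⟩ := List.append_inj heq hl
        rw [ha, hb]
      unfold Exact at hex ⊢
      rw [hsol, hinj.encard_image, Set.encard_prod, hex, hL]
      push_cast
      rfl

end Setup

end Pool.Agent.MP_fd2900_lc
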