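import Pool.Agent.Lib.MP_fd2900_lc.SetupDefs

/-! counting: certain extensions preserve exactness -/

namespace Pool.Agent.MP_fd2900_lc

open Fr

theorem atL_iff_encard {T : Type} (k : ℕ) (P : T → Prop) : AtL k P ↔ (k : ℕ∞) ≤ {y | P y}.encard := by
  classical
  constructor
  · rintro ⟨Y, hY, hnd, hP⟩
    have h1 : ((Y.toFinset : Finset T) : Set T) ⊆ {y | P y} := by
      intro y hy
      exact hP y (by simpa using hy)
    have h2 := Set.encard_le_encard h1
    rw [Set.encard_coe_eq_coe_finsetCard, List.toFinset_card_of_nodup hnd, hY] at h2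
    exact h2
  · intro h
    obtain ⟨t, ht, hk⟩ := Set.exists_subset_encard_eq h
    have hfin : t.Finite := by
      apply Set.finite_of_encard_eq_coe hk
    refine ⟨hfin.toFinset.toList, ?_, Finset.nodup_toList _, ?_⟩
    · rw [Finset.length_toList]
      have h1 := hfin.encard_eq_coe_toFinset_card
      rw [hk] at h1
      exact_mod_cast h1.symm
    · intro y hy
      have h1 : y ∈ t := by simpa using hy
      exact ht h1

theorem exa_iff_encard {T : Type} (k : ℕ) (P : T → Prop) : Exa k P ↔ {y | P y}.encard = (k : ℕ∞) := by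
  unfold Exa
  rw [atL_iff_encard, atL_iff_encard, not_le]
  push_cast
  constructor
  · rintro ⟨h1, h2⟩
    exact le_antisymm (Order.le_of_lt_add_one h2) h1
  · intro h
    rw [h]
    exact ⟨le_rfl, by exact_mod_cast Nat.lt_succ_self k⟩

theorem le_iff_encard {M : Type} (F : Fr M) (g : ℕ → M) (p : Nm) (x : Ext) (k : ℕ) :
    F.Le g p x k ↔ {v | F.Sol g p v ∧ F.ExtP v x}.encard ≤ (k : ℕ∞) := by
  unfold Fr.Le Fr.Ge
  rw [atL_iff_encard, not_le]
  push_cast
  constructor
  · intro h
    exact Order.le_of_lt_add_one h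
  · intro h
    exact lt_of_le_of_lt h (by exact_mod_cast Nat.lt_succ_self k)

/-- entries only look at the first `n` variables -/
theorem solE_append {M : Type} (F : Fr M) (g : ℕ → M) {n : ℕ} {es : List Ent} (hw : WF n es) {e : Ent}
    (he : e ∈ es) {v w : List M} (hv : v.length = n) : F.SolE g (v ++ w) e ↔ F.SolE g v e := by
  obtain ⟨h01, h2⟩ := hw e he
  have ht : ∀ m, m ≤ n → (v ++ w).take m = v.take m := by
    intro m hm
    exact List.take_append_of_le_length (by omega)
  unfold Fr.SolE
  refine and_congr ?_ (and_congr ?_ ?_)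
  · refine imp_congr_right fun h0 => ?_
    have h := h01 (Or.inl h0)
    rw [ht _ h, List.getD_append _ _ _ _ (by omega)]
  · refine imp_congr_right fun h1 => ?_
    have h := h01 (Or.inr h1)
    rw [ht _ h, ht _ (by omega)]
  · refine imp_congr_right fun h3 => ?_
    have h := h2 h3
    have h4 : ((v ++ w).drop e.2.1).take e.2.2.1 = (v.drop e.2.1).take e.2.2.1 := by
      rw [List.drop_append_of_le_length (by omega), List.take_append_of_le_length (by
        rw [List.length_drop]; omega)]
    rw [h4]

namespace Setup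

variable (A : Setup)

/-- a name in which all is fine -/
def Ok (s : NmN) : Prop := WF s.1 s.2.1 ∧ A.VN s.nm ∧ A.Exact s

theorem ok_base : A.Ok base := by
  refine ⟨?_, ⟨0, A.V0, ?_⟩, ?_⟩
  · intro e he
    simp [base] at he
  · intro e he
    simp [base, NmN.nm] at he
  · unfold Exact sol
    have h : {v | A.F.Sol A.b base.nm v} = {([] : List A.M)} := by
      ext v
      simp [base, NmN.nm, Fr.Sol]
    rw [h, Set.encard_singleton]
    rfl

end Setup

end Pool.Agent.MP_fd2900_lc
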