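import Pool.Agent.Lib.MP_fd2900_lc.Cnt1

namespace Pool.Agent.MP_fd2900_lc

open Fr

namespace Setup

variable (A : Setup)

private theorem cnt2_extP_x0 {M : Type} (F : Fr M) (v : List M) : F.ExtP v x0 := by
  refine ⟨?_, ?_, ?_⟩ <;> intro h <;> simp [x0] at h

/-- the upper bound -/
private theorem cnt2_upper {p : Nm} {k : ℕ} (h : A.le p x0 k) : (A.sol p).encard ≤ (k : ℕ∞) := by
  have h1 := (le_iff_encard A.F A.b p x0 k).1 h.2
  have h2 : {v | A.F.Sol A.b p v ∧ A.F.ExtP v x0} = A.sol p := by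
    ext v
    exact ⟨fun h => h.1, fun h => ⟨h, cnt2_extP_x0 A.F v⟩⟩
  rwa [h2] at h1

/-- the complement bound -/
private theorem cnt2_split {T : Type} {S : Set T} {P : T → Prop} {N N' N'' : ℕ}
    (hS : S.encard = (N : ℕ∞)) (hN : N' + N'' = N)
    (h : {v | v ∈ S ∧ ¬ P v}.encard ≤ (N'' : ℕ∞)) : (N' : ℕ∞) ≤ {v | v ∈ S ∧ P v}.encard := by
  by_contra hc
  have hc' := not_le.1 hc
  have h1 : S ⊆ {v | v ∈ S ∧ P v} ∪ {v | v ∈ S ∧ ¬ P v} := by
    intro v hv
    by_cases hP : P v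
    · exact Or.inl ⟨hv, hP⟩
    · exact Or.inr ⟨hv, hP⟩
  have h2 : (N : ℕ∞) ≤ {v | v ∈ S ∧ P v}.encard + {v | v ∈ S ∧ ¬ P v}.encard := by
    rw [← hS]
    exact (Set.encard_le_encard h1).trans (Set.encard_union_le _ _)
  have h3 : ∃ m : ℕ, {v | v ∈ S ∧ P v}.encard = (m : ℕ∞) :=
    ENat.ne_top_iff_exists.1 (ne_top_of_lt hc') |>.imp fun m hm => hm.symm
  obtain ⟨m, hm⟩ := h3
  have h4 : ∃ k : ℕ, {v | v ∈ S ∧ ¬ P v}.encard = (k : ℕ∞) :=
    ENat.ne_top_iff_exists.1 (ne_top_of_le_ne_top (ENat.natCast_ne_top N'') h) |>.imp fun k hk => hk.symm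
  obtain ⟨k, hk⟩ := h4
  rw [hm] at hc' h2
  rw [hk] at h h2
  have a1 : m < N' := by exact_mod_cast hc'
  have a2 : k ≤ N'' := by exact_mod_cast h
  have a3 : N ≤ m + k := by exact_mod_cast h2
  omega

private theorem cnt2_wf {n : ℕ} {es : List Ent} {e : Ent} (h : WF n es)
    (he : (e.1 = 0 ∨ e.1 = 1) ∧ e.2.1 = n) : WF (n + 1) (es ++ [e]) := by
  intro e' he'
  rcases List.mem_append.1 he' with h1 | h1
  · obtain ⟨h2, h3⟩ := h e' h1
    exact ⟨fun h => (h2 h).trans (Nat.le_succ n), fun h => (h3 h).trans (Nat.le_succ n)⟩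
  · have h2 : e' = e := by simpa using h1
    subst h2
    refine ⟨fun _ => by omega, fun h => ?_⟩
    rcases he.1 with h4 | h4 <;> omega

private theorem cnt2_sol_app {n : ℕ} {es : List Ent} (hw : WF n es) {e : Ent} {v : List A.M}
    (hv : A.F.Sol A.b (n, es) v) {y : A.M} (he : A.F.SolE A.b (v ++ [y]) e) :
    A.F.Sol A.b (n + 1, es ++ [e]) (v ++ [y]) := by
  refine ⟨by simp [hv.1], ?_⟩
  intro e' he'
  rcases List.mem_append.1 he' with h1 | h1
  · exact (solE_append A.F A.b hw h1 hv.1).2 (hv.2 e' h1)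
  · have h2 : e' = e := by simpa using h1
    subst h2
    exact he

theorem HExt.ok {δ : List Lit} {s s' : NmN} (h : A.HExt δ s s') (hs : A.Ok s) : A.Ok s' := by
  obtain ⟨hw, hV, hE⟩ := hs
  obtain ⟨n, es, N⟩ := s
  obtain ⟨a, N', h | h⟩ := h
  · obtain ⟨hN', rfl, N'', hN, hle, hle'⟩ := h
    have hN2 : N' + N'' = N := hN
    refine ⟨cnt2_wf (n := n) hw ⟨Or.inl rfl, rfl⟩, hle.1, ?_⟩
    refine le_antisymm (cnt2_upper A hle) ?_
    have h1 := (le_iff_encard A.F A.b _ _ _).1 hle'.2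
    have h2 : (N' : ℕ∞) ≤ {v | v ∈ A.sol (n, es) ∧ A.F.Ex1 A.F.g0 (v ++ [A.F.j a]) δ}.encard := by
      refine cnt2_split (N'' := N'') (hE : (A.sol (n, es)).encard = (N : ℕ∞)) hN2 ?_
      refine le_trans (Set.encard_le_encard ?_) h1
      rintro v ⟨hv, hv2⟩
      refine ⟨hv, fun h => ?_, fun _ => hv2, fun h => ?_⟩
      · exact absurd h (by norm_num)
      · exact absurd h (by norm_num)
    refine h2.trans ?_
    have hinj : Set.InjOn (fun v : List A.M => v ++ [A.F.j a])
        {v | v ∈ A.sol (n, es) ∧ A.F.Ex1 A.F.g0 (v ++ [A.F.j a]) δ} := by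
      intro v _ w _ hvw
      exact (List.append_inj_left' hvw rfl)
    rw [← hinj.encard_image]
    refine Set.encard_le_encard ?_
    rintro _ ⟨v, ⟨hv, hv2⟩, rfl⟩
    have hlen : v.length = n := hv.1
    refine cnt2_sol_app A hw hv ⟨fun _ => ⟨?_, ?_⟩, fun h => ?_, fun h => ?_⟩
    · simp only
      rw [← hlen, List.getD_append_right _ _ _ _ le_rfl]
      simp
    · simp only
      rw [List.take_of_length_le (by simp [hlen])]
      exact hv2
    · exact absurd h (by norm_num)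
    · exact absurd h (by norm_num)
  · obtain ⟨hN', ha, rfl, N'', hN, hle, hle'⟩ := h
    have hN2 : N' + N'' = N := hN
    refine ⟨cnt2_wf (n := n) hw ⟨Or.inr rfl, rfl⟩, hle.1, ?_⟩
    refine le_antisymm (cnt2_upper A hle) ?_
    have h1 := (le_iff_encard A.F A.b _ _ _).1 hle'.2
    have h2 : (N' : ℕ∞) ≤ {v | v ∈ A.sol (n, es) ∧
        Exa a (fun y => A.F.Ex1 A.F.g0 (v ++ [y]) δ)}.encard := by
      refine cnt2_split (N'' := N'') (hE : (A.sol (n, es)).encard = (N : ℕ∞)) hN2 ?_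
      refine le_trans (Set.encard_le_encard ?_) h1
      rintro v ⟨hv, hv2⟩
      refine ⟨hv, fun h => ?_, fun h => ?_, fun _ => hv2⟩
      · exact absurd h (by norm_num)
      · exact absurd h (by norm_num)
    obtain ⟨G, hG, hGc⟩ := Set.exists_subset_encard_eq h2
    have hGf : G.Finite := Set.finite_of_encard_eq_coe hGc
    have hY : ∀ v ∈ G, {y | A.F.Ex1 A.F.g0 (v ++ [y]) δ}.encard = (a : ℕ∞) := fun v hv =>
      (exa_iff_encard a _).1 (hG hv).2
    have hYf : ∀ v ∈ G, {y | A.F.Ex1 A.F.g0 (v ++ [y]) δ}.Finite := fun v hv =>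
      Set.finite_of_encard_eq_coe (hY v hv)
    classical
    let Y : List A.M → Finset A.M := fun v =>
      if h : {y | A.F.Ex1 A.F.g0 (v ++ [y]) δ}.Finite then h.toFinset else ∅
    have hYm : ∀ v ∈ G, ∀ y, y ∈ Y v ↔ A.F.Ex1 A.F.g0 (v ++ [y]) δ := by
      intro v hv y
      simp only [Y, dif_pos (hYf v hv), Set.Finite.mem_toFinset, Set.mem_ofPred_eq]
    have hYc : ∀ v ∈ G, (Y v).card = a := by
      intro v hv
      have h3 := hY v hv
      have h4 : ((Y v).card : ℕ∞) = (a : ℕ∞) := by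
        rw [← h3]
        simp only [Y, dif_pos (hYf v hv)]
        exact ((hYf v hv).encard_eq_coe_toFinset_card).symm
      exact_mod_cast h4
    have hGcard : hGf.toFinset.card = N' := by
      have h3 := hGf.encard_eq_coe_toFinset_card
      rw [hGc] at h3
      exact_mod_cast h3.symm
    have hS : ((hGf.toFinset.sigma Y).image (fun x => x.1 ++ [x.2])).card = a * N' := by
      rw [Finset.card_image_of_injective, Finset.card_sigma, Finset.sum_congr rfl
        (fun v hv => hYc v (hGf.mem_toFinset.1 hv)), Finset.sum_const, hGcard, smul_eq_mul, mul_comm]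
      rintro ⟨v, y⟩ ⟨w, z⟩ hvw
      simp only at hvw
      have h3 := List.append_inj_left' hvw rfl
      have h4 := List.append_inj_right' hvw rfl
      simp only [List.cons.injEq, and_true] at h4
      subst h3 h4
      rfl
    have h3 : ((((hGf.toFinset.sigma Y).image (fun x => x.1 ++ [x.2])) : Finset (List A.M)) :
        Set (List A.M)).encard = ((a * N' : ℕ) : ℕ∞) := by
      rw [Set.encard_coe_eq_coe_finsetCard, hS]
    change ((a * N' : ℕ) : ℕ∞) ≤ _
    rw [← h3]
    refine Set.encard_le_encard ?_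
    intro x hx
    simp only [Finset.coe_image, Set.mem_image, Finset.mem_coe, Finset.mem_sigma] at hx
    obtain ⟨⟨v, y⟩, ⟨hv, hy⟩, rfl⟩ := hx
    simp only at hv hy ⊢
    have hvG := hGf.mem_toFinset.1 hv
    have hv1 : A.F.Sol A.b (n, es) v := (hG hvG).1
    have hv2 := (hG hvG).2
    have hlen : v.length = n := hv1.1
    have hy' := (hYm v hvG y).1 hy
    refine cnt2_sol_app A hw hv1 ⟨fun h => ?_, fun _ => ⟨?_, ?_⟩, fun h => ?_⟩
    · exact absurd h (by norm_num)
    · simp only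
      rw [List.take_append_of_le_length (by omega), List.take_of_length_le (by omega)]
      exact hv2
    · simp only
      rw [List.take_of_length_le (by simp [hlen])]
      exact hy'
    · exact absurd h (by norm_num)

end Setup

end Pool.Agent.MP_fd2900_lc
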