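import Pool.Agent.Lib.MP_fd2900_lc.SigB

/-! complexity of the predicates in a computable structure `F` on `ℕ` -/

namespace Pool.Agent.MP_fd2900_lc

open Fr

variable {F : Fr ℕ}

/-- lists as valuations of the generics -/
def gl (F : Fr ℕ) (l : List ℕ) : ℕ → ℕ := fun i => l.getD i (F.j 0)

theorem gl_nil (F : Fr ℕ) : gl F [] = F.g0 := by
  funext i; simp [gl, Fr.g0]

section CompAaux

variable {α β γ : Type} [Primcodable α] [Primcodable β] [Primcodable γ]

/-- mapping a computable function over a list is computable -/
private theorem compA_map {f : α → β → γ} (hf : Computable₂ f) :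
    Computable (fun q : α × List β => q.2.map (f q.1)) := by
  have h : Computable (fun q : α × List β => Nat.rec (motive := fun _ => List γ) []
      (fun n acc => acc ++ ((q.2[n]?).map (f q.1)).toList) q.2.length) := by
    refine Computable.nat_rec (f := fun q : α × List β => q.2.length) (g := fun _ => ([] : List γ))
      (h := fun (q : α × List β) (p : ℕ × List γ) => p.2 ++ ((q.2[p.1]?).map (f q.1)).toList)
      (Computable.list_length.comp Computable.snd) (Computable.const _) ?_
    have ho : Computable (fun x : (α × List β) × (ℕ × List γ) => (x.1.2[x.2.1]?).map (f x.1.1)) := by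
      refine Computable.option_map (Computable.list_getElem?.comp
        (Computable.snd.comp Computable.fst) (Computable.fst.comp Computable.snd)) ?_
      exact (hf.comp (Computable.fst.comp (Computable.fst.comp Computable.fst)) Computable.snd).to₂
    have ht : Computable (fun o : Option γ => o.toList) := by
      have : Computable (fun o : Option γ =>
          Option.casesOn (motive := fun _ => List γ) o [] (fun c => [c])) := by
        refine Computable.option_casesOn Computable.id (Computable.const _) ?_
        exact (Computable.list_cons.comp Computable.snd (Computable.const _)).to₂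
      exact this.of_eq fun o => by cases o <;> rfl
    exact (Computable.list_append.comp (Computable.snd.comp Computable.snd) (ht.comp ho)).to₂
  refine h.of_eq fun q => ?_
  have key : ∀ (l : List β) (k : ℕ), k ≤ l.length → (Nat.rec (motive := fun _ => List γ) []
      (fun n acc => acc ++ ((l[n]?).map (f q.1)).toList) k : List γ) = (l.take k).map (f q.1) := by
    intro l k
    induction k with
    | zero => intro _; simp
    | succ k ih =>
      intro hk
      have h1 := ih (by omega)
      have hk' : k < l.length := by omega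
      simp only [h1]
      rw [List.take_add_one, List.map_append, List.getElem?_eq_getElem hk']
      simp
  have := key q.2 q.2.length le_rfl
  rw [List.take_length] at this
  exact this

private theorem compA_and {P Q : α → Prop} (hP : ComputablePred P) (hQ : ComputablePred Q) :
    ComputablePred (fun a => P a ∧ Q a) :=
  Sig.and (n := 0) hP hQ

private theorem compA_or {P Q : α → Prop} (hP : ComputablePred P) (hQ : ComputablePred Q) :
    ComputablePred (fun a => P a ∨ Q a) :=
  Sig.or (n := 0) hP hQ

private theorem compA_eq {f g : α → ℕ} (hf : Computable f) (hg : Computable g) :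
    ComputablePred (fun a => f a = g a) := by
  have h : ComputablePred (fun q : ℕ × ℕ => q.1 = q.2) := by
    have : PrimrecPred (fun q : ℕ × ℕ => q.1 = q.2) := Primrec.eq
    exact this.computablePred
  exact Sig.comp (n := 0) h (hf.pair hg)

end CompAaux

private theorem compA_ev (hj : Computable F.j) :
    Computable₂ (fun (q : List ℕ × List ℕ) (t : Tm) => F.ev (gl F q.1) q.2 t) := by
  have hget : Computable₂ (fun (l : List ℕ) (n : ℕ) => l.getD n (F.j 0)) :=
    (Primrec.list_getD (F.j 0)).to_comp
  have h1 : Computable (fun x : (List ℕ × List ℕ) × Tm => (decide (x.2.1 = 0) : Bool)) :=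
    (compA_eq (Computable.fst.comp Computable.snd) (Computable.const 0)).decide
  have h2 : Computable (fun x : (List ℕ × List ℕ) × Tm => (decide (x.2.1 = 1) : Bool)) :=
    (compA_eq (Computable.fst.comp Computable.snd) (Computable.const 1)).decide
  have h3 : Computable (fun x : (List ℕ × List ℕ) × Tm => F.j x.2.2) :=
    hj.comp (Computable.snd.comp Computable.snd)
  have h4 : Computable (fun x : (List ℕ × List ℕ) × Tm => x.1.1.getD x.2.2 (F.j 0)) :=
    hget.comp (Computable.fst.comp Computable.fst) (Computable.snd.comp Computable.snd)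
  have h5 : Computable (fun x : (List ℕ × List ℕ) × Tm => x.1.2.getD x.2.2 (F.j 0)) :=
    hget.comp (Computable.snd.comp Computable.fst) (Computable.snd.comp Computable.snd)
  refine (Computable.cond h1 h3 (Computable.cond h2 h4 h5)).of_eq fun x => ?_
  rcases x with ⟨⟨g, v⟩, t⟩
  by_cases ht0 : t.1 = 0
  · simp [Fr.ev, ht0]
  · by_cases ht1 : t.1 = 1
    · simp [Fr.ev, ht1, gl]
    · simp [Fr.ev, ht0, ht1]

private theorem compA_relE (hR : ComputablePred fun q : ℕ × List ℕ => F.Rel q.1 q.2) :
    ComputablePred (fun q : ℕ × List ℕ => F.RelE q.1 q.2) := by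
  have hget : Computable₂ (fun (l : List ℕ) (n : ℕ) => l.getD n 0) :=
    (Primrec.list_getD 0).to_comp
  have a1 : ComputablePred (fun q : ℕ × List ℕ => q.1 = 0) :=
    compA_eq Computable.fst (Computable.const 0)
  have a2 : ComputablePred (fun q : ℕ × List ℕ => q.2.length = 2) :=
    compA_eq (Computable.list_length.comp Computable.snd) (Computable.const 2)
  have a3 : ComputablePred (fun q : ℕ × List ℕ => q.2.getD 0 0 = q.2.getD 1 0) :=
    compA_eq (hget.comp Computable.snd (Computable.const 0))
      (hget.comp Computable.snd (Computable.const 1))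
  have hp : Computable (fun q : ℕ × List ℕ => ((q.1 - 1, q.2) : ℕ × List ℕ)) :=
    (Computable.pred.comp Computable.fst).pair Computable.snd
  have a4 : ComputablePred (fun q : ℕ × List ℕ => F.Rel (q.1 - 1) q.2) :=
    Sig.comp (n := 0) hR hp
  refine (compA_or (compA_and a1 (compA_and a2 a3)) (compA_and a1.not a4)).of_eq fun q => ?_
  rcases q with ⟨i, l⟩
  unfold Fr.RelE
  refine or_congr (and_congr_right fun _ => ?_) Iff.rfl
  constructor
  · rintro ⟨h1, h2⟩
    obtain ⟨x, y, rfl⟩ := List.length_eq_two.1 h1
    have hxy : x = y := by simpa using h2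
    exact ⟨x, by rw [← hxy]⟩
  · rintro ⟨x, hx⟩
    have hx' : l = [x, x] := hx
    subst hx'
    simp

theorem comp_hold (hR : ComputablePred fun q : ℕ × List ℕ => F.Rel q.1 q.2) (hj : Computable F.j) :
    ComputablePred (fun q : (List ℕ × List ℕ) × Lit => F.hold (gl F q.1.1) q.1.2 q.2) := by
  have hm : Computable (fun q : (List ℕ × List ℕ) × Lit =>
      (q.2.2.2.map (F.ev (gl F q.1.1) q.1.2) : List ℕ)) := by
    have h1 : Computable (fun x : (List ℕ × List ℕ) × List Tm =>
        (x.2.map (F.ev (gl F x.1.1) x.1.2) : List ℕ)) := compA_map (compA_ev (F := F) hj)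
    have h2 : Computable (fun q : (List ℕ × List ℕ) × Lit =>
        ((q.1, q.2.2.2) : (List ℕ × List ℕ) × List Tm)) :=
      Computable.fst.pair (Computable.snd.comp (Computable.snd.comp Computable.snd))
    have h3 := Computable.comp h1 h2
    exact h3
  have hr : ComputablePred (fun q : (List ℕ × List ℕ) × Lit =>
      F.RelE q.2.2.1 (q.2.2.2.map (F.ev (gl F q.1.1) q.1.2))) :=
    Sig.comp (n := 0) (compA_relE hR)
      ((Computable.fst.comp (Computable.snd.comp Computable.snd)).pair hm)
  have hs : ComputablePred (fun q : (List ℕ × List ℕ) × Lit => q.2.1 = true) := by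
    refine ⟨inferInstance, ?_⟩
    refine (Computable.fst.comp Computable.snd).of_eq fun q => ?_
    simp
  refine (compA_or (compA_and hr hs) (compA_and hr.not hs.not)).of_eq fun q => ?_
  exact iff_iff_and_or_not_and_not.symm

theorem comp_holds (hR : ComputablePred fun q : ℕ × List ℕ => F.Rel q.1 q.2) (hj : Computable F.j) :
    ComputablePred (fun q : (List ℕ × List ℕ) × List Lit => F.Holds (gl F q.1.1) q.1.2 q.2) := by
  have h : Sig 0 (fun q : ((List ℕ × List ℕ) × List Lit) × Lit =>
      F.hold (gl F q.1.1.1) q.1.1.2 q.2) :=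
    Sig.comp (n := 0) (comp_hold hR hj)
      (f := fun q : ((List ℕ × List ℕ) × List Lit) × Lit => (q.1.1, q.2))
      ((Computable.fst.comp Computable.fst).pair Computable.snd)
  exact Sig.ball_mem (n := 0) h (f := fun q : (List ℕ × List ℕ) × List Lit => q.2) Computable.snd

theorem sig_ex1 (hR : ComputablePred fun q : ℕ × List ℕ => F.Rel q.1 q.2) (hj : Computable F.j) :
    Sig 1 (fun q : (List ℕ × List ℕ) × List Lit => F.Ex1 (gl F q.1.1) q.1.2 q.2) := by
  have h : Sig 1 (fun q : ((List ℕ × List ℕ) × List Lit) × List ℕ =>
      F.Holds (gl F q.1.1.1) (q.1.1.2 ++ q.2) q.1.2) := by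
    refine Sig.of_comp ?_
    refine Sig.comp (n := 0) (comp_holds hR hj)
      (f := fun q : ((List ℕ × List ℕ) × List Lit) × List ℕ => ((q.1.1.1, q.1.1.2 ++ q.2), q.1.2)) ?_
    exact ((Computable.fst.comp (Computable.fst.comp Computable.fst)).pair
      (Computable.list_append.comp (Computable.snd.comp (Computable.fst.comp Computable.fst))
        Computable.snd)).pair (Computable.snd.comp Computable.fst)
  exact Sig.ex h

theorem sig_sat2 (hR : ComputablePred fun q : ℕ × List ℕ => F.Rel q.1 q.2) (hj : Computable F.j) :
    Sig 2 (fun q : List ℕ × Psi × ℕ => F.Sat2 (gl F q.1) q.2.1 q.2.2) := by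
  have h1 : Sig 2 (fun q : ((List ℕ × Psi × ℕ) × List ℕ) × List Lit =>
      ¬ F.Ex1 (gl F q.1.1.1) (q.1.1.2.2 :: q.1.2) q.2) := by
    refine Sig.not_up ?_
    refine Sig.comp (sig_ex1 hR hj) (f := fun q : ((List ℕ × Psi × ℕ) × List ℕ) × List Lit =>
      ((q.1.1.1, q.1.1.2.2 :: q.1.2), q.2)) ?_
    exact ((Computable.fst.comp (Computable.fst.comp Computable.fst)).pair
      (Computable.list_cons.comp (Computable.snd.comp (Computable.snd.comp (Computable.fst.comp
        Computable.fst))) (Computable.snd.comp Computable.fst))).pair Computable.snd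
  have h2 : Sig 2 (fun q : (List ℕ × Psi × ℕ) × List ℕ =>
      ∀ l ∈ q.1.2.1.2, ¬ F.Ex1 (gl F q.1.1) (q.1.2.2 :: q.2) l) :=
    Sig.ball_mem h1 (f := fun q : (List ℕ × Psi × ℕ) × List ℕ => q.1.2.1.2)
      (Computable.snd.comp (Computable.fst.comp (Computable.snd.comp Computable.fst)))
  have h3 : Sig 2 (fun q : (List ℕ × Psi × ℕ) × List ℕ => q.2.length = q.1.2.1.1) :=
    Sig.of_comp (compA_eq (Computable.list_length.comp Computable.snd)
      (Computable.fst.comp (Computable.fst.comp (Computable.snd.comp Computable.fst))))
  exact Sig.ex (h3.and h2)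

end Pool.Agent.MP_fd2900_lc
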