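import Pool.Agent.Lib.MP_fd2900_lc.CompA

/-! complexity of the counting predicates in a computable structure `F` on `ℕ` -/

namespace Pool.Agent.MP_fd2900_lc

open Fr

variable {F : Fr ℕ}

section CompBaux

variable {α β : Type} [Primcodable α] [Primcodable β]

private theorem compB_imp {n : ℕ} {c P : α → Prop} (hc : ComputablePred c) (hP : Sig n P) :
    Sig n (fun a => c a → P a) :=
  (Sig.or (Sig.of_comp hc.not) hP).of_eq fun _ => imp_iff_not_or.symm

private theorem compB_eq {f g : α → ℕ} (hf : Computable f) (hg : Computable g) :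
    ComputablePred (fun a => f a = g a) := by
  have h : ComputablePred (fun q : ℕ × ℕ => q.1 = q.2) := by
    have : PrimrecPred (fun q : ℕ × ℕ => q.1 = q.2) := Primrec.eq
    exact this.computablePred
  exact Sig.comp (n := 0) h (hf.pair hg)

private theorem compB_eqO {f g : α → Option ℕ} (hf : Computable f) (hg : Computable g) :
    ComputablePred (fun a => f a = g a) := by
  have h : ComputablePred (fun q : Option ℕ × Option ℕ => q.1 = q.2) := by
    have : PrimrecPred (fun q : Option ℕ × Option ℕ => q.1 = q.2) := Primrec.eq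
    exact this.computablePred
  exact Sig.comp (n := 0) h (hf.pair hg)

private theorem compB_nodup : ComputablePred (fun l : List ℕ => l.Nodup) := by
  have h0 : Sig 0 (fun p : (List ℕ × ℕ) × ℕ => p.1.2 = p.2 ∨ ¬ p.1.1[p.1.2]? = p.1.1[p.2]?) := by
    refine Sig.or (n := 0) (compB_eq (Computable.snd.comp Computable.fst) Computable.snd) ?_
    refine ComputablePred.not (compB_eqO ?_ ?_)
    · exact Computable.list_getElem?.comp (Computable.fst.comp Computable.fst)
        (Computable.snd.comp Computable.fst)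
    · exact Computable.list_getElem?.comp (Computable.fst.comp Computable.fst) Computable.snd
  have h1 : Sig 0 (fun p : List ℕ × ℕ => ∀ j < p.1.length, p.2 = j ∨ ¬ p.1[p.2]? = p.1[j]?) :=
    Sig.ball_lt (n := 0) h0 (Computable.list_length.comp Computable.fst)
  have h2 : Sig 0 (fun l : List ℕ => ∀ i < l.length, ∀ j < l.length, i = j ∨ ¬ l[i]? = l[j]?) :=
    Sig.ball_lt (n := 0) h1 Computable.list_length
  refine Sig.of_eq (n := 0) h2 fun l => ?_
  constructor
  · intro h
    rw [List.nodup_iff_injective_get]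
    intro i j hij
    rcases h i i.2 j j.2 with h' | h'
    · exact Fin.ext h'
    · exfalso
      apply h'
      have : l[(i : ℕ)] = l[(j : ℕ)] := by simpa using hij
      simp [this]
  · intro h i hi j hj
    by_cases hij : i = j
    · exact Or.inl hij
    · right
      intro h'
      apply hij
      rw [List.getElem?_eq_getElem hi, List.getElem?_eq_getElem hj] at h'
      exact (List.Nodup.getElem_inj_iff h).1 (Option.some.inj h')

private theorem compB_take {f : α → List ℕ} {g : α → ℕ} (hf : Computable f) (hg : Computable g) :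
    Computable (fun a => (f a).take (g a)) :=
  (Primrec.list_take (α := ℕ)).to_comp.comp hg hf

private theorem compB_drop {f : α → List ℕ} {g : α → ℕ} (hf : Computable f) (hg : Computable g) :
    Computable (fun a => (f a).drop (g a)) :=
  (Primrec.list_drop (α := ℕ)).to_comp.comp hg hf

private theorem compB_ex1 (hR : ComputablePred fun q : ℕ × List ℕ => F.Rel q.1 q.2)
    (hj : Computable F.j) {v : α → List ℕ} {δ : α → List Lit} (hv : Computable v)
    (hδ : Computable δ) : Sig 1 (fun a => F.Ex1 F.g0 (v a) (δ a)) := by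
  have h := Sig.comp (n := 1) (sig_ex1 (F := F) hR hj)
    (f := fun a : α => ((([] : List ℕ), v a), δ a)) (((Computable.const []).pair hv).pair hδ)
  refine h.of_eq fun a => ?_
  simp only [gl_nil]

private theorem compB_atL (hR : ComputablePred fun q : ℕ × List ℕ => F.Rel q.1 q.2)
    (hj : Computable F.j) {v : α → List ℕ} {δ : α → List Lit} {k : α → ℕ} (hv : Computable v)
    (hδ : Computable δ) (hk : Computable k) :
    Sig 1 (fun a => AtL (k a) (fun y => F.Ex1 F.g0 (v a ++ [y]) (δ a))) := by
  have h0 : Sig 1 (fun p : α × ℕ => F.Ex1 F.g0 (v p.1 ++ [p.2]) (δ p.1)) := by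
    refine compB_ex1 hR hj ?_ (hδ.comp Computable.fst)
    exact Computable.list_append.comp (hv.comp Computable.fst)
      (Computable.list_cons.comp Computable.snd (Computable.const []))
  have h1 := Sig.atL (n := 0) h0
  exact Sig.comp (n := 1) h1 (Computable.id.pair hk)

private theorem compB_exa (hR : ComputablePred fun q : ℕ × List ℕ => F.Rel q.1 q.2)
    (hj : Computable F.j) {v : α → List ℕ} {δ : α → List Lit} {k : α → ℕ} (hv : Computable v)
    (hδ : Computable δ) (hk : Computable k) :
    Sig 2 (fun a => Exa (k a) (fun y => F.Ex1 F.g0 (v a ++ [y]) (δ a))) :=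
  Sig.and (compB_atL hR hj hv hδ hk).up
    (compB_atL hR hj hv hδ (Computable.succ.comp hk)).not_up

private theorem compB_nexa (hR : ComputablePred fun q : ℕ × List ℕ => F.Rel q.1 q.2)
    (hj : Computable F.j) {v : α → List ℕ} {δ : α → List Lit} {k : α → ℕ} (hv : Computable v)
    (hδ : Computable δ) (hk : Computable k) :
    Sig 2 (fun a => ¬ Exa (k a) (fun y => F.Ex1 F.g0 (v a ++ [y]) (δ a))) := by
  refine (Sig.or (compB_atL hR hj hv hδ hk).not_up
    (compB_atL hR hj hv hδ (Computable.succ.comp hk)).up).of_eq fun a => ?_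
  unfold Exa
  rw [not_and_or, not_not]

end CompBaux

theorem sig_solE (hR : ComputablePred fun q : ℕ × List ℕ => F.Rel q.1 q.2) (hj : Computable F.j) :
    Sig 2 (fun q : List ℕ × List ℕ × Ent => F.SolE (gl F q.1) q.2.1 q.2.2) := by
  have hget : Computable₂ (fun (l : List ℕ) (n : ℕ) => l.getD n (F.j 0)) :=
    (Primrec.list_getD (F.j 0)).to_comp
  have cv : Computable (fun q : List ℕ × List ℕ × Ent => q.2.1) := Computable.fst.comp Computable.snd
  have ce : Computable (fun q : List ℕ × List ℕ × Ent => q.2.2) := Computable.snd.comp Computable.snd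
  have ck : Computable (fun q : List ℕ × List ℕ × Ent => q.2.2.1) := Computable.fst.comp ce
  have ce2 : Computable (fun q : List ℕ × List ℕ × Ent => q.2.2.2) := Computable.snd.comp ce
  have cm : Computable (fun q : List ℕ × List ℕ × Ent => q.2.2.2.1) := Computable.fst.comp ce2
  have ce3 : Computable (fun q : List ℕ × List ℕ × Ent => q.2.2.2.2) := Computable.snd.comp ce2
  have ca : Computable (fun q : List ℕ × List ℕ × Ent => q.2.2.2.2.1) := Computable.fst.comp ce3
  have ce4 : Computable (fun q : List ℕ × List ℕ × Ent => q.2.2.2.2.2) := Computable.snd.comp ce3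
  have cδ : Computable (fun q : List ℕ × List ℕ × Ent => q.2.2.2.2.2.1) := Computable.fst.comp ce4
  have cψ : Computable (fun q : List ℕ × List ℕ × Ent => q.2.2.2.2.2.2) := Computable.snd.comp ce4
  have cm1 : Computable (fun q : List ℕ × List ℕ × Ent => q.2.2.2.1 + 1) := Computable.succ.comp cm
  have ctk : Computable (fun q : List ℕ × List ℕ × Ent => q.2.1.take (q.2.2.2.1 + 1)) :=
    compB_take cv cm1
  have hE : Sig 2 (fun q : List ℕ × List ℕ × Ent =>
      F.Ex1 F.g0 (q.2.1.take (q.2.2.2.1 + 1)) q.2.2.2.2.2.1) := (compB_ex1 hR hj ctk cδ).up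
  have hA : Sig 2 (fun q : List ℕ × List ℕ × Ent => q.2.1.getD q.2.2.2.1 (F.j 0) = F.j q.2.2.2.2.1 ∧
      F.Ex1 F.g0 (q.2.1.take (q.2.2.2.1 + 1)) q.2.2.2.2.2.1) :=
    Sig.and (Sig.of_comp (compB_eq (hget.comp cv cm) (hj.comp ca))) hE
  have hB : Sig 2 (fun q : List ℕ × List ℕ × Ent =>
      Exa q.2.2.2.2.1 (fun y => F.Ex1 F.g0 (q.2.1.take q.2.2.2.1 ++ [y]) q.2.2.2.2.2.1) ∧
      F.Ex1 F.g0 (q.2.1.take (q.2.2.2.1 + 1)) q.2.2.2.2.2.1) :=
    Sig.and (compB_exa hR hj (compB_take cv cm) cδ ca) hE
  have cdt : Computable (fun q : List ℕ × List ℕ × Ent =>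
      (q.2.1.drop q.2.2.2.1).take q.2.2.2.2.1) := compB_take (compB_drop cv cm) ca
  have hS : Sig 2 (fun p : (List ℕ × List ℕ × Ent) × ℕ =>
      F.Sat2 (gl F p.1.1) p.1.2.2.2.2.2.2 p.2) := by
    have := Sig.comp (n := 2) (sig_sat2 (F := F) hR hj)
      (f := fun p : (List ℕ × List ℕ × Ent) × ℕ => (p.1.1, p.1.2.2.2.2.2.2, p.2))
      ((Computable.fst.comp Computable.fst).pair
        ((cψ.comp Computable.fst).pair Computable.snd))
    exact this
  have hC : Sig 2 (fun q : List ℕ × List ℕ × Ent =>
      ((q.2.1.drop q.2.2.2.1).take q.2.2.2.2.1).Nodup ∧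
      ∀ y ∈ (q.2.1.drop q.2.2.2.1).take q.2.2.2.2.1, F.Sat2 (gl F q.1) q.2.2.2.2.2.2 y) :=
    Sig.and (Sig.of_comp (Sig.comp (n := 0) compB_nodup cdt)) (Sig.ball_mem hS cdt)
  exact Sig.and (compB_imp (compB_eq ck (Computable.const 0)) hA)
    (Sig.and (compB_imp (compB_eq ck (Computable.const 1)) hB)
      (compB_imp (compB_eq ck (Computable.const 2)) hC))

theorem sig_extP (hR : ComputablePred fun q : ℕ × List ℕ => F.Rel q.1 q.2) (hj : Computable F.j) :
    Sig 2 (fun q : List ℕ × Ext => F.ExtP q.1 q.2) := by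
  have cv : Computable (fun q : List ℕ × Ext => q.1) := Computable.fst
  have ck : Computable (fun q : List ℕ × Ext => q.2.1) := Computable.fst.comp Computable.snd
  have c2 : Computable (fun q : List ℕ × Ext => q.2.2) := Computable.snd.comp Computable.snd
  have ca : Computable (fun q : List ℕ × Ext => q.2.2.1) := Computable.fst.comp c2
  have cδ : Computable (fun q : List ℕ × Ext => q.2.2.2) := Computable.snd.comp c2
  have h1 : Sig 2 (fun q : List ℕ × Ext => ¬ F.Ex1 F.g0 q.1 q.2.2.2) :=
    (compB_ex1 hR hj cv cδ).not_up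
  have h2 : Sig 2 (fun q : List ℕ × Ext => ¬ F.Ex1 F.g0 (q.1 ++ [F.j q.2.2.1]) q.2.2.2) :=
    (compB_ex1 hR hj (Computable.list_append.comp cv
      (Computable.list_cons.comp (hj.comp ca) (Computable.const []))) cδ).not_up
  have h3 : Sig 2 (fun q : List ℕ × Ext =>
      ¬ Exa q.2.2.1 (fun y => F.Ex1 F.g0 (q.1 ++ [y]) q.2.2.2)) := compB_nexa hR hj cv cδ ca
  exact Sig.and (compB_imp (compB_eq ck (Computable.const 1)) h1)
    (Sig.and (compB_imp (compB_eq ck (Computable.const 2)) h2)
      (compB_imp (compB_eq ck (Computable.const 3)) h3))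

theorem sig_ge (hR : ComputablePred fun q : ℕ × List ℕ => F.Rel q.1 q.2) (hj : Computable F.j) :
    Sig 2 (fun q : List ℕ × Nm × Ext × ℕ => F.Ge (gl F q.1) q.2.1 q.2.2.1 q.2.2.2) := by
  have hS : Sig 2 (fun p : ((List ℕ × Nm × Ext) × List ℕ) × Ent =>
      F.SolE (gl F p.1.1.1) p.1.2 p.2) := by
    have := Sig.comp (n := 2) (sig_solE (F := F) hR hj)
      (f := fun p : ((List ℕ × Nm × Ext) × List ℕ) × Ent => (p.1.1.1, p.1.2, p.2))
      ((Computable.fst.comp (Computable.fst.comp Computable.fst)).pair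
        ((Computable.snd.comp Computable.fst).pair Computable.snd))
    exact this
  have cnm : Computable (fun p : (List ℕ × Nm × Ext) × List ℕ => p.1.2.1) :=
    Computable.fst.comp (Computable.snd.comp Computable.fst)
  have hB : Sig 2 (fun p : (List ℕ × Nm × Ext) × List ℕ =>
      F.Sol (gl F p.1.1) p.1.2.1 p.2 ∧ F.ExtP p.2 p.1.2.2) := by
    refine Sig.and (Sig.and (Sig.of_comp (compB_eq (Computable.list_length.comp Computable.snd)
      (Computable.fst.comp cnm))) (Sig.ball_mem hS (Computable.snd.comp cnm))) ?_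
    have := Sig.comp (n := 2) (sig_extP (F := F) hR hj)
      (f := fun p : (List ℕ × Nm × Ext) × List ℕ => (p.2, p.1.2.2))
      (Computable.snd.pair (Computable.snd.comp (Computable.snd.comp Computable.fst)))
    exact this
  have h := Sig.comp (n := 2) (Sig.atL (n := 1) hB)
    (f := fun q : List ℕ × Nm × Ext × ℕ => ((q.1, q.2.1, q.2.2.1), q.2.2.2))
    ((Computable.fst.pair ((Computable.fst.comp Computable.snd).pair
      (Computable.fst.comp (Computable.snd.comp Computable.snd)))).pair
      (Computable.snd.comp (Computable.snd.comp Computable.snd)))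
  exact h

end Pool.Agent.MP_fd2900_lc
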