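import Pool.Agent.Lib.MP_fd2900_lc.CompA

/-! complexity of trees -/

namespace Pool.Agent.MP_fd2900_lc

open Fr

/-- the leaf condition relative to the stem `h` -/
private def CompT1_leaf (F : Fr ℕ) (P : (ℕ → ℕ) → Prop) (K d : ℕ) (h : List ℕ) (X : List (List ℕ)) : Prop :=
  X ≠ [] ∧ ∀ t ∈ X, t.length = d ∧ P (gl F (h ++ t)) ∧
      ∀ i < d, ∃ Y : List ℕ, Y.length = K ∧ Y.Nodup ∧
        ∀ y ∈ Y, ∃ t' ∈ X, t'.take (i + 1) = t.take i ++ [y]

private theorem CompT1_aux (F : Fr ℕ) (P : (ℕ → ℕ) → Prop) (K : ℕ) : ∀ (d : ℕ) (h : List ℕ),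
    (1 ≤ K ∨ d = 0) → (F.Tr P K d h ↔ ∃ X : List (List ℕ), CompT1_leaf F P K d h X)
  | 0, h, _ => by
    constructor
    · intro hP
      refine ⟨[[]], by simp, ?_⟩
      intro t ht
      simp only [List.mem_singleton] at ht
      subst ht
      refine ⟨rfl, ?_, ?_⟩
      · rw [List.append_nil]
        exact hP
      · intro i hi
        exact absurd hi (Nat.not_lt_zero i)
    · rintro ⟨X, hX, hl⟩
      obtain ⟨t, ht⟩ := List.exists_mem_of_ne_nil X hX
      obtain ⟨h1, h2, -⟩ := hl t ht
      have : t = [] := List.length_eq_zero_iff.mp h1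
      subst this
      rw [List.append_nil] at h2
      exact h2
  | d + 1, h, hK => by
    have hK1 : 1 ≤ K := by omega
    constructor
    · rintro ⟨Y0, hY0, hnd, hT⟩
      have hT' : ∀ y : ℕ, ∃ X : List (List ℕ), y ∈ Y0 → CompT1_leaf F P K d (h ++ [y]) X := by
        intro y
        by_cases hy : y ∈ Y0
        · obtain ⟨X, hX⟩ := (CompT1_aux F P K d (h ++ [y]) (Or.inl hK1)).mp (hT y hy)
          exact ⟨X, fun _ => hX⟩
        · exact ⟨[], fun h => absurd h hy⟩
      choose X hX using hT'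
      refine ⟨Y0.flatMap (fun y => (X y).map (fun s => y :: s)), ?_, ?_⟩
      · have hne : Y0 ≠ [] := by
          intro h0
          rw [h0] at hY0
          simp at hY0
          omega
        obtain ⟨y, hy⟩ := List.exists_mem_of_ne_nil Y0 hne
        obtain ⟨s, hs⟩ := List.exists_mem_of_ne_nil (X y) (hX y hy).1
        apply List.ne_nil_of_mem (a := y :: s)
        exact List.mem_flatMap.mpr ⟨y, hy, List.mem_map.mpr ⟨s, hs, rfl⟩⟩
      · intro t ht
        obtain ⟨y, hy, hty⟩ := List.mem_flatMap.mp ht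
        obtain ⟨s, hs, rfl⟩ := List.mem_map.mp hty
        obtain ⟨h1, h2, h3⟩ := (hX y hy).2 s hs
        refine ⟨by simp [h1], ?_, ?_⟩
        · have : h ++ y :: s = h ++ [y] ++ s := by simp
          rw [this]
          exact h2
        · intro i hi
          cases i with
          | zero =>
            refine ⟨Y0, hY0, hnd, ?_⟩
            intro y' hy'
            obtain ⟨s', hs'⟩ := List.exists_mem_of_ne_nil (X y') (hX y' hy').1
            exact ⟨y' :: s', List.mem_flatMap.mpr ⟨y', hy', List.mem_map.mpr ⟨s', hs', rfl⟩⟩,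
              by simp⟩
          | succ i =>
            obtain ⟨Y, hY1, hY2, hY3⟩ := h3 i (by omega)
            refine ⟨Y, hY1, hY2, ?_⟩
            intro y' hy'
            obtain ⟨s', hs', he⟩ := hY3 y' hy'
            refine ⟨y :: s', List.mem_flatMap.mpr ⟨y, hy, List.mem_map.mpr ⟨s', hs', rfl⟩⟩, ?_⟩
            rw [List.take_succ_cons, he, List.take_succ_cons, List.cons_append]
    · rintro ⟨X, hX, hl⟩
      obtain ⟨t0, ht0⟩ := List.exists_mem_of_ne_nil X hX
      obtain ⟨Y, hY1, hY2, hY3⟩ := (hl t0 ht0).2.2 0 (by omega)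
      refine ⟨Y, hY1, hY2, ?_⟩
      intro y hy
      apply (CompT1_aux F P K d (h ++ [y]) (Or.inl hK1)).mpr
      have key : ∀ t ∈ X, ∀ l : List ℕ, (∃ n, t.take (n + 1) = y :: l) → ∃ s, t = y :: s := by
        rintro t _ l ⟨n, hn⟩
        cases t with
        | nil => simp at hn
        | cons a s =>
          rw [List.take_succ_cons] at hn
          exact ⟨s, by rw [(List.cons.inj hn).1]⟩
      refine ⟨(X.filter (fun t => decide (t.take 1 = [y]))).map List.tail, ?_, ?_⟩
      · obtain ⟨t', ht', he⟩ := hY3 y hy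
        apply List.ne_nil_of_mem (a := t'.tail)
        refine List.mem_map.mpr ⟨t', List.mem_filter.mpr ⟨ht', ?_⟩, rfl⟩
        simpa using he
      · intro s hs
        obtain ⟨t, ht, rfl⟩ := List.mem_map.mp hs
        obtain ⟨htX, hty⟩ := List.mem_filter.mp ht
        obtain ⟨s, rfl⟩ := key t htX [] ⟨0, of_decide_eq_true hty⟩
        obtain ⟨h1, h2, h3⟩ := hl _ htX
        simp only [List.tail_cons]
        refine ⟨by simpa using h1, ?_, ?_⟩
        · have : h ++ y :: s = h ++ [y] ++ s := by simp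
          rw [this] at h2
          exact h2
        · intro i hi
          obtain ⟨Y', hY1', hY2', hY3'⟩ := h3 (i + 1) (by omega)
          refine ⟨Y', hY1', hY2', ?_⟩
          intro y' hy'
          obtain ⟨t', ht', he⟩ := hY3' y' hy'
          rw [List.take_succ_cons, List.cons_append] at he
          obtain ⟨s', rfl⟩ := key t' ht' _ ⟨i + 1, he⟩
          rw [List.take_succ_cons] at he
          refine ⟨s', List.mem_map.mpr ⟨y :: s', List.mem_filter.mpr ⟨ht', by simp⟩, rfl⟩, ?_⟩
          exact (List.cons.inj he).2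

/-- a `K`-branching tree of depth `d` as a finite set `X` of lists of length `d` -/
theorem tr_iff_list (F : Fr ℕ) (P : (ℕ → ℕ) → Prop) (K d : ℕ) (hK : 1 ≤ K ∨ d = 0) :
    F.Tr P K d [] ↔ ∃ X : List (List ℕ), X ≠ [] ∧ ∀ t ∈ X, t.length = d ∧ P (gl F t) ∧
      ∀ i < d, ∃ Y : List ℕ, Y.length = K ∧ Y.Nodup ∧
        ∀ y ∈ Y, ∃ t' ∈ X, t'.take (i + 1) = t.take i ++ [y] := by
  rw [CompT1_aux F P K d [] hK]
  simp only [CompT1_leaf, List.nil_append]

end Pool.Agent.MP_fd2900_lc
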