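import Pool.Agent.Lib.MP_fd2900_lc.CompT1

namespace Pool.Agent.MP_fd2900_lc

open Fr

variable {α : Type} [Primcodable α]

private theorem ct_eq {β γ : Type} [Primcodable β] [Primcodable γ] [DecidableEq γ] {f g : β → γ}
    (hf : Primrec f) (hg : Primrec g) : ComputablePred (fun b => f b = g b) :=
  (PrimrecRel.comp Primrec.eq hf hg).computablePred

private theorem ct_nodup {β : Type} [Primcodable β] {f : β → List ℕ} (hf : Primrec f) :
    Sig 0 (fun b => (f b).Nodup) := by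
  have h1 : Sig 0 (fun q : (β × ℕ) × ℕ => ¬ ((f q.1.1)[q.2]? = (f q.1.1)[q.1.2]?)) := by
    have h2 : ComputablePred (fun q : (β × ℕ) × ℕ => (f q.1.1)[q.2]? = (f q.1.1)[q.1.2]?) :=
      ct_eq (Primrec.list_getElem?.comp (hf.comp (Primrec.fst.comp Primrec.fst)) Primrec.snd)
        (Primrec.list_getElem?.comp (hf.comp (Primrec.fst.comp Primrec.fst))
          (Primrec.snd.comp Primrec.fst))
    exact ComputablePred.not h2
  have h3 : Sig 0 (fun q : β × ℕ => ∀ i < q.2, ¬ ((f q.1)[i]? = (f q.1)[q.2]?)) :=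
    Sig.ball_lt h1 Computable.snd
  have h4 : Sig 0 (fun b : β => ∀ j < (f b).length, ∀ i < j, ¬ ((f b)[i]? = (f b)[j]?)) :=
    Sig.ball_lt h3 (Primrec.list_length.comp hf).to_comp
  refine h4.of_eq fun b => ?_
  rw [List.nodup_iff_getElem?_ne_getElem?]
  constructor
  · intro h i j hij hj
    exact h j hj i hij
  · intro h j hj i hij
    exact h i j hij hj

theorem sig_tr (F : Fr ℕ) {P : α → (ℕ → ℕ) → Prop} (hP : Sig 2 (fun q : α × List ℕ => P q.1 (gl F q.2))) :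
    Sig 2 (fun q : α × ℕ × ℕ => F.Tr (P q.1) q.2.1 q.2.2 []) := by
  -- the innermost condition: `((((((q, X), t), i), Y), y), t')`
  have h0 : Sig 1 (fun w : ((((((α × ℕ × ℕ) × List (List ℕ)) × List ℕ) × ℕ) × List ℕ) × ℕ) × List ℕ =>
      w.2.take (w.1.1.1.2 + 1) = w.1.1.1.1.2.take w.1.1.1.2 ++ [w.1.2]) := by
    refine Sig.of_comp (ct_eq ?_ ?_)
    · exact Primrec.list_take.comp (Primrec.succ.comp
        (Primrec.snd.comp (Primrec.fst.comp (Primrec.fst.comp Primrec.fst)))) Primrec.snd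
    · exact Primrec.list_concat.comp (Primrec.list_take.comp
        (Primrec.snd.comp (Primrec.fst.comp (Primrec.fst.comp Primrec.fst)))
        (Primrec.snd.comp (Primrec.fst.comp (Primrec.fst.comp (Primrec.fst.comp Primrec.fst)))))
        (Primrec.snd.comp Primrec.fst)
  have h1 : Sig 1 (fun w : (((((α × ℕ × ℕ) × List (List ℕ)) × List ℕ) × ℕ) × List ℕ) × ℕ =>
      ∃ t' ∈ w.1.1.1.1.2, t'.take (w.1.1.2 + 1) = w.1.1.1.2.take w.1.1.2 ++ [w.2]) :=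
    Sig.bex_mem h0 (Computable.snd.comp (Computable.fst.comp (Computable.fst.comp
      (Computable.fst.comp Computable.fst))))
  have h2 : Sig 1 (fun w : ((((α × ℕ × ℕ) × List (List ℕ)) × List ℕ) × ℕ) × List ℕ =>
      ∀ y ∈ w.2, ∃ t' ∈ w.1.1.1.2, t'.take (w.1.2 + 1) = w.1.1.2.take w.1.2 ++ [y]) :=
    Sig.ball_mem h1 Computable.snd
  have h3 : Sig 1 (fun w : ((((α × ℕ × ℕ) × List (List ℕ)) × List ℕ) × ℕ) × List ℕ =>
      w.2.length = w.1.1.1.1.2.1 ∧ w.2.Nodup ∧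
      ∀ y ∈ w.2, ∃ t' ∈ w.1.1.1.2, t'.take (w.1.2 + 1) = w.1.1.2.take w.1.2 ++ [y]) := by
    refine Sig.and (Sig.of_comp (ct_eq (Primrec.list_length.comp Primrec.snd) ?_))
      (Sig.and (ct_nodup Primrec.snd).up h2)
    exact Primrec.fst.comp (Primrec.snd.comp (Primrec.fst.comp (Primrec.fst.comp
      (Primrec.fst.comp Primrec.fst))))
  have h4 : Sig 1 (fun w : (((α × ℕ × ℕ) × List (List ℕ)) × List ℕ) × ℕ =>
      ∃ Y : List ℕ, Y.length = w.1.1.1.2.1 ∧ Y.Nodup ∧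
      ∀ y ∈ Y, ∃ t' ∈ w.1.1.2, t'.take (w.2 + 1) = w.1.2.take w.2 ++ [y]) := Sig.ex h3
  have h5 : Sig 1 (fun w : ((α × ℕ × ℕ) × List (List ℕ)) × List ℕ =>
      ∀ i < w.1.1.2.2, ∃ Y : List ℕ, Y.length = w.1.1.2.1 ∧ Y.Nodup ∧
      ∀ y ∈ Y, ∃ t' ∈ w.1.2, t'.take (i + 1) = w.2.take i ++ [y]) :=
    Sig.ball_lt h4 (Computable.snd.comp (Computable.snd.comp (Computable.fst.comp Computable.fst)))
  have h6 : Sig 2 (fun w : ((α × ℕ × ℕ) × List (List ℕ)) × List ℕ =>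
      w.2.length = w.1.1.2.2 ∧ P w.1.1.1 (gl F w.2) ∧
      ∀ i < w.1.1.2.2, ∃ Y : List ℕ, Y.length = w.1.1.2.1 ∧ Y.Nodup ∧
      ∀ y ∈ Y, ∃ t' ∈ w.1.2, t'.take (i + 1) = w.2.take i ++ [y]) := by
    refine Sig.and (Sig.of_comp (ct_eq (Primrec.list_length.comp Primrec.snd) ?_))
      (Sig.and ?_ h5.up)
    · exact Primrec.snd.comp (Primrec.snd.comp (Primrec.fst.comp Primrec.fst))
    · exact hP.comp (f := fun w : ((α × ℕ × ℕ) × List (List ℕ)) × List ℕ => (w.1.1.1, w.2))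
        ((Computable.fst.comp (Computable.fst.comp Computable.fst)).pair Computable.snd)
  have h7 : Sig 2 (fun w : (α × ℕ × ℕ) × List (List ℕ) => ∀ t ∈ w.2,
      t.length = w.1.2.2 ∧ P w.1.1 (gl F t) ∧
      ∀ i < w.1.2.2, ∃ Y : List ℕ, Y.length = w.1.2.1 ∧ Y.Nodup ∧
      ∀ y ∈ Y, ∃ t' ∈ w.2, t'.take (i + 1) = t.take i ++ [y]) :=
    Sig.ball_mem h6 Computable.snd
  have h8 : Sig 2 (fun w : (α × ℕ × ℕ) × List (List ℕ) => w.2 ≠ [] ∧ ∀ t ∈ w.2,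
      t.length = w.1.2.2 ∧ P w.1.1 (gl F t) ∧
      ∀ i < w.1.2.2, ∃ Y : List ℕ, Y.length = w.1.2.1 ∧ Y.Nodup ∧
      ∀ y ∈ Y, ∃ t' ∈ w.2, t'.take (i + 1) = t.take i ++ [y]) := by
    refine Sig.and (Sig.of_comp (ComputablePred.not (ct_eq Primrec.snd (Primrec.const [])))) h7
  have h9 : Sig 2 (fun q : α × ℕ × ℕ => ∃ X : List (List ℕ), X ≠ [] ∧ ∀ t ∈ X,
      t.length = q.2.2 ∧ P q.1 (gl F t) ∧
      ∀ i < q.2.2, ∃ Y : List ℕ, Y.length = q.2.1 ∧ Y.Nodup ∧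
      ∀ y ∈ Y, ∃ t' ∈ X, t'.take (i + 1) = t.take i ++ [y]) := Sig.ex h8
  have hK : ComputablePred (fun q : α × ℕ × ℕ => q.2.1 = 0) :=
    ct_eq (Primrec.fst.comp Primrec.snd) (Primrec.const 0)
  have hd : ComputablePred (fun q : α × ℕ × ℕ => q.2.2 = 0) :=
    ct_eq (Primrec.snd.comp Primrec.snd) (Primrec.const 0)
  have h10 := Sig.or (Sig.and (Sig.of_comp (n := 2) hK) (Sig.of_comp (n := 2) (ComputablePred.not hd)))
    (Sig.and (Sig.or (Sig.of_comp (n := 2) (ComputablePred.not hK)) (Sig.of_comp (n := 2) hd)) h9)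
  refine h10.of_eq fun q => ?_
  obtain ⟨a, K, d⟩ := q
  simp only
  by_cases hc : K = 0 ∧ ¬ d = 0
  · obtain ⟨hK0, hd0⟩ := hc
    obtain ⟨e, rfl⟩ := Nat.exists_eq_succ_of_ne_zero hd0
    subst hK0
    constructor
    · intro _
      exact ⟨[], rfl, List.nodup_nil, by simp⟩
    · intro _
      exact Or.inl ⟨rfl, hd0⟩
  · have hc' : 1 ≤ K ∨ d = 0 := by omega
    have hc'' : ¬ K = 0 ∨ d = 0 := by omega
    rw [tr_iff_list F (P a) K d hc']
    constructor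
    · rintro (h | h)
      · exact absurd h hc
      · exact h.2
    · intro h
      exact Or.inr ⟨hc'', h⟩

end Pool.Agent.MP_fd2900_lc
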