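import Pool.Agent.Lib.MP_fd2900_lc.StepEx2

namespace Pool.Agent.MP_fd2900_lc

open Fr

private theorem stepEx_nmAt_take (segs : List (ℕ × NmN)) {r r' : ℕ} (h : r' ≤ r) :
    nmAt (segs.take r) r' = nmAt segs r' := by
  unfold nmAt
  by_cases h0 : r' = 0
  · rw [if_pos h0, if_pos h0]
  · rw [if_neg h0, if_neg h0]
    have h1 : r' - 1 < r := by omega
    rw [List.getD_eq_getElem?_getD, List.getD_eq_getElem?_getD, List.getElem?_take_of_lt h1]

private theorem stepEx_kAt_take (segs : List (ℕ × NmN)) {r r' : ℕ} (h : r' < r) :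
    kAt (segs.take r) r' = kAt segs r' := by
  unfold kAt
  rw [List.getD_eq_getElem?_getD, List.getD_eq_getElem?_getD, List.getElem?_take_of_lt h]

private theorem stepEx_nmAt_append (segs : List (ℕ × NmN)) (x : ℕ × NmN) {r : ℕ}
    (h : r ≤ segs.length) : nmAt (segs ++ [x]) r = nmAt segs r := by
  unfold nmAt
  by_cases h0 : r = 0
  · rw [if_pos h0, if_pos h0]
  · rw [if_neg h0, if_neg h0]
    have h1 : r - 1 < segs.length := by omega
    rw [List.getD_eq_getElem?_getD, List.getD_eq_getElem?_getD, List.getElem?_append_left h1]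

private theorem stepEx_kAt_append (segs : List (ℕ × NmN)) (x : ℕ × NmN) {r : ℕ}
    (h : r < segs.length) : kAt (segs ++ [x]) r = kAt segs r := by
  unfold kAt
  rw [List.getD_eq_getElem?_getD, List.getD_eq_getElem?_getD, List.getElem?_append_left h]

private theorem stepEx_nmAt_last (segs : List (ℕ × NmN)) (x : ℕ × NmN) :
    nmAt (segs ++ [x]) (segs.length + 1) = x.2 := by
  unfold nmAt
  rw [if_neg (Nat.succ_ne_zero _), Nat.add_sub_cancel, List.getD_eq_getElem?_getD]
  simp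

private theorem stepEx_kAt_last (segs : List (ℕ × NmN)) (x : ℕ × NmN) :
    kAt (segs ++ [x]) segs.length = x.1 := by
  unfold kAt
  rw [List.getD_eq_getElem?_getD]
  simp

namespace Setup

variable {A : Setup}

theorem exists_step {s : State} (hI : A.Inv s) : ∃ s', A.Step (s, s') := by
  classical
  by_cases hm : ∃ r, A.Mis s.1 s.2.1 r
  · refine ⟨(s.1 + 1, s.2.1.take (Nat.find hm), s.2.2), Or.inl ⟨Nat.find hm, Nat.find_spec hm, ?_, rfl⟩⟩
    intro r' hr'
    exact Nat.find_min hm hr'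
  · have hm' : ∀ r < s.2.1.length, ¬ A.Mis s.1 s.2.1 r := fun r _ h => hm ⟨r, h⟩
    by_cases hk : ∀ r < s.2.1.length, kAt s.2.1 r = A.kapInf r
    · obtain ⟨s', hs'⟩ := exists_stepC hI hk hm'
      exact ⟨s', Or.inr (Or.inr hs')⟩
    · have hk' : ∃ r, r < s.2.1.length ∧ kAt s.2.1 r ≠ A.kapInf r := by
        by_contra hcon
        apply hk
        intro r hr
        by_contra hne
        exact hcon ⟨r, hr, hne⟩
      obtain ⟨r, hr, hne⟩ := hk'
      obtain ⟨t0, ht0⟩ := A.kap_lim r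
      refine ⟨(max t0 (s.1 + 1), s.2), Or.inr (Or.inl ⟨hm', ?_, rfl, r, hr, hr, ?_⟩)⟩
      · exact lt_of_lt_of_le (Nat.lt_succ_self _) (le_max_right t0 (s.1 + 1))
      · show A.kap (max t0 (s.1 + 1)) r ≠ kAt s.2.1 r
        rw [ht0 _ (le_max_left t0 (s.1 + 1))]
        exact fun h => hne h.symm

theorem inv_step {s s' : State} (hI : A.Inv s) (h : A.Step (s, s')) : A.Inv s' := by
  obtain ⟨hI1, hI2, hI3⟩ := hI
  rcases h with h | h | h
  · obtain ⟨R, hR, -, hs'⟩ := h
    replace hR : A.Mis s.1 s.2.1 R := hR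
    replace hs' : s' = (s.1 + 1, s.2.1.take R, s.2.2) := hs'
    subst hs'
    have hlen : (s.2.1.take R).length = R := by
      rw [List.length_take]
      exact min_eq_left hR.1.le
    refine ⟨?_, ?_, hI3⟩
    · intro r hr
      replace hr : r < (s.2.1.take R).length := hr
      rw [hlen] at hr
      obtain ⟨h1, δ, n1, h2, h3⟩ := hI1 r (hr.trans hR.1)
      show (∃ t, A.kap t r = kAt (s.2.1.take R) r) ∧
        ∃ (δ : List Lit) (n1 : NmN), Relation.ReflTransGen (A.HExt δ) (nmAt (s.2.1.take R) r) n1 ∧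
          CExt r (kAt (s.2.1.take R) r) n1 (nmAt (s.2.1.take R) (r + 1))
      rw [stepEx_kAt_take s.2.1 hr, stepEx_nmAt_take s.2.1 hr.le, stepEx_nmAt_take s.2.1 hr]
      exact ⟨h1, δ, n1, h2, h3⟩
    · intro r hr
      replace hr : r ≤ (s.2.1.take R).length := hr
      rw [hlen] at hr
      show A.Good s.2.2 (nmAt (s.2.1.take R) r)
      rw [stepEx_nmAt_take s.2.1 hr]
      exact hI2 r (hr.trans hR.1.le)
  · obtain ⟨-, -, hs', -⟩ := h
    replace hs' : s'.2 = s.2 := hs'
    refine ⟨?_, ?_, ?_⟩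
    · rw [hs']
      exact hI1
    · rw [hs']
      exact hI2
    · rw [hs']
      exact hI3
  · obtain ⟨-, n1, n2, ε, hs', h1, h2, h3, h4, -, h6⟩ := h
    replace hs' : s' = (s.1 + 1, s.2.1 ++ [(A.kap s.1 s.2.1.length, n2)], s.2.2 ++ ε) := hs'
    subst hs'
    have hlen : (s.2.1 ++ [(A.kap s.1 s.2.1.length, n2)]).length = s.2.1.length + 1 := by
      simp
    refine ⟨?_, ?_, ?_⟩
    · intro r hr
      replace hr : r < (s.2.1 ++ [(A.kap s.1 s.2.1.length, n2)]).length := hr
      rw [hlen] at hr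
      show (∃ t, A.kap t r = kAt (s.2.1 ++ [(A.kap s.1 s.2.1.length, n2)]) r) ∧
        ∃ (δ : List Lit) (m1 : NmN),
          Relation.ReflTransGen (A.HExt δ) (nmAt (s.2.1 ++ [(A.kap s.1 s.2.1.length, n2)]) r) m1 ∧
          CExt r (kAt (s.2.1 ++ [(A.kap s.1 s.2.1.length, n2)]) r) m1
            (nmAt (s.2.1 ++ [(A.kap s.1 s.2.1.length, n2)]) (r + 1))
      rcases Nat.lt_succ_iff_lt_or_eq.1 hr with hr | rfl
      · rw [stepEx_kAt_append s.2.1 _ hr, stepEx_nmAt_append s.2.1 _ hr.le,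
          stepEx_nmAt_append s.2.1 _ hr]
        exact hI1 r hr
      · rw [stepEx_kAt_last, stepEx_nmAt_append s.2.1 _ le_rfl, stepEx_nmAt_last]
        exact ⟨⟨s.1, rfl⟩, s.2.2, n1, h1, h2⟩
    · intro r hr
      replace hr : r ≤ (s.2.1 ++ [(A.kap s.1 s.2.1.length, n2)]).length := hr
      rw [hlen] at hr
      exact h6 r (by show r < s.2.1.length + 2; omega)
    · refine ⟨max n1.1 n2.1, ?_⟩
      intro l hl
      replace hl : l ∈ s.2.2 ++ ε := hl
      rcases List.mem_append.1 hl with hl | hl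
      · intro t ht
        exact ⟨(h3 l hl t ht).1, lt_of_lt_of_le (h3 l hl t ht).2 (le_max_left _ _)⟩
      · intro t ht
        exact ⟨(h4 l hl t ht).1, lt_of_lt_of_le (h4 l hl t ht).2 (le_max_right _ _)⟩

theorem inv_s0 : A.Inv s0 := by
  refine ⟨?_, ?_, ?_⟩
  · intro r hr
    exact absurd hr (Nat.not_lt_zero r)
  · intro r hr
    have hr0 : r = 0 := Nat.le_zero.1 hr
    subst hr0
    refine good_of_ok (A.ok_base) (v := []) ?_ ?_
    · exact ⟨rfl, fun e he => absurd he List.not_mem_nil⟩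
    · exact ⟨[], fun l hl => absurd hl List.not_mem_nil⟩
  · exact ⟨0, fun l hl => absurd hl List.not_mem_nil⟩

end Setup

end Pool.Agent.MP_fd2900_lc
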