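import Pool.Agent.Lib.MP_fd2900_lc.Conv1
import Pool.Agent.Lib.MP_fd2900_lc.StepEx

namespace Pool.Agent.MP_fd2900_lc

open Fr

namespace Setup

variable {A : Setup}

private theorem conv_nmAt_take {segs : List (ℕ × NmN)} {r R : ℕ} (h : r ≤ R) (_hR : R ≤ segs.length) :
    nmAt (segs.take R) r = nmAt segs r := by
  unfold nmAt
  split_ifs with h0
  · rfl
  · have h1 : r - 1 < R := by omega
    rw [List.getD_eq_getElem?_getD, List.getD_eq_getElem?_getD, List.getElem?_take_of_lt h1]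

private theorem conv_kAt_take {segs : List (ℕ × NmN)} {r R : ℕ} (h : r < R) :
    kAt (segs.take R) r = kAt segs r := by
  unfold kAt
  rw [List.getD_eq_getElem?_getD, List.getD_eq_getElem?_getD, List.getElem?_take_of_lt h]

private theorem conv_good_mono {δ δ' : List Lit} (h : ∀ l ∈ δ, l ∈ δ') {s : NmN}
    (hg : A.Good δ' s) : A.Good δ s := by
  refine ⟨hg.1, hg.2.1, fun hge => hg.2.2 ?_⟩
  obtain ⟨Y, hY, hnd, hP⟩ := hge
  refine ⟨Y, hY, hnd, fun v hv => ⟨(hP v hv).1, ?_⟩⟩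
  obtain ⟨h1, h2, h3⟩ := (hP v hv).2
  refine ⟨fun _ hex => h1 rfl ?_, fun h => absurd h (by norm_num), fun h => absurd h (by norm_num)⟩
  obtain ⟨z, hz⟩ := hex
  exact ⟨z, fun l hl => hz l (h l hl)⟩

private theorem conv_inv {q : ℕ → State} (h0 : q 0 = s0) (hs : ∀ i, A.Step (q i, q (i + 1))) (i : ℕ) :
    A.Inv (q i) := by
  induction i with
  | zero => rw [h0]; exact inv_s0
  | succ i ih => exact inv_step ih (hs i)

private theorem conv_stepC {q : ℕ → State} (hs : ∀ i, A.Step (q i, q (i + 1))) (i1 : ℕ) :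
    ∃ i ≥ i1, A.StepC (q i) (q (i + 1)) := by
  by_contra hcon
  push Not at hcon
  have hlen : ∀ k, (q (i1 + k)).2.1.length ≤ (q i1).2.1.length := by
    intro k
    induction k with
    | zero => exact le_rfl
    | succ k ih =>
      refine le_trans ?_ ih
      rcases hs (i1 + k) with hA | hB | hC
      · obtain ⟨r, hr, _, he⟩ := hA
        change q (i1 + k + 1) = _ at he
        show (q (i1 + k + 1)).2.1.length ≤ _
        rw [he]
        simp
      · obtain ⟨_, _, he, _⟩ := hB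
        change (q (i1 + k + 1)).2 = (q (i1 + k)).2 at he
        show (q (i1 + k + 1)).2.1.length ≤ _
        rw [he]
      · exact absurd hC (hcon (i1 + k) (by omega))
  obtain ⟨i0, hi0⟩ := conv hs ((q i1).2.1.length + 1)
  have h1 := (hi0 (i1 + i0) (by omega)).1
  have h2 := hlen i0
  omega

/-- the stable names -/
theorem stable {q : ℕ → State} (h0 : q 0 = s0) (hs : ∀ i, A.Step (q i, q (i + 1))) :
    ∃ p : ℕ → NmN, p 0 = base ∧ (∀ r, A.Ok (p r)) ∧
      (∀ r i, A.Good (q i).2.2 (p r)) ∧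
      (∀ r, (p r).1 ≤ (p (r + 1)).1 ∧
        ∀ v ∈ A.sol (p (r + 1)).nm, v.take (p r).1 ∈ A.sol (p r).nm) ∧
      (∀ r, ∃ (δ : List Lit) (n1 : NmN), Relation.ReflTransGen (A.HExt δ) (p r) n1 ∧ A.Ok n1 ∧
        CExt r (A.kapInf r) n1 (p (r + 1))) ∧
      (∀ r t, ∃ i, Dec t (p r).1 (q i).2.2) := by
  choose i0 hi0 using fun R => conv hs R
  have hinv := conv_inv h0 hs
  obtain ⟨hst, -, hpre⟩ := seq_mono hs
  have hp : ∀ r, ∀ i ≥ i0 r, nmAt (q i).2.1 r = nmAt (q (i0 r)).2.1 r := by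
    intro r i hi
    have h1 := hi0 r i hi
    have h2 := hi0 r (i0 r) le_rfl
    rw [← conv_nmAt_take le_rfl h1.1, h1.2.1, conv_nmAt_take le_rfl h2.1]
  have hlink : ∀ i, A.Links (q i).2.1 := fun i => (hinv i).1
  have hok : ∀ r, A.Ok (nmAt (q (i0 r)).2.1 r) := by
    intro r
    have h2 := hi0 r (i0 r) le_rfl
    exact links_ok (hlink _) h2.1 h2.2.2
  refine ⟨fun r => nmAt (q (i0 r)).2.1 r, rfl, hok, ?_, ?_, ?_, ?_⟩
  · intro r i
    have hk := hp r (max i (i0 r)) (le_max_right _ _)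
    have h1 := hi0 r (max i (i0 r)) (le_max_right _ _)
    have hg := (hinv (max i (i0 r))).2.1 r h1.1
    rw [hk] at hg
    exact conv_good_mono (fun l hl => (hpre i _ (le_max_left _ _)).subset hl) hg
  · intro r
    have hk := hp r (max (i0 r) (i0 (r + 1))) (le_max_left _ _)
    have hk' := hp (r + 1) (max (i0 r) (i0 (r + 1))) (le_max_right _ _)
    have h1 := hi0 (r + 1) (max (i0 r) (i0 (r + 1))) (le_max_right _ _)
    have := links_take (hlink (max (i0 r) (i0 (r + 1)))) (Nat.le_succ r) h1.1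
    rw [hk, hk'] at this
    exact this
  · intro r
    have hk := hp r (max (i0 r) (i0 (r + 1))) (le_max_left _ _)
    have hk' := hp (r + 1) (max (i0 r) (i0 (r + 1))) (le_max_right _ _)
    have h1 := hi0 (r + 1) (max (i0 r) (i0 (r + 1))) (le_max_right _ _)
    obtain ⟨-, δ, n1, hch, hce⟩ := hlink (max (i0 r) (i0 (r + 1))) r (by have := h1.1; omega)
    rw [hk] at hch
    rw [hk', h1.2.2 r (by omega)] at hce
    exact ⟨δ, n1, hch, chain_ok hch (hok r), hce⟩
  · intro r t
    obtain ⟨i, hi, hC⟩ := conv_stepC hs (max t (i0 r))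
    obtain ⟨-, n1, n2, ε, he, -, -, -, -, hdec, -⟩ := hC
    refine ⟨i + 1, ?_⟩
    have hk := hp r (i + 1) (by omega)
    have h1 := hi0 r (i + 1) (by omega)
    have htake := (links_take (hlink (i + 1)) h1.1 le_rfl).1
    rw [hk] at htake
    have hn2 : nmAt (q (i + 1)).2.1 (q (i + 1)).2.1.length = n2 := by
      rw [he]
      unfold nmAt
      simp
    rw [hn2] at htake
    have hti : t ≤ (q i).1 := le_trans (by omega) (hst i)
    rw [he]
    intro u hu hx
    exact hdec u (by omega) (fun x hxm => lt_of_lt_of_le (hx x hxm) htake)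

end Setup

end Pool.Agent.MP_fd2900_lc
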