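import Pool.Agent.Lib.MP_fd2900_lc.Kap

/-! convergence of the construction -/

namespace Pool.Agent.MP_fd2900_lc

open Fr

namespace Setup

variable {A : Setup}

private theorem Conv1_step {s s' : State} (h : A.Step (s, s')) : s.1 < s'.1 ∧ s.2.2 <+: s'.2.2 := by
  rcases h with ⟨r, -, -, he⟩ | ⟨-, hlt, he, -⟩ | ⟨-, n1, n2, ε, he, -⟩
  · change s' = (s.1 + 1, s.2.1.take r, s.2.2) at he
    subst he
    exact ⟨Nat.lt_succ_self _, List.prefix_rfl⟩
  · change s.1 < s'.1 at hlt
    change s'.2 = s.2 at he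
    refine ⟨hlt, ?_⟩
    rw [he]
  · change s' = (s.1 + 1, s.2.1 ++ [(A.kap s.1 s.2.1.length, n2)], s.2.2 ++ ε) at he
    subst he
    exact ⟨Nat.lt_succ_self _, List.prefix_append _ _⟩

/-- along a sequence of steps the stage increases and the committed literals grow -/
theorem seq_mono {q : ℕ → State} (hs : ∀ i, A.Step (q i, q (i + 1))) :
    (∀ i, i ≤ (q i).1) ∧ StrictMono (fun i => (q i).1) ∧
      ∀ i k, i ≤ k → (q i).2.2 <+: (q k).2.2 := by
  have h1 : StrictMono (fun i => (q i).1) :=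
    strictMono_nat_of_lt_succ fun i => (Conv1_step (hs i)).1
  refine ⟨fun i => h1.le_apply, h1, ?_⟩
  intro i k hik
  induction k, hik using Nat.le_induction with
  | base => exact List.prefix_rfl
  | succ k _ ih => exact ih.trans (Conv1_step (hs k)).2

private theorem Conv1_kAt_take {segs : List (ℕ × NmN)} {r R : ℕ} (h : r < R) :
    kAt (segs.take R) r = kAt segs r := by
  unfold kAt
  rw [List.getD_eq_getElem?_getD, List.getD_eq_getElem?_getD, List.getElem?_take_of_lt h]

private theorem Conv1_kAt_append {segs : List (ℕ × NmN)} {x : List (ℕ × NmN)} {r : ℕ}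
    (h : r < segs.length) : kAt (segs ++ x) r = kAt segs r := by
  unfold kAt
  rw [List.getD_eq_getElem?_getD, List.getD_eq_getElem?_getD, List.getElem?_append_left h]

private theorem Conv1_kAt_last {segs : List (ℕ × NmN)} {x : ℕ × NmN} {R : ℕ}
    (h : segs.length = R) : kAt (segs ++ [x]) R = x.1 := by
  unfold kAt
  rw [List.getD_eq_getElem?_getD, List.getElem?_append_right (by omega)]
  simp [h]

private theorem Conv1_bound (R : ℕ) : ∃ t0, ∀ r < R, ∀ t ≥ t0, A.kap t r = A.kapInf r := by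
  induction R with
  | zero => exact ⟨0, fun r hr => absurd hr (Nat.not_lt_zero _)⟩
  | succ R ih =>
    obtain ⟨t0, h0⟩ := ih
    obtain ⟨t1, h1⟩ := A.kap_lim R
    refine ⟨max t0 t1, fun r hr t ht => ?_⟩
    rcases Nat.lt_succ_iff_lt_or_eq.1 hr with h | h
    · exact h0 r h t (le_trans (le_max_left _ _) ht)
    · subst h
      exact h1 t (le_trans (le_max_right _ _) ht)

/-- one step keeps the first `R` segments if their bounds are right -/
private theorem Conv1_keep {s s' : State} (h : A.Step (s, s')) {R t0 : ℕ}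
    (ht0 : ∀ r < R, ∀ t ≥ t0, A.kap t r = A.kapInf r) (hs : t0 ≤ s.1) (hl : R ≤ s.2.1.length)
    (hk : ∀ r < R, kAt s.2.1 r = A.kapInf r) :
    R ≤ s'.2.1.length ∧ s'.2.1.take R = s.2.1.take R ∧ ∀ r < R, kAt s'.2.1 r = A.kapInf r := by
  rcases h with ⟨r, hm, -, he⟩ | ⟨-, hlt, he, -⟩ | ⟨-, n1, n2, ε, he, -⟩
  · change s' = (s.1 + 1, s.2.1.take r, s.2.2) at he
    change A.Mis s.1 s.2.1 r at hm
    have hr : R ≤ r := by
      by_contra hr
      push Not at hr
      exact hm.2 ((ht0 r hr _ hs).trans (hk r hr).symm)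
    subst he
    refine ⟨?_, ?_, ?_⟩
    · show R ≤ (s.2.1.take r).length
      rw [List.length_take]
      exact le_min hr hl
    · show (s.2.1.take r).take R = s.2.1.take R
      rw [List.take_take, min_eq_left hr]
    · intro r' hr'
      show kAt (s.2.1.take r) r' = _
      rw [Conv1_kAt_take (lt_of_lt_of_le hr' hr)]
      exact hk r' hr'
  · change s'.2 = s.2 at he
    rw [he]
    exact ⟨hl, rfl, hk⟩
  · change s' = (s.1 + 1, s.2.1 ++ [(A.kap s.1 s.2.1.length, n2)], s.2.2 ++ ε) at he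
    subst he
    refine ⟨?_, ?_, ?_⟩
    · show R ≤ (s.2.1 ++ [(A.kap s.1 s.2.1.length, n2)]).length
      rw [List.length_append]
      exact le_trans hl (Nat.le_add_right _ _)
    · show (s.2.1 ++ [(A.kap s.1 s.2.1.length, n2)]).take R = s.2.1.take R
      exact List.take_append_of_le_length hl
    · intro r' hr'
      show kAt (s.2.1 ++ [(A.kap s.1 s.2.1.length, n2)]) r' = _
      rw [Conv1_kAt_append (lt_of_lt_of_le hr' hl)]
      exact hk r' hr'

/-- if the stack has height `R` (and all is right below `R`), the next step is the good one -/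
private theorem Conv1_grow {s s' : State} (h : A.Step (s, s')) {R t0 : ℕ}
    (ht0 : ∀ r < R + 1, ∀ t ≥ t0, A.kap t r = A.kapInf r) (hs : t0 ≤ s.1) (hl : s.2.1.length = R)
    (hk : ∀ r < R, kAt s.2.1 r = A.kapInf r) :
    R + 1 ≤ s'.2.1.length ∧ kAt s'.2.1 R = A.kapInf R := by
  rcases h with ⟨r, hm, -, -⟩ | ⟨-, hlt, -, r, hr, hm⟩ | ⟨-, n1, n2, ε, he, -⟩
  · exfalso
    change A.Mis s.1 s.2.1 r at hm
    have hr : r < R := hl ▸ hm.1
    exact hm.2 ((ht0 r (by omega) _ hs).trans (hk r hr).symm)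
  · exfalso
    change s.1 < s'.1 at hlt
    change A.Mis s'.1 s.2.1 r at hm
    have hr : r < R := hl ▸ hm.1
    exact hm.2 ((ht0 r (by omega) _ (le_trans hs hlt.le)).trans (hk r hr).symm)
  · change s' = (s.1 + 1, s.2.1 ++ [(A.kap s.1 s.2.1.length, n2)], s.2.2 ++ ε) at he
    subst he
    refine ⟨?_, ?_⟩
    · show R + 1 ≤ (s.2.1 ++ [(A.kap s.1 s.2.1.length, n2)]).length
      rw [List.length_append, hl]
      exact le_rfl
    · show kAt (s.2.1 ++ [(A.kap s.1 s.2.1.length, n2)]) R = _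
      rw [Conv1_kAt_last hl]
      show A.kap s.1 s.2.1.length = _
      rw [hl]
      exact ht0 R (Nat.lt_succ_self _) _ hs

/-- if the bound at height `R` is wrong (and all is right below `R`), the stack is cut to height `R` -/
private theorem Conv1_cut {s s' : State} (h : A.Step (s, s')) {R t0 : ℕ}
    (ht0 : ∀ r < R + 1, ∀ t ≥ t0, A.kap t r = A.kapInf r) (hs : t0 ≤ s.1) (hl : R < s.2.1.length)
    (hk : ∀ r < R, kAt s.2.1 r = A.kapInf r) (hne : kAt s.2.1 R ≠ A.kapInf R) :
    s'.2.1.length = R := by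
  have hmis : A.Mis s.1 s.2.1 R := by
    refine ⟨hl, ?_⟩
    rw [ht0 R (Nat.lt_succ_self _) _ hs]
    exact hne.symm
  rcases h with ⟨r, hm, hmin, he⟩ | ⟨hno, -, -, -⟩ | ⟨hno, -⟩
  · change s' = (s.1 + 1, s.2.1.take r, s.2.2) at he
    change A.Mis s.1 s.2.1 r at hm
    have hr1 : R ≤ r := by
      by_contra hr
      push Not at hr
      exact hm.2 ((ht0 r (by omega) _ hs).trans (hk r hr).symm)
    have hr2 : r ≤ R := by
      by_contra hr
      push Not at hr
      exact hmin R hr hmis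
    have hr : r = R := le_antisymm hr2 hr1
    subst hr
    subst he
    show (s.2.1.take r).length = r
    rw [List.length_take]
    exact min_eq_left hl.le
  · exact absurd hmis (hno R hl)
  · exact absurd hmis (hno R hl)

theorem conv {q : ℕ → State} (hs : ∀ i, A.Step (q i, q (i + 1))) (R : ℕ) :
    ∃ i0, ∀ i ≥ i0, R ≤ (q i).2.1.length ∧ (q i).2.1.take R = (q i0).2.1.take R ∧
      ∀ r < R, kAt (q i).2.1 r = A.kapInf r := by
  have hmono := seq_mono hs
  induction R with
  | zero =>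
    exact ⟨0, fun i _ => ⟨Nat.zero_le _, by simp, fun r hr => absurd hr (Nat.not_lt_zero _)⟩⟩
  | succ R ih =>
    obtain ⟨i0, h0⟩ := ih
    obtain ⟨t0, ht0⟩ := Conv1_bound (A := A) (R + 1)
    have hst : ∀ i, max i0 t0 ≤ i → t0 ≤ (q i).1 := fun i hi =>
      le_trans (le_trans (le_max_right _ _) hi) (hmono.1 i)
    have h0' : ∀ i, max i0 t0 ≤ i → R ≤ (q i).2.1.length ∧ ∀ r < R, kAt (q i).2.1 r = A.kapInf r :=
      fun i hi => ⟨(h0 i (le_trans (le_max_left _ _) hi)).1, (h0 i (le_trans (le_max_left _ _) hi)).2.2⟩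
    -- a good stage
    have hgood : ∃ i2, max i0 t0 ≤ i2 ∧ R + 1 ≤ (q i2).2.1.length ∧ kAt (q i2).2.1 R = A.kapInf R := by
      have hcaseA : ∀ i, max i0 t0 ≤ i → (q i).2.1.length = R →
          ∃ i2, max i0 t0 ≤ i2 ∧ R + 1 ≤ (q i2).2.1.length ∧ kAt (q i2).2.1 R = A.kapInf R := by
        intro i hi hl
        obtain ⟨h1, h2⟩ := Conv1_grow (hs i) ht0 (hst i hi) hl (h0' i hi).2
        exact ⟨i + 1, by omega, h1, h2⟩
      have hl := (h0' (max i0 t0) le_rfl).1
      rcases hl.eq_or_lt with hl | hl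
      · exact hcaseA _ le_rfl hl.symm
      · by_cases hk : kAt (q (max i0 t0)).2.1 R = A.kapInf R
        · exact ⟨max i0 t0, le_rfl, hl, hk⟩
        · have := Conv1_cut (hs (max i0 t0)) ht0 (hst _ le_rfl) hl (h0' _ le_rfl).2 hk
          exact hcaseA (max i0 t0 + 1) (Nat.le_succ _) this
    obtain ⟨i2, hi2, hl2, hk2⟩ := hgood
    have hk2' : ∀ r < R + 1, kAt (q i2).2.1 r = A.kapInf r := by
      intro r hr
      rcases Nat.lt_succ_iff_lt_or_eq.1 hr with h | h
      · exact (h0' i2 hi2).2 r h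
      · subst h
        exact hk2
    refine ⟨i2, fun i hi => ?_⟩
    induction i, hi using Nat.le_induction with
    | base => exact ⟨hl2, rfl, hk2'⟩
    | succ i hi ih =>
      obtain ⟨h1, h2, h3⟩ := ih
      obtain ⟨h4, h5, h6⟩ := Conv1_keep (hs i) ht0 (hst i (le_trans hi2 hi)) h1 h3
      exact ⟨h4, h5.trans h2, h6⟩

end Setup

end Pool.Agent.MP_fd2900_lc
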