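import Pool.Agent.Lib.MP_fd2900_lc.Conv

/-! coordinates of the solutions of the stable names -/

namespace Pool.Agent.MP_fd2900_lc

open Fr

namespace Setup

variable {A : Setup}

private theorem Coord1_sat (A : Setup) (a : ℕ) (y : A.M) :
    A.F.Sat2 A.b (0, [[(false, 0, [(2, 0), (0, a)])]]) y ↔ y = A.F.j a := by
  have key : ∀ z : List A.M, A.F.Holds A.b ([y] ++ z) [(false, 0, [(2, 0), (0, a)])] ↔
      y ≠ A.F.j a := by
    intro z
    have h1 : (([(2, 0), (0, a)] : List Tm).map (A.F.ev A.b ([y] ++ z))) = [y, A.F.j a] := by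
      simp [Fr.ev]
    constructor
    · intro h hy
      have h2 := h (false, 0, [(2, 0), (0, a)]) (List.mem_singleton.2 rfl)
      have h3 : A.F.RelE 0 [y, A.F.j a] ↔ false = true := by
        rw [← h1]; exact h2
      have h4 : A.F.RelE 0 [y, A.F.j a] := Or.inl ⟨rfl, y, by rw [← hy]⟩
      exact absurd (h3.1 h4) (by simp)
    · intro hy l hl
      rw [List.mem_singleton] at hl
      subst hl
      show A.F.RelE 0 (([(2, 0), (0, a)] : List Tm).map (A.F.ev A.b ([y] ++ z))) ↔ false = true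
      rw [h1]
      constructor
      · rintro (⟨-, x, hx⟩ | ⟨h0, -⟩)
        · simp only [List.cons.injEq, and_true] at hx
          exact absurd (hx.1.trans hx.2.symm) hy
        · exact absurd rfl h0
      · intro h; exact absurd h (by simp)
  constructor
  · rintro ⟨u, hu, h⟩
    have hu0 : u = [] := List.length_eq_zero_iff.1 hu
    subst hu0
    by_contra hne
    exact h _ (List.mem_singleton.2 rfl) ⟨[], (key []).2 hne⟩
  · intro hy
    refine ⟨[], rfl, fun l hl => ?_⟩
    have hl' : l = [(false, 0, [(2, 0), (0, a)])] := List.mem_singleton.1 hl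
    subst hl'
    rintro ⟨z, hz⟩
    exact (key z).1 hz hy

/-- the constants are in `NNs` -/
theorem const_mem (A : Setup) (a : ℕ) : A.F.j a ∈ NNs A.F A.b A.V := by
  refine ⟨(0, [[(false, 0, [(2, 0), (0, a)])]]), ⟨0, A.V0, ?_⟩, ?_, (Coord1_sat A a _).2 rfl⟩
  · intro l hl b hb t ht h1
    have hl' : l = [(false, 0, [(2, 0), (0, a)])] := List.mem_singleton.1 hl
    subst hl'
    have hb' : b = (false, 0, [(2, 0), (0, a)]) := List.mem_singleton.1 hb
    subst hb'
    have ht' : t = (2, 0) ∨ t = (0, a) := by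
      have ht2 : t ∈ ([(2, 0), (0, a)] : List Tm) := ht
      simpa using ht2
    rcases ht' with rfl | rfl
    · exact absurd h1 (by norm_num)
    · exact absurd h1 (by norm_num)
  · refine (Set.finite_singleton (A.F.j a)).subset (fun y hy => ?_)
    exact (Coord1_sat A a y).1 hy

theorem hExt_coord {δ : List Lit} {s s' : NmN} (h : A.HExt δ s s') (hw : WF s.1 s.2.1)
    (hs : ∀ v ∈ A.sol s.nm, ∀ y ∈ v, y ∈ NNs A.F A.b A.V) :
    ∀ v ∈ A.sol s'.nm, ∀ y ∈ v, y ∈ NNs A.F A.b A.V := by
  intro v hv y hy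
  have htk := (chain_take (Relation.ReflTransGen.single h) hw).2.2 v hv
  have hs' := hs _ htk
  have hlen : v.length = s'.1 := hv.1
  have hmain : ∀ m, s'.1 = s.1 + 1 → (∀ z, v.drop s.1 = [z] → z ∈ NNs A.F A.b A.V) →
      m = 0 → y ∈ NNs A.F A.b A.V := by
    intro m h1 h2 _
    rw [← List.take_append_drop s.1 v] at hy
    rcases List.mem_append.1 hy with hy | hy
    · exact hs' y hy
    · have hl : (v.drop s.1).length = 1 := by rw [List.length_drop]; omega
      obtain ⟨z, hz⟩ := List.length_eq_one_iff.1 hl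
      rw [hz, List.mem_singleton] at hy
      rw [hy]
      exact h2 z hz
  obtain ⟨a, N', ⟨-, he, -⟩ | ⟨-, -, he, -⟩⟩ := h
  · have h1 : s'.1 = s.1 + 1 := by rw [he]
    refine hmain 0 h1 (fun z hz => ?_) rfl
    have hE := (hv.2 (0, s.1, a, δ, ψ0) (by
      show _ ∈ s'.2.1
      rw [he]; exact List.mem_append_right _ (List.mem_singleton.2 rfl))).1 rfl
    have h2 : v.getD s.1 (A.F.j 0) = A.F.j a := hE.1
    have h3 : v.getD s.1 (A.F.j 0) = z := by
      rw [List.getD_eq_getElem?_getD]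
      have h4 : (v.drop s.1)[0]? = v[s.1]? := by rw [List.getElem?_drop]; simp
      rw [← h4, hz]; rfl
    rw [← h3, h2]
    exact const_mem A a
  · have h1 : s'.1 = s.1 + 1 := by rw [he]
    refine hmain 0 h1 (fun z hz => ?_) rfl
    have hE := (hv.2 (1, s.1, a, δ, ψ0) (by
      show _ ∈ s'.2.1
      rw [he]; exact List.mem_append_right _ (List.mem_singleton.2 rfl))).2.1 rfl
    have h2 : Exa a (fun y => A.F.Ex1 A.F.g0 (v.take s.1 ++ [y]) δ) := hE.1
    have h3 : A.F.Ex1 A.F.g0 (v.take (s.1 + 1)) δ := hE.2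
    have h4 : v.take (s.1 + 1) = v.take s.1 ++ [z] := by
      rw [List.take_of_length_le (by omega), ← hz, List.take_append_drop]
    rw [h4] at h3
    exact A.cl _ δ a z hs' h2 h3

theorem cExt_coord {r : ℕ} {s s' : NmN} (h : CExt r (A.kapInf r) s s') (hw : WF s.1 s.2.1)
    (hs : ∀ v ∈ A.sol s.nm, ∀ y ∈ v, y ∈ NNs A.F A.b A.V) :
    ∀ v ∈ A.sol s'.nm, ∀ y ∈ v, y ∈ NNs A.F A.b A.V := by
  intro v hv y hy
  have htk := (cExt_take (A := A) h hw).2.2 v hv
  have hs' := hs _ htk
  have hlen : v.length = s'.1 := hv.1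
  rcases h with ⟨-, he⟩ | ⟨K, hK, he⟩
  · have h1 : s'.1 = s.1 := by rw [he]
    rw [List.take_of_length_le (by omega)] at hs'
    exact hs' y hy
  · have h1 : s'.1 = s.1 + K := by rw [he]
    rw [← List.take_append_drop s.1 v] at hy
    rcases List.mem_append.1 hy with hy | hy
    · exact hs' y hy
    · have hE := (hv.2 (2, s.1, K, [], psi r) (by
        show _ ∈ s'.2.1
        rw [he]; exact List.mem_append_right _ (List.mem_singleton.2 rfl))).2.2 rfl
      have h2 : ∀ y ∈ (v.drop s.1).take K, A.F.Sat2 A.b (psi r) y := hE.2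
      rw [List.take_of_length_le (by rw [List.length_drop]; omega)] at h2
      have h3 : A.VN (nmψ r) ∧ {y | A.F.Sat2 A.b (psi r) y}.Finite := by
        by_contra hcon
        unfold kapInf at hK
        rw [if_neg hcon] at hK
        exact absurd hK (by omega)
      obtain ⟨⟨d, hd, hu⟩, hfin⟩ := h3
      exact ⟨psi r, ⟨d, hd, hu _ (List.mem_singleton.2 rfl)⟩, hfin, h2 y hy⟩

theorem coord {p : ℕ → NmN} (h0 : p 0 = base) (hok : ∀ r, A.Ok (p r))
    (hc : ∀ r, ∃ (δ : List Lit) (n1 : NmN), Relation.ReflTransGen (A.HExt δ) (p r) n1 ∧ A.Ok n1 ∧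
        CExt r (A.kapInf r) n1 (p (r + 1))) (r : ℕ) :
    ∀ v ∈ A.sol (p r).nm, ∀ y ∈ v, y ∈ NNs A.F A.b A.V := by
  induction r with
  | zero =>
    intro v hv y hy
    have hl : v.length = (p 0).1 := hv.1
    rw [h0] at hl
    have hv0 : v = [] := List.length_eq_zero_iff.1 hl
    rw [hv0] at hy
    exact absurd hy (by simp)
  | succ r ih =>
    obtain ⟨δ, n1, hch, hok1, hce⟩ := hc r
    have hn1 : ∀ v ∈ A.sol n1.nm, ∀ y ∈ v, y ∈ NNs A.F A.b A.V := by
      clear hce hok1
      induction hch with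
      | refl => exact ih
      | tail h1 h2 ih2 => exact hExt_coord h2 (chain_take h1 (hok r).1).1 ih2
    exact cExt_coord hce hok1.1 hn1

end Setup

end Pool.Agent.MP_fd2900_lc
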