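import Pool.Agent.Lib.MP_fd2900_lc.Coord1

namespace Pool.Agent.MP_fd2900_lc

open Fr

namespace Setup

variable {A : Setup}

private theorem Coord2_exa {T : Type} {P : T → Prop} (hf : {y | P y}.Finite) :
    Exa {y | P y}.ncard P := by
  classical
  constructor
  · refine ⟨hf.toFinset.toList, ?_, Finset.nodup_toList _, ?_⟩
    · rw [Finset.length_toList, Set.ncard_eq_toFinset_card _ hf]
    · intro y hy
      rw [Finset.mem_toList, Set.Finite.mem_toFinset] at hy
      exact hy
  · rintro ⟨Y, hY, hn, hP⟩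
    have h1 : Y.toFinset ⊆ hf.toFinset := by
      intro y hy
      rw [List.mem_toFinset] at hy
      rw [Set.Finite.mem_toFinset]
      exact hP y hy
    have h2 := Finset.card_le_card h1
    rw [List.toFinset_card_of_nodup hn, hY, ← Set.ncard_eq_toFinset_card _ hf] at h2
    omega

private theorem Coord2_ev {S : Type} (F : Fr S) (g : ℕ → S) (v w : List S) (t : Tm)
    (h : ∀ x, v.getD x (F.j 0) = w.getD x (F.j 0) ∨ t.2 ≠ x) : F.ev g v t = F.ev g w t := by
  unfold Fr.ev
  split_ifs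
  · rfl
  · rfl
  · rcases h t.2 with h | h
    · exact h
    · exact absurd rfl h

private theorem Coord2_holds {S : Type} (F : Fr S) (g : ℕ → S) (v w : List S) (δ : List Lit)
    (h : ∀ l ∈ δ, ∀ t ∈ l.2.2, v.getD t.2 (F.j 0) = w.getD t.2 (F.j 0)) :
    F.Holds g v δ ↔ F.Holds g w δ := by
  unfold Fr.Holds
  refine forall₂_congr fun l hl => ?_
  unfold Fr.hold
  have : l.2.2.map (F.ev g v) = l.2.2.map (F.ev g w) := by
    refine List.map_congr_left fun t ht => Coord2_ev F g v w t fun x => ?_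
    by_cases hx : t.2 = x
    · left; rw [← hx]; exact h l hl t ht
    · right; exact hx
  rw [this]

private theorem Coord2_getD {S : Type} (v : List S) (d : S) (x : ℕ) :
    (v ++ [d]).getD x d = v.getD x d := by
  rcases lt_or_ge x v.length with h | h
  · exact List.getD_append _ _ _ _ h
  · rw [List.getD_append_right _ _ _ _ h, List.getD_eq_default (hn := h)]
    rcases Nat.eq_zero_or_pos (x - v.length) with h1 | h1
    · rw [h1]; rfl
    · obtain ⟨k, hk⟩ : ∃ k, x - v.length = k + 1 := ⟨x - v.length - 1, by omega⟩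
      rw [hk]
      simp

private theorem Coord2_step {v : List A.M} (hv : ∀ y ∈ v, y ∈ NNs A.F A.b A.V) {δ : List Lit}
    (h : A.F.Ex1 A.F.g0 v δ) :
    ∃ y ∈ NNs A.F A.b A.V, A.F.Ex1 A.F.g0 (v ++ [y]) δ := by
  have hex : ∃ y, A.F.Ex1 A.F.g0 (v ++ [y]) δ := by
    obtain ⟨w, hw⟩ := h
    cases w with
    | nil =>
      refine ⟨A.F.j 0, [], ?_⟩
      rw [List.append_nil] at hw ⊢
      exact (Coord2_holds A.F _ _ _ _ (fun l _ t _ => Coord2_getD v (A.F.j 0) t.2)).2 hw
    | cons y w => exact ⟨y, w, by rwa [List.append_assoc, List.singleton_append]⟩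
  rcases A.minl v δ hex with hf | ⟨a, ha⟩
  · obtain ⟨y, hy⟩ := hex
    exact ⟨y, A.cl v δ _ y hv (Coord2_exa hf) hy, hy⟩
  · exact ⟨A.F.j a, const_mem A a, ha⟩

private theorem Coord2_many {v : List A.M} (hv : ∀ y ∈ v, y ∈ NNs A.F A.b A.V) {δ : List Lit}
    (h : A.F.Ex1 A.F.g0 v δ) (m : ℕ) :
    ∃ z : List A.M, z.length = m ∧ (∀ y ∈ z, y ∈ NNs A.F A.b A.V) ∧
      A.F.Ex1 A.F.g0 (v ++ z) δ := by
  induction m with
  | zero => exact ⟨[], rfl, by simp, by rwa [List.append_nil]⟩
  | succ m ih =>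
    obtain ⟨z, hz, hz1, hz2⟩ := ih
    obtain ⟨y, hy, hy2⟩ := Coord2_step (v := v ++ z) (by
      intro y hy
      rcases List.mem_append.1 hy with h | h
      · exact hv y h
      · exact hz1 y h) hz2
    refine ⟨z ++ [y], by simp [hz], ?_, by rwa [← List.append_assoc]⟩
    intro x hx
    rcases List.mem_append.1 hx with h | h
    · exact hz1 x h
    · rw [List.mem_singleton] at h
      rw [h]; exact hy

/-- `NNs` is existentially closed -/
theorem ex1_NNs {v : List A.M} (hv : ∀ y ∈ v, y ∈ NNs A.F A.b A.V) {δ : List Lit}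
    (h : A.F.Ex1 A.F.g0 v δ) :
    ∃ z : List A.M, (∀ y ∈ z, y ∈ NNs A.F A.b A.V) ∧ A.F.Holds A.F.g0 (v ++ z) δ := by
  have hb : ∃ m : ℕ, ∀ l ∈ δ, ∀ t ∈ l.2.2, t.2 < m := by
    clear h
    induction δ with
    | nil => exact ⟨0, by simp⟩
    | cons l δ ih =>
      obtain ⟨m, hm⟩ := ih
      obtain ⟨m', hm'⟩ : ∃ m' : ℕ, ∀ t ∈ l.2.2, t.2 < m' := by
        generalize l.2.2 = ts
        induction ts with
        | nil => exact ⟨0, by simp⟩
        | cons t ts ih =>
          obtain ⟨k, hk⟩ := ih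
          refine ⟨max k (t.2 + 1), ?_⟩
          intro s hs
          rcases List.mem_cons.1 hs with h | h
          · rw [h]; exact lt_of_lt_of_le (Nat.lt_succ_self _) (le_max_right _ _)
          · exact lt_of_lt_of_le (hk s h) (le_max_left _ _)
      refine ⟨max m m', ?_⟩
      intro l' hl' t ht
      rcases List.mem_cons.1 hl' with h | h
      · rw [h] at ht
        exact lt_of_lt_of_le (hm' t ht) (le_max_right _ _)
      · exact lt_of_lt_of_le (hm l' h t ht) (le_max_left _ _)
  obtain ⟨m, hm⟩ := hb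
  obtain ⟨z, hz, hz1, w, hw⟩ := Coord2_many hv h m
  refine ⟨z, hz1, ?_⟩
  refine (Coord2_holds A.F _ _ _ _ (fun l hl t ht => ?_)).1 hw
  refine List.getD_append _ _ _ _ ?_
  have := hm l hl t ht
  rw [List.length_append]
  omega

end Setup

end Pool.Agent.MP_fd2900_lc
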