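import Pool.Agent.Lib.MP_fd2900_lc.Trans1

namespace Pool.Agent.MP_fd2900_lc

open FirstOrder FirstOrder.Language Fr

variable {ar : ℕ → ℕ}

/-- the terms which represent the variables of the formula -/
private def tau (d k l : ℕ) : ((ℕ ⊕ Fin d) ⊕ Unit) ⊕ (Fin k ⊕ Fin l) → Tm
  | Sum.inl (Sum.inl (Sum.inl a)) => (0, a)
  | Sum.inl (Sum.inl (Sum.inr i)) => (1, i)
  | Sum.inl (Sum.inr _) => (2, 0)
  | Sum.inr (Sum.inl i) => (2, 1 + i)
  | Sum.inr (Sum.inr i) => (2, 1 + k + i)

private theorem ev_tau {M : Type} [(Lg ar).Structure M] (j b : ℕ → M) (d k l : ℕ) (y : M)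
    (u : Fin k → M) (z : List M) :
    (fun i => (frM ar M j).ev b ((y :: List.ofFn u) ++ z) (tau d k l i)) =
      Sum.elim (Sum.elim (Sum.elim j (fun i : Fin d => b i)) fun _ => y)
        (Sum.elim u (fun i : Fin l => z.getD i (j 0))) := by
  funext i
  rcases i with ((a | i) | x) | (i | i)
  · simp [tau, Fr.ev, frM]
  · simp [tau, Fr.ev, frM]
  · simp [tau, Fr.ev]
  · have hi : (i : ℕ) < (List.ofFn u).length := by simp
    have h1 : (1 + (i : ℕ)) = (i : ℕ) + 1 := by omega
    simp only [tau, Fr.ev, Sum.elim_inr, Sum.elim_inl]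
    rw [h1]
    simp [List.getD_eq_getElem?_getD, List.getElem?_append]
  · have h1 : (1 + k + (i : ℕ)) = (k + (i : ℕ)) + 1 := by omega
    simp only [tau, Fr.ev, Sum.elim_inr]
    rw [h1]
    simp [List.getD_eq_getElem?_getD, List.getElem?_append, frM]

theorem exists_psi {M : Type} [(Lg ar).Structure M] (j b : ℕ → M) (d : ℕ) (e : M)
    (h : AlgEA (L := Lg ar) j (fun k : Fin d => b k) e) :
    ∃ ψ : Psi, UGψ d ψ ∧ {y | (frM ar M j).Sat2 b ψ y}.Finite ∧ (frM ar M j).Sat2 b ψ e := by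
  obtain ⟨k, l, θ, hθ, he, hfin⟩ := h
  obtain ⟨Λ, hΛ, hD⟩ := (exists_dnf θ hθ (tau d k l)).2
  have key : ∀ y : M, (∃ u : Fin k → M, ∀ v : Fin l → M,
      θ.Realize (Sum.elim (Sum.elim (Sum.elim j (fun i : Fin d => b i)) fun _ => y)
        (Sum.elim u v))) ↔ (frM ar M j).Sat2 b (k, Λ) y := by
    intro y
    have key1 : ∀ u : Fin k → M, (∀ v : Fin l → M,
        θ.Realize (Sum.elim (Sum.elim (Sum.elim j (fun i : Fin d => b i)) fun _ => y)
          (Sum.elim u v))) ↔ ∀ l ∈ Λ, ¬ (frM ar M j).Ex1 b (y :: List.ofFn u) l := by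
      intro u
      constructor
      · rintro hv δ hδ ⟨z, hz⟩
        have h1 := (hD M j b ((y :: List.ofFn u) ++ z)).2 ⟨δ, hδ, hz⟩
        rw [ev_tau] at h1
        exact h1 (hv _)
      · intro hv v
        by_contra hc
        have h2 : (Sum.elim u (fun i : Fin l => (List.ofFn v).getD i (j 0))) = Sum.elim u v := by
          congr 1
          funext i
          simp [List.getD_eq_getElem?_getD]
        have h1 := (hD M j b ((y :: List.ofFn u) ++ List.ofFn v)).1 (by
          rw [ev_tau, h2]; exact hc)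
        obtain ⟨δ, hδ, hz⟩ := h1
        exact hv δ hδ ⟨_, hz⟩
    constructor
    · rintro ⟨u, hu⟩
      exact ⟨List.ofFn u, by simp, (key1 u).1 hu⟩
    · rintro ⟨u, hul, hu⟩
      simp only at hul
      subst hul
      refine ⟨fun i => u.get i, (key1 _).2 ?_⟩
      rw [List.ofFn_get]
      exact hu
  refine ⟨(k, Λ), ?_, ?_, (key e).1 he⟩
  · intro δ hδ a ha t ht ht1
    obtain ⟨i, rfl⟩ := hΛ δ hδ a ha t ht
    rcases i with ((a | i) | x) | (i | i)
    · simp [tau] at ht1
    · simp [tau]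
    · simp [tau] at ht1
    · simp [tau] at ht1
    · simp [tau] at ht1
  · refine hfin.subset ?_
    intro y hy
    exact (key y).2 hy

end Pool.Agent.MP_fd2900_lc
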