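import Pool.Agent.Lib.MP_fd2900_lc.SigLe
import Pool.Agent.Lib.MP_fd2900_lc.Basis
import Pool.Agent.Lib.MP_fd2900_lc.Trans

namespace Pool.Agent.MP_fd2900_lc

open FirstOrder FirstOrder.Language Fr

private theorem core2_ofFn {M : Type} (v : List M) (y : M) :
    (List.ofFn fun k : Fin (v.length + 1) => if h : k.1 < v.length then v.get ⟨k.1, h⟩ else y) =
      v ++ [y] := by
  apply List.ext_getElem
  · simp
  · intro n h1 h2
    rw [List.getElem_ofFn]
    by_cases h : n < v.length
    · rw [List.getElem_append_left h]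
      simp [h]
    · have hn : n = v.length := by
        simp at h2
        omega
      subst hn
      simp

/-- the relabelling -/
private def core2_map (n : ℕ) : ℕ ⊕ (Fin 0 ⊕ Fin (n + 1)) → (ℕ ⊕ Fin n) ⊕ Unit
  | Sum.inl a => Sum.inl (Sum.inl a)
  | Sum.inr (Sum.inl x) => x.elim0
  | Sum.inr (Sum.inr k) => if h : k.1 < n then Sum.inl (Sum.inr ⟨k.1, h⟩) else Sum.inr ()

theorem core2_def {ar : ℕ → ℕ} {M : Type} [(Lg ar).Structure M] (j : ℕ → M) (v : List M)
    (δ : List Lit) :
    ∃ (φ : (Lg ar).Formula ((ℕ ⊕ Fin v.length) ⊕ Unit)), ∀ y,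
      φ.Realize (Sum.elim (Sum.elim j fun k => v.get k) fun _ => y) ↔
        (frM ar M j).Ex1 (frM ar M j).g0 (v ++ [y]) δ := by
  obtain ⟨φ, hφ⟩ := UDl.ex10 (ar := ar) 0 (v.length + 1) δ
  refine ⟨φ.relabel (core2_map v.length), fun y => ?_⟩
  rw [Formula.realize_relabel]
  have h := hφ M j (Sum.elim (fun x : Fin 0 => x.elim0)
    (fun k : Fin (v.length + 1) => if h : k.1 < v.length then v.get ⟨k.1, h⟩ else y))
  have e1 : ((Sum.elim (Sum.elim j fun k => v.get k) fun _ => y) ∘ core2_map v.length : _ → M) =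
      Sum.elim j (Sum.elim (fun x : Fin 0 => x.elim0)
        (fun k : Fin (v.length + 1) => if h : k.1 < v.length then v.get ⟨k.1, h⟩ else y)) := by
    funext x
    rcases x with a | x | k
    · rfl
    · exact x.elim0
    · by_cases hk : k.1 < v.length
      · simp [core2_map, hk]
      · simp [core2_map, hk]
  rw [e1, h]
  simp only [Sum.elim_inr]
  rw [core2_ofFn]

end Pool.Agent.MP_fd2900_lc
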