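import Pool.Agent.Lib.MP_fd2900_lc.EAb

/-! coded `Σ⁰₂` formulas are exists-forall definable -/

namespace Pool.Agent.MP_fd2900_lc

open FirstOrder FirstOrder.Language Fr

variable {ar : ℕ → ℕ}

/-- generics become variables, variables are shifted by `d` -/
private def EAd_T (d : ℕ) (t : Tm) : Tm :=
  if t.1 = 0 then t else if t.1 = 1 then (2, t.2) else (2, d + t.2)

private def EAd_L (d : ℕ) (l : List Lit) : List Lit :=
  l.map fun a => (a.1, a.2.1, a.2.2.map (EAd_T d))

private theorem EAd_ev {S : Type} (F : Fr S) (b : ℕ → S) (d : ℕ) (bs v : List S)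
    (hbs : bs.length = d) (hb : ∀ i < d, bs.getD i (F.j 0) = b i) (t : Tm)
    (ht : t.1 = 1 → t.2 < d) : F.ev F.g0 (bs ++ v) (EAd_T d t) = F.ev b v t := by
  obtain ⟨k, x⟩ := t
  unfold EAd_T
  by_cases h0 : k = 0
  · simp [Fr.ev, h0]
  · by_cases h1 : k = 1
    · subst h1
      have hx : x < d := ht rfl
      simp only [one_ne_zero, if_false, if_true, Fr.ev]
      rw [if_neg (by norm_num), if_neg (by norm_num), List.getD_append _ _ _ _ (by omega), hb x hx]
    · simp only [h0, h1, if_false, Fr.ev]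
      rw [if_neg (by norm_num), if_neg (by norm_num), List.getD_append_right _ _ _ _ (by omega)]
      congr 1
      omega

private theorem EAd_ex1 {S : Type} (F : Fr S) (b : ℕ → S) (d : ℕ) (bs v : List S)
    (hbs : bs.length = d) (hb : ∀ i < d, bs.getD i (F.j 0) = b i) (l : List Lit)
    (hl : ∀ a ∈ l, ∀ t ∈ a.2.2, t.1 = 1 → t.2 < d) :
    F.Ex1 F.g0 (bs ++ v) (EAd_L d l) ↔ F.Ex1 b v l := by
  unfold Fr.Ex1
  refine exists_congr fun z => ?_
  unfold Fr.Holds EAd_L
  rw [List.forall_mem_map]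
  refine forall₂_congr fun a ha => ?_
  unfold Fr.hold
  have : (a.2.2.map (EAd_T d)).map (F.ev F.g0 (bs ++ v ++ z)) = a.2.2.map (F.ev b (v ++ z)) := by
    rw [List.map_map]
    refine List.map_congr_left fun t ht => ?_
    rw [Function.comp_apply, List.append_assoc, EAd_ev F b d bs (v ++ z) hbs hb t (hl a ha t ht)]
  simp only
  rw [this]

private theorem EAd_one {M : Type} [(Lg ar).Structure M] (j b : ℕ → M) (d p : ℕ) (l : List Lit)
    (hl : ∀ a ∈ l, ∀ t ∈ a.2.2, t.1 = 1 → t.2 < d) :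
    Ed (L := Lg ar) (Sum.elim j (fun k : Fin d => b k)) (fun v : Unit ⊕ Fin p → M =>
      (frM ar M j).Ex1 b (v (Sum.inl ()) :: List.ofFn fun i => v (Sum.inr i)) l) := by
  have h1 := Ed_ex1 (ar := ar) (c := Sum.elim j (fun k : Fin d => b k)) j
    (fun a => ⟨Sum.inl a, rfl⟩) (EAd_L d l) (d + (p + 1))
  let f : Fin (d + (p + 1)) → (ℕ ⊕ Fin d) ⊕ (Unit ⊕ Fin p) :=
    Fin.addCases (fun i => Sum.inl (Sum.inr i))
      (fun i => Sum.inr (Fin.cases (Sum.inl ()) (fun i => Sum.inr i) i))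
  have h2 := h1.subst f
  have e : (fun v : Unit ⊕ Fin p → M => (frM ar M j).Ex1 (frM ar M j).g0
      (List.ofFn fun i => Sum.elim (Sum.elim j fun k : Fin d => b k) v (f i)) (EAd_L d l)) =
      (fun v : Unit ⊕ Fin p → M =>
      (frM ar M j).Ex1 b (v (Sum.inl ()) :: List.ofFn fun i => v (Sum.inr i)) l) := by
    funext v
    have e1 : (List.ofFn fun i => Sum.elim (Sum.elim j fun k : Fin d => b k) v (f i)) =
        (List.ofFn fun k : Fin d => b k) ++
          (v (Sum.inl ()) :: List.ofFn fun i => v (Sum.inr i)) := by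
      have e2 : (v (Sum.inl ()) :: List.ofFn fun i => v (Sum.inr i)) =
          List.ofFn (fun i : Fin (p + 1) =>
            v (Fin.cases (Sum.inl ()) (fun i => Sum.inr i) i : Unit ⊕ Fin p)) := by
        rw [List.ofFn_succ]
        simp
      rw [e2, ← List.ofFn_fin_append]
      congr 1
      funext k
      refine Fin.addCases (fun i => ?_) (fun i => ?_) k
      · simp [f]
      · simp [f]
    rw [e1]
    refine propext (EAd_ex1 (frM ar M j) b d _ _ (by simp) ?_ l hl)
    intro i hi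
    rw [List.getD_eq_getElem _ _ (by simpa using hi)]
    simp
  rw [← e]
  exact h2

theorem algEA_of_psi {M : Type} [(Lg ar).Structure M] (j b : ℕ → M) (d : ℕ) (e : M) (ψ : Psi)
    (hU : UGψ d ψ) (hf : {y | (frM ar M j).Sat2 b ψ y}.Finite) (he : (frM ar M j).Sat2 b ψ e) :
    AlgEA (L := Lg ar) j (fun k : Fin d => b k) e := by
  obtain ⟨p, Λ⟩ := ψ
  have h1 : EAd (L := Lg ar) (Sum.elim j (fun k : Fin d => b k)) (fun v : Unit ⊕ Fin p → M =>
      ∀ i : Fin Λ.length, ¬ (frM ar M j).Ex1 b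
        (v (Sum.inl ()) :: List.ofFn fun i => v (Sum.inr i)) (Λ.get i)) := by
    refine EAd.ball fun i => EAd.of_not_e (EAd_one j b d p (Λ.get i) ?_)
    exact hU (Λ.get i) (List.get_mem _ _)
  have h2 := EAd.ex h1
  have e2 : ∀ y : M, (∃ w : Fin p → M, ∀ i : Fin Λ.length, ¬ (frM ar M j).Ex1 b
      (y :: List.ofFn w) (Λ.get i)) ↔ (frM ar M j).Sat2 b (p, Λ) y := by
    intro y
    unfold Fr.Sat2
    constructor
    · rintro ⟨w, hw⟩
      refine ⟨List.ofFn w, by simp, ?_⟩
      intro l hl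
      obtain ⟨i, rfl⟩ := List.get_of_mem hl
      exact hw i
    · rintro ⟨u, hu, hw⟩
      simp only at hu
      subst hu
      refine ⟨fun k => u.get k, fun i => ?_⟩
      rw [List.ofFn_get]
      exact hw _ (List.get_mem _ _)
  refine algEA_of_EAd (R := fun v : Unit → M => ∃ w : Fin p → M, ∀ i : Fin Λ.length,
    ¬ (frM ar M j).Ex1 b (v () :: List.ofFn w) (Λ.get i)) ?_ ((e2 e).2 he) ?_
  · exact h2
  · simp only [e2]
    exact hf

end Pool.Agent.MP_fd2900_lc
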