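import Pool.Agent.Lib.MP_fd2900_lc.Defs

namespace Pool.Agent.MP_fd2900_lc

/-- the elements that satisfy a `Σ⁰₂` formula (with allowed generics) with finitely many solutions -/
def NNs {M : Type} (F : Fr M) (b : ℕ → M) (V : ℕ → Prop) : Set M :=
  {e | ∃ ψ : Psi, (∃ d, V d ∧ UGψ d ψ) ∧ {y | F.Sat2 b ψ y}.Finite ∧ F.Sat2 b ψ e}

/-- the data the construction works with -/
structure Setup where
  M : Type
  F : Fr M
  b : ℕ → M
  V : ℕ → Prop
  V0 : V 0
  minl : ∀ (v : List M) (δ : List Lit), (∃ y, F.Ex1 F.g0 (v ++ [y]) δ) →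
    {y | F.Ex1 F.g0 (v ++ [y]) δ}.Finite ∨ ∃ a, F.Ex1 F.g0 (v ++ [F.j a]) δ
  cl : ∀ (v : List M) (δ : List Lit) (k : ℕ) (y : M), (∀ x ∈ v, x ∈ NNs F b V) →
    Fr.Exa k (fun y => F.Ex1 F.g0 (v ++ [y]) δ) → F.Ex1 F.g0 (v ++ [y]) δ → y ∈ NNs F b V
  inj : Function.Injective F.j
  sigLe : Sig 3 (fun q : Nm × Ext × ℕ => (∃ d, V d ∧ UG d q.1) ∧ F.Le b q.1 q.2.1 q.2.2)

/-- no extra condition -/
def x0 : Ext := (0, 0, [])

/-- a default formula -/
def ψ0 : Psi := (0, [])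

/-- names with counts `(n, entries, N)` -/
abbrev NmN : Type := ℕ × List Ent × ℕ

instance instPcNmN : Primcodable NmN := inferInstance
instance instPcStk : Primcodable (List (ℕ × NmN)) := inferInstance

/-- the starting name -/
def base : NmN := (0, [], 1)

/-- entries only look at the first `n` variables -/
def WF (n : ℕ) (es : List Ent) : Prop :=
  ∀ e ∈ es, (e.1 = 0 ∨ e.1 = 1 → e.2.1 + 1 ≤ n) ∧ (e.1 = 2 → e.2.1 + e.2.2.1 ≤ n)

/-- all literals of `δ` only have variables `< n` (and no parameters and generics) -/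
def VarsLt (n : ℕ) (δ : List Lit) : Prop := ∀ l ∈ δ, ∀ t ∈ l.2.2, t.1 = 2 ∧ t.2 < n

/-- the literal with sign `s` of the atomic formula `α = (i, [x₁, …])` -/
def litOf (s : Bool) (α : ℕ × List ℕ) : Lit := (s, α.1, α.2.map fun x => (2, x))

/-- the atomic formula number `u` -/
def atm (u : ℕ) : ℕ × List ℕ := (Encodable.decode (α := ℕ × List ℕ) u).getD (0, [])

/-- the formula number `r` -/
def psi (r : ℕ) : Psi := (Encodable.decode (α := Psi) r).getD ψ0

/-- the name whose solutions are those of the formula number `r` -/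
def nmψ (r : ℕ) : Nm := (1, [(2, 0, 1, [], psi r)])

/-- the name in a name with count -/
def NmN.nm (s : NmN) : Nm := (s.1, s.2.1)

/-- adding all solutions of the formula number `r` (`κ = K + 1`), or nothing (`κ = 0`) -/
def CExt (r κ : ℕ) (s s' : NmN) : Prop :=
  (κ = 0 ∧ s' = (s.1, s.2.1 ++ [(3, s.1, 0, [], ψ0)], s.2.2)) ∨
    ∃ K, κ = K + 1 ∧ s' = (s.1 + K, s.2.1 ++ [(2, s.1, K, [], psi r)], s.2.2 * K.factorial)

namespace Setup

variable (A : Setup)

/-- valid names -/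
def VN (p : Nm) : Prop := ∃ d, A.V d ∧ UG d p

/-- at most `k` solutions -/
def le (p : Nm) (x : Ext) (k : ℕ) : Prop := A.VN p ∧ A.F.Le A.b p x k

def sol (p : Nm) : Set (List A.M) := {v | A.F.Sol A.b p v}

/-- the count is exact -/
def Exact (s : NmN) : Prop := (A.sol s.nm).encard = (s.2.2 : ℕ∞)

/-- certificate that (if `s` is exact) some solution of `s` satisfies `∃ z δ` -/
def Good (δ : List Lit) (s : NmN) : Prop := 1 ≤ s.2.2 ∧ A.le s.nm (1, 0, δ) (s.2.2 - 1)

/-- adding a new variable to a name by a certain extension -/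
def HExt (δ : List Lit) (s s' : NmN) : Prop :=
  ∃ a N', (1 ≤ N' ∧ s' = (s.1 + 1, s.2.1 ++ [(0, s.1, a, δ, ψ0)], N') ∧
      ∃ N'', N' + N'' = s.2.2 ∧ A.le s'.nm x0 N' ∧ A.le s.nm (2, a, δ) N'') ∨
    (1 ≤ N' ∧ 1 ≤ a ∧ s' = (s.1 + 1, s.2.1 ++ [(1, s.1, a, δ, ψ0)], a * N') ∧
      ∃ N'', N' + N'' = s.2.2 ∧ A.le s'.nm x0 (a * N') ∧ A.le s.nm (3, a, δ) N'')

/-- a `Σ⁰₂` relation whose negated projection is `le` for the formulas `psi r` -/
noncomputable def Qw : (ℕ × ℕ) × ℕ → Prop := by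
  classical
  exact if h : ∃ Q : (ℕ × ℕ) × ℕ → Prop, Sig 2 Q ∧ ∀ a, A.le (nmψ a.1) x0 a.2 ↔ ∃ m, ¬ Q (a, m) then
    h.choose else fun _ => True

/-- at stage `t` it is seen that `psi r` has at most `K` solutions -/
def Seen (t r K : ℕ) : Prop := K < t ∧ ∃ w < t, ¬ A.Qw ((r, K), w)

/-- the bound (plus one) for the number of solutions of `psi r` seen at stage `t` -/
noncomputable def kap (t r : ℕ) : ℕ := by
  classical
  exact if h : ∃ K, A.Seen t r K then Nat.find h + 1 else 0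

/-- the true value -/
noncomputable def kapInf (r : ℕ) : ℕ := by
  classical
  exact if A.VN (nmψ r) ∧ {y | A.F.Sat2 A.b (psi r) y}.Finite then
    {y | A.F.Sat2 A.b (psi r) y}.ncard + 1 else 0

end Setup

/-- states: stage, stack of (bound, name with count), committed literals -/
abbrev State : Type := ℕ × List (ℕ × NmN) × List Lit

instance instPcState : Primcodable State := inferInstance

/-- the name at height `r` of a stack -/
def nmAt (segs : List (ℕ × NmN)) (r : ℕ) : NmN :=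
  if r = 0 then base else (segs.getD (r - 1) (0, base)).2

/-- the bound recorded for the formula number `r` -/
def kAt (segs : List (ℕ × NmN)) (r : ℕ) : ℕ := (segs.getD r (0, base)).1

/-- `δ` decides the atomic formulas of number `< t` with all variables `< n` -/
def Dec (t n : ℕ) (δ : List Lit) : Prop :=
  ∀ u < t, (∀ x ∈ (atm u).2, x < n) → litOf true (atm u) ∈ δ ∨ litOf false (atm u) ∈ δ

namespace Setup

variable (A : Setup)

/-- the bound recorded for formula number `r` is not the current one -/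
def Mis (t : ℕ) (segs : List (ℕ × NmN)) (r : ℕ) : Prop := r < segs.length ∧ A.kap t r ≠ kAt segs r

/-- the stack is cut back to the first wrong bound -/
def StepA (s s' : State) : Prop :=
  ∃ r, A.Mis s.1 s.2.1 r ∧ (∀ r' < r, ¬ A.Mis s.1 s.2.1 r') ∧ s' = (s.1 + 1, s.2.1.take r, s.2.2)

/-- waiting until a wrong bound is seen -/
def StepB (s s' : State) : Prop :=
  (∀ r < s.2.1.length, ¬ A.Mis s.1 s.2.1 r) ∧ s.1 < s'.1 ∧ s'.2 = s.2 ∧
    ∃ r < s.2.1.length, A.Mis s'.1 s.2.1 r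

/-- a new segment -/
def StepC (s s' : State) : Prop :=
  (∀ r < s.2.1.length, ¬ A.Mis s.1 s.2.1 r) ∧
    ∃ (n1 n2 : NmN) (ε : List Lit),
      s' = (s.1 + 1, s.2.1 ++ [(A.kap s.1 s.2.1.length, n2)], s.2.2 ++ ε) ∧
      Relation.ReflTransGen (A.HExt s.2.2) (nmAt s.2.1 s.2.1.length) n1 ∧
      CExt s.2.1.length (A.kap s.1 s.2.1.length) n1 n2 ∧
      VarsLt n1.1 s.2.2 ∧ VarsLt n2.1 ε ∧ Dec s.1 n2.1 (s.2.2 ++ ε) ∧
      ∀ r < s.2.1.length + 2, A.Good (s.2.2 ++ ε) (nmAt (s.2.1 ++ [(A.kap s.1 s.2.1.length, n2)]) r)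

def Step (q : State × State) : Prop := A.StepA q.1 q.2 ∨ A.StepB q.1 q.2 ∨ A.StepC q.1 q.2

/-- the invariant -/
def Inv (s : State) : Prop :=
  (∀ r < s.2.1.length, (∃ t, A.kap t r = kAt s.2.1 r) ∧
    ∃ (δ : List Lit) (n1 : NmN), Relation.ReflTransGen (A.HExt δ) (nmAt s.2.1 r) n1 ∧
      CExt r (kAt s.2.1 r) n1 (nmAt s.2.1 (r + 1))) ∧
  (∀ r ≤ s.2.1.length, A.Good s.2.2 (nmAt s.2.1 r)) ∧
  (∃ n, VarsLt n s.2.2)

/-- the starting state -/
def s0 : State := (0, [], [])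

end Setup

end Pool.Agent.MP_fd2900_lc
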