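import Pool.Agent.Lib.MP_fd2900_lc.EAc
import Pool.Agent.Lib.MP_fd2900_lc.EAd
import Pool.Agent.Lib.MP_fd2900_lc.SetupDefs
import Pool.Agent.Lib.MP_fd2900_lc.Trans

/-! `NNs` is the set of the exists-forall algebraic elements; the closure property needed in `Setup` -/

namespace Pool.Agent.MP_fd2900_lc

open FirstOrder FirstOrder.Language Fr

variable {ar : ℕ → ℕ}

theorem mem_NNs_iff {M : Type} [(Lg ar).Structure M] (j b : ℕ → M) (V : ℕ → Prop) (e : M) :
    e ∈ NNs (frM ar M j) b V ↔ ∃ d, V d ∧ AlgEA (L := Lg ar) j (fun k : Fin d => b k) e := by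
  constructor
  · rintro ⟨ψ, ⟨d, hd, hU⟩, hf, he⟩
    exact ⟨d, hd, algEA_of_psi j b d e ψ hU hf he⟩
  · rintro ⟨d, hd, h⟩
    obtain ⟨ψ, hU, hf, he⟩ := exists_psi j b d e h
    exact ⟨ψ, ⟨d, hd, hU⟩, hf, he⟩

private theorem EAe_depth {M : Type} [(Lg ar).Structure M] (j b : ℕ → M) (V : ℕ → Prop) (hV0 : V 0)
    (v : List M) (hv : ∀ x ∈ v, x ∈ NNs (frM ar M j) b V) :
    ∃ d, V d ∧ ∀ x ∈ v, AlgEA (L := Lg ar) j (fun k : Fin d => b k) x := by
  induction v with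
  | nil => exact ⟨0, hV0, by simp⟩
  | cons a v ih =>
    obtain ⟨d, hd, h⟩ := ih fun x hx => hv x (List.mem_cons_of_mem _ hx)
    obtain ⟨d', hd', h'⟩ := (mem_NNs_iff j b V a).1 (hv a List.mem_cons_self)
    refine ⟨max d d', ?_, ?_⟩
    · rcases le_total d d' with h1 | h1
      · rw [max_eq_right h1]
        exact hd'
      · rw [max_eq_left h1]
        exact hd
    · intro x hx
      rcases List.mem_cons.1 hx with rfl | hx
      · exact AlgEA.mono j b (le_max_right d d') h'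
      · exact AlgEA.mono j b (le_max_left d d') (h x hx)

theorem NNs_cl {M : Type} [(Lg ar).Structure M] (j b : ℕ → M) (V : ℕ → Prop) (hV0 : V 0)
    (v : List M) (δ : List Lit) (k : ℕ) (y : M) (hv : ∀ x ∈ v, x ∈ NNs (frM ar M j) b V)
    (h1 : Exa k (fun y => (frM ar M j).Ex1 (frM ar M j).g0 (v ++ [y]) δ))
    (h2 : (frM ar M j).Ex1 (frM ar M j).g0 (v ++ [y]) δ) : y ∈ NNs (frM ar M j) b V := by
  obtain ⟨d, hd, h⟩ := EAe_depth j b V hV0 v hv
  exact (mem_NNs_iff j b V y).2 ⟨d, hd, algEA_closed j _ v δ k y h h1 h2⟩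

end Pool.Agent.MP_fd2900_lc
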