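import Pool.Agent.Lib.MP_fd2900_lc.StepSig

namespace Pool.Agent.MP_fd2900_lc

open Fr

private theorem StepSigB_take {α : Type} (l : List α) (d : α) (r : ℕ) :
    l.take r = (List.range (min r l.length)).map (fun i => l.getD i d) := by
  apply List.ext_getElem
  · simp
  · intro i h1 h2
    simp only [List.length_take, lt_min_iff] at h1
    simp [List.getElem_take, h1.2]

section
variable {α β : Type} [Primcodable α] [Primcodable β]

private theorem StepSigB_eq {f g : α → β} (hf : Computable f) (hg : Computable g) :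
    ComputablePred (fun a => f a = g a) := by
  have := Encodable.decidableEqOfEncodable β
  refine ⟨fun a => inferInstance, ?_⟩
  exact (Primrec.eq (α := β)).decide.to_comp.comp hf hg

private theorem StepSigB_lt {f g : α → ℕ} (hf : Computable f) (hg : Computable g) :
    ComputablePred (fun a => f a < g a) := by
  refine ⟨fun a => inferInstance, ?_⟩
  exact (Primrec.nat_lt).decide.to_comp.comp hf hg

private theorem StepSigB_primrec_take [Inhabited α] :
    Computable (fun q : List α × ℕ => q.1.take q.2) := by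
  have h : Primrec (fun q : List α × ℕ =>
      (List.range (min q.2 q.1.length)).map (fun i => q.1.getD i default)) := by
    refine Primrec.list_map (Primrec.list_range.comp
      (Primrec.nat_min.comp Primrec.snd (Primrec.list_length.comp Primrec.fst))) ?_
    exact (Primrec.list_getD default).comp (Primrec.fst.comp Primrec.fst) Primrec.snd
  exact (h.of_eq fun q => (StepSigB_take q.1 default q.2).symm).to_comp

end

private theorem StepSigB_takeS : Computable (fun q : List (ℕ × NmN) × ℕ => q.1.take q.2) :=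
  StepSigB_primrec_take

namespace Setup

variable (A : Setup)

theorem sig_stepA : Sig 3 (fun q : State × State => A.StepA q.1 q.2) := by
  have h1 : Sig 3 (fun p : (State × State) × ℕ => A.Mis p.1.1.1 p.1.1.2.1 p.2) :=
    A.sig_mis.comp (f := fun p : (State × State) × ℕ => (p.1.1.1, p.1.1.2.1, p.2))
      (((Primrec.fst.comp (Primrec.fst.comp Primrec.fst)).pair
        ((Primrec.fst.comp (Primrec.snd.comp (Primrec.fst.comp Primrec.fst))).pair
          Primrec.snd)).to_comp)
  have h2 : Sig 3 (fun p : ((State × State) × ℕ) × ℕ => ¬ A.Mis p.1.1.1.1 p.1.1.1.2.1 p.2) :=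
    A.sig_not_mis.comp (f := fun p : ((State × State) × ℕ) × ℕ => (p.1.1.1.1, p.1.1.1.2.1, p.2))
      (((Primrec.fst.comp (Primrec.fst.comp (Primrec.fst.comp Primrec.fst))).pair
        ((Primrec.fst.comp (Primrec.snd.comp (Primrec.fst.comp
          (Primrec.fst.comp Primrec.fst)))).pair Primrec.snd)).to_comp)
  have h3 : Sig 3 (fun p : (State × State) × ℕ =>
      ∀ r' < p.2, ¬ A.Mis p.1.1.1 p.1.1.2.1 r') := h2.ball_lt Computable.snd
  have cA : Computable (fun p : (State × State) × ℕ => (p.1.1.2.1, p.2)) :=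
    ((Primrec.fst.comp (Primrec.snd.comp (Primrec.fst.comp Primrec.fst))).pair
      Primrec.snd).to_comp
  have cB : Computable (fun p : (State × State) × ℕ => p.1.1.2.1.take p.2) := by
    have h := StepSigB_takeS.comp cA
    exact h
  have cC : Computable (fun p : (State × State) × ℕ => p.1.1.1 + 1) :=
    (Primrec.succ.comp (Primrec.fst.comp (Primrec.fst.comp Primrec.fst))).to_comp
  have cD : Computable (fun p : (State × State) × ℕ => p.1.1.2.2) :=
    (Primrec.snd.comp (Primrec.snd.comp (Primrec.fst.comp Primrec.fst))).to_comp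
  have cE : Computable (fun p : (State × State) × ℕ =>
      ((p.1.1.1 + 1, p.1.1.2.1.take p.2, p.1.1.2.2) : State)) := by
    have h := cC.pair (cB.pair cD)
    exact h
  have cF : Computable (fun p : (State × State) × ℕ => p.1.2) :=
    (Primrec.snd.comp Primrec.fst).to_comp
  have h4 : Sig 3 (fun p : (State × State) × ℕ =>
      p.1.2 = ((p.1.1.1 + 1, p.1.1.2.1.take p.2, p.1.1.2.2) : State)) := by
    have h := StepSigB_eq cF cE
    exact Sig.of_comp h
  exact (h1.and (h3.and h4)).ex_nat

theorem sig_stepB : Sig 3 (fun q : State × State => A.StepB q.1 q.2) := by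
  have hlen : Computable (fun q : State × State => q.1.2.1.length) :=
    (Primrec.list_length.comp (Primrec.fst.comp (Primrec.snd.comp Primrec.fst))).to_comp
  have h1 : Sig 3 (fun p : (State × State) × ℕ => ¬ A.Mis p.1.1.1 p.1.1.2.1 p.2) :=
    A.sig_not_mis.comp (f := fun p : (State × State) × ℕ => (p.1.1.1, p.1.1.2.1, p.2))
      (((Primrec.fst.comp (Primrec.fst.comp Primrec.fst)).pair
        ((Primrec.fst.comp (Primrec.snd.comp (Primrec.fst.comp Primrec.fst))).pair
          Primrec.snd)).to_comp)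
  have h2 : Sig 3 (fun p : (State × State) × ℕ => A.Mis p.1.2.1 p.1.1.2.1 p.2) :=
    A.sig_mis.comp (f := fun p : (State × State) × ℕ => (p.1.2.1, p.1.1.2.1, p.2))
      (((Primrec.fst.comp (Primrec.snd.comp Primrec.fst)).pair
        ((Primrec.fst.comp (Primrec.snd.comp (Primrec.fst.comp Primrec.fst))).pair
          Primrec.snd)).to_comp)
  have h3 : Sig 3 (fun q : State × State => q.1.1 < q.2.1) :=
    Sig.of_comp (StepSigB_lt (Primrec.fst.comp Primrec.fst).to_comp
      (Primrec.fst.comp Primrec.snd).to_comp)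
  have h4 : Sig 3 (fun q : State × State => q.2.2 = q.1.2) :=
    Sig.of_comp (StepSigB_eq (Primrec.snd.comp Primrec.snd).to_comp
      (Primrec.snd.comp Primrec.fst).to_comp)
  exact (h1.ball_lt hlen).and (h3.and (h4.and (h2.bex_lt hlen)))

private abbrev StepSigB_W : Type := ℕ × NmN × NmN × List Lit

theorem sig_stepC : Sig 3 (fun q : State × State => A.StepC q.1 q.2) := by
  have hlen : Computable (fun q : State × State => q.1.2.1.length) :=
    (Primrec.list_length.comp (Primrec.fst.comp (Primrec.snd.comp Primrec.fst))).to_comp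
  have h1 : Sig 3 (fun p : (State × State) × ℕ => ¬ A.Mis p.1.1.1 p.1.1.2.1 p.2) :=
    A.sig_not_mis.comp (f := fun p : (State × State) × ℕ => (p.1.1.1, p.1.1.2.1, p.2))
      (((Primrec.fst.comp (Primrec.fst.comp Primrec.fst)).pair
        ((Primrec.fst.comp (Primrec.snd.comp (Primrec.fst.comp Primrec.fst))).pair
          Primrec.snd)).to_comp)
  -- the pieces of a point of `(State × State) × W`
  have ct : Primrec (fun p : (State × State) × StepSigB_W => p.1.1.1) :=
    Primrec.fst.comp (Primrec.fst.comp Primrec.fst)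
  have cst : Primrec (fun p : (State × State) × StepSigB_W => p.1.1.2.1) :=
    Primrec.fst.comp (Primrec.snd.comp (Primrec.fst.comp Primrec.fst))
  have cl : Primrec (fun p : (State × State) × StepSigB_W => p.1.1.2.1.length) :=
    Primrec.list_length.comp cst
  have cd : Primrec (fun p : (State × State) × StepSigB_W => p.1.1.2.2) :=
    Primrec.snd.comp (Primrec.snd.comp (Primrec.fst.comp Primrec.fst))
  have cs' : Primrec (fun p : (State × State) × StepSigB_W => p.1.2) :=
    Primrec.snd.comp Primrec.fst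
  have ck : Primrec (fun p : (State × State) × StepSigB_W => p.2.1) :=
    Primrec.fst.comp Primrec.snd
  have cn1 : Primrec (fun p : (State × State) × StepSigB_W => p.2.2.1) :=
    Primrec.fst.comp (Primrec.snd.comp Primrec.snd)
  have cn2 : Primrec (fun p : (State × State) × StepSigB_W => p.2.2.2.1) :=
    Primrec.fst.comp (Primrec.snd.comp (Primrec.snd.comp Primrec.snd))
  have ce : Primrec (fun p : (State × State) × StepSigB_W => p.2.2.2.2) :=
    Primrec.snd.comp (Primrec.snd.comp (Primrec.snd.comp Primrec.snd))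
  have cde : Primrec (fun p : (State × State) × StepSigB_W => p.1.1.2.2 ++ p.2.2.2.2) :=
    Primrec.list_append.comp cd ce
  have cst' : Primrec (fun p : (State × State) × StepSigB_W =>
      p.1.1.2.1 ++ [(p.2.1, p.2.2.2.1)]) :=
    Primrec.list_append.comp cst
      (Primrec.list_cons.comp (ck.pair cn2) (Primrec.const ([] : List (ℕ × NmN))))
  have k1 : Sig 3 (fun p : (State × State) × StepSigB_W =>
      A.kap p.1.1.1 p.1.1.2.1.length = p.2.1) :=
    A.sig_kap.comp (f := fun p : (State × State) × StepSigB_W =>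
      ((p.1.1.1, p.1.1.2.1.length), p.2.1)) ((ct.pair cl).pair ck).to_comp
  have k2 : Sig 3 (fun p : (State × State) × StepSigB_W =>
      p.1.2 = ((p.1.1.1 + 1, p.1.1.2.1 ++ [(p.2.1, p.2.2.2.1)], p.1.1.2.2 ++ p.2.2.2.2) : State)) :=
    Sig.of_comp (StepSigB_eq cs'.to_comp
      ((Primrec.succ.comp ct).pair (cst'.pair cde)).to_comp)
  have k3 : Sig 3 (fun p : (State × State) × StepSigB_W =>
      Relation.ReflTransGen (A.HExt p.1.1.2.2) (nmAt p.1.1.2.1 p.1.1.2.1.length) p.2.2.1) :=
    (Sig.rtg A.sig_hExt).comp (f := fun p : (State × State) × StepSigB_W =>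
      (p.1.1.2.2, nmAt p.1.1.2.1 p.1.1.2.1.length, p.2.2.1))
      (cd.to_comp.pair ((sig_nmAt.comp (cst.pair cl).to_comp).pair cn1.to_comp))
  have k4 : Sig 3 (fun p : (State × State) × StepSigB_W =>
      CExt p.1.1.2.1.length p.2.1 p.2.2.1 p.2.2.2.1) :=
    sig_cExt.comp (f := fun p : (State × State) × StepSigB_W =>
      ((p.1.1.2.1.length, p.2.1), p.2.2.1, p.2.2.2.1))
      ((cl.pair ck).pair (cn1.pair cn2)).to_comp
  have k5 : Sig 3 (fun p : (State × State) × StepSigB_W => VarsLt p.2.2.1.1 p.1.1.2.2) :=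
    (Sig.of_comp sig_varsLt).comp (f := fun p : (State × State) × StepSigB_W =>
      (p.2.2.1.1, p.1.1.2.2)) ((Primrec.fst.comp cn1).pair cd).to_comp
  have k6 : Sig 3 (fun p : (State × State) × StepSigB_W => VarsLt p.2.2.2.1.1 p.2.2.2.2) :=
    (Sig.of_comp sig_varsLt).comp (f := fun p : (State × State) × StepSigB_W =>
      (p.2.2.2.1.1, p.2.2.2.2)) ((Primrec.fst.comp cn2).pair ce).to_comp
  have k7 : Sig 3 (fun p : (State × State) × StepSigB_W =>
      Dec p.1.1.1 p.2.2.2.1.1 (p.1.1.2.2 ++ p.2.2.2.2)) :=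
    (Sig.of_comp sig_dec).comp (f := fun p : (State × State) × StepSigB_W =>
      (p.1.1.1, p.2.2.2.1.1, p.1.1.2.2 ++ p.2.2.2.2)) (ct.pair ((Primrec.fst.comp cn2).pair cde)).to_comp
  have d1 : Computable (fun p : ((State × State) × StepSigB_W) × ℕ =>
      (p.1.1.1.2.1 ++ [(p.1.2.1, p.1.2.2.2.1)], p.2)) := by
    have h := ((cst'.comp (Primrec.fst (α := (State × State) × StepSigB_W) (β := ℕ))).pair
      (Primrec.snd (α := (State × State) × StepSigB_W) (β := ℕ))).to_comp
    exact h
  have d2 : Computable (fun p : ((State × State) × StepSigB_W) × ℕ =>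
      nmAt (p.1.1.1.2.1 ++ [(p.1.2.1, p.1.2.2.2.1)]) p.2) := by
    have h := sig_nmAt.comp d1
    exact h
  have d3 : Computable (fun p : ((State × State) × StepSigB_W) × ℕ =>
      p.1.1.1.2.2 ++ p.1.2.2.2.2) := by
    have h := (cde.comp (Primrec.fst (α := (State × State) × StepSigB_W) (β := ℕ))).to_comp
    exact h
  have k8 : Sig 3 (fun p : (State × State) × StepSigB_W =>
      ∀ r < p.1.1.2.1.length + 2,
        A.Good (p.1.1.2.2 ++ p.2.2.2.2) (nmAt (p.1.1.2.1 ++ [(p.2.1, p.2.2.2.1)]) r)) := by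
    have : Sig 3 (fun p : ((State × State) × StepSigB_W) × ℕ =>
        A.Good (p.1.1.1.2.2 ++ p.1.2.2.2.2)
          (nmAt (p.1.1.1.2.1 ++ [(p.1.2.1, p.1.2.2.2.1)]) p.2)) := by
      have h := A.sig_good.comp (d3.pair d2)
      exact h
    have hf : Computable (fun p : (State × State) × StepSigB_W => p.1.1.2.1.length + 2) :=
      (Primrec.nat_add.comp cl (Primrec.const 2)).to_comp
    exact Sig.ball_lt this hf
  have key : Sig 3 (fun q : State × State => ∃ w : StepSigB_W,
      A.kap q.1.1 q.1.2.1.length = w.1 ∧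
      q.2 = ((q.1.1 + 1, q.1.2.1 ++ [(w.1, w.2.2.1)], q.1.2.2 ++ w.2.2.2) : State) ∧
      Relation.ReflTransGen (A.HExt q.1.2.2) (nmAt q.1.2.1 q.1.2.1.length) w.2.1 ∧
      CExt q.1.2.1.length w.1 w.2.1 w.2.2.1 ∧
      VarsLt w.2.1.1 q.1.2.2 ∧ VarsLt w.2.2.1.1 w.2.2.2 ∧
      Dec q.1.1 w.2.2.1.1 (q.1.2.2 ++ w.2.2.2) ∧
      ∀ r < q.1.2.1.length + 2,
        A.Good (q.1.2.2 ++ w.2.2.2) (nmAt (q.1.2.1 ++ [(w.1, w.2.2.1)]) r)) :=
    Sig.ex (k1.and (k2.and (k3.and (k4.and (k5.and (k6.and (k7.and k8)))))))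
  refine ((h1.ball_lt hlen).and key).of_eq fun q => ?_
  refine and_congr Iff.rfl ⟨?_, ?_⟩
  · rintro ⟨⟨κ, n1, n2, ε⟩, hk, h⟩
    simp only at hk h
    subst hk
    exact ⟨n1, n2, ε, h⟩
  · rintro ⟨n1, n2, ε, h⟩
    exact ⟨⟨_, n1, n2, ε⟩, rfl, h⟩

theorem sig_step : Sig 3 (fun q : State × State => A.Step q) :=
  (A.sig_stepA.or (A.sig_stepB.or A.sig_stepC)).of_eq fun q => Iff.rfl

end Setup

end Pool.Agent.MP_fd2900_lc
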