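import Pool.Agent.Lib.MP_fd2900_lc.Lim2
import Pool.Agent.Lib.MP_fd2900_lc.Coord2
import Pool.Agent.Lib.MP_fd2900_lc.StepSigB

namespace Pool.Agent.MP_fd2900_lc

open Fr

namespace Setup

variable {A : Setup}

theorem Lim_unbounded {A : Setup} {p : ℕ → NmN} (hmono : Monotone fun r => (p r).1)
    {u : ℕ → List A.M} (hlen : ∀ r, (u r).length = (p r).1)
    (hcov : ∀ e ∈ NNs A.F A.b A.V, ∃ r, e ∈ u r) (hpre : ∀ r k, r ≤ k → (u k).take (p r).1 = u r) (n : ℕ) :
    ∃ r, n < (p r).1 := by
  by_contra hcon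
  push Not at hcon
  -- the lists u r are all prefixes of each other with bounded length
  have hbd : ∃ R, ∀ r, (p r).1 ≤ (p R).1 := by
    by_contra h
    push Not at h
    choose f hf using h
    have : ∀ k, ∃ r, k ≤ (p r).1 := by
      intro k
      induction k with
      | zero => exact ⟨0, Nat.zero_le _⟩
      | succ k ih =>
        obtain ⟨r, hr⟩ := ih
        exact ⟨f r, lt_of_le_of_lt hr (hf r)⟩
    obtain ⟨r, hr⟩ := this (n + 1)
    have := hcon r
    omega
  obtain ⟨R, hR⟩ := hbd
  have hall : ∀ e ∈ NNs A.F A.b A.V, e ∈ u R := by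
    intro e he
    obtain ⟨r, hr⟩ := hcov e he
    rcases le_total r R with h | h
    · rw [← hpre r R h] at hr
      exact List.mem_of_mem_take hr
    · have h1 : (p r).1 = (p R).1 := le_antisymm (hR r) (hmono h)
      have h2 := hpre R r h
      rw [← h1, ← hlen r, List.take_length] at h2
      rwa [← h2]
  refine Set.infinite_range_of_injective A.inj ((List.finite_toSet (u R)).subset ?_)
  rintro _ ⟨a, rfl⟩
  exact hall _ (const_mem A a)

/-- the value of the limit enumeration -/
theorem Lim_getD {M : Type} {u : ℕ → List M} {n : ℕ → ℕ} (hn : Monotone n)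
    (hlen : ∀ r, (u r).length = n r) (hu : ∀ r, (u (r + 1)).take (n r) = u r) :
    ∀ r k, r ≤ k → (u k).take (n r) = u r := by
  intro r k h
  induction k, h using Nat.le_induction with
  | base => rw [← hlen r, List.take_length]
  | succ k hk ih =>
    rw [← ih, ← hu k, List.take_take, min_eq_left (hn hk)]

theorem Lim_comp_mem (s : Bool) :
    ComputablePred (fun q : (ℕ × List ℕ) × State => litOf s q.1 ∈ q.2.2.2) := by
  have h1 : Primrec (fun α : ℕ × List ℕ => litOf s α) := by
    unfold litOf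
    refine (Primrec.const s).pair (Primrec.fst.pair ?_)
    exact Primrec.list_map Primrec.snd ((Primrec.const 2).pair Primrec.snd).to₂
  have h2 : PrimrecRel (fun (L : List Lit) (b : Lit) => ∃ a ∈ L, a = b) :=
    PrimrecRel.exists_mem_list Primrec.eq
  have h3 : PrimrecPred (fun q : (ℕ × List ℕ) × State => ∃ a ∈ q.2.2.2, a = litOf s q.1) :=
    h2.comp (Primrec.snd.comp (Primrec.snd.comp Primrec.snd)) (h1.comp Primrec.fst)
  exact h3.computablePred.of_eq fun q => by simp

theorem lim (A : Setup) : ∃ c : ℕ → A.M, Set.range c = NNs A.F A.b A.V ∧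
    Sig 3 (fun α : ℕ × List ℕ => A.F.RelE α.1 (α.2.map c)) ∧
    Sig 3 (fun α : ℕ × List ℕ => ¬ A.F.RelE α.1 (α.2.map c)) := by
  obtain ⟨q, hq0, hqs, hqI, hqσ⟩ := exists_seq (σ := State) (E := fun q => A.Step q)
    A.sig_step A.Inv s0 inv_s0 (fun s hs => exists_step hs) (fun s s' hs h => inv_step hs h)
  obtain ⟨p, hp0, hok, hgood, htake, hcx, hdec⟩ := stable (A := A) hq0 hqs
  have hmono : Monotone fun r => (p r).1 := monotone_nat_of_le_succ fun r => (htake r).1
  obtain ⟨u, hu, huc, hex⟩ := exists_coherent hok hgood (seq_mono hqs).2.2 htake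
  have hlen : ∀ r, (u r).length = (p r).1 := fun r => (hu r).1
  have hpre := Lim_getD (n := fun r => (p r).1) hmono hlen huc
  -- coverage
  have hcov : ∀ e ∈ NNs A.F A.b A.V, ∃ r, e ∈ u r := by
    rintro e ⟨ψ, ⟨d, hd, hU⟩, hfin, hsat⟩
    have hψ : psi (Encodable.encode ψ) = ψ := by
      show (Encodable.decode (Encodable.encode ψ)).getD _ = ψ
      rw [Encodable.encodek]; rfl
    set r := Encodable.encode ψ with hr
    obtain ⟨-, n1, -, hn1, hc⟩ := hcx r
    have hVN : A.VN (nmψ r) := by
      refine ⟨d, hd, ?_⟩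
      intro e' he'
      simp only [nmψ, List.mem_singleton] at he'
      subst he'
      rw [hψ]; exact hU
    have hfin' : {y | A.F.Sat2 A.b (psi r) y}.Finite := by rw [hψ]; exact hfin
    have hk : A.kapInf r = {y | A.F.Sat2 A.b (psi r) y}.ncard + 1 := by
      unfold kapInf
      rw [if_pos ⟨hVN, hfin'⟩]
    rw [hk] at hc
    rcases hc with ⟨h0, _⟩ | ⟨K, hK, hs⟩
    · omega
    have hK' : {y | A.F.Sat2 A.b (psi r) y}.ncard = K := by omega
    refine ⟨r + 1, ?_⟩
    have h1 := hu (r + 1)
    have hl := hlen (r + 1)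
    have h2 : A.F.SolE A.b (u (r + 1)) (2, n1.1, K, [], psi r) := by
      apply h1.2
      show _ ∈ (p (r + 1)).2.1
      rw [hs]; simp
    obtain ⟨h3, h4⟩ := h2.2.2 rfl
    simp only at h3 h4
    set l := (List.drop n1.1 (u (r + 1))).take K with hl'
    have hll : l.length = K := by
      rw [hl', List.length_take, List.length_drop, hl, hs]
      simp
    have h5 : {y | y ∈ l} = {y | A.F.Sat2 A.b (psi r) y} := by
      have hsub : {y | y ∈ l} ⊆ {y | A.F.Sat2 A.b (psi r) y} := fun y hy => h4 y hy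
      refine Set.eq_of_subset_of_ncard_le hsub ?_ hfin'
      classical
      have h7 : {y | y ∈ l} = (l.toFinset : Set A.M) := by ext y; simp
      have h8 : {y | y ∈ l}.ncard = K := by
        rw [h7, Set.ncard_coe_finset, List.toFinset_card_of_nodup h3, hll]
      rw [hK', h8]
    have h6 : e ∈ {y | y ∈ l} := by
      rw [h5, hψ]; exact hsat
    exact List.mem_of_mem_drop (List.mem_of_mem_take h6)
  -- the enumeration
  have hunb : ∀ n, ∃ r, n < (p r).1 := Lim_unbounded hmono hlen hcov hpre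
  choose ρ hρ using hunb
  let c : ℕ → A.M := fun x => (u (ρ x)).getD x (A.F.j 0)
  have hc : ∀ r x, x < (p r).1 → (u r).getD x (A.F.j 0) = c x := by
    intro r x hx
    show (u r).getD x (A.F.j 0) = (u (ρ x)).getD x (A.F.j 0)
    have key : ∀ r k, r ≤ k → x < (p r).1 → (u k).getD x (A.F.j 0) = (u r).getD x (A.F.j 0) := by
      intro r k hrk hx
      rw [← hpre r k hrk, List.getD_eq_getElem?_getD, List.getD_eq_getElem?_getD,
        List.getElem?_take_of_lt hx]
    rcases le_total r (ρ x) with h | h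
    · exact (key r _ h hx).symm
    · exact key _ r h (hρ x)
  have hcoord := coord hp0 hok hcx
  have hsurj : Set.range c = NNs A.F A.b A.V := by
    apply Set.Subset.antisymm
    · rintro _ ⟨x, rfl⟩
      refine hcoord (ρ x) (u (ρ x)) (hu (ρ x)) _ ?_
      have hx : x < (u (ρ x)).length := by rw [hlen]; exact hρ x
      show (u (ρ x)).getD x (A.F.j 0) ∈ u (ρ x)
      rw [List.getD_eq_getElem _ _ hx]
      exact List.getElem_mem hx
    intro e he
    obtain ⟨r, hr⟩ := hcov e he
    obtain ⟨x, hx, rfl⟩ := List.getElem_of_mem hr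
    refine ⟨x, ?_⟩
    rw [← hc r x (by rw [← hlen r]; exact hx)]
    simp [List.getD_eq_getElem?_getD, List.getElem?_eq_getElem hx]
  -- committed literals hold
  have hlit : ∀ (s : Bool) (α : ℕ × List ℕ) (i : ℕ), litOf s α ∈ (q i).2.2 →
      (A.F.RelE α.1 (α.2.map c) ↔ s = true) := by
    intro s α i hmem
    obtain ⟨r, hr⟩ : ∃ r, ∀ x ∈ α.2, x < (p r).1 := by
      refine ⟨(α.2.map ρ).sum, fun x hx => lt_of_lt_of_le (hρ x) (hmono ?_)⟩
      exact List.single_le_sum (by simp) _ (List.mem_map_of_mem hx)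
    obtain ⟨z, hz⟩ := hex r i
    have h1 := hz _ hmem
    simp only [Fr.hold, litOf, List.map_map] at h1
    have h2 : List.map (A.F.ev A.F.g0 (u r ++ z) ∘ fun x => (2, x)) α.2 = α.2.map c := by
      apply List.map_congr_left
      intro x hx
      have hx' := hr x hx
      simp only [Function.comp, Fr.ev]
      norm_num
      rw [← hc r x hx', List.getD_eq_getElem?_getD,
        List.getElem?_append_left (by rw [hlen r]; exact hx')]
    rw [h2] at h1
    exact h1
  have hdecided : ∀ α : ℕ × List ℕ, ∃ i, litOf true α ∈ (q i).2.2 ∨ litOf false α ∈ (q i).2.2 := by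
    intro α
    obtain ⟨r, hr⟩ : ∃ r, ∀ x ∈ α.2, x < (p r).1 := by
      refine ⟨(α.2.map ρ).sum, fun x hx => lt_of_lt_of_le (hρ x) (hmono ?_)⟩
      exact List.single_le_sum (by simp) _ (List.mem_map_of_mem hx)
    obtain ⟨i, hi⟩ := hdec r (Encodable.encode α + 1)
    have hα : atm (Encodable.encode α) = α := by
      show (Encodable.decode (Encodable.encode α)).getD _ = α
      rw [Encodable.encodek]; rfl
    have := hi (Encodable.encode α) (Nat.lt_succ_self _)
    rw [hα] at this
    exact ⟨i, this hr⟩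
  have hpos : ∀ α : ℕ × List ℕ, A.F.RelE α.1 (α.2.map c) ↔ ∃ i, litOf true α ∈ (q i).2.2 := by
    intro α
    constructor
    · intro h
      obtain ⟨i, hi | hi⟩ := hdecided α
      · exact ⟨i, hi⟩
      · exact absurd ((hlit false α i hi).1 h) (by simp)
    · rintro ⟨i, hi⟩
      exact (hlit true α i hi).2 rfl
  have hneg : ∀ α : ℕ × List ℕ, ¬ A.F.RelE α.1 (α.2.map c) ↔ ∃ i, litOf false α ∈ (q i).2.2 := by
    intro α
    constructor
    · intro h
      obtain ⟨i, hi | hi⟩ := hdecided α
      · exact absurd ((hlit true α i hi).2 rfl) h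
      · exact ⟨i, hi⟩
    · rintro ⟨i, hi⟩ h
      exact absurd ((hlit false α i hi).1 h) (by simp)
  have hsig : ∀ s : Bool, Sig 3 (fun α : ℕ × List ℕ => ∃ i, litOf s α ∈ (q i).2.2) := by
    intro s
    have hc1 := Lim_comp_mem s
    have h1 : Sig 3 (fun a : ((ℕ × List ℕ) × ℕ) × State => q a.1.2 = a.2 ∧ litOf s a.1.1 ∈ a.2.2.2) := by
      refine Sig.and ?_ ?_
      · exact hqσ.comp (f := fun a : ((ℕ × List ℕ) × ℕ) × State => (a.1.2, a.2))
          ((Computable.snd.comp Computable.fst).pair Computable.snd)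
      · exact (Sig.of_comp hc1).comp (f := fun a : ((ℕ × List ℕ) × ℕ) × State => (a.1.1, a.2))
          ((Computable.fst.comp Computable.fst).pair Computable.snd)
    have h2 := Sig.ex_nat (Sig.ex h1)
    refine h2.of_eq fun α => ?_
    constructor
    · rintro ⟨i, s', h3, h4⟩
      exact ⟨i, by rw [h3]; exact h4⟩
    · rintro ⟨i, hi⟩
      exact ⟨i, q i, rfl, hi⟩
  exact ⟨c, hsurj, (hsig true).of_eq fun α => (hpos α).symm, (hsig false).of_eq fun α => (hneg α).symm⟩

end Setup

end Pool.Agent.MP_fd2900_lc
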