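import Pool.Agent.Lib.MP_fd2900_lc.SigB

/-! from a surjective enumeration to a presentation with universe `ω` -/

namespace Pool.Agent.MP_fd2900_lc

open Fr

/-- `x` is the least index of its value -/
def Quot_Rp {M : Type} (c : ℕ → M) (x : ℕ) : Prop := ∀ y < x, c y ≠ c x

/-- `b` is the next least index after `a` -/
def Quot_N {M : Type} (c : ℕ → M) (a b : ℕ) : Prop :=
  a < b ∧ Quot_Rp c b ∧ ∀ y < b, (y ≤ a ∨ ¬ Quot_Rp c y)

/-- `L` is an initial segment of the enumeration of the least indices -/
def Quot_Ok {M : Type} (c : ℕ → M) (L : List ℕ) : Prop :=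
  L.getD 0 0 = 0 ∧ ∀ i < L.length, (L.length ≤ i + 1 ∨ Quot_N c (L.getD i 0) (L.getD (i + 1) 0))

theorem Quot_inf {M : Type} [Infinite M] (c : ℕ → M) (hc : Function.Surjective c) :
    {x | Quot_Rp c x}.Infinite := by
  classical
  intro hfin
  have h : (Set.univ : Set M) ⊆ c '' {x | Quot_Rp c x} := by
    intro m _
    have hex : ∃ x, c x = m := hc m
    refine ⟨Nat.find hex, ?_, Nat.find_spec hex⟩
    intro y hy h2
    exact Nat.find_min hex hy (h2.trans (Nat.find_spec hex))
  exact Set.infinite_univ ((hfin.image c).subset h)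

theorem Quot_step {M : Type} [Infinite M] (c : ℕ → M) (hc : Function.Surjective c) (i b : ℕ) :
    Quot_N c (Nat.nth (Quot_Rp c) i) b ↔ b = Nat.nth (Quot_Rp c) (i + 1) := by
  classical
  have hinf := Quot_inf c hc
  have hmono := Nat.nth_strictMono hinf
  constructor
  · rintro ⟨h1, h2, h3⟩
    have hk : Nat.nth (Quot_Rp c) (Nat.count (Quot_Rp c) b) = b := Nat.nth_count h2
    set k := Nat.count (Quot_Rp c) b with hkdef
    have hik : i < k := by
      rw [← hmono.lt_iff_lt, hk]
      exact h1
    rcases Nat.lt_or_ge (i + 1) k with h4 | h4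
    · have h5 : Nat.nth (Quot_Rp c) (i + 1) < b := by
        rw [← hk]
        exact hmono h4
      rcases h3 _ h5 with h6 | h6
      · exact absurd (hmono (Nat.lt_succ_self i)) (not_lt.2 h6)
      · exact absurd (Nat.nth_mem_of_infinite hinf (i + 1)) h6
    · have : k = i + 1 := by omega
      rw [← this, hk]
  · rintro rfl
    refine ⟨hmono (Nat.lt_succ_self i), Nat.nth_mem_of_infinite hinf _, fun y hy => ?_⟩
    by_cases h : Quot_Rp c y
    · left
      have hk : Nat.nth (Quot_Rp c) (Nat.count (Quot_Rp c) y) = y := Nat.nth_count h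
      rw [← hk] at hy ⊢
      have := hmono.lt_iff_lt.1 hy
      exact hmono.monotone (by omega)
    · exact Or.inr h

theorem Quot_zero {M : Type} (c : ℕ → M) : Nat.nth (Quot_Rp c) 0 = 0 := by
  classical
  have h0 : Quot_Rp c 0 := fun y hy => absurd hy (Nat.not_lt_zero y)
  have := Nat.nth_count h0
  rwa [Nat.count_zero] at this

theorem Quot_ok_getD {M : Type} [Infinite M] (c : ℕ → M) (hc : Function.Surjective c)
    (L : List ℕ) (h : Quot_Ok c L) (i : ℕ) (hi : i < L.length) :
    L.getD i 0 = Nat.nth (Quot_Rp c) i := by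
  induction i with
  | zero => rw [h.1, Quot_zero]
  | succ i ih =>
    have h1 := ih (by omega)
    rcases h.2 i (by omega) with h2 | h2
    · omega
    · rw [h1] at h2
      exact (Quot_step c hc i _).1 h2

theorem Quot_ok_range {M : Type} [Infinite M] (c : ℕ → M) (hc : Function.Surjective c) (K : ℕ) :
    Quot_Ok c ((List.range K).map (Nat.nth (Quot_Rp c))) := by
  have hg : ∀ i, i < K → ((List.range K).map (Nat.nth (Quot_Rp c))).getD i 0 =
      Nat.nth (Quot_Rp c) i := by
    intro i hi
    rw [List.getD_eq_getElem _ _ (by simpa using hi)]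
    simp
  constructor
  · rcases Nat.eq_zero_or_pos K with rfl | hK
    · simp
    · rw [hg 0 hK, Quot_zero]
  · intro i hi
    rw [List.length_map, List.length_range] at hi ⊢
    rcases Nat.lt_or_ge (i + 1) K with h | h
    · right
      rw [hg i hi, hg (i + 1) h]
      exact (Quot_step c hc i _).2 rfl
    · exact Or.inl h

theorem Quot_sig {M : Type} (F : Fr M) (c : ℕ → M)
    (h1 : Sig 3 (fun α : ℕ × List ℕ => F.RelE α.1 (α.2.map c)))
    (h2 : Sig 3 (fun α : ℕ × List ℕ => ¬ F.RelE α.1 (α.2.map c))) :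
    Sig 3 (fun L : List ℕ => Quot_Ok c L) := by
  have hE : ∀ x y : ℕ, F.RelE 0 ([x, y].map c) ↔ c x = c y := by
    intro x y
    unfold Fr.RelE
    simp only [List.map_cons, List.map_nil]
    constructor
    · rintro (⟨_, z, hz⟩ | ⟨h, _⟩)
      · rw [List.cons.injEq, List.cons.injEq] at hz
        rw [hz.1, hz.2.1]
      · exact absurd rfl h
    · intro h
      exact Or.inl ⟨by trivial, c x, by rw [h]⟩
  have hf : Computable (fun p : ℕ × ℕ => ((0, [p.2, p.1]) : ℕ × List ℕ)) := by
    refine Computable.pair (Computable.const 0) ?_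
    exact Computable.list_cons.comp Computable.snd
      (Computable.list_cons.comp Computable.fst (Computable.const []))
  have s1 : Sig 3 (fun p : ℕ × ℕ => c p.2 = c p.1) := (h1.comp hf).of_eq fun p => hE _ _
  have s2 : Sig 3 (fun p : ℕ × ℕ => c p.2 ≠ c p.1) :=
    (h2.comp hf).of_eq fun p => not_congr (hE _ _)
  have r1 : Sig 3 (fun x : ℕ => Quot_Rp c x) := Sig.ball_lt s2 Computable.id
  have r2 : Sig 3 (fun x : ℕ => ¬ Quot_Rp c x) :=
    (Sig.bex_lt s1 Computable.id).of_eq fun x => by
      unfold Quot_Rp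
      push Not
      rfl
  have lt1 : Sig 3 (fun p : ℕ × ℕ => p.1 < p.2) :=
    Sig.of_comp (Primrec.nat_lt.computablePred)
  have le1 : Sig 3 (fun p : ℕ × ℕ => p.1 ≤ p.2) :=
    Sig.of_comp (Primrec.nat_le.computablePred)
  have n1 : Sig 3 (fun q : (ℕ × ℕ) × ℕ => q.2 ≤ q.1.1 ∨ ¬ Quot_Rp c q.2) := by
    refine Sig.or ?_ (r2.comp Computable.snd)
    exact le1.comp (Computable.pair Computable.snd (Computable.fst.comp Computable.fst))
  have n2 : Sig 3 (fun p : ℕ × ℕ => Quot_N c p.1 p.2) :=
    lt1.and ((r1.comp Computable.snd).and (Sig.ball_lt n1 Computable.snd))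
  have g1 : Computable (fun p : List ℕ × ℕ => p.1.getD p.2 0) :=
    (Primrec.list_getD 0).to_comp
  have g2 : Computable (fun p : List ℕ × ℕ => (p.1.getD p.2 0, p.1.getD (p.2 + 1) 0)) := by
    refine Computable.pair g1 ?_
    exact g1.comp (Computable.pair Computable.fst (Computable.succ.comp Computable.snd))
  have g3 : Computable (fun p : List ℕ × ℕ => (p.1.length, p.2 + 1)) :=
    Computable.pair (Computable.list_length.comp Computable.fst)
      (Computable.succ.comp Computable.snd)
  have k1 : Sig 3 (fun p : List ℕ × ℕ => p.1.length ≤ p.2 + 1 ∨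
      Quot_N c (p.1.getD p.2 0) (p.1.getD (p.2 + 1) 0)) :=
    (le1.comp g3).or (n2.comp g2)
  have z1 : Sig 3 (fun L : List ℕ => L.getD 0 0 = 0) := by
    have : Sig 3 (fun L : List ℕ => L.getD 0 0 ≤ 0) :=
      le1.comp (Computable.pair (g1.comp (Computable.pair Computable.id (Computable.const 0)))
        (Computable.const 0))
    exact this.of_eq fun L => Nat.le_zero
  exact z1.and (Sig.ball_lt k1 Computable.list_length)

theorem quot {M : Type} [Infinite M] (F : Fr M) (c : ℕ → M) (hc : Function.Surjective c)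
    (h1 : Sig 3 (fun α : ℕ × List ℕ => F.RelE α.1 (α.2.map c)))
    (h2 : Sig 3 (fun α : ℕ × List ℕ => ¬ F.RelE α.1 (α.2.map c))) :
    ∃ (D : ℕ × List ℕ → Prop) (e : ℕ ≃ M), Sig 3 D ∧ Sig 3 (fun a => ¬ D a) ∧
      ∀ i l, D (i, l) ↔ F.Rel i (l.map e) := by
  classical
  have hinf := Quot_inf c hc
  have hmono := Nat.nth_strictMono hinf
  have hbij : Function.Bijective (fun n => c (Nat.nth (Quot_Rp c) n)) := by
    constructor
    · intro a b hab
      by_contra hne
      rcases lt_or_gt_of_ne hne with h | h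
      · exact (Nat.nth_mem_of_infinite hinf b) _ (hmono h) hab
      · exact (Nat.nth_mem_of_infinite hinf a) _ (hmono h) hab.symm
    · intro m
      have hex : ∃ x, c x = m := hc m
      have hR : Quot_Rp c (Nat.find hex) := by
        intro y hy h2
        exact Nat.find_min hex hy (h2.trans (Nat.find_spec hex))
      refine ⟨Nat.count (Quot_Rp c) (Nat.find hex), ?_⟩
      show c (Nat.nth (Quot_Rp c) (Nat.count (Quot_Rp c) (Nat.find hex))) = m
      rw [Nat.nth_count hR]
      exact Nat.find_spec hex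
  let e : ℕ ≃ M := Equiv.ofBijective _ hbij
  have he : ∀ n, e n = c (Nat.nth (Quot_Rp c) n) := fun n => rfl
  have hok := Quot_sig F c h1 h2
  have key : ∀ (l L : List ℕ), Quot_Ok c L → (∀ k ∈ l, k < L.length) →
      (l.map (fun k => L.getD k 0)).map c = l.map e := by
    intro l L hL hl
    rw [List.map_map]
    refine List.map_congr_left fun k hk => ?_
    rw [Function.comp_apply, Quot_ok_getD c hc L hL k (hl k hk), he]
  have hex : ∀ l : List ℕ, ∃ L, Quot_Ok c L ∧ ∀ k ∈ l, k < L.length := by
    intro l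
    refine ⟨(List.range (l.sum + 1)).map (Nat.nth (Quot_Rp c)), Quot_ok_range c hc _, ?_⟩
    intro k hk
    rw [List.length_map, List.length_range]
    have := List.single_le_sum (fun x _ => Nat.zero_le x) k hk
    omega
  have hrel : ∀ (i : ℕ) (l : List M), F.RelE (i + 1) l ↔ F.Rel i l := by
    intro i l
    unfold Fr.RelE
    simp
  -- complexity of the common part
  have m1 : Computable (fun p : (ℕ × List ℕ) × List ℕ =>
      ((p.1.1 + 1, p.1.2.map (fun k => p.2.getD k 0)) : ℕ × List ℕ)) := by
    refine Computable.pair (Computable.succ.comp (Computable.fst.comp Computable.fst)) ?_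
    have : Primrec (fun p : (ℕ × List ℕ) × List ℕ => p.1.2.map (fun k => p.2.getD k 0)) :=
      Primrec.list_map (Primrec.snd.comp Primrec.fst)
        ((Primrec.list_getD 0).comp (Primrec.snd.comp Primrec.fst) Primrec.snd)
    exact this.to_comp
  have lt1 : Sig 3 (fun p : ℕ × ℕ => p.1 < p.2) :=
    Sig.of_comp (Primrec.nat_lt.computablePred)
  have b1 : Sig 3 (fun p : (ℕ × List ℕ) × List ℕ => ∀ k ∈ p.1.2, k < p.2.length) := by
    have h3 : Sig 3 (fun q : ((ℕ × List ℕ) × List ℕ) × ℕ => q.2 < q.1.2.length) :=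
      lt1.comp (Computable.pair Computable.snd
        (Computable.list_length.comp (Computable.snd.comp Computable.fst)))
    exact Sig.ball_mem h3 (Computable.snd.comp Computable.fst)
  have o1 : Sig 3 (fun p : (ℕ × List ℕ) × List ℕ => Quot_Ok c p.2) := hok.comp Computable.snd
  refine ⟨fun a => F.Rel a.1 (a.2.map e), e, ?_, ?_, fun i l => Iff.rfl⟩
  · refine (Sig.ex (o1.and (b1.and (h1.comp m1)))).of_eq fun a => ?_
    constructor
    · rintro ⟨L, hL, hl, hR⟩
      rw [hrel, key a.2 L hL hl] at hR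
      exact hR
    · intro h
      obtain ⟨L, hL, hl⟩ := hex a.2
      refine ⟨L, hL, hl, ?_⟩
      rw [hrel, key a.2 L hL hl]
      exact h
  · refine (Sig.ex (o1.and (b1.and (h2.comp m1)))).of_eq fun a => ?_
    constructor
    · rintro ⟨L, hL, hl, hR⟩
      rw [hrel, key a.2 L hL hl] at hR
      exact hR
    · intro h
      obtain ⟨L, hL, hl⟩ := hex a.2
      refine ⟨L, hL, hl, ?_⟩
      rw [hrel, key a.2 L hL hl]
      exact h

end Pool.Agent.MP_fd2900_lc
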