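import Pool.Agent.Lib.MP_fd2900_lc.Core1
import Pool.Agent.Lib.MP_fd2900_lc.Core2
import Pool.Agent.Lib.MP_fd2900_lc.Lim
import Pool.Agent.Lib.MP_fd2900_lc.Quot
import Pool.Agent.Lib.MP_fd2900_lc.EAe
import Pool.Agent.Lib.MP_fd2900_lc.Trans

namespace Pool.Agent.MP_fd2900_lc

open FirstOrder FirstOrder.Language Fr

/-- minimality of `M` from strong minimality of the theory -/
theorem core_hmin {ar : ℕ → ℕ} {D : ℕ × List ℕ → Prop}
    (hsm : StronglyMinimal ((Lg ar).completeTheory (Univ D)))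
    (M : Type) [(Lg ar).Structure M] (f : Univ D ↪ₑ[Lg ar] M)
    (n : ℕ) (φ : (Lg ar).Formula (Fin n ⊕ Unit)) (c : Fin n → M) :
      {y : M | φ.Realize (Sum.elim c fun _ => y)}.Finite ∨
        {y : M | ¬ φ.Realize (Sum.elim c fun _ => y)}.Finite := by
  have hne : Nonempty M := ⟨f ((0 : ℕ) : Univ D)⟩
  have heq : (Univ D) ≅[Lg ar] M := f.elementarilyEquivalent
  have hmod : M ⊨ (Lg ar).completeTheory (Univ D) := by
    have := heq.completeTheory_eq
    rw [this]
    infer_instance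
  exact hsm M n φ c

theorem core_cast {ar : ℕ → ℕ} {S : Type} [(Lg ar).Structure S] (i : ℕ) (l : List S) {n : ℕ}
    (h : l.length = n) (h1 : ar i = l.length) (h2 : ar i = n) :
    Structure.RelMap (L := Lg ar) (n := l.length) ⟨i, h1⟩ (fun k => l.get k) ↔
      Structure.RelMap (L := Lg ar) (n := n) ⟨i, h2⟩ (fun k => l.get (k.cast h.symm)) := by
  subst h
  rfl

theorem core_rel_ofFn {ar : ℕ → ℕ} {S : Type} [(Lg ar).Structure S] (j : ℕ → S) (i : ℕ)
    (x : Fin (ar i) → S) :
    (frM ar S j).Rel i (List.ofFn x) ↔ Structure.RelMap (L := Lg ar) (n := ar i) ⟨i, rfl⟩ x := by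
  have hx : (fun k : Fin (ar i) => (List.ofFn x).get (k.cast (by simp))) = x := by
    funext k; simp
  constructor
  · rintro ⟨h1, h2⟩
    have := (core_cast i (List.ofFn x) h1 h1.symm rfl).1 h2
    rwa [hx] at this
  · intro h
    have h1 : (List.ofFn x).length = ar i := by simp
    refine ⟨h1, (core_cast i (List.ofFn x) h1 h1.symm rfl).2 ?_⟩
    rwa [hx]

theorem core_comp (d : ℕ∞) : ComputablePred (fun n : ℕ => (n : ℕ∞) ≤ d) := by
  induction d using ENat.recTopCoe with
  | top =>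
    refine ComputablePred.of_eq (p := fun _ : ℕ => True) ?_ (fun n => by simp)
    exact ⟨fun _ => isTrue trivial, Computable.const _⟩
  | coe m =>
    refine ComputablePred.of_eq (p := fun n : ℕ => n ≤ m) ?_ (fun n => by simp)
    exact (Primrec.nat_le.comp Primrec.id (Primrec.const m)).computablePred

theorem core_minl {ar : ℕ → ℕ} {D : ℕ × List ℕ → Prop}
    {M : Type} [(Lg ar).Structure M] (f : Univ D ↪ₑ[Lg ar] M)
    (hmin : ∀ (n : ℕ) (φ : (Lg ar).Formula (Fin n ⊕ Unit)) (c : Fin n → M),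
      {y : M | φ.Realize (Sum.elim c fun _ => y)}.Finite ∨
        {y : M | ¬ φ.Realize (Sum.elim c fun _ => y)}.Finite)
    (v : List M) (δ : List Lit) :
    {y | (frM ar M fun k => f (toU D k)).Ex1 (frM ar M fun k => f (toU D k)).g0 (v ++ [y]) δ}.Finite ∨
      ∃ a, (frM ar M fun k => f (toU D k)).Ex1 (frM ar M fun k => f (toU D k)).g0
        (v ++ [(frM ar M fun k => f (toU D k)).j a]) δ := by
  have h4 : Function.Injective (frM ar M fun k => f (toU D k)).j := fun a a' h => f.injective h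
  obtain ⟨φ, hφ⟩ := core2_def (ar := ar) (fun k => f (toU D k)) v δ
  rcases min_any hmin φ (Sum.elim (fun k => f (toU D k)) fun k => v.get k) with h | h
  · left
    refine h.subset ?_
    intro y hy
    exact (hφ y).2 hy
  · right
    by_contra hcon
    push Not at hcon
    have hsub : Set.range (frM ar M fun k => f (toU D k)).j ⊆
        {y : M | ¬ φ.Realize (Sum.elim (Sum.elim (fun k => f (toU D k)) fun k => v.get k) fun _ => y)} := by
      rintro _ ⟨a, rfl⟩
      intro hr
      exact hcon a ((hφ _).1 hr)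
    exact (Set.infinite_range_of_injective h4) (h.subset hsub)

/-- the copy of the closed set -/
theorem core_copy {ar : ℕ → ℕ} (A : Setup) [(Lg ar).Structure A.M] (j : ℕ → A.M)
    (hF : A.F = frM ar A.M j) :
    ∃ D' : ℕ × List ℕ → Prop, Delta3 D' ∧
      Nonempty (Univ D' ≃[Lg ar] (subOf (NNs A.F A.b A.V) : (Lg ar).Substructure A.M)) := by
  obtain ⟨c, hc, s1, s2⟩ := Setup.lim A
  have hcm : ∀ x, c x ∈ NNs A.F A.b A.V := fun x => hc ▸ Set.mem_range_self x
  let N := NNs A.F A.b A.V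
  let F' : Fr N := ⟨fun i l => A.F.Rel i (l.map Subtype.val), fun a => ⟨A.F.j a, Setup.const_mem A a⟩⟩
  let c' : ℕ → N := fun x => ⟨c x, hcm x⟩
  have hc' : Function.Surjective c' := by
    rintro ⟨y, hy⟩
    have : y ∈ Set.range c := hc ▸ hy
    obtain ⟨x, hx⟩ := this
    exact ⟨x, Subtype.ext hx⟩
  have hinf : Infinite N := Infinite.of_injective F'.j fun a a' h => A.inj (congrArg Subtype.val h)
  have hrel : ∀ i (l : List ℕ), F'.RelE i (l.map c') ↔ A.F.RelE i (l.map c) := by
    intro i l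
    have e1 : (l.map c').map Subtype.val = l.map c := by simp [c', Function.comp_def]
    unfold Fr.RelE
    refine or_congr (and_congr_right fun _ => ?_) (and_congr_right fun _ => ?_)
    · rw [← e1]
      constructor
      · rintro ⟨x, hx⟩
        exact ⟨x.1, by rw [hx]; rfl⟩
      · rintro ⟨x, hx⟩
        obtain ⟨a, l1, h1, h2, h3⟩ : ∃ a l1, l.map c' = a :: l1 ∧ a.1 = x ∧ l1.map Subtype.val = [x] :=
          List.map_eq_cons_iff.1 hx
        obtain ⟨a', l2, h4, h5, h6⟩ := List.map_eq_cons_iff.1 h3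
        refine ⟨a, ?_⟩
        rw [h1, h4]
        have : l2 = [] := List.map_eq_nil_iff.1 h6
        rw [this, show a' = a from Subtype.ext (h5.trans h2.symm)]
    · show A.F.Rel (i - 1) ((l.map c').map Subtype.val) ↔ _
      rw [e1]
  obtain ⟨D', e, d1, d2, hD'⟩ := quot F' c' hc' (s1.of_eq fun α => (hrel α.1 α.2).symm)
    (s2.of_eq fun α => (not_congr (hrel α.1 α.2)).symm)
  refine ⟨D', delta3_of_sig d1 d2, ⟨?_⟩⟩
  refine { toEquiv := e, map_fun' := fun {n} f => f.elim, map_rel' := ?_ }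
  intro n r x
  obtain ⟨i, hi⟩ := r
  subst hi
  let x' : Fin (ar i) → ℕ := fun k => x k
  have key := hD' i (List.ofFn x')
  have e2 : F'.Rel i ((List.ofFn x').map e) ↔
      (frM ar A.M j).Rel i (List.ofFn fun k => ((e (x' k) : N) : A.M)) := by
    have e3 : ((List.ofFn x').map e).map Subtype.val = List.ofFn fun k => ((e (x' k) : N) : A.M) := by
      rw [List.map_ofFn, List.map_ofFn]; rfl
    show A.F.Rel i (((List.ofFn x').map e).map Subtype.val) ↔ _
    rw [hF, e3]
  rw [e2, core_rel_ofFn] at key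
  exact key.symm

theorem core_exClosed {ar : ℕ → ℕ} (A : Setup) [(Lg ar).Structure A.M] (j : ℕ → A.M)
    (hF : A.F = frM ar A.M j) : ExClosed (L := Lg ar) (NNs A.F A.b A.V) := by
  intro n k θ hθ c hc hz
  obtain ⟨z, hz⟩ := hz
  let τ : Fin n ⊕ Fin k → Tm := Sum.elim (fun i => (2, (i : ℕ))) (fun i => (2, n + i))
  obtain ⟨Λ, -, hΛ⟩ := (exists_dnf θ hθ τ).1
  have hev : ∀ (w : List A.M), (fun i => (frM ar A.M j).ev A.F.g0 (List.ofFn c ++ w) (τ i)) =
      Sum.elim c (fun i : Fin k => w.getD i (A.F.j 0)) := by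
    intro w
    funext x
    rcases x with i | i
    · have h1 : (i : ℕ) < (List.ofFn c).length := by simp
      simp only [τ, Sum.elim_inl, Fr.ev]
      norm_num
      rw [List.getElem?_append_left h1]
      simp
    · simp only [τ, Sum.elim_inr, Fr.ev]
      norm_num
      rw [List.getElem?_append_right (by simp)]
      simp [hF]
  have h1 : θ.Realize (fun i => (frM ar A.M j).ev A.F.g0 (List.ofFn c ++ List.ofFn z) (τ i)) := by
    rw [hev]
    have : (fun i : Fin k => (List.ofFn z).getD i (A.F.j 0)) = z := by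
      funext i; simp
    rw [this]; exact hz
  obtain ⟨l, hl, hh⟩ := (hΛ A.M j A.F.g0 (List.ofFn c ++ List.ofFn z)).1 h1
  have hc' : ∀ y ∈ List.ofFn c, y ∈ NNs A.F A.b A.V := by
    intro y hy
    obtain ⟨i, rfl⟩ := (List.mem_ofFn' c y).1 hy
    exact hc i
  obtain ⟨w, hw, hh'⟩ := Setup.ex1_NNs (A := A) hc' (δ := l) ⟨List.ofFn z, by rw [hF] at hh ⊢; exact hh⟩
  refine ⟨fun i => w.getD i (A.F.j 0), ?_, ?_⟩
  · intro i
    show w.getD (i : ℕ) (A.F.j 0) ∈ _
    by_cases h : (i : ℕ) < w.length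
    · rw [List.getD_eq_getElem _ _ h]
      exact hw _ (List.getElem_mem h)
    · rw [List.getD_eq_default _ _ (by omega)]
      exact Setup.const_mem A 0
  · have := (hΛ A.M j A.F.g0 (List.ofFn c ++ w)).2 ⟨l, hl, by rw [hF] at hh' ⊢; exact hh'⟩
    rwa [hev] at this

theorem main3 {ar : ℕ → ℕ} (har : Computable ar) {D : ℕ × List ℕ → Prop} (hD : ComputablePred D)
    (hsm : StronglyMinimal ((Lg ar).completeTheory (Univ D)))
    (M : Type) [(Lg ar).Structure M] (f : Univ D ↪ₑ[Lg ar] M) (b : ℕ → M) (d : ℕ∞)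
    (hb : ∀ i : ℕ, (i : ℕ∞) < d → ¬ Alg (L := Lg ar) (cst f) (fun k : Fin i => b k) (b i)) :
    ExClosed (L := Lg ar) (clEA (L := Lg ar) (cst f) b d) ∧
    ∃ D' : ℕ × List ℕ → Prop, Delta3 D' ∧
      Nonempty (Univ D' ≃[Lg ar] (subOf (clEA (L := Lg ar) (cst f) b d) : (Lg ar).Substructure M)) := by
  let V : ℕ → Prop := fun n => (n : ℕ∞) ≤ d
  have hb' : ∀ n, V n → ∀ i < n,
      ¬ Alg (L := Lg ar) (fun k => f (toU D k)) (fun k : Fin i => b k) (b i) := by
    intro n hn i hi
    exact hb i (lt_of_lt_of_le (by exact_mod_cast hi) hn)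
  have hmin := core_hmin hsm M f
  let A : Setup :=
    { M := M
      F := frM ar M fun k => f (toU D k)
      b := b
      V := V
      V0 := by simp [V]
      minl := fun v δ _ => core_minl f hmin v δ
      cl := fun v δ k y hv h1 h2 =>
        NNs_cl (fun k => f (toU D k)) b V (by simp [V]) v δ k y hv h1 h2
      inj := fun a a' h => f.injective h
      sigLe := sigLe_main har hD f hmin b V (core_comp d) hb' }
  have hN : NNs A.F A.b A.V = clEA (L := Lg ar) (cst f) b d := by
    ext e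
    exact mem_NNs_iff (fun k => f (toU D k)) b V e
  rw [← hN]
  exact ⟨core_exClosed A (fun k => f (toU D k)) rfl, core_copy A (fun k => f (toU D k)) rfl⟩

end Pool.Agent.MP_fd2900_lc
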