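import Mathlib

/-! the notions used in the statement -/

namespace Pool.Agent.MP_fd2900_lc

open FirstOrder FirstOrder.Language

/-- the relational language with relation symbols `R_i` (`i : ℕ`), `R_i` of arity `ar i` -/
def Lg (ar : ℕ → ℕ) : FirstOrder.Language.{0, 0} := ⟨fun _ => Empty, fun n => {i : ℕ // ar i = n}⟩

/-- the universe `ω` of the structure with atomic diagram `D` -/
def Univ (_D : ℕ × List ℕ → Prop) : Type := ℕ

instance (D : ℕ × List ℕ → Prop) : Nonempty (Univ D) := ⟨(0 : ℕ)⟩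

/-- the structure on `ω` in which `R_i` holds of `x₁, …, x_k` iff `D (i, [x₁, …, x_k])` -/
instance instUniv (ar : ℕ → ℕ) (D : ℕ × List ℕ → Prop) : (Lg ar).Structure (Univ D) where
  funMap f _ := f.elim
  RelMap r xs := D (r.1, List.ofFn (fun i => (xs i : ℕ)))

/-- a complete theory is strongly minimal: in every model, every subset definable with parameters is finite or
cofinite -/
def StronglyMinimal {L : FirstOrder.Language.{0, 0}} (T : L.Theory) : Prop :=
  ∀ (N : Type) [L.Structure N] [Nonempty N] [N ⊨ T] (n : ℕ) (φ : L.Formula (Fin n ⊕ Unit)) (c : Fin n → N),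
    {y : N | φ.Realize (Sum.elim c fun _ => y)}.Finite ∨
      {y : N | ¬ φ.Realize (Sum.elim c fun _ => y)}.Finite

section
variable {L : FirstOrder.Language.{0, 0}} {M : Type} [L.Structure M]

/-- `e` is algebraic over the image of `j` and the tuple `c` -/
def Alg {n : ℕ} (j : ℕ → M) (c : Fin n → M) (e : M) : Prop :=
  ∃ φ : L.Formula ((ℕ ⊕ Fin n) ⊕ Unit),
    φ.Realize (Sum.elim (Sum.elim j c) fun _ => e) ∧
      {y : M | φ.Realize (Sum.elim (Sum.elim j c) fun _ => y)}.Finite

/-- `e` is algebraic over the image of `j` and the tuple `c`, as is witnessed by an `∃∀` formula -/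
def AlgEA {n : ℕ} (j : ℕ → M) (c : Fin n → M) (e : M) : Prop :=
  ∃ (k l : ℕ) (θ : L.Formula (((ℕ ⊕ Fin n) ⊕ Unit) ⊕ (Fin k ⊕ Fin l))), θ.IsQF ∧
    (∃ u : Fin k → M, ∀ v : Fin l → M,
      θ.Realize (Sum.elim (Sum.elim (Sum.elim j c) fun _ => e) (Sum.elim u v))) ∧
    {y : M | ∃ u : Fin k → M, ∀ v : Fin l → M,
      θ.Realize (Sum.elim (Sum.elim (Sum.elim j c) fun _ => y) (Sum.elim u v))}.Finite

end

/-- the identity map from `ℕ` to the universe of `Univ D` -/
def toU (D : ℕ × List ℕ → Prop) (a : ℕ) : Univ D := a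

/-- the constants of the elementary submodel `Univ D` in `M` -/
def cst {ar : ℕ → ℕ} {D : ℕ × List ℕ → Prop} {M : Type} [(Lg ar).Structure M]
    (f : Univ D ↪ₑ[Lg ar] M) (k : ℕ) : M := f (toU D k)

/-- the elements that are exists-forall algebraic over the constants `j` and a finite part of the sequence
`b_0, b_1, …` of length `d` -/
def clEA {L : FirstOrder.Language.{0, 0}} {M : Type} [L.Structure M] (j : ℕ → M) (b : ℕ → M) (d : ℕ∞) :
    Set M :=
  {e | ∃ n : ℕ, (n : ℕ∞) ≤ d ∧ AlgEA (L := L) j (fun k : Fin n => b k) e}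

/-- `N` is existentially closed in `M` : every quantifier free formula with parameters in `N` that has a
solution in `M` has a solution in `N` -/
def ExClosed {L : FirstOrder.Language.{0, 0}} {M : Type} [L.Structure M] (N : Set M) : Prop :=
  ∀ (n k : ℕ) (θ : L.Formula (Fin n ⊕ Fin k)), θ.IsQF → ∀ c : Fin n → M, (∀ i, c i ∈ N) →
    (∃ z : Fin k → M, θ.Realize (Sum.elim c z)) →
    ∃ z : Fin k → M, (∀ i, z i ∈ N) ∧ θ.Realize (Sum.elim c z)

/-- a set of elements as a substructure (the language is relational) -/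
def subOf {ar : ℕ → ℕ} {M : Type} [(Lg ar).Structure M] (N : Set M) : (Lg ar).Substructure M where
  carrier := N
  fun_mem f := f.elim

/-- `D` is `Δ⁰₃`, that is, computable relative to `0''` -/
def Delta3 (D : ℕ × List ℕ → Prop) : Prop :=
  (∃ R : (ℕ × List ℕ) × ℕ × ℕ × ℕ → Prop, ComputablePred R ∧
    ∀ a, D a ↔ ∃ x, ∀ y, ∃ z, R (a, x, y, z)) ∧
  (∃ R : (ℕ × List ℕ) × ℕ × ℕ × ℕ → Prop, ComputablePred R ∧
    ∀ a, D a ↔ ∀ x, ∃ y, ∀ z, R (a, x, y, z))

end Pool.Agent.MP_fd2900_lc
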