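import Pool.Agent.Lib.MP_fd2900_lc.SigA
import Pool.Agent.Lib.MP_fd2900_lc.StmtDefs

namespace Pool.Agent.MP_fd2900_lc

private theorem core1_cp {α β : Type} [Primcodable α] [Primcodable β] {P : β → Prop}
    (h : ComputablePred P) {f : α → β} (hf : Computable f) :
    ComputablePred (fun a => P (f a)) := by
  obtain ⟨hd, hc⟩ := h
  exact ⟨fun a => hd (f a), hc.comp hf⟩

private theorem core1_shuffle :
    Computable (fun p : (ℕ × List ℕ) × ℕ × ℕ × ℕ => (((p.1, p.2.1), p.2.2.1), p.2.2.2)) := by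
  have h1 : Computable (fun p : (ℕ × List ℕ) × ℕ × ℕ × ℕ => p.1) := Computable.fst
  have h2 : Computable (fun p : (ℕ × List ℕ) × ℕ × ℕ × ℕ => p.2.1) :=
    Computable.fst.comp Computable.snd
  have h3 : Computable (fun p : (ℕ × List ℕ) × ℕ × ℕ × ℕ => p.2.2.1) :=
    Computable.fst.comp (Computable.snd.comp Computable.snd)
  have h4 : Computable (fun p : (ℕ × List ℕ) × ℕ × ℕ × ℕ => p.2.2.2) :=
    Computable.snd.comp (Computable.snd.comp Computable.snd)
  exact ((h1.pair h2).pair h3).pair h4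

private theorem core1_ex {D : ℕ × List ℕ → Prop} (h : Sig 3 D) :
    ∃ Q : (((ℕ × List ℕ) × ℕ) × ℕ) × ℕ → Prop, ComputablePred Q ∧
      ∀ a, D a ↔ ∃ x, ∀ y, ∃ z, ¬ Q (((a, x), y), z) := by
  obtain ⟨Q2, h2, e2⟩ := h
  obtain ⟨Q1, h1, e1⟩ := h2
  obtain ⟨Q0, h0, e0⟩ := h1
  refine ⟨Q0, h0, fun a => ?_⟩
  rw [e2]
  refine exists_congr fun x => ?_
  rw [e1]
  push Not
  refine forall_congr' fun y => ?_
  rw [e0]

theorem delta3_of_sig {D : ℕ × List ℕ → Prop} (h1 : Sig 3 D) (h2 : Sig 3 (fun a => ¬ D a)) :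
    Delta3 D := by
  obtain ⟨Q, hQ, eQ⟩ := core1_ex h1
  obtain ⟨Q', hQ', eQ'⟩ := core1_ex h2
  refine ⟨⟨fun p => ¬ Q (((p.1, p.2.1), p.2.2.1), p.2.2.2), ?_, ?_⟩,
    ⟨fun p => Q' (((p.1, p.2.1), p.2.2.1), p.2.2.2), ?_, ?_⟩⟩
  · exact (core1_cp hQ core1_shuffle).not
  · intro a
    exact eQ a
  · exact core1_cp hQ' core1_shuffle
  · intro a
    have := eQ' a
    constructor
    · intro hD x
      by_contra hx
      push Not at hx
      exact this.2 ⟨x, fun y => hx y⟩ hD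
    · intro hall
      by_contra hD
      obtain ⟨x, hx⟩ := this.1 hD
      obtain ⟨y, hy⟩ := hall x
      obtain ⟨z, hz⟩ := hx y
      exact hz (hy z)

end Pool.Agent.MP_fd2900_lc
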