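import Pool.Agent.Lib.MP_fd2900_lc.Sig

namespace Pool.Agent.MP_fd2900_lc

/-- terms: `(0, a)` is the parameter `a`, `(1, i)` the generic `b_i`, `(2, x)` the variable `x` -/
abbrev Tm : Type := ℕ × ℕ

/-- literals: sign, relation symbol (`0` is equality, `i + 1` the `i`-th symbol), arguments -/
abbrev Lit : Type := Bool × ℕ × List Tm

/-- `(p, Λ)` is the formula `∃ u (|u| = p) ⋀_{λ ∈ Λ} ¬ ∃ z λ(y, u, z)` in the variable `y = v₀` -/
abbrev Psi : Type := ℕ × List (List Lit)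

/-- entries `(kind, m, a, δ, ψ)` -/
abbrev Ent : Type := ℕ × ℕ × ℕ × List Lit × Psi

/-- names `(n, entries)` : formulas in the variables `v₀, …, v_{n-1}` -/
abbrev Nm : Type := ℕ × List Ent

/-- extra conditions `(kind, a, δ)` -/
abbrev Ext : Type := ℕ × ℕ × List Lit

instance instPcTm : Primcodable Tm := inferInstance
instance instPcLit : Primcodable Lit := inferInstance
instance instPcLits : Primcodable (List Lit) := inferInstance
instance instPcPsi : Primcodable Psi := inferInstance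
instance instPcEnt : Primcodable Ent := inferInstance
instance instPcEnts : Primcodable (List Ent) := inferInstance
instance instPcNm : Primcodable Nm := inferInstance
instance instPcExt : Primcodable Ext := inferInstance

/-- a structure with constants from `ℕ` -/
structure Fr (S : Type) where
  Rel : ℕ → List S → Prop
  j : ℕ → S

namespace Fr

variable {S : Type} (F : Fr S)

/-- relation symbols, `0` is equality -/
def RelE (i : ℕ) (l : List S) : Prop :=
  (i = 0 ∧ ∃ x, l = [x, x]) ∨ (i ≠ 0 ∧ F.Rel (i - 1) l)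

def ev (g : ℕ → S) (v : List S) (t : Tm) : S :=
  if t.1 = 0 then F.j t.2 else if t.1 = 1 then g t.2 else v.getD t.2 (F.j 0)

def hold (g : ℕ → S) (v : List S) (l : Lit) : Prop :=
  F.RelE l.2.1 (l.2.2.map (F.ev g v)) ↔ l.1 = true

def Holds (g : ℕ → S) (v : List S) (δ : List Lit) : Prop := ∀ l ∈ δ, F.hold g v l

/-- existential closure of the variables `≥ v.length` -/
def Ex1 (g : ℕ → S) (v : List S) (δ : List Lit) : Prop := ∃ z : List S, F.Holds g (v ++ z) δ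

def Sat2 (g : ℕ → S) (ψ : Psi) (y : S) : Prop :=
  ∃ u : List S, u.length = ψ.1 ∧ ∀ l ∈ ψ.2, ¬ F.Ex1 g (y :: u) l

/-- at least `k` elements satisfy `P` -/
def AtL {T : Type} (k : ℕ) (P : T → Prop) : Prop :=
  ∃ Y : List T, Y.length = k ∧ Y.Nodup ∧ ∀ y ∈ Y, P y

/-- exactly `k` elements satisfy `P` -/
def Exa {T : Type} (k : ℕ) (P : T → Prop) : Prop := AtL k P ∧ ¬ AtL (k + 1) P

/-- the literals in `δ` used with this valuation never mention generics -/
def g0 : ℕ → S := fun _ => F.j 0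

/-- meaning of an entry `(kind, m, a, δ, ψ)`:
* kind 0 : `v_m = a` and `∃ z δ(v_0 … v_m, z)`;
* kind 1 : exactly `a` elements `y` satisfy `∃ z δ(v_0 … v_{m-1}, y, z)`, and `v_m` is one of them;
* kind 2 : `v_m, …, v_{m+a-1}` are distinct and satisfy `ψ`;
* other kinds : no condition. -/
def SolE (g : ℕ → S) (v : List S) (e : Ent) : Prop :=
  (e.1 = 0 → v.getD e.2.1 (F.j 0) = F.j e.2.2.1 ∧ F.Ex1 F.g0 (v.take (e.2.1 + 1)) e.2.2.2.1) ∧
  (e.1 = 1 → Exa e.2.2.1 (fun y => F.Ex1 F.g0 (v.take e.2.1 ++ [y]) e.2.2.2.1) ∧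
    F.Ex1 F.g0 (v.take (e.2.1 + 1)) e.2.2.2.1) ∧
  (e.1 = 2 → ((v.drop e.2.1).take e.2.2.1).Nodup ∧
    ∀ y ∈ (v.drop e.2.1).take e.2.2.1, F.Sat2 g e.2.2.2.2 y)

/-- solutions of a name -/
def Sol (g : ℕ → S) (p : Nm) (v : List S) : Prop :=
  v.length = p.1 ∧ ∀ e ∈ p.2, F.SolE g v e

/-- extra conditions:
* kind 0 : none;
* kind 1 : `¬ ∃ z δ(v, z)`;
* kind 2 : `¬ ∃ z δ(v, a, z)`;
* kind 3 : not exactly `a` elements `y` satisfy `∃ z δ(v, y, z)`. -/
def ExtP (v : List S) (x : Ext) : Prop :=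
  (x.1 = 1 → ¬ F.Ex1 F.g0 v x.2.2) ∧
  (x.1 = 2 → ¬ F.Ex1 F.g0 (v ++ [F.j x.2.1]) x.2.2) ∧
  (x.1 = 3 → ¬ Exa x.2.1 (fun y => F.Ex1 F.g0 (v ++ [y]) x.2.2))

/-- the name `p` with the extra condition `x` has at least `k` solutions -/
def Ge (g : ℕ → S) (p : Nm) (x : Ext) (k : ℕ) : Prop :=
  AtL k (fun v => F.Sol g p v ∧ F.ExtP v x)

/-- at most `k` solutions -/
def Le (g : ℕ → S) (p : Nm) (x : Ext) (k : ℕ) : Prop := ¬ F.Ge g p x (k + 1)

/-- trees: `Tr P K d h` iff there are `≥ K` elements `y₁` such that there are `≥ K` elements `y₂` … (`d` times)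
with `P (h, y₁, …, y_d)` -/
def Tr (P : (ℕ → S) → Prop) (K : ℕ) : ℕ → List S → Prop
  | 0, h => P (fun i => h.getD i (F.j 0))
  | d + 1, h => AtL K (fun y => Tr P K d (h ++ [y]))

end Fr

/-- all generics of `ψ` are among `b_0, …, b_{d-1}` -/
def UGψ (d : ℕ) (ψ : Psi) : Prop := ∀ l ∈ ψ.2, ∀ a ∈ l, ∀ t ∈ a.2.2, t.1 = 1 → t.2 < d

/-- all generics of the name `p` are among `b_0, …, b_{d-1}` -/
def UG (d : ℕ) (p : Nm) : Prop := ∀ e ∈ p.2, UGψ d e.2.2.2.2

end Pool.Agent.MP_fd2900_lc
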