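import Pool.Agent.Lib.MP_fd2900_lc.ModDefs

/-! existentially definable and exists-forall definable predicates of `M`, with parameters `c` -/

namespace Pool.Agent.MP_fd2900_lc

open FirstOrder FirstOrder.Language

variable {L : FirstOrder.Language.{0, 0}} {M : Type} [L.Structure M] {γ α β : Type}

/-- quantifier free definable with parameters -/
def QFd (c : γ → M) (P : (α → M) → Prop) : Prop :=
  ∃ θ : L.Formula (γ ⊕ α), θ.IsQF ∧ ∀ v, P v ↔ θ.Realize (Sum.elim c v)

/-- existentially definable with parameters -/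
def Ed (c : γ → M) (P : (α → M) → Prop) : Prop :=
  ∃ (k : ℕ) (θ : L.Formula (γ ⊕ (α ⊕ Fin k))), θ.IsQF ∧
    ∀ v, P v ↔ ∃ u : Fin k → M, θ.Realize (Sum.elim c (Sum.elim v u))

/-- exists-forall definable with parameters -/
def EAd (c : γ → M) (P : (α → M) → Prop) : Prop :=
  ∃ (k l : ℕ) (θ : L.Formula (γ ⊕ (α ⊕ (Fin k ⊕ Fin l)))), θ.IsQF ∧
    ∀ v, P v ↔ ∃ u : Fin k → M, ∀ w : Fin l → M, θ.Realize (Sum.elim c (Sum.elim v (Sum.elim u w)))

end Pool.Agent.MP_fd2900_lc
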