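import Pool.Agent.Lib.MP_fd2900_lc.EAa1

namespace Pool.Agent.MP_fd2900_lc

open FirstOrder FirstOrder.Language

variable {L : FirstOrder.Language.{0, 0}} {M : Type} [L.Structure M] {γ α β : Type}

variable {c : γ → M} {P Q : (α → M) → Prop}

private theorem EAa_isQF_relabel {δ ε : Type} {θ : L.Formula δ} (h : θ.IsQF) (g : δ → ε) :
    (θ.relabel g).IsQF :=
  BoundedFormula.IsQF.relabel h _

/-- blocks indexed by arbitrary finite types -/
private theorem EAa_of_finite {K N : Type} [Finite K] [Finite N]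
    (θ : L.Formula (γ ⊕ (α ⊕ (K ⊕ N)))) (hθ : θ.IsQF)
    (h : ∀ v, P v ↔ ∃ u : K → M, ∀ w : N → M,
      θ.Realize (Sum.elim c (Sum.elim v (Sum.elim u w)))) : EAd (L := L) c P := by
  obtain ⟨k, ⟨e⟩⟩ := Finite.exists_equiv_fin K
  obtain ⟨l, ⟨e'⟩⟩ := Finite.exists_equiv_fin N
  refine ⟨k, l, θ.relabel (Sum.map id (Sum.map id (Sum.map e e'))), EAa_isQF_relabel hθ _,
    fun v => ?_⟩
  have key : ∀ (u : Fin k → M) (w : Fin l → M),
      (θ.relabel (Sum.map id (Sum.map id (Sum.map e e')))).Realize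
        (Sum.elim c (Sum.elim v (Sum.elim u w))) ↔
      θ.Realize (Sum.elim c (Sum.elim v (Sum.elim (u ∘ e) (w ∘ e')))) := by
    intro u w
    rw [Formula.realize_relabel]
    have : (Sum.elim c (Sum.elim v (Sum.elim u w))) ∘ (Sum.map id (Sum.map id (Sum.map e e'))) =
        Sum.elim c (Sum.elim v (Sum.elim (u ∘ e) (w ∘ e'))) := by
      funext x
      rcases x with x | x | x | x <;> rfl
    rw [this]
  rw [h]
  simp only [key]
  constructor
  · rintro ⟨u, hu⟩
    refine ⟨u ∘ e.symm, fun w => ?_⟩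
    have e1 : (u ∘ e.symm) ∘ e = u := by
      funext x
      simp
    rw [e1]
    exact hu _
  · rintro ⟨u, hu⟩
    refine ⟨u ∘ e, fun w => ?_⟩
    have e1 : (w ∘ e'.symm) ∘ e' = w := by
      funext x
      simp
    have := hu (w ∘ e'.symm)
    rwa [e1] at this

private theorem EAa_of_const (p : Prop) (h : ∀ v, P v ↔ p) : EAd (L := L) c P := by
  by_cases hp : p
  · refine ⟨0, 0, ⊤, BoundedFormula.IsQF.top, fun v => ?_⟩
    rw [h]
    refine ⟨fun _ => ⟨Fin.elim0, fun w => Formula.realize_top.mpr trivial⟩, fun _ => hp⟩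
  · refine ⟨0, 0, ⊥, BoundedFormula.isQF_bot, fun v => ?_⟩
    rw [h]
    refine ⟨fun h => absurd h hp, fun ⟨u, hu⟩ => ?_⟩
    exact absurd (hu Fin.elim0) (by simp [Formula.Realize, BoundedFormula.Realize])

private theorem EAa_of_isEmpty (hM : IsEmpty M) : EAd (L := L) c P := by
  by_cases hα : Nonempty (α → M)
  · obtain ⟨v0⟩ := hα
    have hs : Subsingleton (α → M) := by
      have : IsEmpty α := ⟨fun a => hM.false (v0 a)⟩
      infer_instance
    exact EAa_of_const (P v0) fun v => by rw [Subsingleton.elim v v0]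
  · exact EAa_of_const True fun v => absurd ⟨v⟩ hα

theorem EAd.of_e (h : Ed (L := L) c P) : EAd (L := L) c P := by
  obtain ⟨k, θ, hθ, h⟩ := h
  refine ⟨k, 0, θ.relabel (Sum.map id (Sum.map id Sum.inl)), EAa_isQF_relabel hθ _, fun v => ?_⟩
  rw [h]
  have key : ∀ (u : Fin k → M) (w : Fin 0 → M),
      (θ.relabel (Sum.map id (Sum.map id Sum.inl))).Realize
        (Sum.elim c (Sum.elim v (Sum.elim u w))) ↔ θ.Realize (Sum.elim c (Sum.elim v u)) := by
    intro u w
    rw [Formula.realize_relabel]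
    have : (Sum.elim c (Sum.elim v (Sum.elim u w))) ∘ (Sum.map id (Sum.map id Sum.inl)) =
        Sum.elim c (Sum.elim v u) := by
      funext x
      rcases x with x | x | x <;> rfl
    rw [this]
  simp only [key]
  exact ⟨fun ⟨u, hu⟩ => ⟨u, fun _ => hu⟩, fun ⟨u, hu⟩ => ⟨u, hu Fin.elim0⟩⟩

theorem EAd.of_not_e (h : Ed (L := L) c P) : EAd (L := L) c (fun v => ¬ P v) := by
  obtain ⟨k, θ, hθ, h⟩ := h
  refine ⟨0, k, (θ.not).relabel (Sum.map id (Sum.map id Sum.inr)), EAa_isQF_relabel hθ.not _,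
    fun v => ?_⟩
  show ¬ P v ↔ _
  rw [h]
  have key : ∀ (u : Fin 0 → M) (w : Fin k → M),
      ((θ.not).relabel (Sum.map id (Sum.map id Sum.inr))).Realize
        (Sum.elim c (Sum.elim v (Sum.elim u w))) ↔ ¬ θ.Realize (Sum.elim c (Sum.elim v w)) := by
    intro u w
    rw [Formula.realize_relabel]
    have : (Sum.elim c (Sum.elim v (Sum.elim u w))) ∘ (Sum.map id (Sum.map id Sum.inr)) =
        Sum.elim c (Sum.elim v w) := by
      funext x
      rcases x with x | x | x <;> rfl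
    rw [this]
    exact Formula.realize_not
  simp only [key]
  push Not
  exact ⟨fun hu => ⟨Fin.elim0, hu⟩, fun ⟨_, hu⟩ => hu⟩

theorem EAd.and (hP : EAd (L := L) c P) (hQ : EAd (L := L) c Q) :
    EAd (L := L) c (fun v => P v ∧ Q v) := by
  rcases isEmpty_or_nonempty M with hM | hM
  · exact EAa_of_isEmpty hM
  obtain ⟨k, l, θ, hθ, h⟩ := hP
  obtain ⟨k', l', θ', hθ', h'⟩ := hQ
  have hq1 : (θ.relabel (Sum.map id (Sum.map id (Sum.map Sum.inl Sum.inl))) :
      L.Formula (γ ⊕ (α ⊕ ((Fin k ⊕ Fin k') ⊕ (Fin l ⊕ Fin l'))))).IsQF := EAa_isQF_relabel hθ _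
  have hq2 : (θ'.relabel (Sum.map id (Sum.map id (Sum.map Sum.inr Sum.inr))) :
      L.Formula (γ ⊕ (α ⊕ ((Fin k ⊕ Fin k') ⊕ (Fin l ⊕ Fin l'))))).IsQF := EAa_isQF_relabel hθ' _
  refine EAa_of_finite _ (hq1.inf hq2) fun v => ?_
  rw [h, h']
  have key : ∀ (u : Fin k ⊕ Fin k' → M) (w : Fin l ⊕ Fin l' → M),
      ((θ.relabel (Sum.map id (Sum.map id (Sum.map Sum.inl Sum.inl))) :
        L.Formula (γ ⊕ (α ⊕ ((Fin k ⊕ Fin k') ⊕ (Fin l ⊕ Fin l'))))) ⊓
        θ'.relabel (Sum.map id (Sum.map id (Sum.map Sum.inr Sum.inr)))).Realize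
        (Sum.elim c (Sum.elim v (Sum.elim u w))) ↔
      θ.Realize (Sum.elim c (Sum.elim v (Sum.elim (u ∘ Sum.inl) (w ∘ Sum.inl)))) ∧
        θ'.Realize (Sum.elim c (Sum.elim v (Sum.elim (u ∘ Sum.inr) (w ∘ Sum.inr)))) := by
    intro u w
    rw [Formula.realize_inf, Formula.realize_relabel, Formula.realize_relabel]
    have e1 : (Sum.elim c (Sum.elim v (Sum.elim u w))) ∘
        (Sum.map id (Sum.map id (Sum.map Sum.inl Sum.inl))) =
        Sum.elim c (Sum.elim v (Sum.elim (u ∘ Sum.inl) (w ∘ Sum.inl))) := by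
      funext x
      rcases x with x | x | x | x <;> rfl
    have e2 : (Sum.elim c (Sum.elim v (Sum.elim u w))) ∘
        (Sum.map id (Sum.map id (Sum.map Sum.inr Sum.inr))) =
        Sum.elim c (Sum.elim v (Sum.elim (u ∘ Sum.inr) (w ∘ Sum.inr))) := by
      funext x
      rcases x with x | x | x | x <;> rfl
    rw [e1, e2]
  simp only [key]
  constructor
  · rintro ⟨⟨u, hu⟩, u', hu'⟩
    exact ⟨Sum.elim u u', fun w => ⟨hu _, hu' _⟩⟩
  · rintro ⟨u, hu⟩
    obtain ⟨m⟩ := hM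
    refine ⟨⟨u ∘ Sum.inl, fun w => ?_⟩, u ∘ Sum.inr, fun w => ?_⟩
    · exact (hu (Sum.elim w fun _ => m)).1
    · exact (hu (Sum.elim (fun _ => m) w)).2

theorem EAd.subst (hP : EAd (L := L) c P) (f : α → γ ⊕ β) :
    EAd (L := L) c (fun v : β → M => P (fun i => Sum.elim c v (f i))) := by
  obtain ⟨k, l, θ, hθ, h⟩ := hP
  let g : γ ⊕ (α ⊕ (Fin k ⊕ Fin l)) → γ ⊕ (β ⊕ (Fin k ⊕ Fin l)) :=
    Sum.elim Sum.inl (Sum.elim (fun i => Sum.elim Sum.inl (fun b => Sum.inr (Sum.inl b)) (f i))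
      (fun j => Sum.inr (Sum.inr j)))
  refine ⟨k, l, θ.relabel g, EAa_isQF_relabel hθ _, fun v => ?_⟩
  show P (fun i => Sum.elim c v (f i)) ↔ _
  rw [h]
  have key : ∀ (u : Fin k → M) (w : Fin l → M),
      (θ.relabel g).Realize (Sum.elim c (Sum.elim v (Sum.elim u w))) ↔
        θ.Realize (Sum.elim c (Sum.elim (fun i => Sum.elim c v (f i)) (Sum.elim u w))) := by
    intro u w
    rw [Formula.realize_relabel]
    have : (Sum.elim c (Sum.elim v (Sum.elim u w))) ∘ g =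
        Sum.elim c (Sum.elim (fun i => Sum.elim c v (f i)) (Sum.elim u w)) := by
      funext x
      rcases x with x | x | x
      · rfl
      · simp only [g, Function.comp_apply, Sum.elim_inr, Sum.elim_inl]
        rcases f x with y | y <;> rfl
      · rfl
    rw [this]
  simp only [key]

theorem EAd.ex {m : ℕ} {R : (α ⊕ Fin m → M) → Prop} (h : EAd (L := L) c R) :
    EAd (L := L) c (fun v : α → M => ∃ w : Fin m → M, R (Sum.elim v w)) := by
  obtain ⟨k, l, θ, hθ, h⟩ := h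
  let g : γ ⊕ ((α ⊕ Fin m) ⊕ (Fin k ⊕ Fin l)) → γ ⊕ (α ⊕ ((Fin m ⊕ Fin k) ⊕ Fin l)) :=
    Sum.elim Sum.inl (Sum.elim
      (Sum.elim (fun a => Sum.inr (Sum.inl a)) (fun j => Sum.inr (Sum.inr (Sum.inl (Sum.inl j)))))
      (Sum.elim (fun i => Sum.inr (Sum.inr (Sum.inl (Sum.inr i))))
        (fun n => Sum.inr (Sum.inr (Sum.inr n)))))
  refine EAa_of_finite (K := Fin m ⊕ Fin k) (N := Fin l) (θ.relabel g) (EAa_isQF_relabel hθ _)
    fun v => ?_
  have key : ∀ (u : Fin m ⊕ Fin k → M) (w : Fin l → M),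
      (θ.relabel g).Realize (Sum.elim c (Sum.elim v (Sum.elim u w))) ↔
        θ.Realize (Sum.elim c (Sum.elim (Sum.elim v (u ∘ Sum.inl))
          (Sum.elim (u ∘ Sum.inr) w))) := by
    intro u w
    rw [Formula.realize_relabel]
    have : (Sum.elim c (Sum.elim v (Sum.elim u w))) ∘ g =
        Sum.elim c (Sum.elim (Sum.elim v (u ∘ Sum.inl)) (Sum.elim (u ∘ Sum.inr) w)) := by
      funext x
      rcases x with x | (x | x) | x | x <;> rfl
    rw [this]
  simp only [key, h]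
  constructor
  · rintro ⟨w, u, hu⟩
    exact ⟨Sum.elim w u, fun z => hu z⟩
  · rintro ⟨u, hu⟩
    exact ⟨u ∘ Sum.inl, u ∘ Sum.inr, fun z => hu z⟩

/-- a finite conjunction -/
theorem EAd.ball {n : ℕ} {R : Fin n → (α → M) → Prop} (h : ∀ i, EAd (L := L) c (R i)) :
    EAd (L := L) c (fun v => ∀ i, R i v) := by
  induction n with
  | zero => exact EAa_of_const True fun v => ⟨fun _ => trivial, fun _ i => i.elim0⟩
  | succ n ih =>
    have h1 := (h 0).and (ih (R := fun i => R i.succ) fun i => h i.succ)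
    have e : (fun v => R 0 v ∧ ∀ i : Fin n, R i.succ v) = fun v => ∀ i, R i v := by
      funext v
      exact propext (Fin.forall_fin_succ (P := fun i => R i v)).symm
    rwa [e] at h1

end Pool.Agent.MP_fd2900_lc
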