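import Pool.Agent.Lib.MP_fd2900_lc.EA0

namespace Pool.Agent.MP_fd2900_lc

open FirstOrder FirstOrder.Language

variable {L : FirstOrder.Language.{0, 0}} {M : Type} [L.Structure M] {γ α β : Type}

variable {c : γ → M} {P Q : (α → M) → Prop}

private theorem EAa1_isQF_relabel {δ ε : Type} {θ : L.Formula δ} (h : θ.IsQF) (g : δ → ε) :
    (θ.relabel g).IsQF :=
  BoundedFormula.IsQF.relabel h _

/-- blocks indexed by arbitrary finite types -/
private theorem EAa1_of_finite {K : Type} [Finite K]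
    (θ : L.Formula (γ ⊕ (α ⊕ K))) (hθ : θ.IsQF)
    (h : ∀ v, P v ↔ ∃ u : K → M, θ.Realize (Sum.elim c (Sum.elim v u))) : Ed (L := L) c P := by
  obtain ⟨k, ⟨e⟩⟩ := Finite.exists_equiv_fin K
  refine ⟨k, θ.relabel (Sum.map id (Sum.map id e)), EAa1_isQF_relabel hθ _, fun v => ?_⟩
  have key : ∀ (u : Fin k → M),
      (θ.relabel (Sum.map id (Sum.map id e))).Realize (Sum.elim c (Sum.elim v u)) ↔
      θ.Realize (Sum.elim c (Sum.elim v (u ∘ e))) := by
    intro u
    rw [Formula.realize_relabel]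
    have : (Sum.elim c (Sum.elim v u)) ∘ (Sum.map id (Sum.map id e)) =
        Sum.elim c (Sum.elim v (u ∘ e)) := by
      funext x
      rcases x with x | x | x <;> rfl
    rw [this]
  rw [h]
  simp only [key]
  constructor
  · rintro ⟨u, hu⟩
    refine ⟨u ∘ e.symm, ?_⟩
    have e1 : (u ∘ e.symm) ∘ e = u := by
      funext x
      simp
    rw [e1]
    exact hu
  · rintro ⟨u, hu⟩
    exact ⟨u ∘ e, hu⟩

theorem Ed.of_qf (h : QFd (L := L) c P) : Ed (L := L) c P := by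
  obtain ⟨θ, hθ, h⟩ := h
  refine ⟨0, θ.relabel (Sum.map id Sum.inl), EAa1_isQF_relabel hθ _, fun v => ?_⟩
  rw [h]
  have key : ∀ (u : Fin 0 → M),
      (θ.relabel (Sum.map id Sum.inl)).Realize (Sum.elim c (Sum.elim v u)) ↔
        θ.Realize (Sum.elim c v) := by
    intro u
    rw [Formula.realize_relabel]
    have : (Sum.elim c (Sum.elim v u)) ∘ (Sum.map id Sum.inl) = Sum.elim c v := by
      funext x
      rcases x with x | x <;> rfl
    rw [this]
  simp only [key]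
  exact ⟨fun hu => ⟨Fin.elim0, hu⟩, fun ⟨_, hu⟩ => hu⟩

theorem Ed.and (hP : Ed (L := L) c P) (hQ : Ed (L := L) c Q) : Ed (L := L) c (fun v => P v ∧ Q v) := by
  obtain ⟨k, θ, hθ, h⟩ := hP
  obtain ⟨k', θ', hθ', h'⟩ := hQ
  have hq1 : (θ.relabel (Sum.map id (Sum.map id Sum.inl)) :
      L.Formula (γ ⊕ (α ⊕ (Fin k ⊕ Fin k')))).IsQF := EAa1_isQF_relabel hθ _
  have hq2 : (θ'.relabel (Sum.map id (Sum.map id Sum.inr)) :
      L.Formula (γ ⊕ (α ⊕ (Fin k ⊕ Fin k')))).IsQF := EAa1_isQF_relabel hθ' _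
  refine EAa1_of_finite _ (hq1.inf hq2) fun v => ?_
  rw [h, h']
  have key : ∀ (u : Fin k ⊕ Fin k' → M),
      ((θ.relabel (Sum.map id (Sum.map id Sum.inl)) :
        L.Formula (γ ⊕ (α ⊕ (Fin k ⊕ Fin k')))) ⊓
        θ'.relabel (Sum.map id (Sum.map id Sum.inr))).Realize
        (Sum.elim c (Sum.elim v u)) ↔
      θ.Realize (Sum.elim c (Sum.elim v (u ∘ Sum.inl))) ∧
        θ'.Realize (Sum.elim c (Sum.elim v (u ∘ Sum.inr))) := by
    intro u
    rw [Formula.realize_inf, Formula.realize_relabel, Formula.realize_relabel]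
    have e1 : (Sum.elim c (Sum.elim v u)) ∘ (Sum.map id (Sum.map id Sum.inl)) =
        Sum.elim c (Sum.elim v (u ∘ Sum.inl)) := by
      funext x
      rcases x with x | x | x <;> rfl
    have e2 : (Sum.elim c (Sum.elim v u)) ∘ (Sum.map id (Sum.map id Sum.inr)) =
        Sum.elim c (Sum.elim v (u ∘ Sum.inr)) := by
      funext x
      rcases x with x | x | x <;> rfl
    rw [e1, e2]
  simp only [key]
  constructor
  · rintro ⟨⟨u, hu⟩, u', hu'⟩
    exact ⟨Sum.elim u u', hu, hu'⟩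
  · rintro ⟨u, hu, hu'⟩
    exact ⟨⟨_, hu⟩, _, hu'⟩

/-- substitution of variables and parameters -/
theorem Ed.subst (hP : Ed (L := L) c P) (f : α → γ ⊕ β) :
    Ed (L := L) c (fun v : β → M => P (fun i => Sum.elim c v (f i))) := by
  obtain ⟨k, θ, hθ, h⟩ := hP
  let g : γ ⊕ (α ⊕ Fin k) → γ ⊕ (β ⊕ Fin k) :=
    Sum.elim Sum.inl (Sum.elim (fun i => Sum.elim Sum.inl (fun b => Sum.inr (Sum.inl b)) (f i))
      (fun j => Sum.inr (Sum.inr j)))
  refine ⟨k, θ.relabel g, EAa1_isQF_relabel hθ _, fun v => ?_⟩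
  show P (fun i => Sum.elim c v (f i)) ↔ _
  rw [h]
  have key : ∀ (u : Fin k → M),
      (θ.relabel g).Realize (Sum.elim c (Sum.elim v u)) ↔
        θ.Realize (Sum.elim c (Sum.elim (fun i => Sum.elim c v (f i)) u)) := by
    intro u
    rw [Formula.realize_relabel]
    have : (Sum.elim c (Sum.elim v u)) ∘ g =
        Sum.elim c (Sum.elim (fun i => Sum.elim c v (f i)) u) := by
      funext x
      rcases x with x | x | x
      · rfl
      · simp only [g, Function.comp_apply, Sum.elim_inr, Sum.elim_inl]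
        rcases f x with y | y <;> rfl
      · rfl
    rw [this]
  simp only [key]

theorem Ed.ex {m : ℕ} {R : (α ⊕ Fin m → M) → Prop} (h : Ed (L := L) c R) :
    Ed (L := L) c (fun v : α → M => ∃ w : Fin m → M, R (Sum.elim v w)) := by
  obtain ⟨k, θ, hθ, h⟩ := h
  let g : γ ⊕ ((α ⊕ Fin m) ⊕ Fin k) → γ ⊕ (α ⊕ (Fin m ⊕ Fin k)) :=
    Sum.elim Sum.inl (Sum.elim
      (Sum.elim (fun a => Sum.inr (Sum.inl a)) (fun j => Sum.inr (Sum.inr (Sum.inl j))))
      (fun i => Sum.inr (Sum.inr (Sum.inr i))))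
  refine EAa1_of_finite (K := Fin m ⊕ Fin k) (θ.relabel g) (EAa1_isQF_relabel hθ _)
    fun v => ?_
  have key : ∀ (u : Fin m ⊕ Fin k → M),
      (θ.relabel g).Realize (Sum.elim c (Sum.elim v u)) ↔
        θ.Realize (Sum.elim c (Sum.elim (Sum.elim v (u ∘ Sum.inl)) (u ∘ Sum.inr))) := by
    intro u
    rw [Formula.realize_relabel]
    have : (Sum.elim c (Sum.elim v u)) ∘ g =
        Sum.elim c (Sum.elim (Sum.elim v (u ∘ Sum.inl)) (u ∘ Sum.inr)) := by
      funext x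
      rcases x with x | (x | x) | x <;> rfl
    rw [this]
  simp only [key, h]
  constructor
  · rintro ⟨w, u, hu⟩
    exact ⟨Sum.elim w u, hu⟩
  · rintro ⟨u, hu⟩
    exact ⟨u ∘ Sum.inl, u ∘ Sum.inr, hu⟩

end Pool.Agent.MP_fd2900_lc
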