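import Pool.Agent.Lib.MP_fd2900_lc.EAa

namespace Pool.Agent.MP_fd2900_lc

open FirstOrder FirstOrder.Language

variable {L : FirstOrder.Language.{0, 0}} {M : Type} [L.Structure M] {γ α : Type} {c : γ → M}

private theorem EAb2_elim {β : Type} (c : γ → M) (v : α → M) (s : β → M) :
    (Sum.elim (Sum.elim c v) s) ∘ (Equiv.sumAssoc γ α β).symm = Sum.elim c (Sum.elim v s) := by
  funext x
  rcases x with x | x | x <;> rfl

private theorem EAb2_elim' {β : Type} (c : γ → M) (v : α → M) (s : β → M) :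
    (Sum.elim c (Sum.elim v s)) ∘ (Equiv.sumAssoc γ α β) = Sum.elim (Sum.elim c v) s := by
  funext x
  rcases x with (x | x) | x <;> rfl

/-- an element satisfying an exists-forall definable predicate with finitely many solutions -/
theorem algEA_of_EAd {n : ℕ} {j : ℕ → M} {g : Fin n → M} {R : (Unit → M) → Prop}
    (h : EAd (L := L) (Sum.elim j g) R) {e : M} (he : R fun _ => e) (hf : {y : M | R fun _ => y}.Finite) :
    AlgEA (L := L) j g e := by
  obtain ⟨k, l, θ, hθ, hR⟩ := h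
  have key : ∀ (v : Unit → M) (u : Fin k → M) (w : Fin l → M),
      (θ.relabel (Equiv.sumAssoc (ℕ ⊕ Fin n) Unit (Fin k ⊕ Fin l)).symm).Realize
        (Sum.elim (Sum.elim (Sum.elim j g) v) (Sum.elim u w)) ↔
      θ.Realize (Sum.elim (Sum.elim j g) (Sum.elim v (Sum.elim u w))) := by
    intro v u w
    rw [Formula.realize_relabel, EAb2_elim]
  refine ⟨k, l, θ.relabel (Equiv.sumAssoc (ℕ ⊕ Fin n) Unit (Fin k ⊕ Fin l)).symm,
    hθ.relabel _, ?_, ?_⟩
  · obtain ⟨u, hu⟩ := (hR _).1 he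
    exact ⟨u, fun w => (key _ _ _).2 (hu w)⟩
  · refine hf.subset ?_
    rintro y ⟨u, hu⟩
    exact (hR _).2 ⟨u, fun w => (key _ _ _).1 (hu w)⟩

theorem EAd_of_algEA {n : ℕ} {j : ℕ → M} {g : Fin n → M} {e : M} (h : AlgEA (L := L) j g e) :
    ∃ R : (Unit → M) → Prop, EAd (L := L) (Sum.elim j g) R ∧ (R fun _ => e) ∧
      {y : M | R fun _ => y}.Finite := by
  obtain ⟨k, l, θ, hθ, he, hf⟩ := h
  have key : ∀ (v : Unit → M) (u : Fin k → M) (w : Fin l → M),
      (θ.relabel (Equiv.sumAssoc (ℕ ⊕ Fin n) Unit (Fin k ⊕ Fin l))).Realize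
        (Sum.elim (Sum.elim j g) (Sum.elim v (Sum.elim u w))) ↔
      θ.Realize (Sum.elim (Sum.elim (Sum.elim j g) v) (Sum.elim u w)) := by
    intro v u w
    rw [Formula.realize_relabel, EAb2_elim']
  refine ⟨fun v => ∃ u : Fin k → M, ∀ w : Fin l → M,
    θ.Realize (Sum.elim (Sum.elim (Sum.elim j g) v) (Sum.elim u w)),
    ⟨k, l, θ.relabel (Equiv.sumAssoc (ℕ ⊕ Fin n) Unit (Fin k ⊕ Fin l)), hθ.relabel _, ?_⟩, he, hf⟩
  intro v
  constructor
  · rintro ⟨u, hu⟩
    exact ⟨u, fun w => (key _ _ _).2 (hu w)⟩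
  · rintro ⟨u, hu⟩
    exact ⟨u, fun w => (key _ _ _).1 (hu w)⟩

theorem AlgEA.mono (j : ℕ → M) (b : ℕ → M) {d d' : ℕ} (h : d ≤ d') {e : M}
    (ha : AlgEA (L := L) j (fun k : Fin d => b k) e) : AlgEA (L := L) j (fun k : Fin d' => b k) e := by
  obtain ⟨k, l, θ, hθ, he, hf⟩ := ha
  have key : ∀ (y : M) (u : Fin k → M) (w : Fin l → M),
      (θ.relabel (Sum.map (Sum.map (Sum.map id (Fin.castLE h)) id) id)).Realize
        (Sum.elim (Sum.elim (Sum.elim j fun k : Fin d' => b k) fun _ => y) (Sum.elim u w)) ↔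
      θ.Realize (Sum.elim (Sum.elim (Sum.elim j fun k : Fin d => b k) fun _ => y)
        (Sum.elim u w)) := by
    intro y u w
    rw [Formula.realize_relabel]
    have e1 : (Sum.elim (Sum.elim (Sum.elim j fun k : Fin d' => b k) fun _ : Unit => y)
        (Sum.elim u w)) ∘ (Sum.map (Sum.map (Sum.map id (Fin.castLE h)) id) id) =
        Sum.elim (Sum.elim (Sum.elim j fun k : Fin d => b k) fun _ : Unit => y)
          (Sum.elim u w) := by
      funext x
      rcases x with ((x | x) | x) | x <;> rfl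
    rw [e1]
  refine ⟨k, l, θ.relabel (Sum.map (Sum.map (Sum.map id (Fin.castLE h)) id) id), hθ.relabel _,
    ?_, ?_⟩
  · obtain ⟨u, hu⟩ := he
    exact ⟨u, fun w => (key _ _ _).2 (hu w)⟩
  · refine hf.subset ?_
    rintro y ⟨u, hu⟩
    exact ⟨u, fun w => (key _ _ _).1 (hu w)⟩

end Pool.Agent.MP_fd2900_lc
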