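import Pool.Agent.Lib.MP_fd2900_lc.ModDefs

/-! translation of `∃∀` formulas -/

namespace Pool.Agent.MP_fd2900_lc

open FirstOrder FirstOrder.Language Fr

variable {ar : ℕ → ℕ}

private lemma trans1_holds_append {S : Type} (F : Fr S) (g : ℕ → S) (v : List S) (l l' : List Lit) :
    F.Holds g v (l ++ l') ↔ F.Holds g v l ∧ F.Holds g v l' := by
  unfold Fr.Holds
  constructor
  · intro h
    exact ⟨fun a ha => h a (List.mem_append.2 (Or.inl ha)), fun a ha => h a (List.mem_append.2 (Or.inr ha))⟩
  · rintro ⟨h1, h2⟩ a ha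
    rcases List.mem_append.1 ha with h | h
    · exact h1 a h
    · exact h2 a h

private lemma trans1_holds_singleton {S : Type} (F : Fr S) (g : ℕ → S) (v : List S) (a : Lit) :
    F.Holds g v [a] ↔ F.hold g v a := by
  unfold Fr.Holds
  constructor
  · intro h
    exact h a (by simp)
  · intro h b hb
    rw [List.mem_singleton] at hb
    rw [hb]
    exact h

private lemma trans1_rel {S : Type} [(Lg ar).Structure S] (n i : ℕ) (hi : ar i = n) (l : List S)
    (h : l.length = n) (xs : Fin n → S) (hxs : ∀ k : Fin n, l.get (Fin.cast h.symm k) = xs k) :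
    Structure.RelMap (L := Lg ar) (n := l.length) ⟨i, hi.trans h.symm⟩ (fun k => l.get k) ↔
      Structure.RelMap (L := Lg ar) (n := n) ⟨i, hi⟩ xs := by
  subst h
  have : (fun k => l.get k) = xs := funext (fun k => hxs k)
  rw [this]

private def Trans1Pos {α : Type} (θ : (Lg ar).BoundedFormula α 0) (τ : α → Tm) : Prop :=
  ∃ Λ : List (List Lit), (∀ l ∈ Λ, ∀ a ∈ l, ∀ t ∈ a.2.2, ∃ i, t = τ i) ∧
      ∀ (S : Type) [(Lg ar).Structure S] (j g : ℕ → S) (v : List S),
        BoundedFormula.Realize θ (fun i => (frM ar S j).ev g v (τ i)) default ↔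
          ∃ l ∈ Λ, (frM ar S j).Holds g v l

private def Trans1Neg {α : Type} (θ : (Lg ar).BoundedFormula α 0) (τ : α → Tm) : Prop :=
  ∃ Λ : List (List Lit), (∀ l ∈ Λ, ∀ a ∈ l, ∀ t ∈ a.2.2, ∃ i, t = τ i) ∧
      ∀ (S : Type) [(Lg ar).Structure S] (j g : ℕ → S) (v : List S),
        ¬ BoundedFormula.Realize θ (fun i => (frM ar S j).ev g v (τ i)) default ↔
          ∃ l ∈ Λ, (frM ar S j).Holds g v l

/-- one atomic formula -/
private lemma trans1_atom {α : Type} (θ : (Lg ar).BoundedFormula α 0) (τ : α → Tm) (i : ℕ)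
    (ts : List Tm) (hts : ∀ t ∈ ts, ∃ a, t = τ a)
    (h : ∀ (S : Type) [(Lg ar).Structure S] (j g : ℕ → S) (v : List S),
        BoundedFormula.Realize θ (fun i => (frM ar S j).ev g v (τ i)) default ↔
          (frM ar S j).RelE i (ts.map ((frM ar S j).ev g v))) :
    Trans1Pos θ τ ∧ Trans1Neg θ τ := by
  refine ⟨⟨[ [(true, i, ts)] ], ?_, ?_⟩, ⟨[ [(false, i, ts)] ], ?_, ?_⟩⟩
  · intro l hl a ha t ht
    rw [List.mem_singleton] at hl
    subst hl
    rw [List.mem_singleton] at ha
    subst ha
    exact hts t ht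
  · intro S _ j g v
    rw [h S j g v]
    constructor
    · intro hr
      refine ⟨_, List.mem_singleton.2 rfl, ?_⟩
      rw [trans1_holds_singleton]
      exact ⟨fun _ => rfl, fun _ => hr⟩
    · rintro ⟨l, hl, hh⟩
      rw [List.mem_singleton] at hl
      subst hl
      rw [trans1_holds_singleton] at hh
      exact hh.2 rfl
  · intro l hl a ha t ht
    rw [List.mem_singleton] at hl
    subst hl
    rw [List.mem_singleton] at ha
    subst ha
    exact hts t ht
  · intro S _ j g v
    rw [h S j g v]
    constructor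
    · intro hr
      refine ⟨_, List.mem_singleton.2 rfl, ?_⟩
      rw [trans1_holds_singleton]
      exact ⟨fun h1 => absurd h1 hr, fun h1 => by simp at h1⟩
    · rintro ⟨l, hl, hh⟩
      rw [List.mem_singleton] at hl
      subst hl
      rw [trans1_holds_singleton] at hh
      intro hr
      have := hh.1 hr
      simp at this

/-- terms of a relational language are variables -/
private lemma trans1_term {α : Type} (t : (Lg ar).Term (α ⊕ Fin 0)) :
    ∃ a : α, t = Term.var (Sum.inl a) := by
  cases t with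
  | var x =>
    rcases x with a | a
    · exact ⟨a, rfl⟩
    · exact a.elim0
  | func f ts => exact (f : Empty).elim

private lemma trans1_qf {α : Type} (θ : (Lg ar).BoundedFormula α 0) (hθ : θ.IsQF) (τ : α → Tm) :
    Trans1Pos θ τ ∧ Trans1Neg θ τ := by
  induction hθ with
  | falsum =>
    refine ⟨⟨[], by simp, ?_⟩, ⟨[ [] ], ?_, ?_⟩⟩
    · intro S _ j g v
      constructor
      · intro h
        exact h.elim
      · rintro ⟨l, hl, _⟩
        simp at hl
    · intro l hl a ha
      rw [List.mem_singleton] at hl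
      subst hl
      simp at ha
    · intro S _ j g v
      constructor
      · intro _
        refine ⟨[], List.mem_singleton.2 rfl, ?_⟩
        intro a ha
        simp at ha
      · intro _ h
        exact h
  | of_isAtomic h =>
    cases h with
    | equal t₁ t₂ =>
      obtain ⟨a, rfl⟩ := trans1_term t₁
      obtain ⟨b, rfl⟩ := trans1_term t₂
      apply trans1_atom _ τ 0 [τ a, τ b]
      · intro t ht
        simp only [List.mem_cons, List.not_mem_nil, or_false] at ht
        rcases ht with rfl | rfl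
        · exact ⟨a, rfl⟩
        · exact ⟨b, rfl⟩
      · intro S _ j g v
        rw [BoundedFormula.realize_bdEqual]
        simp only [Term.realize_var, Sum.elim_inl, List.map_cons, List.map_nil]
        unfold Fr.RelE
        constructor
        · intro h
          left
          exact ⟨rfl, _, by rw [h]⟩
        · rintro (⟨_, x, hx⟩ | ⟨h, _⟩)
          · simp only [List.cons.injEq, and_true] at hx
            rw [hx.1, hx.2]
          · exact absurd rfl h
    | rel R ts =>
      rename_i n
      obtain ⟨i, hi, hR⟩ : ∃ i, ∃ hi : ar i = n, (R : {i : ℕ // ar i = n}) = ⟨i, hi⟩ := ⟨R.1, R.2, rfl⟩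
      choose f hf using fun k => trans1_term (ts k)
      apply trans1_atom _ τ (i + 1) (List.ofFn (fun k => τ (f k)))
      · intro t ht
        rw [List.mem_ofFn] at ht
        obtain ⟨k, rfl⟩ := ht
        exact ⟨f k, rfl⟩
      · intro S _ j g v
        rw [BoundedFormula.realize_rel]
        set l : List S := (List.ofFn (fun k => τ (f k))).map ((frM ar S j).ev g v) with hl
        have hlen : l.length = n := by simp [hl]
        have hxs : ∀ k : Fin n, l.get (Fin.cast hlen.symm k) =
            (ts k).realize (Sum.elim (fun i => (frM ar S j).ev g v (τ i)) default) := by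
          intro k
          rw [hf k]
          simp [hl]
        have h1 := trans1_rel (ar := ar) n i hi l hlen _ hxs
        have h0 : (Structure.RelMap (L := Lg ar) R fun k => (ts k).realize
            (Sum.elim (fun i => (frM ar S j).ev g v (τ i)) default)) ↔
            Structure.RelMap (L := Lg ar) (n := l.length) ⟨i, hi.trans hlen.symm⟩ (fun k => l.get k) := by
          rw [h1]
          exact iff_of_eq (congrArg (fun r : (Lg ar).Relations n => Structure.RelMap r
            (fun k => (ts k).realize (Sum.elim (fun i => (frM ar S j).ev g v (τ i)) default))) hR)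
        rw [h0]
        unfold Fr.RelE
        constructor
        · intro h
          right
          refine ⟨by omega, ?_⟩
          show ∃ h' : l.length = ar (i + 1 - 1), _
          refine ⟨?_, ?_⟩
          · rw [hlen, ← hi]
            rfl
          · exact h
        · rintro (⟨h, _⟩ | ⟨_, h⟩)
          · omega
          · obtain ⟨h', h2⟩ := h
            exact h2
  | imp _ _ ih₁ ih₂ =>
    rename_i φ ψ _ _
    obtain ⟨⟨P₁, hP₁, eP₁⟩, ⟨N₁, hN₁, eN₁⟩⟩ := ih₁
    obtain ⟨⟨P₂, hP₂, eP₂⟩, ⟨N₂, hN₂, eN₂⟩⟩ := ih₂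
    refine ⟨⟨N₁ ++ P₂, ?_, ?_⟩, ⟨P₁.flatMap (fun l => N₂.map (fun l' => l ++ l')), ?_, ?_⟩⟩
    · intro l hl
      rcases List.mem_append.1 hl with h | h
      · exact hN₁ l h
      · exact hP₂ l h
    · intro S _ j g v
      rw [BoundedFormula.realize_imp]
      constructor
      · intro h
        by_cases hφ : BoundedFormula.Realize φ (fun i => (frM ar S j).ev g v (τ i)) default
        · obtain ⟨l, hl, hh⟩ := (eP₂ S j g v).1 (h hφ)
          exact ⟨l, List.mem_append.2 (Or.inr hl), hh⟩
        · obtain ⟨l, hl, hh⟩ := (eN₁ S j g v).1 hφ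
          exact ⟨l, List.mem_append.2 (Or.inl hl), hh⟩
      · rintro ⟨l, hl, hh⟩ hφ
        rcases List.mem_append.1 hl with h | h
        · exact absurd hφ ((eN₁ S j g v).2 ⟨l, h, hh⟩)
        · exact (eP₂ S j g v).2 ⟨l, h, hh⟩
    · intro l hl a ha t ht
      rw [List.mem_flatMap] at hl
      obtain ⟨l₁, h₁, hl⟩ := hl
      rw [List.mem_map] at hl
      obtain ⟨l₂, h₂, rfl⟩ := hl
      rcases List.mem_append.1 ha with h | h
      · exact hP₁ l₁ h₁ a h t ht
      · exact hN₂ l₂ h₂ a h t ht
    · intro S _ j g v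
      rw [BoundedFormula.realize_imp]
      constructor
      · intro h
        have h1 : BoundedFormula.Realize φ (fun i => (frM ar S j).ev g v (τ i)) default := by
          by_contra hc
          exact h (fun h2 => absurd h2 hc)
        have h2 : ¬ BoundedFormula.Realize ψ (fun i => (frM ar S j).ev g v (τ i)) default :=
          fun h3 => h (fun _ => h3)
        obtain ⟨l₁, hl₁, hh₁⟩ := (eP₁ S j g v).1 h1
        obtain ⟨l₂, hl₂, hh₂⟩ := (eN₂ S j g v).1 h2
        refine ⟨l₁ ++ l₂, ?_, (trans1_holds_append _ _ _ _ _).2 ⟨hh₁, hh₂⟩⟩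
        rw [List.mem_flatMap]
        exact ⟨l₁, hl₁, List.mem_map.2 ⟨l₂, hl₂, rfl⟩⟩
      · rintro ⟨l, hl, hh⟩ h
        rw [List.mem_flatMap] at hl
        obtain ⟨l₁, h₁, hl⟩ := hl
        rw [List.mem_map] at hl
        obtain ⟨l₂, h₂, rfl⟩ := hl
        obtain ⟨hh₁, hh₂⟩ := (trans1_holds_append _ _ _ _ _).1 hh
        exact (eN₂ S j g v).2 ⟨l₂, h₂, hh₂⟩ (h ((eP₁ S j g v).2 ⟨l₁, h₁, hh₁⟩))

/-- disjunctive normal form of a quantifier free formula and of its negation -/
theorem exists_dnf {α : Type} (θ : (Lg ar).Formula α) (hθ : θ.IsQF) (τ : α → Tm) :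
    (∃ Λ : List (List Lit), (∀ l ∈ Λ, ∀ a ∈ l, ∀ t ∈ a.2.2, ∃ i, t = τ i) ∧
      ∀ (S : Type) [(Lg ar).Structure S] (j g : ℕ → S) (v : List S),
        θ.Realize (fun i => (frM ar S j).ev g v (τ i)) ↔ ∃ l ∈ Λ, (frM ar S j).Holds g v l) ∧
    (∃ Λ : List (List Lit), (∀ l ∈ Λ, ∀ a ∈ l, ∀ t ∈ a.2.2, ∃ i, t = τ i) ∧
      ∀ (S : Type) [(Lg ar).Structure S] (j g : ℕ → S) (v : List S),
        ¬ θ.Realize (fun i => (frM ar S j).ev g v (τ i)) ↔ ∃ l ∈ Λ, (frM ar S j).Holds g v l) :=
  trans1_qf θ hθ τ

end Pool.Agent.MP_fd2900_lc
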