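import Pool.Agent.Lib.MP_fd2900_lc.EAa
import Pool.Agent.Lib.MP_fd2900_lc.Trans1

namespace Pool.Agent.MP_fd2900_lc

open FirstOrder FirstOrder.Language Fr

variable {ar : ℕ → ℕ}

private lemma eab3_rel {S : Type} [(Lg ar).Structure S] (n i : ℕ) (hi : ar i = n) (l : List S)
    (h : l.length = n) (xs : Fin n → S) (hxs : ∀ k : Fin n, l.get (Fin.cast h.symm k) = xs k) :
    Structure.RelMap (L := Lg ar) (n := l.length) ⟨i, hi.trans h.symm⟩ (fun k => l.get k) ↔
      Structure.RelMap (L := Lg ar) (n := n) ⟨i, hi⟩ xs := by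
  subst h
  have : (fun k => l.get k) = xs := funext (fun k => hxs k)
  rw [this]

section

variable {L : FirstOrder.Language.{0, 0}} {M : Type} [L.Structure M] {γ α : Type}
  {c : γ → M} {P Q : (α → M) → Prop}

private lemma eab3_not (h : QFd (L := L) c P) : QFd (L := L) c (fun v => ¬ P v) := by
  obtain ⟨θ, hθ, h⟩ := h
  exact ⟨θ.not, hθ.not, fun v => by rw [Formula.realize_not]; exact not_congr (h v)⟩

private lemma eab3_and (hP : QFd (L := L) c P) (hQ : QFd (L := L) c Q) :
    QFd (L := L) c (fun v => P v ∧ Q v) := by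
  obtain ⟨θ, hθ, h⟩ := hP
  obtain ⟨θ', hθ', h'⟩ := hQ
  exact ⟨θ ⊓ θ', hθ.inf hθ', fun v => by rw [Formula.realize_inf]; exact and_congr (h v) (h' v)⟩

private lemma eab3_true : QFd (L := L) c (fun _ : α → M => True) :=
  ⟨⊤, BoundedFormula.IsQF.top, fun v => by rw [Formula.realize_top]⟩

private lemma eab3_false : QFd (L := L) c (fun _ : α → M => False) :=
  ⟨⊥, BoundedFormula.isQF_bot, fun v => by rw [Formula.realize_bot]⟩

private lemma eab3_congr (h : QFd (L := L) c P) (hPQ : ∀ v, Q v ↔ P v) : QFd (L := L) c Q := by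
  obtain ⟨θ, hθ, h⟩ := h
  exact ⟨θ, hθ, fun v => (hPQ v).trans (h v)⟩

private lemma eab3_eq (x y : γ ⊕ α) :
    QFd (L := L) c (fun v : α → M => Sum.elim c v x = Sum.elim c v y) := by
  refine ⟨(Term.var x).equal (Term.var y), ?_, fun v => ?_⟩
  · exact BoundedFormula.IsQF.of_isAtomic (BoundedFormula.IsAtomic.equal _ _)
  · rw [Formula.realize_equal]
    rfl

private lemma eab3_rl {n : ℕ} (R : L.Relations n) (x : Fin n → γ ⊕ α) :
    QFd (L := L) c (fun v : α → M => Structure.RelMap R fun i => Sum.elim c v (x i)) := by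
  refine ⟨R.formula fun i => Term.var (x i), ?_, fun v => ?_⟩
  · exact BoundedFormula.IsQF.of_isAtomic (BoundedFormula.IsAtomic.rel _ _)
  · rw [Formula.realize_rel]
    rfl

end

variable {M : Type} [(Lg ar).Structure M] {γ : Type} {c : γ → M}

private lemma eab3_tm (j : ℕ → M) (hj : ∀ a, ∃ i, c i = j a) (n k : ℕ) (t : Tm) :
    ∃ x : γ ⊕ (Fin n ⊕ Fin k), ∀ w : Fin n ⊕ Fin k → M,
      (frM ar M j).ev (frM ar M j).g0 (List.ofFn (fun i => w (Sum.inl i)) ++
        List.ofFn (fun i => w (Sum.inr i))) t = Sum.elim c w x := by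
  by_cases h0 : t.1 = 0
  · obtain ⟨i, hi⟩ := hj t.2
    refine ⟨Sum.inl i, fun w => ?_⟩
    unfold Fr.ev
    rw [if_pos h0]
    exact hi.symm
  · obtain ⟨i0, hi0⟩ := hj 0
    by_cases h1 : t.1 = 1
    · refine ⟨Sum.inl i0, fun w => ?_⟩
      unfold Fr.ev
      rw [if_neg h0, if_pos h1]
      exact hi0.symm
    · by_cases h2 : t.2 < n
      · refine ⟨Sum.inr (Sum.inl ⟨t.2, h2⟩), fun w => ?_⟩
        unfold Fr.ev
        rw [if_neg h0, if_neg h1]
        simp [List.getD_eq_getElem?_getD, List.getElem?_append, h2]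
      · by_cases h3 : t.2 - n < k
        · refine ⟨Sum.inr (Sum.inr ⟨t.2 - n, h3⟩), fun w => ?_⟩
          unfold Fr.ev
          rw [if_neg h0, if_neg h1]
          simp [List.getD_eq_getElem?_getD, List.getElem?_append, h2, h3]
        · refine ⟨Sum.inl i0, fun w => ?_⟩
          unfold Fr.ev
          rw [if_neg h0, if_neg h1]
          simp [List.getD_eq_getElem?_getD, List.getElem?_append, h2, h3]
          exact hi0.symm

private lemma eab3_relE (j : ℕ → M) (hj : ∀ a, ∃ i, c i = j a) (n k i : ℕ) (ts : List Tm) :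
    QFd (L := Lg ar) c (fun w : Fin n ⊕ Fin k → M => (frM ar M j).RelE i
      (ts.map ((frM ar M j).ev (frM ar M j).g0 (List.ofFn (fun i => w (Sum.inl i)) ++
        List.ofFn (fun i => w (Sum.inr i)))))) := by
  choose x hx using fun t => eab3_tm (ar := ar) (c := c) j hj n k t
  by_cases h0 : i = 0
  · by_cases h2 : ∃ t1 t2, ts = [t1, t2]
    · obtain ⟨t1, t2, rfl⟩ := h2
      refine eab3_congr (eab3_eq (x t1) (x t2)) fun w => ?_
      rw [List.map_cons, List.map_cons, List.map_nil, hx, hx]
      unfold Fr.RelE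
      constructor
      · rintro (⟨_, y, hy⟩ | ⟨h, _⟩)
        · simp only [List.cons.injEq, and_true] at hy
          rw [hy.1, hy.2]
        · exact absurd h0 h
      · intro h
        exact Or.inl ⟨h0, _, by rw [h]⟩
    · refine eab3_congr eab3_false fun w => ?_
      rw [iff_false]
      unfold Fr.RelE
      rintro (⟨_, y, hy⟩ | ⟨h, _⟩)
      · have hlen : ts.length = 2 := by
          have := congrArg List.length hy
          simpa using this
        rw [List.length_eq_two] at hlen
        exact h2 hlen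
      · exact h h0
  · by_cases hl : ts.length = ar (i - 1)
    · refine eab3_congr (eab3_rl (L := Lg ar) (⟨i - 1, hl.symm⟩ : {a : ℕ // ar a = ts.length})
        (fun a : Fin ts.length => x (ts.get a))) fun w => ?_
      set l : List M := ts.map ((frM ar M j).ev (frM ar M j).g0 (List.ofFn (fun i => w (Sum.inl i)) ++
        List.ofFn (fun i => w (Sum.inr i)))) with hl'
      have hlen : l.length = ts.length := by rw [hl', List.length_map]
      have h1 := eab3_rel (ar := ar) (S := M) ts.length (i - 1) hl.symm l hlen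
        (fun a : Fin ts.length => Sum.elim c w (x (ts.get a))) (by
          intro a
          rw [← hx]
          simp [hl'])
      unfold Fr.RelE
      constructor
      · rintro (⟨h, _⟩ | ⟨_, h, h3⟩)
        · exact absurd h h0
        · exact h1.1 h3
      · intro h
        exact Or.inr ⟨h0, hlen.trans hl, h1.2 h⟩
    · refine eab3_congr eab3_false fun w => ?_
      rw [iff_false]
      unfold Fr.RelE
      rintro (⟨h, _⟩ | ⟨_, h, _⟩)
      · exact h0 h
      · rw [List.length_map] at h
        exact hl h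

private lemma eab3_hold (j : ℕ → M) (hj : ∀ a, ∃ i, c i = j a) (n k : ℕ) (l : Lit) :
    QFd (L := Lg ar) c (fun w : Fin n ⊕ Fin k → M => (frM ar M j).hold (frM ar M j).g0
      (List.ofFn (fun i => w (Sum.inl i)) ++ List.ofFn (fun i => w (Sum.inr i))) l) := by
  have h := eab3_relE (ar := ar) (c := c) j hj n k l.2.1 l.2.2
  cases hs : l.1 with
  | true =>
    refine eab3_congr h fun w => ?_
    unfold Fr.hold
    rw [hs]
    simp
  | false =>
    refine eab3_congr (eab3_not h) fun w => ?_
    unfold Fr.hold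
    rw [hs]
    simp

private lemma eab3_holds (j : ℕ → M) (hj : ∀ a, ∃ i, c i = j a) (n k : ℕ) (δ : List Lit) :
    QFd (L := Lg ar) c (fun w : Fin n ⊕ Fin k → M => (frM ar M j).Holds (frM ar M j).g0
      (List.ofFn (fun i => w (Sum.inl i)) ++ List.ofFn (fun i => w (Sum.inr i))) δ) := by
  induction δ with
  | nil =>
    refine eab3_congr eab3_true fun w => ?_
    unfold Fr.Holds
    simp
  | cons l δ ih =>
    refine eab3_congr (eab3_and (eab3_hold (ar := ar) (c := c) j hj n k l) ih) fun w => ?_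
    unfold Fr.Holds
    simp

/-- existential closures of lists of literals are existentially definable (no generics) -/
theorem Ed_ex1 {M : Type} [(Lg ar).Structure M] {γ : Type} {c : γ → M} (j : ℕ → M) (hj : ∀ a, ∃ i, c i = j a)
    (δ : List Lit) (n : ℕ) :
    Ed (L := Lg ar) c (fun v : Fin n → M =>
      (frM ar M j).Ex1 (frM ar M j).g0 (List.ofFn v) δ) := by
  -- a bound for the numbers of the variables
  obtain ⟨k, hk⟩ : ∃ k : ℕ, ∀ l ∈ δ, ∀ t ∈ l.2.2, t.2 < k := by
    refine ⟨(δ.map fun l => (l.2.2.map fun t => t.2 + 1).sum).sum, fun l hl t ht => ?_⟩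
    have h1 : t.2 + 1 ≤ (l.2.2.map fun t => t.2 + 1).sum :=
      List.single_le_sum (fun _ _ => Nat.zero_le _) _ (List.mem_map.2 ⟨t, ht, rfl⟩)
    have h2 : (l.2.2.map fun t => t.2 + 1).sum ≤ (δ.map fun l => (l.2.2.map fun t => t.2 + 1).sum).sum :=
      List.single_le_sum (fun _ _ => Nat.zero_le _) _ (List.mem_map.2 ⟨l, hl, rfl⟩)
    omega
  obtain ⟨θ, hθ, h⟩ := eab3_holds (ar := ar) (c := c) j hj n k δ
  refine ⟨k, θ, hθ, fun v => ?_⟩
  constructor
  · rintro ⟨z, hz⟩
    refine ⟨fun i => z.getD i (j 0), (h _).1 ?_⟩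
    have hev : ∀ t : Tm, t.2 < k → (frM ar M j).ev (frM ar M j).g0 (List.ofFn v ++
        List.ofFn (fun i : Fin k => z.getD i (j 0))) t =
        (frM ar M j).ev (frM ar M j).g0 (List.ofFn v ++ z) t := by
      intro t ht
      unfold Fr.ev
      split_ifs with h0 h1
      · rfl
      · rfl
      · by_cases h2 : t.2 < n
        · simp [List.getD_eq_getElem?_getD, List.getElem?_append, h2]
        · have h3 : t.2 - n < k := by omega
          simp [List.getD_eq_getElem?_getD, List.getElem?_append, h2, h3, frM]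
    intro l hl
    have h3 := hz l hl
    unfold Fr.hold at h3 ⊢
    have h4 : l.2.2.map ((frM ar M j).ev (frM ar M j).g0
        (List.ofFn (fun i => Sum.elim v (fun i : Fin k => z.getD i (j 0)) (Sum.inl i)) ++
          List.ofFn (fun i => Sum.elim v (fun i : Fin k => z.getD i (j 0)) (Sum.inr i)))) =
        l.2.2.map ((frM ar M j).ev (frM ar M j).g0 (List.ofFn v ++ z)) :=
      List.map_congr_left fun t ht => hev t (hk l hl t ht)
    rw [h4]
    exact h3
  · rintro ⟨u, hu⟩
    exact ⟨List.ofFn u, (h _).2 hu⟩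

end Pool.Agent.MP_fd2900_lc
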