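import Pool.Agent.Lib.MP_fd2900_lc.EAa
import Pool.Agent.Lib.MP_fd2900_lc.Defs

namespace Pool.Agent.MP_fd2900_lc

open FirstOrder FirstOrder.Language Fr

variable {L : FirstOrder.Language.{0, 0}} {M : Type} [L.Structure M] {γ α : Type} {c : γ → M}

private theorem EAb1_congr {β : Type} {P Q : (β → M) → Prop} (h : Ed (L := L) c P)
    (e : ∀ v, P v ↔ Q v) : Ed (L := L) c Q := by
  have : P = Q := funext fun v => propext (e v)
  exact this ▸ h

private theorem EAb1_true {β : Type} : Ed (L := L) c (fun _ : β → M => True) :=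
  Ed.of_qf ⟨⊤, BoundedFormula.IsQF.top, fun v => by
    simp only [Formula.realize_top]⟩

private theorem EAb1_ball {β : Type} : ∀ {n : ℕ} {R : Fin n → (β → M) → Prop},
    (∀ i, Ed (L := L) c (R i)) → Ed (L := L) c (fun v => ∀ i, R i v)
  | 0, R, _ => EAb1_congr EAb1_true fun v => ⟨fun _ i => i.elim0, fun _ => trivial⟩
  | n + 1, R, h =>
    EAb1_congr ((h 0).and (EAb1_ball fun i : Fin n => h i.succ)) fun v =>
      (Fin.forall_fin_succ (P := fun i => R i v)).symm

private theorem EAb1_ne {β : Type} (i j : β) : Ed (L := L) c (fun v : β → M => v i ≠ v j) := by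
  refine Ed.of_qf ⟨((Term.var (Sum.inr i) : L.Term (γ ⊕ β)).equal (Term.var (Sum.inr j))).not,
    BoundedFormula.IsQF.not (BoundedFormula.IsAtomic.isQF (BoundedFormula.IsAtomic.equal _ _)), ?_⟩
  intro v
  rw [Formula.realize_not, Formula.realize_equal]
  exact Iff.rfl

private theorem EAb1_atL {T : Type} (k : ℕ) (P : T → Prop) :
    AtL k P ↔ ∃ w : Fin k → T, (∀ i, P (w i)) ∧ ∀ i j, i ≠ j → w i ≠ w j := by
  constructor
  · rintro ⟨Y, rfl, hY, h⟩
    refine ⟨fun i => Y.get i, fun i => h _ (List.get_mem Y i), ?_⟩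
    intro i j hij h'
    exact hij (List.nodup_iff_injective_get.1 hY h')
  · rintro ⟨w, h, hw⟩
    refine ⟨List.ofFn w, List.length_ofFn, ?_, ?_⟩
    · rw [List.nodup_ofFn]
      intro i j h'
      by_contra hij
      exact hw i j hij h'
    · intro y hy
      obtain ⟨i, rfl⟩ := (List.mem_ofFn' w y).1 hy
      exact h i

theorem Ed.atL {R : (α ⊕ Unit → M) → Prop} (h : Ed (L := L) c R) (k : ℕ) :
    Ed (L := L) c (fun v : α → M => AtL k (fun y : M => R (Sum.elim v fun _ => y))) := by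
  have h1 : ∀ i : Fin k, Ed (L := L) c (fun u : α ⊕ Fin k → M =>
      R (Sum.elim (fun a => u (Sum.inl a)) fun _ => u (Sum.inr i))) := by
    intro i
    refine EAb1_congr (h.subst (β := α ⊕ Fin k)
      (Sum.elim (fun a => Sum.inr (Sum.inl a)) fun _ => Sum.inr (Sum.inr i))) ?_
    intro u
    have : (fun x : α ⊕ Unit => Sum.elim c u ((Sum.elim (fun a => Sum.inr (Sum.inl a))
        fun _ => Sum.inr (Sum.inr i) : α ⊕ Unit → γ ⊕ (α ⊕ Fin k)) x)) =
        Sum.elim (fun a => u (Sum.inl a)) fun _ => u (Sum.inr i) := by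
      funext x
      rcases x with a | a <;> rfl
    rw [this]
  have h2 : ∀ i j : Fin k, Ed (L := L) c (fun u : α ⊕ Fin k → M =>
      i ≠ j → u (Sum.inr i) ≠ u (Sum.inr j)) := by
    intro i j
    by_cases hij : i = j
    · exact EAb1_congr EAb1_true fun v => ⟨fun _ h => absurd hij h, fun _ => trivial⟩
    · exact EAb1_congr (EAb1_ne _ _) fun v => ⟨fun h _ => h, fun h => h hij⟩
  have h3 : Ed (L := L) c (fun u : α ⊕ Fin k → M =>
      (∀ i, R (Sum.elim (fun a => u (Sum.inl a)) fun _ => u (Sum.inr i))) ∧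
        ∀ i j, i ≠ j → u (Sum.inr i) ≠ u (Sum.inr j)) :=
    (EAb1_ball h1).and (EAb1_ball fun i => EAb1_ball fun j => h2 i j)
  refine EAb1_congr h3.ex ?_
  intro v
  rw [EAb1_atL]
  exact Iff.rfl

theorem EAd.exa {R : (α ⊕ Unit → M) → Prop} (h : Ed (L := L) c R) (k : ℕ) :
    EAd (L := L) c (fun v : α → M => Exa k (fun y : M => R (Sum.elim v fun _ => y))) :=
  (EAd.of_e (h.atL k)).and (EAd.of_not_e (h.atL (k + 1)))

end Pool.Agent.MP_fd2900_lc
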