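import Pool.Agent.Lib.MP_fd2900_lc.EAb

/-! the set of the exists-forall algebraic elements -/

namespace Pool.Agent.MP_fd2900_lc

open FirstOrder FirstOrder.Language Fr

variable {ar : ℕ → ℕ}

private theorem EAc_finite {T : Type} {P : T → Prop} {k : ℕ} (h : ¬ AtL (k + 1) P) :
    {y | P y}.Finite := by
  by_contra hinf
  apply h
  obtain ⟨t, ht, hc⟩ := (show {y | P y}.Infinite from hinf).exists_subset_card_eq (k + 1)
  exact ⟨t.toList, by simpa using hc, t.nodup_toList, fun y hy => ht (by simpa using hy)⟩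

private theorem EAc_ofFn {T : Type} {n : ℕ} (f : Fin (n + 1) → T) :
    List.ofFn f = (List.ofFn fun i : Fin n => f i.castSucc) ++ [f (Fin.last n)] := by
  rw [List.ofFn_succ', List.concat_eq_append]

/-- the closure property of the exists-forall algebraic elements -/
theorem algEA_closed {M : Type} [(Lg ar).Structure M] (j : ℕ → M) {d : ℕ} (g : Fin d → M) (v : List M)
    (δ : List Lit) (k : ℕ) (y : M) (hv : ∀ x ∈ v, AlgEA (L := Lg ar) j g x)
    (h1 : Exa k (fun y => (frM ar M j).Ex1 (frM ar M j).g0 (v ++ [y]) δ))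
    (h2 : (frM ar M j).Ex1 (frM ar M j).g0 (v ++ [y]) δ) : AlgEA (L := Lg ar) j g y := by
  set n := v.length with hn
  set c : ℕ ⊕ Fin d → M := Sum.elim j g with hc
  have hR : ∀ i : Fin n, ∃ R : (Unit → M) → Prop, EAd (L := Lg ar) c R ∧ (R fun _ => v.get i) ∧
      {y : M | R fun _ => y}.Finite := fun i => EAd_of_algEA (hv _ (List.get_mem v i))
  choose R hRd hRv hRf using hR
  have hE : Ed (L := Lg ar) c (fun w : Fin (n + 1) → M =>
      (frM ar M j).Ex1 (frM ar M j).g0 (List.ofFn w) δ) :=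
    Ed_ex1 j (fun a => ⟨Sum.inl a, rfl⟩) δ (n + 1)
  -- the three conditions
  have hA : EAd (L := Lg ar) c (fun x : Unit ⊕ Fin n → M => ∀ i, R i (fun _ => x (Sum.inr i))) :=
    EAd.ball fun i => EAd.subst (hRd i) (fun _ => Sum.inr (Sum.inr i))
  have hB : EAd (L := Lg ar) c (fun x : Unit ⊕ Fin n → M => Exa k (fun y : M =>
      (frM ar M j).Ex1 (frM ar M j).g0 ((List.ofFn fun i => x (Sum.inr i)) ++ [y]) δ)) := by
    have := EAd.exa (Ed.subst hE (β := (Unit ⊕ Fin n) ⊕ Unit)
      (Fin.snoc (α := fun _ => (ℕ ⊕ Fin d) ⊕ ((Unit ⊕ Fin n) ⊕ Unit))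
        (fun i : Fin n => Sum.inr (Sum.inl (Sum.inr i))) (Sum.inr (Sum.inr ())))) k
    simp only [EAc_ofFn, Fin.snoc_castSucc, Fin.snoc_last, Sum.elim_inr, Sum.elim_inl] at this
    exact this
  have hC : EAd (L := Lg ar) c (fun x : Unit ⊕ Fin n → M =>
      (frM ar M j).Ex1 (frM ar M j).g0
        ((List.ofFn fun i => x (Sum.inr i)) ++ [x (Sum.inl ())]) δ) := by
    have := EAd.of_e (Ed.subst hE (β := Unit ⊕ Fin n)
      (Fin.snoc (α := fun _ => (ℕ ⊕ Fin d) ⊕ (Unit ⊕ Fin n))
        (fun i : Fin n => Sum.inr (Sum.inr i)) (Sum.inr (Sum.inl ()))))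
    simp only [EAc_ofFn, Fin.snoc_castSucc, Fin.snoc_last, Sum.elim_inr] at this
    exact this
  have hD := EAd.ex (α := Unit) (m := n) (EAd.and hA (EAd.and hB hC))
  simp only [Sum.elim_inr, Sum.elim_inl] at hD
  refine algEA_of_EAd hD (e := y) ?_ ?_
  · refine ⟨fun i => v.get i, fun i => hRv i, ?_, ?_⟩
    · rw [List.ofFn_get]
      exact h1
    · rw [List.ofFn_get]
      exact h2
  · have hW : {w : Fin n → M | ∀ i, R i (fun _ => w i)}.Finite := by
      have := Set.Finite.pi (fun i => hRf i)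
      refine this.subset ?_
      intro w hw i _
      exact hw i
    refine (hW.biUnion (t := fun w => {y : M | Exa k (fun y : M =>
      (frM ar M j).Ex1 (frM ar M j).g0 ((List.ofFn fun i => w i) ++ [y]) δ) ∧
        (frM ar M j).Ex1 (frM ar M j).g0 ((List.ofFn fun i => w i) ++ [y]) δ}) ?_).subset ?_
    · intro w _
      by_cases hex : Exa k (fun y : M =>
        (frM ar M j).Ex1 (frM ar M j).g0 ((List.ofFn fun i => w i) ++ [y]) δ)
      · exact (EAc_finite hex.2).subset fun y hy => hy.2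
      · refine Set.finite_empty.subset fun y hy => (hex hy.1).elim
    · rintro y ⟨w, hw1, hw2, hw3⟩
      exact Set.mem_biUnion (show w ∈ {w : Fin n → M | ∀ i, R i (fun _ => w i)} from hw1)
        ⟨hw2, hw3⟩

end Pool.Agent.MP_fd2900_lc
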