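import Pool.Agent.Lib.MP_fd2900_lc.F1a
import Pool.Agent.Lib.MP_fd2900_lc.Basis1

namespace Pool.Agent.MP_fd2900_lc

open FirstOrder FirstOrder.Language Fr

variable {ar : ℕ → ℕ}

private theorem F1_atL_of_inf {T : Type} {X : T → Prop} (h : {y | X y}.Infinite) (k : ℕ) : AtL k X := by
  classical
  obtain ⟨t, ht, hc⟩ := h.exists_subset_card_eq k
  exact ⟨t.toList, by simp [hc], t.nodup_toList, fun y hy => ht (by simpa using hy)⟩

private theorem F1_inf_of_atL {T : Type} {X : T → Prop} (h : ∀ k, AtL k X) : {y | X y}.Infinite := by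
  classical
  intro hf
  obtain ⟨Y, hl, hn, hY⟩ := h (hf.toFinset.card + 1)
  have h1 : Y.toFinset ⊆ hf.toFinset := by
    intro y hy
    have := hY y (by simpa using hy)
    simpa using this
  have h2 := Finset.card_le_card h1
  rw [List.toFinset_card_of_nodup hn, hl] at h2
  omega

private theorem F1_atL_mono {T : Type} {X X' : T → Prop} {k k' : ℕ} (hk : k ≤ k') (hX : ∀ y, X' y → X y)
    (h : AtL k' X') : AtL k X := by
  obtain ⟨Y, hl, hn, hY⟩ := h
  refine ⟨Y.take k, ?_, hn.sublist (List.take_sublist _ _), fun y hy => hX y (hY y (List.mem_of_mem_take hy))⟩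
  rw [List.length_take]
  omega

private theorem F1_tr_mono {S : Type} (F : Fr S) (P : (ℕ → S) → Prop) {K K' : ℕ} (hK : K ≤ K') :
    ∀ (d : ℕ) (h : List S), F.Tr P K' d h → F.Tr P K d h
  | 0, _, ht => ht
  | d + 1, h, ht => F1_atL_mono hK (fun y hy => F1_tr_mono F P hK d (h ++ [y]) hy) ht

/-- truth at generics: `P` holds at `b_0, …, b_{d-1}` iff for all `K` there are `K`-branching trees in the
elementary submodel `A` -/
theorem generic_iff_tree {A M : Type} [(Lg ar).Structure A] [(Lg ar).Structure M]
    (f : A ↪ₑ[Lg ar] M) (a : ℕ → A)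
    (hmin : ∀ (n : ℕ) (φ : (Lg ar).Formula (Fin n ⊕ Unit)) (c : Fin n → M),
      {y : M | φ.Realize (Sum.elim c fun _ => y)}.Finite ∨
        {y : M | ¬ φ.Realize (Sum.elim c fun _ => y)}.Finite)
    (b : ℕ → M) (d : ℕ)
    (hb : ∀ i < d, ¬ Alg (L := Lg ar) (fun k => f (a k)) (fun k : Fin i => b k) (b i))
    {P : ∀ (S : Type) [(Lg ar).Structure S], (ℕ → S) → (ℕ → S) → Prop}
    (hP : ∀ n, UD ar (α := Fin n) (fun (S : Type) [(Lg ar).Structure S] (j : ℕ → S) (w : Fin n → S) =>
      P S j (fun i => (List.ofFn w).getD i (j 0)))) :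
    P M (fun k => f (a k)) (fun i => (List.ofFn fun k : Fin d => b k).getD i (f (a 0))) ↔
      ∀ K, (frM ar A a).Tr (P A a) K d [] := by
  -- transfer to `M`
  have key0 : ∀ K, (frM ar A a).Tr (P A a) K d [] ↔
      (frM ar M (fun k => f (a k))).Tr (P M (fun k => f (a k))) K d [] := by
    intro K
    have h := (UD_Tr hP K d 0).elem f a (fun i : Fin 0 => i.elim0)
    simpa using h
  -- the induction in `M`
  have key : ∀ e m, m + e = d →
      (P M (fun k => f (a k)) (fun i => (List.ofFn fun k : Fin d => b k).getD i (f (a 0))) ↔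
        ∀ K, (frM ar M (fun k => f (a k))).Tr (P M (fun k => f (a k))) K e
          (List.ofFn fun k : Fin m => b k)) := by
    intro e
    induction e with
    | zero =>
      intro m hm
      obtain rfl : m = d := by omega
      exact ⟨fun h _ => h, fun h => h 0⟩
    | succ e ih =>
      intro m hm
      rw [ih (m + 1) (by omega)]
      have hcat : (List.ofFn fun k : Fin (m + 1) => b k) = (List.ofFn fun k : Fin m => b k) ++ [b m] := by
        rw [List.ofFn_succ']
        simp
      rw [hcat]
      -- definability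
      have hdef : ∀ K, ∃ φ : (Lg ar).Formula ((ℕ ⊕ Fin m) ⊕ Unit), ∀ y : M,
          φ.Realize (Sum.elim (Sum.elim (fun k => f (a k)) (fun k : Fin m => b k)) fun _ => y) ↔
            (frM ar M (fun k => f (a k))).Tr (P M (fun k => f (a k))) K e
              ((List.ofFn fun k : Fin m => b k) ++ [y]) := by
        intro K
        obtain ⟨φ, hφ⟩ := UD_Tr hP K e (m + 1)
        let g : ℕ ⊕ Fin (m + 1) → (ℕ ⊕ Fin m) ⊕ Unit :=
          Sum.elim (fun k => Sum.inl (Sum.inl k))
            (Fin.lastCases (motive := fun _ => (ℕ ⊕ Fin m) ⊕ Unit) (Sum.inr ()) (fun i => Sum.inl (Sum.inr i)))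
        refine ⟨φ.relabel g, fun y => ?_⟩
        rw [Formula.realize_relabel]
        have h1 : (Sum.elim (Sum.elim (fun k => f (a k)) (fun k : Fin m => b k)) (fun _ => y)) ∘ g =
            Sum.elim (fun k => f (a k)) (Fin.snoc (α := fun _ => M) (fun k : Fin m => b k) y) := by
          funext x
          rcases x with k | i
          · rfl
          · refine Fin.lastCases ?_ (fun i => ?_) i
            · simp [g]
            · simp [g]
        rw [h1, hφ]
        have h2 : List.ofFn (Fin.snoc (α := fun _ => M) (fun k : Fin m => b k) y) =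
            (List.ofFn fun k : Fin m => b k) ++ [y] := by
          rw [List.ofFn_succ']
          simp
        rw [← h2]
      constructor
      · intro h K
        refine F1_atL_of_inf (fun hfin => ?_) K
        obtain ⟨φ, hφ⟩ := hdef K
        refine hb m (by omega) ⟨φ, (hφ _).2 (h K), ?_⟩
        exact hfin.subset (fun y hy => (hφ y).1 hy)
      · intro h K
        by_contra hneg
        obtain ⟨φ, hφ⟩ := hdef K
        have hinf : {y | (frM ar M (fun k => f (a k))).Tr (P M (fun k => f (a k))) K e
            ((List.ofFn fun k : Fin m => b k) ++ [y])}.Infinite := by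
          refine F1_inf_of_atL (fun k => ?_)
          refine F1_atL_mono (le_max_left k K) (fun y hy => ?_) (h (max k K))
          exact F1_tr_mono _ _ (le_max_right k K) e _ hy
        rcases min_any hmin φ (Sum.elim (fun k => f (a k)) (fun k : Fin m => b k)) with h1 | h1
        · exact hinf (h1.subset (fun y hy => (hφ y).2 hy))
        · refine hb m (by omega) ⟨φ.not, ?_, ?_⟩
          · rw [Formula.realize_not]
            exact fun hr => hneg ((hφ _).1 hr)
          · refine h1.subset (fun y hy => ?_)
            simpa [Formula.realize_not] using hy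
  rw [key d 0 (by omega)]
  simp only [List.ofFn_zero]
  exact forall_congr' (fun K => (key0 K).symm)

end Pool.Agent.MP_fd2900_lc
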