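import Pool.Agent.Lib.MP_fd2900_lc.UDaL

/-! truth at the generics `b_0, …, b_{d-1}` of `M` and trees in the elementary submodel -/

namespace Pool.Agent.MP_fd2900_lc

open FirstOrder FirstOrder.Language Fr

variable {ar : ℕ → ℕ}

theorem F1a_atL_unit {S : Type} (k : ℕ) (Q : S → Prop) :
    AtL k (fun w : Unit → S => Q (w ())) ↔ AtL k Q := by
  constructor
  · rintro ⟨Y, h1, h2, h3⟩
    refine ⟨Y.map (fun w => w ()), by simpa using h1, ?_, ?_⟩
    · refine h2.map ?_
      intro a b hab
      funext x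
      exact hab
    · intro y hy
      obtain ⟨w, hw, rfl⟩ := List.mem_map.1 hy
      exact h3 w hw
  · rintro ⟨Y, h1, h2, h3⟩
    refine ⟨Y.map (fun y => fun _ => y), by simpa using h1, ?_, ?_⟩
    · refine h2.map ?_
      intro a b hab
      exact congrFun hab ()
    · intro w hw
      obtain ⟨y, hy, rfl⟩ := List.mem_map.1 hw
      exact h3 y hy

theorem F1a_ofFn_append {S : Type} {n : ℕ} (v : Fin n → S) (y : S) :
    List.ofFn (fun a : Fin (n + 1) => if h : a.1 < n then v ⟨a.1, h⟩ else y) = List.ofFn v ++ [y] := by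
  rw [List.ofFn_succ', List.concat_eq_append]
  congr 1
  · congr 1
    funext i
    simp
  · simp

/-- trees are uniformly definable -/
theorem UD_Tr {P : ∀ (S : Type) [(Lg ar).Structure S], (ℕ → S) → (ℕ → S) → Prop}
    (hP : ∀ n, UD ar (α := Fin n) (fun (S : Type) [(Lg ar).Structure S] (j : ℕ → S) (w : Fin n → S) =>
      P S j (fun i => (List.ofFn w).getD i (j 0)))) (K d n : ℕ) :
    UD ar (α := Fin n) (fun (S : Type) [(Lg ar).Structure S] (j : ℕ → S) (w : Fin n → S) =>
      (frM ar S j).Tr (P S j) K d (List.ofFn w)) := by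
  induction d generalizing n with
  | zero => exact hP n
  | succ d ih =>
    have h1 := UD.subst (β := Fin n ⊕ Unit) (ih (n + 1))
      (fun a : Fin (n + 1) => Sum.inr (if h : a.1 < n then Sum.inl ⟨a.1, h⟩ else Sum.inr ()))
    have h2 := UD.atL K h1
    refine h2.of_iff ?_
    intro S _ j v
    show _ ↔ AtL K (fun y => (frM ar S j).Tr (P S j) K d (List.ofFn v ++ [y]))
    rw [← F1a_atL_unit K (fun y => (frM ar S j).Tr (P S j) K d (List.ofFn v ++ [y]))]
    have key : ∀ w : Unit → S, (List.ofFn fun a : Fin (n + 1) => Sum.elim j (Sum.elim v w)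
        (Sum.inr (if h : a.1 < n then Sum.inl ⟨a.1, h⟩ else Sum.inr ()) : ℕ ⊕ (Fin n ⊕ Unit))) =
          List.ofFn v ++ [w ()] := by
      intro w
      rw [← F1a_ofFn_append]
      congr 1
      funext a
      by_cases h : a.1 < n <;> simp [h]
    have : (fun w : Unit → S => (frM ar S j).Tr (P S j) K d (List.ofFn fun a : Fin (n + 1) =>
        Sum.elim j (Sum.elim v w)
        (Sum.inr (if h : a.1 < n then Sum.inl ⟨a.1, h⟩ else Sum.inr ()) : ℕ ⊕ (Fin n ⊕ Unit)))) =
        (fun w : Unit → S => (frM ar S j).Tr (P S j) K d (List.ofFn v ++ [w ()])) := by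
      funext w
      rw [key]
    rw [← this]

end Pool.Agent.MP_fd2900_lc
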