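import Pool.Agent.Lib.MP_fd2900_lc.HStep1
import Pool.Agent.Lib.MP_fd2900_lc.Cnt

namespace Pool.Agent.MP_fd2900_lc

open Fr

namespace Setup

variable {A : Setup}

theorem chain_ok {δ : List Lit} {s s' : NmN} (h : Relation.ReflTransGen (A.HExt δ) s s')
    (hs : A.Ok s) : A.Ok s' := by
  induction h with
  | refl => exact hs
  | tail _ h1 ih => exact HExt.ok A h1 ih

private theorem HStep_chain_aux {δ : List Lit} {s : NmN} (hs : A.Ok s) {v : List A.M}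
    (hv : v ∈ A.sol s.nm) (hδ : A.F.Ex1 A.F.g0 v δ) (n : ℕ) :
    ∃ (s' : NmN) (v' : List A.M), Relation.ReflTransGen (A.HExt δ) s s' ∧ s'.1 = s.1 + n ∧
      v' ∈ A.sol s'.nm ∧ v'.take s.1 = v ∧ A.F.Ex1 A.F.g0 v' δ := by
  induction n with
  | zero =>
    refine ⟨s, v, Relation.ReflTransGen.refl, rfl, hv, ?_, hδ⟩
    have hl : v.length = s.1 := hv.1
    rw [← hl]
    exact List.take_length
  | succ n ih =>
    obtain ⟨s', v', h1, h2, h3, h4, h5⟩ := ih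
    obtain ⟨s'', v'', g1, g2, g3, g4, g5⟩ := exists_hExt (chain_ok h1 hs) h3 h5
    refine ⟨s'', v'', h1.tail g1, by rw [g2, h2]; rfl, g3, ?_, g5⟩
    rw [← h4, ← g4, List.take_take, min_eq_left (by omega)]

theorem exists_chain {δ : List Lit} {s : NmN} (hs : A.Ok s) {v : List A.M} (hv : v ∈ A.sol s.nm)
    (hδ : A.F.Ex1 A.F.g0 v δ) (n : ℕ) :
    ∃ (s' : NmN) (v' : List A.M), Relation.ReflTransGen (A.HExt δ) s s' ∧ n ≤ s'.1 ∧ s.1 ≤ s'.1 ∧
      v' ∈ A.sol s'.nm ∧ v'.take s.1 = v ∧ A.F.Ex1 A.F.g0 v' δ := by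
  obtain ⟨s', v', h1, h2, h3, h4, h5⟩ := HStep_chain_aux hs hv hδ n
  exact ⟨s', v', h1, by omega, by omega, h3, h4, h5⟩

private theorem HStep_snoc {s s' : NmN} (hw : WF s.1 s.2.1) (k : ℕ) (e : Ent) (N : ℕ)
    (he : s' = (s.1 + k, s.2.1 ++ [e], N))
    (h1 : e.1 = 0 ∨ e.1 = 1 → e.2.1 + 1 ≤ s.1 + k) (h2 : e.1 = 2 → e.2.1 + e.2.2.1 ≤ s.1 + k) :
    WF s'.1 s'.2.1 ∧ s.1 ≤ s'.1 ∧ ∀ v' ∈ A.sol s'.nm, v'.take s.1 ∈ A.sol s.nm := by
  subst he
  refine ⟨?_, Nat.le_add_right _ _, ?_⟩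
  · intro e' he'
    rcases List.mem_append.1 he' with h | h
    · have := hw e' h
      exact ⟨fun hh => (this.1 hh).trans (Nat.le_add_right _ _),
        fun hh => (this.2 hh).trans (Nat.le_add_right _ _)⟩
    · rw [List.mem_singleton] at h
      subst h
      exact ⟨h1, h2⟩
  · rintro v' ⟨hl, hv⟩
    have hl' : v'.length = s.1 + k := hl
    have hlt : (v'.take s.1).length = s.1 := by rw [List.length_take]; omega
    refine ⟨hlt, fun e' he' => ?_⟩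
    have h3 := hv e' (List.mem_append_left _ he')
    rw [← List.take_append_drop s.1 v'] at h3
    exact (solE_append A.F A.b hw he' hlt).1 h3

private theorem HStep_hExt_take {δ : List Lit} {s s' : NmN} (h : A.HExt δ s s')
    (hw : WF s.1 s.2.1) : WF s'.1 s'.2.1 ∧ s.1 ≤ s'.1 ∧
      ∀ v' ∈ A.sol s'.nm, v'.take s.1 ∈ A.sol s.nm := by
  obtain ⟨a, N', ⟨-, he, -⟩ | ⟨-, -, he, -⟩⟩ := h
  · exact HStep_snoc hw 1 _ _ he (fun _ => le_rfl) (fun h => absurd h (by simp))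
  · exact HStep_snoc hw 1 _ _ he (fun _ => le_rfl) (fun h => absurd h (by simp))

/-- restriction of solutions along certain extensions -/
theorem chain_take {δ : List Lit} {s s' : NmN} (h : Relation.ReflTransGen (A.HExt δ) s s')
    (hw : WF s.1 s.2.1) : WF s'.1 s'.2.1 ∧ s.1 ≤ s'.1 ∧
      ∀ v' ∈ A.sol s'.nm, v'.take s.1 ∈ A.sol s.nm := by
  induction h with
  | refl =>
    refine ⟨hw, le_rfl, fun v' hv' => ?_⟩
    have hl : v'.length = s.1 := hv'.1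
    rw [← hl, List.take_length]
    exact hv'
  | tail _ h1 ih =>
    obtain ⟨i1, i2, i3⟩ := ih
    obtain ⟨j1, j2, j3⟩ := HStep_hExt_take h1 i1
    refine ⟨j1, i2.trans j2, fun v' hv' => ?_⟩
    have h4 := i3 _ (j3 v' hv')
    rwa [List.take_take, min_eq_left i2] at h4

theorem cExt_take {r κ : ℕ} {s s' : NmN} (h : CExt r κ s s')
    (hw : WF s.1 s.2.1) : WF s'.1 s'.2.1 ∧ s.1 ≤ s'.1 ∧
      ∀ v' ∈ A.sol s'.nm, v'.take s.1 ∈ A.sol s.nm := by
  rcases h with ⟨-, he⟩ | ⟨K, -, he⟩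
  · exact HStep_snoc hw 0 _ _ he (fun h => absurd h (by simp)) (fun h => absurd h (by simp))
  · exact HStep_snoc hw K _ _ he (fun h => absurd h (by simp)) (fun _ => le_rfl)

end Setup

end Pool.Agent.MP_fd2900_lc
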