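import Pool.Agent.Lib.MP_fd2900_lc.Cnt1

/-! existence of certain extensions; restriction of solutions -/

namespace Pool.Agent.MP_fd2900_lc

open Fr

namespace Setup

variable {A : Setup}

private theorem HStep1_fin {s : NmN} (hs : A.Ok s) : (A.sol s.nm).Finite :=
  Set.finite_of_encard_eq_coe hs.2.2

private theorem HStep1_ncard {s : NmN} (hs : A.Ok s) : (A.sol s.nm).ncard = s.2.2 := by
  have h : (A.sol s.nm).encard = (s.2.2 : ℕ∞) := hs.2.2
  rw [Set.ncard, h, ENat.toNat_natCast]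

theorem good_of_ok {δ : List Lit} {s : NmN} (hs : A.Ok s) {v : List A.M} (hv : v ∈ A.sol s.nm)
    (hδ : A.F.Ex1 A.F.g0 v δ) : A.Good δ s := by
  have hf := HStep1_fin hs
  have hc := HStep1_ncard hs
  have hpos : 0 < (A.sol s.nm).ncard := (Set.ncard_pos hf).2 ⟨v, hv⟩
  refine ⟨by omega, hs.2.1, ?_⟩
  rw [le_iff_encard]
  have hsub : {w | A.F.Sol A.b s.nm w ∧ A.F.ExtP w (1, 0, δ)} ⊆ A.sol s.nm \ {v} := by
    rintro w ⟨h1, h2⟩
    refine ⟨h1, ?_⟩
    rintro rfl
    exact h2.1 rfl hδ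
  refine (Set.encard_le_encard hsub).trans ?_
  rw [← (hf.sdiff).cast_ncard_eq, Set.ncard_sdiff_singleton_of_mem hv, hc]

private theorem HStep1_exists_y {v : List A.M} {δ : List Lit} (h : A.F.Ex1 A.F.g0 v δ) :
    ∃ y, A.F.Ex1 A.F.g0 (v ++ [y]) δ := by
  obtain ⟨z, hz⟩ := h
  cases z with
  | nil =>
    refine ⟨A.F.j 0, [], ?_⟩
    have he : ∀ t, A.F.ev A.F.g0 ((v ++ [A.F.j 0]) ++ []) t = A.F.ev A.F.g0 (v ++ []) t := by
      intro t
      simp only [Fr.ev, List.append_nil]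
      have hg : (v ++ [A.F.j 0]).getD t.2 (A.F.j 0) = v.getD t.2 (A.F.j 0) := by
        rw [List.getD_eq_getElem?_getD, List.getD_eq_getElem?_getD, List.getElem?_append]
        split_ifs with h
        · rfl
        · rw [List.getElem?_eq_none (l := v) (by omega)]
          rcases Nat.eq_zero_or_pos (t.2 - v.length) with h0 | h0
          · rw [h0]; rfl
          · rw [List.getElem?_eq_none (l := [A.F.j 0]) (by rw [List.length_singleton]; exact h0)]
      rw [hg]
    intro l hl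
    have h1 := hz l hl
    unfold Fr.hold at h1 ⊢
    rwa [show List.map (A.F.ev A.F.g0 (v ++ [A.F.j 0] ++ [])) l.2.2
      = List.map (A.F.ev A.F.g0 (v ++ [])) l.2.2 from List.map_congr_left fun t _ => he t]
  | cons y z => exact ⟨y, z, by simpa using hz⟩

private theorem HStep1_sol_snoc {s : NmN} (hw : WF s.1 s.2.1) (e : Ent) (N : ℕ)
    {v' : List A.M} : A.F.Sol A.b (NmN.nm (s.1 + 1, s.2.1 ++ [e], N)) v' ↔
      ∃ w y, v' = w ++ [y] ∧ A.F.Sol A.b s.nm w ∧ A.F.SolE A.b (w ++ [y]) e := by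
  constructor
  · rintro ⟨h1, h2⟩
    have h1' : v'.length = s.1 + 1 := h1
    have hne : v' ≠ [] := by
      rintro rfl
      simp at h1'
    refine ⟨v'.dropLast, v'.getLast hne, (List.dropLast_append_getLast hne).symm, ⟨?_, ?_⟩, ?_⟩
    · show v'.dropLast.length = s.1
      rw [List.length_dropLast]; omega
    · intro e' he'
      have h3 := h2 e' (List.mem_append_left _ he')
      rw [← List.dropLast_append_getLast hne] at h3
      exact (solE_append A.F A.b hw he' (by rw [List.length_dropLast]; omega)).1 h3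
    · rw [List.dropLast_append_getLast hne]
      exact h2 e (List.mem_append_right _ (List.mem_singleton.2 rfl))
  · rintro ⟨w, y, rfl, ⟨h1, h2⟩, h3⟩
    have h1' : w.length = s.1 := h1
    refine ⟨?_, ?_⟩
    · show (w ++ [y]).length = s.1 + 1
      rw [List.length_append, h1']; rfl
    · intro e' he'
      rcases List.mem_append.1 he' with he' | he'
      · exact (solE_append A.F A.b hw he' h1').2 (h2 e' he')
      · rw [List.mem_singleton] at he'
        subst he'
        exact h3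

private theorem HStep1_vn {s : NmN} (h : A.VN s.nm) (e : Ent) (he : e.2.2.2.2 = ψ0) (N : ℕ) :
    A.VN (NmN.nm (s.1 + 1, s.2.1 ++ [e], N)) := by
  obtain ⟨d, hd, hu⟩ := h
  refine ⟨d, hd, ?_⟩
  intro e' he'
  rcases List.mem_append.1 he' with he' | he'
  · exact hu e' he'
  · rw [List.mem_singleton] at he'
    subst he'
    rw [he]
    intro l hl
    exact absurd hl (by simp [ψ0])

private theorem HStep1_take {w : List A.M} {y : A.M} {n : ℕ} (h : w.length = n) :
    (w ++ [y]).take (n + 1) = w ++ [y] := by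
  apply List.take_of_length_le
  rw [List.length_append, h]; rfl

private theorem HStep1_take' {w : List A.M} {y : A.M} {n : ℕ} (h : w.length = n) :
    (w ++ [y]).take n = w := by
  subst h
  exact List.take_left'  rfl

private theorem HStep1_getD {w : List A.M} {y d : A.M} {n : ℕ} (h : w.length = n) :
    (w ++ [y]).getD n d = y := by
  subst h
  simp

theorem exists_hExt {δ : List Lit} {s : NmN} (hs : A.Ok s) {v : List A.M} (hv : v ∈ A.sol s.nm)
    (hδ : A.F.Ex1 A.F.g0 v δ) :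
    ∃ (s' : NmN) (v' : List A.M), A.HExt δ s s' ∧ s'.1 = s.1 + 1 ∧ v' ∈ A.sol s'.nm ∧
      v'.take s.1 = v ∧ A.F.Ex1 A.F.g0 v' δ := by
  have hf := HStep1_fin hs
  have hc := HStep1_ncard hs
  have hvl : v.length = s.1 := hv.1
  by_cases hcon : ∃ a, A.F.Ex1 A.F.g0 (v ++ [A.F.j a]) δ
  · obtain ⟨a, ha⟩ := hcon
    set Q : Set (List A.M) := {w | A.F.Ex1 A.F.g0 (w ++ [A.F.j a]) δ} with hQ
    have hN : (A.sol s.nm ∩ Q).ncard + (A.sol s.nm \ Q).ncard = s.2.2 := by
      rw [Set.ncard_inter_add_ncard_sdiff_eq_ncard _ _ hf, hc]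
    have hpos : 1 ≤ (A.sol s.nm ∩ Q).ncard := (Set.ncard_pos (hf.inter_of_left _)).2 ⟨v, hv, ha⟩
    refine ⟨(s.1 + 1, s.2.1 ++ [(0, s.1, a, δ, ψ0)], (A.sol s.nm ∩ Q).ncard), v ++ [A.F.j a],
      ⟨a, (A.sol s.nm ∩ Q).ncard, Or.inl ⟨hpos, rfl, (A.sol s.nm \ Q).ncard, hN, ?_, ?_⟩⟩, rfl,
      ?_, HStep1_take' hvl, ha⟩
    · refine ⟨HStep1_vn hs.2.1 _ rfl _, ?_⟩
      rw [le_iff_encard, (hf.inter_of_left Q).cast_ncard_eq]
      refine le_trans (Set.encard_le_encard (t := (fun w => w ++ [A.F.j a]) '' (A.sol s.nm ∩ Q)) ?_)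
        (Set.encard_image_le _ _)
      rintro v' ⟨h1, -⟩
      obtain ⟨w, y, rfl, hw, he⟩ := (HStep1_sol_snoc hs.1 _ _).1 h1
      have hwl : w.length = s.1 := hw.1
      obtain ⟨e1, e2⟩ := he.1 rfl
      simp only at e1 e2
      rw [HStep1_getD hwl] at e1
      subst e1
      rw [HStep1_take hwl] at e2
      exact ⟨w, ⟨hw, e2⟩, rfl⟩
    · refine ⟨hs.2.1, ?_⟩
      rw [le_iff_encard, (hf.sdiff).cast_ncard_eq]
      apply Set.encard_le_encard
      rintro w ⟨h1, h2⟩
      exact ⟨h1, h2.2.1 rfl⟩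
    · refine (HStep1_sol_snoc hs.1 _ _).2 ⟨v, A.F.j a, rfl, hv, ?_, ?_, ?_⟩
      · intro _
        refine ⟨HStep1_getD hvl, ?_⟩
        simp only
        rw [HStep1_take hvl]
        exact ha
      · intro h; exact absurd h (by simp)
      · intro h; exact absurd h (by simp)
  · obtain ⟨y, hy⟩ := HStep1_exists_y hδ
    have hfin : {y | A.F.Ex1 A.F.g0 (v ++ [y]) δ}.Finite :=
      (A.minl v δ ⟨y, hy⟩).resolve_right hcon
    set a := {y | A.F.Ex1 A.F.g0 (v ++ [y]) δ}.ncard with hadef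
    have ha1 : 1 ≤ a := (Set.ncard_pos hfin).2 ⟨y, hy⟩
    have hva : Exa a (fun y => A.F.Ex1 A.F.g0 (v ++ [y]) δ) := by
      rw [exa_iff_encard, hadef, hfin.cast_ncard_eq]
    set Q : Set (List A.M) := {w | Exa a (fun y => A.F.Ex1 A.F.g0 (w ++ [y]) δ)} with hQ
    have hN : (A.sol s.nm ∩ Q).ncard + (A.sol s.nm \ Q).ncard = s.2.2 := by
      rw [Set.ncard_inter_add_ncard_sdiff_eq_ncard _ _ hf, hc]
    have hpos : 1 ≤ (A.sol s.nm ∩ Q).ncard := (Set.ncard_pos (hf.inter_of_left _)).2 ⟨v, hv, hva⟩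
    refine ⟨(s.1 + 1, s.2.1 ++ [(1, s.1, a, δ, ψ0)], a * (A.sol s.nm ∩ Q).ncard), v ++ [y],
      ⟨a, (A.sol s.nm ∩ Q).ncard, Or.inr ⟨hpos, ha1, rfl, (A.sol s.nm \ Q).ncard, hN, ?_, ?_⟩⟩, rfl,
      ?_, HStep1_take' hvl, hy⟩
    · refine ⟨HStep1_vn hs.2.1 _ rfl _, ?_⟩
      rw [le_iff_encard]
      classical
      have hfQ := hf.inter_of_left Q
      have hfw : ∀ w ∈ A.sol s.nm ∩ Q, {y | A.F.Ex1 A.F.g0 (w ++ [y]) δ}.encard = (a : ℕ∞) := by
        rintro w ⟨-, hw⟩
        exact (exa_iff_encard _ _).1 hw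
      set f : List A.M → Finset (List A.M) := fun w =>
        if h : {y | A.F.Ex1 A.F.g0 (w ++ [y]) δ}.Finite then h.toFinset.image (fun y => w ++ [y])
        else ∅ with hfdef
      have hcard : (hfQ.toFinset.biUnion f).card ≤ hfQ.toFinset.card * a := by
        apply Finset.card_biUnion_le_card_mul
        intro w hw
        rw [Set.Finite.mem_toFinset] at hw
        have h1 := hfw w hw
        have h2 : {y | A.F.Ex1 A.F.g0 (w ++ [y]) δ}.Finite := Set.finite_of_encard_eq_coe h1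
        simp only [hfdef, dif_pos h2]
        refine Finset.card_image_le.trans ?_
        rw [← Set.ncard_eq_toFinset_card _ h2, Set.ncard, h1, ENat.toNat_natCast]
      have hsub : {v' | A.F.Sol A.b (NmN.nm (s.1 + 1, s.2.1 ++ [(1, s.1, a, δ, ψ0)],
          a * (A.sol s.nm ∩ Q).ncard)) v' ∧ A.F.ExtP v' x0} ⊆
            ((hfQ.toFinset.biUnion f : Finset (List A.M)) : Set (List A.M)) := by
        rintro v' ⟨h1, -⟩
        obtain ⟨w, y', rfl, hw, he⟩ := (HStep1_sol_snoc hs.1 _ _).1 h1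
        have hwl : w.length = s.1 := hw.1
        obtain ⟨e1, e2⟩ := he.2.1 rfl
        simp only at e1 e2
        rw [HStep1_take' hwl] at e1
        rw [HStep1_take hwl] at e2
        have hwQ : w ∈ A.sol s.nm ∩ Q := ⟨hw, e1⟩
        have h2 : {y | A.F.Ex1 A.F.g0 (w ++ [y]) δ}.Finite :=
          Set.finite_of_encard_eq_coe (hfw w hwQ)
        rw [Finset.mem_coe, Finset.mem_biUnion]
        refine ⟨w, (Set.Finite.mem_toFinset _).2 hwQ, ?_⟩
        simp only [hfdef, dif_pos h2]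
        exact Finset.mem_image.2 ⟨y', (Set.Finite.mem_toFinset _).2 e2, rfl⟩
      refine (Set.encard_le_encard hsub).trans ?_
      rw [Set.encard_coe_eq_coe_finsetCard, Nat.cast_le]
      refine hcard.trans ?_
      rw [← Set.ncard_eq_toFinset_card _ hfQ, mul_comm]
    · refine ⟨hs.2.1, ?_⟩
      rw [le_iff_encard, (hf.sdiff).cast_ncard_eq]
      apply Set.encard_le_encard
      rintro w ⟨h1, h2⟩
      exact ⟨h1, h2.2.2 rfl⟩
    · refine (HStep1_sol_snoc hs.1 _ _).2 ⟨v, y, rfl, hv, ?_, ?_, ?_⟩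
      · intro h; exact absurd h (by simp)
      · intro _
        simp only
        rw [HStep1_take hvl, HStep1_take' hvl]
        exact ⟨hva, hy⟩
      · intro h; exact absurd h (by simp)

end Setup

end Pool.Agent.MP_fd2900_lc
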