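import Pool.Agent.Lib.MP_fd2900_lc.Kap1

namespace Pool.Agent.MP_fd2900_lc

open Fr

namespace Setup

variable (A : Setup)

theorem Kap_set_eq (r : ℕ) : {v | A.F.Sol A.b (nmψ r) v ∧ A.F.ExtP v x0} =
    (fun y => [y]) '' {y | A.F.Sat2 A.b (psi r) y} := by
  ext v
  constructor
  · rintro ⟨⟨h1, h2⟩, -⟩
    have h1' : v.length = 1 := h1
    obtain ⟨y, rfl⟩ := List.length_eq_one_iff.1 h1'
    have h3 := h2 (2, 0, 1, [], psi r) (List.mem_singleton.2 rfl)
    exact ⟨y, (h3.2.2 rfl).2 y (by simp), rfl⟩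
  · rintro ⟨y, hy, rfl⟩
    refine ⟨⟨rfl, ?_⟩, ?_⟩
    · intro e he
      have he' : e = (2, 0, 1, [], psi r) := List.mem_singleton.1 he
      subst he'
      refine ⟨?_, ?_, ?_⟩
      · intro h
        simp at h
      · intro h
        simp at h
      · intro _
        refine ⟨by simp, ?_⟩
        intro z hz
        have hz' : z = y := by simpa using hz
        rw [hz']
        exact hy
    · refine ⟨?_, ?_, ?_⟩ <;> intro h <;> simp [x0] at h

theorem Kap_encard (r : ℕ) : {v | A.F.Sol A.b (nmψ r) v ∧ A.F.ExtP v x0}.encard =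
    {y | A.F.Sat2 A.b (psi r) y}.encard := by
  rw [Kap_set_eq]
  exact Function.Injective.encard_image (fun a b hab => by simpa using hab) _

theorem Kap_le (r K : ℕ) : A.le (nmψ r) x0 K ↔
    A.VN (nmψ r) ∧ {y | A.F.Sat2 A.b (psi r) y}.encard ≤ (K : ℕ∞) := by
  rw [← Kap_encard, ← le_iff_encard]
  rfl

theorem Kap_spec {t r : ℕ} (h : ∃ K, A.Seen t r K) :
    ∃ K, A.kap t r = K + 1 ∧ A.Seen t r K ∧ ∀ K' < K, ¬ A.Seen t r K' := by
  classical
  refine ⟨Nat.find h, ?_, Nat.find_spec h, fun K' hK' => Nat.find_min h hK'⟩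
  unfold kap
  rw [dif_pos h]

theorem Kap_none {t r : ℕ} (h : ¬ ∃ K, A.Seen t r K) : A.kap t r = 0 := by
  unfold kap
  rw [dif_neg h]

theorem le_of_kap {t r K : ℕ} (h : A.kap t r = K + 1) :
    A.VN (nmψ r) ∧ {y | A.F.Sat2 A.b (psi r) y}.encard ≤ (K : ℕ∞) := by
  rw [← Kap_le]
  by_cases hs : ∃ K, A.Seen t r K
  · obtain ⟨K', h1, ⟨-, w, -, hw⟩, -⟩ := A.Kap_spec hs
    have h2 : K' = K := by omega
    subst h2
    exact (A.Qw_spec.2 r K').2 ⟨w, hw⟩
  · rw [A.Kap_none hs] at h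
    omega

theorem kap_lim (r : ℕ) : ∃ t0, ∀ t ≥ t0, A.kap t r = A.kapInf r := by
  have key : ∀ t K, A.Seen t r K → A.VN (nmψ r) ∧ {y | A.F.Sat2 A.b (psi r) y}.encard ≤ (K : ℕ∞) := by
    rintro t K ⟨-, m, -, hm⟩
    exact (A.Kap_le r K).1 ((A.Qw_spec.2 r K).2 ⟨m, hm⟩)
  by_cases hc : A.VN (nmψ r) ∧ {y | A.F.Sat2 A.b (psi r) y}.Finite
  · have hN : A.le (nmψ r) x0 {y | A.F.Sat2 A.b (psi r) y}.ncard := by
      rw [Kap_le]
      exact ⟨hc.1, le_of_eq hc.2.cast_ncard_eq.symm⟩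
    obtain ⟨w, hw⟩ := (A.Qw_spec.2 r _).1 hN
    refine ⟨max {y | A.F.Sat2 A.b (psi r) y}.ncard w + 1, fun t ht => ?_⟩
    have hseen : A.Seen t r {y | A.F.Sat2 A.b (psi r) y}.ncard := by
      refine ⟨?_, w, ?_, hw⟩
      · have := le_max_left {y | A.F.Sat2 A.b (psi r) y}.ncard w
        omega
      · have := le_max_right {y | A.F.Sat2 A.b (psi r) y}.ncard w
        omega
    obtain ⟨K, h1, h2, h3⟩ := A.Kap_spec ⟨_, hseen⟩
    have h4 := (key t K h2).2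
    rw [← hc.2.cast_ncard_eq] at h4
    have h5 : {y | A.F.Sat2 A.b (psi r) y}.ncard ≤ K := by exact_mod_cast h4
    have h6 : ¬ {y | A.F.Sat2 A.b (psi r) y}.ncard < K := fun h => h3 _ h hseen
    unfold kapInf
    rw [if_pos hc, h1]
    omega
  · refine ⟨0, fun t _ => ?_⟩
    have hno : ¬ ∃ K, A.Seen t r K := by
      rintro ⟨K, hK⟩
      have h1 := key t K hK
      exact hc ⟨h1.1, Set.finite_of_encard_le_coe h1.2⟩
    rw [A.Kap_none hno]
    unfold kapInf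
    rw [if_neg hc]

end Setup

end Pool.Agent.MP_fd2900_lc
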