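import Pool.Agent.Lib.MP_fd2900_lc.HStep
import Pool.Agent.Lib.MP_fd2900_lc.Kap

namespace Pool.Agent.MP_fd2900_lc

open Fr

namespace Setup

variable {A : Setup}

private theorem InvA2_UGψ_mono {d d' : ℕ} (h : d ≤ d') {ψ : Psi} (hψ : UGψ d ψ) : UGψ d' ψ :=
  fun l hl a ha t ht h1 => lt_of_lt_of_le (hψ l hl a ha t ht h1) h

private theorem InvA2_UG_mono {d d' : ℕ} (h : d ≤ d') {p : Nm} (hp : UG d p) : UG d' p :=
  fun e he => InvA2_UGψ_mono h (hp e he)

private theorem InvA2_VN_append {s : NmN} (hs : A.VN s.nm) {r : ℕ} (hr : A.VN (nmψ r))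
    (n m K N : ℕ) : A.VN (NmN.nm (n, s.2.1 ++ [(2, m, K, [], psi r)], N)) := by
  obtain ⟨d1, hV1, hU1⟩ := hs
  obtain ⟨d2, hV2, hU2⟩ := hr
  refine ⟨max d1 d2, ?_, ?_⟩
  · rcases le_total d1 d2 with h | h
    · rw [max_eq_right h]
      exact hV2
    · rw [max_eq_left h]
      exact hV1
  · intro e he
    have he' : e ∈ s.2.1 ++ [(2, m, K, [], psi r)] := he
    rw [List.mem_append, List.mem_singleton] at he'
    rcases he' with he' | he'
    · exact InvA2_UGψ_mono (le_max_left _ _) (hU1 e he')
    · rw [he']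
      exact InvA2_UGψ_mono (le_max_right _ _) (hU2 (2, 0, 1, [], psi r) (by simp [nmψ]))

/-- the new name after a bound that is too big has no solutions and is nevertheless good -/
theorem good_of_wrong {δ : List Lit} {r t : ℕ} {s s' : NmN} (h : CExt r (A.kap t r) s s')
    (hs : A.Ok s) (hN : 1 ≤ s.2.2) (hne : A.kap t r ≠ A.kapInf r) (h0 : A.kap t r ≠ 0) : A.Good δ s' := by
  classical
  rcases h with ⟨h1, -⟩ | ⟨K, hK, hs'⟩
  · exact absurd h1 h0
  obtain ⟨hVN, hle⟩ := A.le_of_kap hK
  have hfin : {y | A.F.Sat2 A.b (psi r) y}.Finite :=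
    Set.finite_of_encard_le_coe hle
  have hinf : A.kapInf r = {y | A.F.Sat2 A.b (psi r) y}.ncard + 1 := by
    rw [kapInf]
    exact if_pos ⟨hVN, hfin⟩
  have hnc : {y | A.F.Sat2 A.b (psi r) y}.ncard ≤ K := by
    rw [← hfin.cast_ncard_eq] at hle
    exact_mod_cast hle
  have hlt : {y | A.F.Sat2 A.b (psi r) y}.ncard < K := by
    rw [hK, hinf] at hne
    omega
  subst hs'
  refine ⟨Nat.one_le_iff_ne_zero.2 (Nat.mul_ne_zero (by omega) (Nat.factorial_ne_zero K)),
    InvA2_VN_append hs.2.1 hVN _ _ _ _, ?_⟩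
  rintro ⟨Y, hYl, -, hY⟩
  have hpos : 0 < Y.length := by omega
  have hv := (hY _ (List.getElem_mem hpos)).1
  set v := Y[0] with hvdef
  have hvl : v.length = s.1 + K := hv.1
  have he := hv.2 (2, s.1, K, [], psi r) (by
    show _ ∈ s.2.1 ++ [(2, s.1, K, [], psi r)]
    simp)
  obtain ⟨hnd, hall⟩ := he.2.2 rfl
  have hnd' : ((v.drop s.1).take K).Nodup := hnd
  have hall' : ∀ y ∈ (v.drop s.1).take K, A.F.Sat2 A.b (psi r) y := hall
  have hlen : ((v.drop s.1).take K).length = K := by
    rw [List.length_take, List.length_drop, hvl]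
    omega
  have hsub : (((v.drop s.1).take K).toFinset : Set A.M) ⊆ {y | A.F.Sat2 A.b (psi r) y} := by
    intro y hy
    exact hall' y (by simpa using hy)
  have h3 := Set.ncard_le_ncard hsub hfin
  rw [Set.ncard_coe_finset, List.toFinset_card_of_nodup hnd', hlen] at h3
  omega

/-- a trivial extension is always fine -/
theorem ok_of_zero {r : ℕ} {s s' : NmN} (h : CExt r 0 s s') (hs : A.Ok s) : A.Ok s' := by
  rcases h with ⟨-, hs'⟩ | ⟨K, hK, -⟩
  · subst hs'
    obtain ⟨hw, ⟨d, hV, hU⟩, hE⟩ := hs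
    refine ⟨?_, ⟨d, hV, ?_⟩, ?_⟩
    · intro e he
      have he' : e ∈ s.2.1 ++ [(3, s.1, 0, [], ψ0)] := he
      rw [List.mem_append, List.mem_singleton] at he'
      rcases he' with he' | he'
      · exact hw e he'
      · rw [he']
        refine ⟨?_, ?_⟩
        · rintro (h | h)
          · exact absurd h (by norm_num)
          · exact absurd h (by norm_num)
        · intro h
          exact absurd h (by norm_num)
    · intro e he
      have he' : e ∈ s.2.1 ++ [(3, s.1, 0, [], ψ0)] := he
      rw [List.mem_append, List.mem_singleton] at he'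
      rcases he' with he' | he'
      · exact hU e he'
      · rw [he']
        intro l hl
        exact absurd hl List.not_mem_nil
    · have h1 : A.sol (NmN.nm (s.1, s.2.1 ++ [(3, s.1, 0, [], ψ0)], s.2.2)) = A.sol s.nm := by
        ext v
        constructor
        · intro hv
          refine ⟨hv.1, fun e he => hv.2 e ?_⟩
          show e ∈ s.2.1 ++ [(3, s.1, 0, [], ψ0)]
          exact List.mem_append_left _ he
        · intro hv
          refine ⟨hv.1, fun e he => ?_⟩
          have he' : e ∈ s.2.1 ++ [(3, s.1, 0, [], ψ0)] := he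
          rw [List.mem_append, List.mem_singleton] at he'
          rcases he' with he' | he'
          · exact hv.2 e he'
          · rw [he']
            refine ⟨fun h => absurd h (by norm_num), fun h => absurd h (by norm_num),
              fun h => absurd h (by norm_num)⟩
      unfold Exact
      rw [h1]
      exact hE
  · exact absurd hK (Nat.succ_ne_zero K).symm

theorem exists_cExt (r κ : ℕ) (s : NmN) : ∃ s', CExt r κ s s' := by
  cases κ with
  | zero => exact ⟨_, Or.inl ⟨rfl, rfl⟩⟩
  | succ K => exact ⟨_, Or.inr ⟨K, rfl, rfl⟩⟩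

end Setup

end Pool.Agent.MP_fd2900_lc
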