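import Pool.Agent.Lib.MP_fd2900_lc.HStep
import Pool.Agent.Lib.MP_fd2900_lc.Kap

/-! consequences of the invariant -/

namespace Pool.Agent.MP_fd2900_lc

open Fr

namespace Setup

variable {A : Setup}

/-- the static part of the invariant -/
def Links (A : Setup) (segs : List (ℕ × NmN)) : Prop :=
  ∀ r < segs.length, (∃ t, A.kap t r = kAt segs r) ∧
    ∃ (δ : List Lit) (n1 : NmN), Relation.ReflTransGen (A.HExt δ) (nmAt segs r) n1 ∧
      CExt r (kAt segs r) n1 (nmAt segs (r + 1))

theorem links_wf {segs : List (ℕ × NmN)} (h : A.Links segs) {r : ℕ} (hr : r ≤ segs.length) :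
    WF (nmAt segs r).1 (nmAt segs r).2.1 := by
  induction r with
  | zero =>
    intro e he
    have h0 : nmAt segs 0 = base := rfl
    rw [h0] at he
    simp [base] at he
  | succ r ih =>
    have hr' : r < segs.length := hr
    obtain ⟨_, δ, n1, hc, hx⟩ := h r hr'
    exact (cExt_take (A := A) hx (chain_take hc (ih hr'.le)).1).1

/-- if the recorded bounds below `R` are right then the names up to `R` are exact -/
theorem links_ok {segs : List (ℕ × NmN)} (h : A.Links segs) {R : ℕ} (hR : R ≤ segs.length)
    (hk : ∀ r < R, kAt segs r = A.kapInf r) : A.Ok (nmAt segs R) := by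
  induction R with
  | zero => exact A.ok_base
  | succ R ih =>
    have hR' : R < segs.length := hR
    obtain ⟨_, δ, n1, hc, hx⟩ := h R hR'
    have h1 : A.Ok (nmAt segs R) := ih hR'.le fun r hr => hk r (Nat.lt_succ_of_lt hr)
    exact CExt.ok A hx (chain_ok hc h1) (hk R (Nat.lt_succ_self R))

theorem links_take {segs : List (ℕ × NmN)} (h : A.Links segs) {r r' : ℕ} (hr : r ≤ r')
    (hr' : r' ≤ segs.length) : (nmAt segs r).1 ≤ (nmAt segs r').1 ∧
      ∀ v ∈ A.sol (nmAt segs r').nm, v.take (nmAt segs r).1 ∈ A.sol (nmAt segs r).nm := by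
  induction r' with
  | zero =>
    have h0 : r = 0 := Nat.le_zero.mp hr
    subst h0
    refine ⟨le_rfl, fun v hv => ?_⟩
    have hl : v.length = (nmAt segs 0).1 := hv.1
    rw [← hl, List.take_length]
    exact hv
  | succ k ih =>
    rcases Nat.lt_or_ge r (k + 1) with hlt | hge
    · have hk' : k < segs.length := hr'
      have hrk : r ≤ k := Nat.lt_succ_iff.mp hlt
      obtain ⟨ih1, ih2⟩ := ih hrk hk'.le
      obtain ⟨_, δ, n1, hc, hx⟩ := h k hk'
      obtain ⟨hw1, hle1, ht1⟩ := chain_take hc (links_wf h hk'.le)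
      obtain ⟨_, hle2, ht2⟩ := cExt_take (A := A) hx hw1
      refine ⟨ih1.trans (hle1.trans hle2), fun v hv => ?_⟩
      have h1 := ht2 v hv
      have h2 := ht1 _ h1
      rw [List.take_take, Nat.min_eq_left hle1] at h2
      have h3 := ih2 _ h2
      rw [List.take_take, Nat.min_eq_left ih1] at h3
      exact h3
    · have h0 : r = k + 1 := Nat.le_antisymm hr hge
      subst h0
      refine ⟨le_rfl, fun v hv => ?_⟩
      have hl : v.length = (nmAt segs (k + 1)).1 := hv.1
      rw [← hl, List.take_length]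
      exact hv

end Setup

end Pool.Agent.MP_fd2900_lc
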