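import Pool.Agent.Lib.MP_fd2900_lc.SigB
import Pool.Agent.Lib.MP_fd2900_lc.Cnt1

/-! the approximations of the numbers of solutions -/

namespace Pool.Agent.MP_fd2900_lc

open Fr

namespace Setup

variable (A : Setup)

private theorem Kap1_psi : Primrec psi :=
  Primrec.option_getD.comp Primrec.decode (Primrec.const ψ0)

theorem comp_nmψ : Computable nmψ := by
  have h1 : Primrec (fun r : ℕ => ((2, 0, 1, [], psi r) : Ent)) :=
    Primrec.pair (Primrec.const 2) (Primrec.pair (Primrec.const 0)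
      (Primrec.pair (Primrec.const 1) (Primrec.pair (Primrec.const []) Kap1_psi)))
  exact (Primrec.pair (Primrec.const 1)
    (Primrec.list_cons.comp h1 (Primrec.const ([] : List Ent)))).to_comp

theorem Qw_spec : Sig 2 A.Qw ∧ ∀ r K, A.le (nmψ r) x0 K ↔ ∃ m, ¬ A.Qw ((r, K), m) := by
  have h1 : Sig 3 (fun a : ℕ × ℕ => A.le (nmψ a.1) x0 a.2) :=
    Sig.comp (f := fun a : ℕ × ℕ => ((nmψ a.1, x0, a.2) : Nm × Ext × ℕ)) A.sigLe
      (Computable.pair (comp_nmψ.comp Computable.fst)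
        (Computable.pair (Computable.const x0) Computable.snd))
  have h : ∃ Q : (ℕ × ℕ) × ℕ → Prop, Sig 2 Q ∧
      ∀ a, A.le (nmψ a.1) x0 a.2 ↔ ∃ m, ¬ Q (a, m) := h1
  have e : A.Qw = h.choose := by
    unfold Setup.Qw
    rw [dif_pos h]
  rw [e]
  exact ⟨h.choose_spec.1, fun r K => h.choose_spec.2 (r, K)⟩

private theorem Kap1_map : Computable (fun z : ((ℕ × ℕ) × ℕ) × ℕ =>
    (((z.1.1.2, z.1.2), z.2) : (ℕ × ℕ) × ℕ)) :=
  Computable.pair (Computable.pair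
    (Computable.snd.comp (Computable.fst.comp Computable.fst))
    (Computable.snd.comp Computable.fst)) Computable.snd

private theorem Kap1_seen : Sig 3 (fun a : (ℕ × ℕ) × ℕ => A.Seen a.1.1 a.1.2 a.2) := by
  have h1 : Sig 3 (fun z : ((ℕ × ℕ) × ℕ) × ℕ => ¬ A.Qw ((z.1.1.2, z.1.2), z.2)) :=
    Sig.comp (f := fun z : ((ℕ × ℕ) × ℕ) × ℕ => (((z.1.1.2, z.1.2), z.2) : (ℕ × ℕ) × ℕ))
      (A.Qw_spec.1.not_up) Kap1_map
  have h2 := Sig.bex_lt (f := fun a : (ℕ × ℕ) × ℕ => a.1.1) h1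
    (Computable.fst.comp Computable.fst)
  have h3 : Sig 3 (fun a : (ℕ × ℕ) × ℕ => a.2 < a.1.1) :=
    Sig.of_comp (PrimrecPred.computablePred
      (Primrec.nat_lt.comp Primrec.snd (Primrec.fst.comp Primrec.fst)))
  exact h3.and h2

private theorem Kap1_not_seen : Sig 3 (fun a : (ℕ × ℕ) × ℕ => ¬ A.Seen a.1.1 a.1.2 a.2) := by
  have h1 : Sig 3 (fun z : ((ℕ × ℕ) × ℕ) × ℕ => A.Qw ((z.1.1.2, z.1.2), z.2)) :=
    Sig.comp (f := fun z : ((ℕ × ℕ) × ℕ) × ℕ => (((z.1.1.2, z.1.2), z.2) : (ℕ × ℕ) × ℕ))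
      (A.Qw_spec.1.up) Kap1_map
  have h2 := Sig.ball_lt (f := fun a : (ℕ × ℕ) × ℕ => a.1.1) h1
    (Computable.fst.comp Computable.fst)
  have h3 : Sig 3 (fun a : (ℕ × ℕ) × ℕ => ¬ a.2 < a.1.1) :=
    Sig.of_comp (ComputablePred.not (PrimrecPred.computablePred
      (Primrec.nat_lt.comp Primrec.snd (Primrec.fst.comp Primrec.fst))))
  refine (h3.or h2).of_eq fun a => ?_
  unfold Setup.Seen
  rw [not_and_or]
  refine or_congr Iff.rfl ?_
  push Not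
  exact Iff.rfl

/-- `kap t r` is zero iff nothing is seen; it is `K + 1` for the least seen `K` -/
private theorem Kap1_eq (t r v : ℕ) : A.kap t r = v ↔
    (v = 0 ∧ ∀ K < t, ¬ A.Seen t r K) ∨
      (v ≠ 0 ∧ A.Seen t r (v - 1) ∧ ∀ K < v - 1, ¬ A.Seen t r K) := by
  classical
  unfold Setup.kap
  split_ifs with h
  · constructor
    · rintro rfl
      right
      refine ⟨Nat.succ_ne_zero _, ?_, ?_⟩
      · rw [Nat.add_sub_cancel]
        exact Nat.find_spec h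
      · intro K hK
        rw [Nat.add_sub_cancel] at hK
        exact Nat.find_min h hK
    · rintro (⟨-, h2⟩ | ⟨h1, h2, h3⟩)
      · obtain ⟨K, hK⟩ := h
        exact absurd hK (h2 K hK.1)
      · have h4 : Nat.find h = v - 1 := by
          rw [Nat.find_eq_iff]
          exact ⟨h2, fun n hn => h3 n hn⟩
        rw [h4]
        omega
  · constructor
    · rintro rfl
      exact Or.inl ⟨rfl, fun K _ hK => h ⟨K, hK⟩⟩
    · rintro (⟨h1, -⟩ | ⟨-, h2, -⟩)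
      · exact h1.symm
      · exact absurd ⟨_, h2⟩ h

private theorem Kap1_ne (t r v : ℕ) : A.kap t r ≠ v ↔
    (v = 0 ∧ ∃ K < t, A.Seen t r K) ∨
      (v ≠ 0 ∧ (¬ A.Seen t r (v - 1) ∨ ∃ K < v - 1, A.Seen t r K)) := by
  rw [Ne, Kap1_eq]
  by_cases hv : v = 0
  · subst hv
    simp only [true_and, ne_eq, not_true_eq_false, false_and, or_false]
    push Not
    exact Iff.rfl
  · simp only [hv, false_and, false_or, ne_eq, not_false_eq_true, true_and]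
    rw [not_and_or]
    refine or_congr Iff.rfl ?_
    push Not
    exact Iff.rfl

private theorem Kap1_pred : Computable (fun a : (ℕ × ℕ) × ℕ => a.2 - 1) :=
  (Primrec.pred.comp Primrec.snd).to_comp

private theorem Kap1_z : Sig 3 (fun a : (ℕ × ℕ) × ℕ => a.2 = 0) :=
  Sig.of_comp (PrimrecPred.computablePred (Primrec.eq.comp Primrec.snd (Primrec.const 0)))

private theorem Kap1_nz : Sig 3 (fun a : (ℕ × ℕ) × ℕ => a.2 ≠ 0) :=
  Sig.of_comp (ComputablePred.not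
    (PrimrecPred.computablePred (Primrec.eq.comp Primrec.snd (Primrec.const 0))))

private theorem Kap1_map2 : Computable (fun z : ((ℕ × ℕ) × ℕ) × ℕ =>
    ((z.1.1, z.2) : (ℕ × ℕ) × ℕ)) :=
  Computable.pair (Computable.fst.comp Computable.fst) Computable.snd

private theorem Kap1_map3 : Computable (fun a : (ℕ × ℕ) × ℕ =>
    ((a.1, a.2 - 1) : (ℕ × ℕ) × ℕ)) :=
  Computable.pair Computable.fst Kap1_pred

theorem sig_kap : Sig 3 (fun q : (ℕ × ℕ) × ℕ => A.kap q.1.1 q.1.2 = q.2) := by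
  have h1 : Sig 3 (fun z : ((ℕ × ℕ) × ℕ) × ℕ => ¬ A.Seen z.1.1.1 z.1.1.2 z.2) :=
    Sig.comp (f := fun z : ((ℕ × ℕ) × ℕ) × ℕ => ((z.1.1, z.2) : (ℕ × ℕ) × ℕ))
      A.Kap1_not_seen Kap1_map2
  have h2 : Sig 3 (fun a : (ℕ × ℕ) × ℕ => A.Seen a.1.1 a.1.2 (a.2 - 1)) :=
    Sig.comp (f := fun a : (ℕ × ℕ) × ℕ => ((a.1, a.2 - 1) : (ℕ × ℕ) × ℕ)) A.Kap1_seen Kap1_map3
  have h3 := Sig.ball_lt (f := fun a : (ℕ × ℕ) × ℕ => a.1.1) h1
    (Computable.fst.comp Computable.fst)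
  have h4 := Sig.ball_lt (f := fun a : (ℕ × ℕ) × ℕ => a.2 - 1) h1 Kap1_pred
  exact ((Kap1_z.and h3).or (Kap1_nz.and (h2.and h4))).of_eq fun a => (A.Kap1_eq a.1.1 a.1.2 a.2).symm

theorem sig_kap_ne : Sig 3 (fun q : (ℕ × ℕ) × ℕ => A.kap q.1.1 q.1.2 ≠ q.2) := by
  have h1 : Sig 3 (fun z : ((ℕ × ℕ) × ℕ) × ℕ => A.Seen z.1.1.1 z.1.1.2 z.2) :=
    Sig.comp (f := fun z : ((ℕ × ℕ) × ℕ) × ℕ => ((z.1.1, z.2) : (ℕ × ℕ) × ℕ))
      A.Kap1_seen Kap1_map2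
  have h2 : Sig 3 (fun a : (ℕ × ℕ) × ℕ => ¬ A.Seen a.1.1 a.1.2 (a.2 - 1)) :=
    Sig.comp (f := fun a : (ℕ × ℕ) × ℕ => ((a.1, a.2 - 1) : (ℕ × ℕ) × ℕ)) A.Kap1_not_seen
      Kap1_map3
  have h3 := Sig.bex_lt (f := fun a : (ℕ × ℕ) × ℕ => a.1.1) h1
    (Computable.fst.comp Computable.fst)
  have h4 := Sig.bex_lt (f := fun a : (ℕ × ℕ) × ℕ => a.2 - 1) h1 Kap1_pred
  exact ((Kap1_z.and h3).or (Kap1_nz.and (h2.or h4))).of_eq fun a => (A.Kap1_ne a.1.1 a.1.2 a.2).symm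

end Setup

end Pool.Agent.MP_fd2900_lc
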