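import Pool.Agent.Lib.MP_fd2900_lc.SigA

namespace Pool.Agent.MP_fd2900_lc

private theorem koenig_restr {M : Type} (n : ℕ → ℕ) (hn : Monotone n) (S : ℕ → Set (List M))
    (hl : ∀ r, ∀ v ∈ S r, v.length = n r)
    (ht : ∀ r, ∀ v ∈ S (r + 1), v.take (n r) ∈ S r) (r k : ℕ) :
    ∀ w ∈ S (r + k), w.take (n r) ∈ S r := by
  induction k with
  | zero =>
    intro w hw
    have h1 : w.length = n r := hl r w hw
    rw [← h1, List.take_length]
    exact hw
  | succ k ih =>
    intro w hw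
    have h1 := ih _ (ht (r + k) w hw)
    rw [List.take_take, min_eq_left (hn (Nat.le_add_right r k))] at h1
    exact h1

private theorem koenig_pig {M : Type} (n : ℕ → ℕ) (hn : Monotone n) (S : ℕ → Set (List M))
    (hf : ∀ r, (S r).Finite) (hl : ∀ r, ∀ v ∈ S r, v.length = n r)
    (ht : ∀ r, ∀ v ∈ S (r + 1), v.take (n r) ∈ S r) (r : ℕ) (C : List M → Prop)
    (hC : ∀ k, ∃ w ∈ S (r + k), C (w.take (n r))) :
    ∃ v, C v ∧ v ∈ S r ∧ ∀ k, ∃ w ∈ S (r + k), w.take (n r) = v := by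
  classical
  by_contra hcon
  have h1 : ∀ v, ∃ k, C v → v ∈ S r → ∀ w ∈ S (r + k), w.take (n r) ≠ v := by
    intro v
    by_contra h2
    push Not at h2
    obtain ⟨h3, h4, -⟩ := h2 0
    exact hcon ⟨v, h3, h4, fun k => (h2 k).2.2⟩
  choose f hf1 using h1
  obtain ⟨w, hw, hCw⟩ := hC ((hf r).toFinset.sup f)
  have hv : w.take (n r) ∈ S r := koenig_restr n hn S hl ht r _ w hw
  have h2 : f (w.take (n r)) ≤ (hf r).toFinset.sup f :=
    Finset.le_sup ((hf r).mem_toFinset.2 hv)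
  obtain ⟨e, he⟩ := Nat.exists_eq_add_of_le h2
  rw [he, ← Nat.add_assoc] at hw
  have h3 := koenig_restr n hn S hl ht (r + f (w.take (n r))) e w hw
  refine hf1 (w.take (n r)) hCw hv _ h3 ?_
  rw [List.take_take, min_eq_left (hn (Nat.le_add_right r _))]

/-- König's lemma: an inverse system of nonempty finite sets of lists -/
theorem koenig {M : Type} (n : ℕ → ℕ) (hn : Monotone n) (S : ℕ → Set (List M))
    (hf : ∀ r, (S r).Finite) (hne : ∀ r, (S r).Nonempty) (hl : ∀ r, ∀ v ∈ S r, v.length = n r)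
    (ht : ∀ r, ∀ v ∈ S (r + 1), v.take (n r) ∈ S r) :
    ∃ u : ℕ → List M, (∀ r, u r ∈ S r) ∧ ∀ r, (u (r + 1)).take (n r) = u r := by
  classical
  let P : ℕ → List M → Prop := fun r v => v ∈ S r ∧ ∀ k, ∃ w ∈ S (r + k), w.take (n r) = v
  have h0 : ∃ v, P 0 v := by
    obtain ⟨v, -, h1⟩ := koenig_pig n hn S hf hl ht 0 (fun _ => True)
      (fun k => ⟨(hne _).some, (hne _).some_mem, trivial⟩)
    exact ⟨v, h1⟩
  have hs : ∀ r v, ∃ v', P r v → P (r + 1) v' ∧ v'.take (n r) = v := by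
    intro r v
    by_cases hP : P r v
    · obtain ⟨v', h1, h2⟩ := koenig_pig n hn S hf hl ht (r + 1) (fun w => w.take (n r) = v) (by
        intro k
        obtain ⟨w, hw, h3⟩ := hP.2 (1 + k)
        rw [← Nat.add_assoc] at hw
        refine ⟨w, hw, ?_⟩
        rw [List.take_take, min_eq_left (hn (Nat.le_succ r))]
        exact h3)
      exact ⟨v', fun _ => ⟨h2, h1⟩⟩
    · exact ⟨v, fun h => absurd h hP⟩
  choose g hg using hs
  obtain ⟨v0, hv0⟩ := h0
  let u : ℕ → List M := fun r => Nat.rec v0 (fun r v => g r v) r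
  have hu : ∀ r, P r (u r) := by
    intro r
    induction r with
    | zero => exact hv0
    | succ r ih => exact (hg r (u r) ih).1
  exact ⟨u, fun r => (hu r).1, fun r => (hg r (u r) (hu r)).2⟩

end Pool.Agent.MP_fd2900_lc
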