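import Pool.Agent.Lib.MP_fd2900_lc.Lim1
import Pool.Agent.Lib.MP_fd2900_lc.Cnt1

namespace Pool.Agent.MP_fd2900_lc

open Fr

namespace Setup

variable {A : Setup}

private theorem Lim2_ex1_take {v : List A.M} {n : ℕ} {δ : List Lit} (h : A.F.Ex1 A.F.g0 v δ) :
    A.F.Ex1 A.F.g0 (v.take n) δ := by
  obtain ⟨z, hz⟩ := h
  refine ⟨v.drop n ++ z, ?_⟩
  rw [← List.append_assoc, List.take_append_drop]
  exact hz

private theorem Lim2_ex1_prefix {v : List A.M} {δ δ' : List Lit} (hp : δ <+: δ')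
    (h : A.F.Ex1 A.F.g0 v δ') : A.F.Ex1 A.F.g0 v δ := by
  obtain ⟨z, hz⟩ := h
  exact ⟨z, fun l hl => hz l (hp.subset hl)⟩

private theorem Lim2_exists_one {s : NmN} (hs : A.Ok s) {δ : List Lit} (hg : A.Good δ s) :
    ∃ v ∈ A.sol s.nm, A.F.Ex1 A.F.g0 v δ := by
  by_contra hcon
  push Not at hcon
  have h1 := (le_iff_encard A.F A.b s.nm (1, 0, δ) (s.2.2 - 1)).1 hg.2.2
  have h2 : {v | A.F.Sol A.b s.nm v ∧ A.F.ExtP v (1, 0, δ)} = A.sol s.nm := by
    ext v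
    constructor
    · intro h
      exact h.1
    · intro h
      refine ⟨h, ?_, ?_, ?_⟩
      · intro _
        exact hcon v h
      · intro h0
        exact absurd h0 (by norm_num)
      · intro h0
        exact absurd h0 (by norm_num)
  rw [h2, hs.2.2] at h1
  have h3 : s.2.2 ≤ s.2.2 - 1 := by exact_mod_cast h1
  have h4 := hg.1
  omega

/-- a coherent family of solutions satisfying all committed literals -/
theorem exists_coherent {q : ℕ → State} {p : ℕ → NmN} (hok : ∀ r, A.Ok (p r))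
    (hg : ∀ r i, A.Good (q i).2.2 (p r)) (hpre : ∀ i k, i ≤ k → (q i).2.2 <+: (q k).2.2)
    (ht : ∀ r, (p r).1 ≤ (p (r + 1)).1 ∧
        ∀ v ∈ A.sol (p (r + 1)).nm, v.take (p r).1 ∈ A.sol (p r).nm) :
    ∃ u : ℕ → List A.M, (∀ r, u r ∈ A.sol (p r).nm) ∧ (∀ r, (u (r + 1)).take (p r).1 = u r) ∧
      ∀ r i, A.F.Ex1 A.F.g0 (u r) (q i).2.2 := by
  have hfin : ∀ r, (A.sol (p r).nm).Finite := by
    intro r
    refine Set.encard_ne_top_iff.1 ?_
    rw [(hok r).2.2]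
    exact ENat.natCast_ne_top _
  have hne : ∀ r, {v | v ∈ A.sol (p r).nm ∧ ∀ i, A.F.Ex1 A.F.g0 v (q i).2.2}.Nonempty := by
    intro r
    by_contra hcon
    rw [Set.not_nonempty_iff_eq_empty] at hcon
    have h1 : ∀ v ∈ A.sol (p r).nm, ∃ i, ¬ A.F.Ex1 A.F.g0 v (q i).2.2 := by
      intro v hv
      by_contra h2
      push Not at h2
      have h3 : v ∈ {v | v ∈ A.sol (p r).nm ∧ ∀ i, A.F.Ex1 A.F.g0 v (q i).2.2} := ⟨hv, h2⟩
      rw [hcon] at h3
      exact h3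
    choose! i hi using h1
    obtain ⟨m, hm⟩ := ((hfin r).image i).bddAbove
    obtain ⟨v, hv, hv1⟩ := Lim2_exists_one (hok r) (hg r m)
    exact hi v hv (Lim2_ex1_prefix (hpre _ _ (hm (Set.mem_image_of_mem i hv))) hv1)
  obtain ⟨u, hu1, hu2⟩ := koenig (fun r => (p r).1) (monotone_nat_of_le_succ fun r => (ht r).1)
    (fun r => {v | v ∈ A.sol (p r).nm ∧ ∀ i, A.F.Ex1 A.F.g0 v (q i).2.2})
    (fun r => (hfin r).subset fun v hv => hv.1) hne (fun r v hv => hv.1.1)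
    (fun r v hv => ⟨(ht r).2 v hv.1, fun i => Lim2_ex1_take (hv.2 i)⟩)
  exact ⟨u, fun r => (hu1 r).1, hu2, fun r i => (hu1 r).2 i⟩

end Setup

end Pool.Agent.MP_fd2900_lc
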