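import Pool.Agent.Lib.MP_fd2900_lc.Defs
import Pool.Agent.Lib.MP_fd2900_lc.StmtDefs

namespace Pool.Agent.MP_fd2900_lc

open FirstOrder FirstOrder.Language

/-- the frame of an `Lg ar`-structure with constants `j` -/
def frM (ar : ℕ → ℕ) (S : Type) [(Lg ar).Structure S] (j : ℕ → S) : Fr S where
  Rel i l := ∃ h : l.length = ar i,
    Structure.RelMap (L := Lg ar) (n := l.length) ⟨i, h.symm⟩ (fun k => l.get k)
  j := j

/-- uniformly definable predicates in the variables `α` and the constants `ℕ` -/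
def UD (ar : ℕ → ℕ) {α : Type}
    (P : ∀ (S : Type) [(Lg ar).Structure S], (ℕ → S) → (α → S) → Prop) : Prop :=
  ∃ φ : (Lg ar).Formula (ℕ ⊕ α), ∀ (S : Type) [(Lg ar).Structure S] (j : ℕ → S) (v : α → S),
    φ.Realize (Sum.elim j v) ↔ P S j v

end Pool.Agent.MP_fd2900_lc
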