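import Pool.Agent.Lib.MP_fd2900_lc.SigA

namespace Pool.Agent.MP_fd2900_lc

variable {α β : Type} [Primcodable α] [Primcodable β]

theorem Sig.ex_nat {n : ℕ} {P : α × ℕ → Prop} (h : Sig (n + 1) P) :
    Sig (n + 1) (fun a => ∃ m, P (a, m)) := by
  obtain ⟨Q, hQ, hPQ⟩ := h
  have hc : Computable (fun p : α × ℕ => ((p.1, p.2.unpair.1), p.2.unpair.2)) := by
    have h1 : Computable (fun p : α × ℕ => p.2.unpair) := Computable.unpair.comp Computable.snd
    exact (Computable.fst.pair (Computable.fst.comp h1)).pair (Computable.snd.comp h1)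
  refine ⟨fun p => Q ((p.1, p.2.unpair.1), p.2.unpair.2), hQ.comp hc, ?_⟩
  intro a
  constructor
  · rintro ⟨m, hm⟩
    obtain ⟨k, hk⟩ := (hPQ (a, m)).1 hm
    exact ⟨Nat.pair m k, by simpa using hk⟩
  · rintro ⟨m, hm⟩
    exact ⟨m.unpair.1, (hPQ _).2 ⟨m.unpair.2, hm⟩⟩

private theorem Sig.comp_decode [Inhabited β] :
    Computable (fun p : α × ℕ => (p.1, (Encodable.decode (α := β) p.2).getD default)) := by
  refine Computable.fst.pair ?_
  exact Computable.option_getD (Computable.decode.comp Computable.snd) (Computable.const default)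

theorem Sig.ex [Inhabited β] {n : ℕ} {P : α × β → Prop} (h : Sig (n + 1) P) :
    Sig (n + 1) (fun a => ∃ b, P (a, b)) := by
  refine (Sig.ex_nat (h.comp (Sig.comp_decode (α := α) (β := β)))).of_eq ?_
  intro a
  constructor
  · rintro ⟨m, hm⟩
    exact ⟨_, hm⟩
  · rintro ⟨b, hb⟩
    refine ⟨Encodable.encode b, ?_⟩
    simpa using hb

private theorem Sig.ex_not [Inhabited β] {n : ℕ} {R : α × β → Prop} (h : Sig n R) :
    Sig (n + 1) (fun a => ∃ b, ¬ R (a, b)) := by
  refine ⟨_, h.comp (Sig.comp_decode (α := α) (β := β)), ?_⟩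
  intro a
  constructor
  · rintro ⟨b, hb⟩
    refine ⟨Encodable.encode b, ?_⟩
    simpa using hb
  · rintro ⟨m, hm⟩
    exact ⟨_, hm⟩

private theorem Sig.ball_zero {P : α × ℕ → Prop} (h : Sig 0 P) {f : α → ℕ} (hf : Computable f) :
    Sig 0 (fun a => ∀ i < f a, P (a, i)) := by
  obtain ⟨hd, hc⟩ := h
  let g : α → Bool := fun a => Nat.rec (motive := fun _ => Bool) true
    (fun i acc => acc && decide (P (a, i))) (f a)
  have hg : Computable g := by
    refine Computable.nat_rec (f := f) (g := fun _ => true)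
      (h := fun a p => p.2 && decide (P (a, p.1))) hf (Computable.const true) ?_
    have h1 : Computable (fun q : α × (ℕ × Bool) => (q.1, q.2.1)) :=
      Computable.fst.pair (Computable.fst.comp Computable.snd)
    exact Primrec.and.to_comp.comp (Computable.snd.comp Computable.snd) (hc.comp h1)
  have key : ∀ a m, (Nat.rec (motive := fun _ => Bool) true
      (fun i acc => acc && decide (P (a, i))) m) = true ↔ ∀ i < m, P (a, i) := by
    intro a m
    induction m with
    | zero => simp
    | succ m ih =>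
      simp only [Bool.and_eq_true, ih, decide_eq_true_eq]
      constructor
      · rintro ⟨h1, h2⟩ i hi
        rcases Nat.lt_succ_iff_lt_or_eq.1 hi with hi | rfl
        · exact h1 i hi
        · exact h2
      · intro h1
        exact ⟨fun i hi => h1 i (by omega), h1 m (by omega)⟩
  have hdec : ∀ a, Decidable (∀ i < f a, P (a, i)) := fun a => decidable_of_iff _ (key a (f a))
  refine ⟨hdec, ?_⟩
  refine hg.of_eq ?_
  intro a
  have := key a (f a)
  by_cases h1 : ∀ i < f a, P (a, i)
  · rw [decide_eq_true h1]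
    exact this.2 h1
  · rw [decide_eq_false h1]
    rw [← Bool.not_eq_true]
    exact fun h2 => h1 (this.1 h2)

private theorem Sig.zero_not {P : α → Prop} (h : Sig 0 P) : Sig 0 (fun a => ¬ P a) := by
  have h' : ComputablePred P := h
  exact h'.not

private theorem Sig.bex_zero {P : α × ℕ → Prop} (h : Sig 0 P) {f : α → ℕ} (hf : Computable f) :
    Sig 0 (fun a => ∃ i < f a, P (a, i)) := by
  refine (Sig.zero_not (Sig.ball_zero (Sig.zero_not h) hf)).of_eq ?_
  intro a
  push Not
  rfl

private theorem Sig.lt_comp {f : α → ℕ} (hf : Computable f) :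
    ComputablePred (fun p : α × ℕ => p.2 < f p.1) := by
  have h1 : PrimrecPred (fun q : ℕ × ℕ => q.1 < q.2) := Primrec.nat_lt
  have h2 : ComputablePred (fun q : ℕ × ℕ => q.1 < q.2) := by
    obtain ⟨hd, hp⟩ := h1
    exact ⟨hd, hp.to_comp⟩
  obtain ⟨hd, hp⟩ := h2
  refine ⟨fun p => hd (p.2, f p.1), ?_⟩
  exact hp.comp (Computable.snd.pair (hf.comp Computable.fst))

private theorem Sig.bd (n : ℕ) : ∀ {α : Type} [Primcodable α] {P : α × ℕ → Prop} (_ : Sig n P)
    {f : α → ℕ} (_ : Computable f), Sig n (fun a => ∀ i < f a, P (a, i)) ∧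
      Sig n (fun a => ∃ i < f a, P (a, i)) := by
  induction n with
  | zero =>
    intro α _ P h f hf
    exact ⟨Sig.ball_zero h hf, Sig.bex_zero h hf⟩
  | succ n ih =>
    intro α _ P h f hf
    refine ⟨?_, ?_⟩
    · obtain ⟨Q, hQ, hPQ⟩ := h
      have h1 : Computable (fun p : (α × List ℕ) × ℕ => ((p.1.1, p.2), p.1.2.getD p.2 0)) := by
        have a1 : Computable (fun p : (α × List ℕ) × ℕ => p.1.1) :=
          Computable.fst.comp Computable.fst
        have a2 : Computable (fun p : (α × List ℕ) × ℕ => p.1.2) :=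
          Computable.snd.comp Computable.fst
        have a3 : Computable (fun p : (α × List ℕ) × ℕ => p.1.2.getD p.2 0) :=
          (Primrec.list_getD 0).to_comp.comp a2 Computable.snd
        exact (a1.pair Computable.snd).pair a3
      have h2 := (ih (hQ.comp h1) (f := fun p : α × List ℕ => f p.1)
        (hf.comp Computable.fst)).2
      refine (Sig.ex_not h2).of_eq ?_
      intro a
      constructor
      · rintro ⟨l, hl⟩ i hi
        rw [hPQ]
        refine ⟨l.getD i 0, ?_⟩
        intro hq
        exact hl ⟨i, hi, hq⟩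
      · intro hall
        have h3 : ∀ i, ∃ m, i < f a → ¬ Q ((a, i), m) := by
          intro i
          by_cases hi : i < f a
          · obtain ⟨m, hm⟩ := (hPQ (a, i)).1 (hall i hi)
            exact ⟨m, fun _ => hm⟩
          · exact ⟨0, fun h => absurd h hi⟩
        choose w hw using h3
        refine ⟨(List.range (f a)).map w, ?_⟩
        rintro ⟨i, hi, hq⟩
        apply hw i hi
        have h4 : ((List.range (f a)).map w).getD i 0 = w i := by
          rw [List.getD_eq_getElem _ _ (by simpa using hi)]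
          simp
        simp only [h4] at hq
        exact hq
    · exact Sig.ex_nat (Sig.and (Sig.of_comp (Sig.lt_comp hf)) h)

theorem Sig.ball_lt {n : ℕ} {P : α × ℕ → Prop} (h : Sig n P) {f : α → ℕ} (hf : Computable f) :
    Sig n (fun a => ∀ i < f a, P (a, i)) := (Sig.bd n h hf).1

theorem Sig.bex_lt {n : ℕ} {P : α × ℕ → Prop} (h : Sig n P) {f : α → ℕ} (hf : Computable f) :
    Sig n (fun a => ∃ i < f a, P (a, i)) := (Sig.bd n h hf).2

private theorem Sig.comp_getD [Inhabited β] {f : α → List β} (hf : Computable f) :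
    Computable (fun p : α × ℕ => (p.1, (f p.1).getD p.2 default)) :=
  Computable.fst.pair
    ((Primrec.list_getD (default : β)).to_comp.comp (hf.comp Computable.fst) Computable.snd)

theorem Sig.ball_mem [Inhabited β] {n : ℕ} {P : α × β → Prop} (h : Sig n P) {f : α → List β}
    (hf : Computable f) : Sig n (fun a => ∀ b ∈ f a, P (a, b)) := by
  refine (Sig.ball_lt (h.comp (Sig.comp_getD hf)) (f := fun a => (f a).length)
    (Computable.list_length.comp hf)).of_eq ?_
  intro a
  constructor
  · intro h1 b hb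
    obtain ⟨i, hi, rfl⟩ := List.mem_iff_getElem.1 hb
    have h2 := h1 i hi
    rw [List.getD_eq_getElem _ _ hi] at h2
    exact h2
  · intro h1 i hi
    rw [List.getD_eq_getElem _ _ hi]
    exact h1 _ (List.getElem_mem hi)

theorem Sig.bex_mem [Inhabited β] {n : ℕ} {P : α × β → Prop} (h : Sig n P) {f : α → List β}
    (hf : Computable f) : Sig n (fun a => ∃ b ∈ f a, P (a, b)) := by
  refine (Sig.bex_lt (h.comp (Sig.comp_getD hf)) (f := fun a => (f a).length)
    (Computable.list_length.comp hf)).of_eq ?_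
  intro a
  constructor
  · rintro ⟨i, hi, h2⟩
    rw [List.getD_eq_getElem _ _ hi] at h2
    exact ⟨_, List.getElem_mem hi, h2⟩
  · rintro ⟨b, hb, h1⟩
    obtain ⟨i, hi, rfl⟩ := List.mem_iff_getElem.1 hb
    refine ⟨i, hi, ?_⟩
    rw [List.getD_eq_getElem _ _ hi]
    exact h1

end Pool.Agent.MP_fd2900_lc
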