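import Mathlib

namespace Pool.Agent.MP_fd2900_lc

/-- `Sig n P` : `P` is a `Σ⁰_n` predicate (for `n = 0`: a computable one).
`Σ⁰_{n+1}` predicates are the projections of the negations of `Σ⁰_n` predicates. -/
def Sig : ℕ → ∀ {α : Type} [Primcodable α], (α → Prop) → Prop
  | 0, _, _, P => ComputablePred P
  | n + 1, α, _, P => ∃ Q : α × ℕ → Prop, Sig n Q ∧ ∀ a, P a ↔ ∃ m, ¬ Q (a, m)

section Basic

variable {α β : Type} [Primcodable α] [Primcodable β]

theorem Sig.of_eq {n : ℕ} {P Q : α → Prop} (h : Sig n P) (e : ∀ a, P a ↔ Q a) : Sig n Q := by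
  have : P = Q := funext fun a => propext (e a)
  exact this ▸ h

private theorem sigA_cpred {γ : Type} [Primcodable γ] {P : γ → Prop} :
    ComputablePred P ↔ ∃ f : γ → Bool, Computable f ∧ ∀ a, P a ↔ f a = true := by
  rw [ComputablePred.computable_iff]
  constructor
  · rintro ⟨f, hf, rfl⟩
    exact ⟨f, hf, fun a => Iff.rfl⟩
  · rintro ⟨f, hf, h⟩
    exact ⟨f, hf, funext fun a => propext (h a)⟩

private theorem sigA_comp : ∀ (n : ℕ) {γ δ : Type} [Primcodable γ] [Primcodable δ]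
    {P : δ → Prop}, Sig n P → ∀ {f : γ → δ}, Computable f → Sig n (fun a => P (f a))
  | 0, γ, δ, _, _, P, h, f, hf => by
    obtain ⟨g, hg, h⟩ := sigA_cpred.1 h
    exact sigA_cpred.2 ⟨fun a => g (f a), hg.comp hf, fun a => h (f a)⟩
  | n + 1, γ, δ, _, _, P, h, f, hf => by
    obtain ⟨Q, hQ, h⟩ := h
    refine ⟨fun x => Q (f x.1, x.2), ?_, fun a => h (f a)⟩
    exact sigA_comp n hQ ((hf.comp Computable.fst).pair Computable.snd)

theorem Sig.comp {n : ℕ} {P : β → Prop} (h : Sig n P) {f : α → β} (hf : Computable f) :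
    Sig n (fun a => P (f a)) := sigA_comp n h hf

private theorem sigA_of_comp : ∀ (n : ℕ) {γ : Type} [Primcodable γ] {P : γ → Prop},
    ComputablePred P → Sig n P
  | 0, _, _, _, h => h
  | n + 1, γ, _, P, h => by
    refine ⟨fun x => ¬ P x.1, sigA_of_comp n ?_, fun a => ⟨fun ha => ⟨0, fun h => h ha⟩, ?_⟩⟩
    · obtain ⟨g, hg, h⟩ := sigA_cpred.1 h
      refine sigA_cpred.2 ⟨fun x => !g x.1, Primrec.not.to_comp.comp (hg.comp Computable.fst), ?_⟩
      intro x
      change ¬ P x.1 ↔ (!g x.1) = true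
      rw [h x.1]
      cases hgx : g x.1 <;> simp
    · rintro ⟨_, hm⟩
      exact not_not.1 hm

/-- computable predicates are in every class -/
theorem Sig.of_comp {n : ℕ} {P : α → Prop} (h : ComputablePred P) : Sig n P := sigA_of_comp n h

private theorem sigA_up : ∀ (n : ℕ) {γ : Type} [Primcodable γ] {P : γ → Prop},
    Sig n P → Sig (n + 1) P
  | 0, _, _, _, h => Sig.of_comp h
  | n + 1, _, _, _, h => by
    obtain ⟨Q, hQ, h⟩ := h
    exact ⟨Q, sigA_up n hQ, h⟩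

theorem Sig.up {n : ℕ} {P : α → Prop} (h : Sig n P) : Sig (n + 1) P := sigA_up n h

theorem Sig.not_up {n : ℕ} {P : α → Prop} (h : Sig n P) : Sig (n + 1) (fun a => ¬ P a) :=
  ⟨fun x => P x.1, h.comp Computable.fst, fun _ => ⟨fun ha => ⟨0, ha⟩, fun ⟨_, hm⟩ => hm⟩⟩

private theorem sigA_and_or : ∀ (n : ℕ) {γ : Type} [Primcodable γ] {P Q : γ → Prop},
    Sig n P → Sig n Q → Sig n (fun a => P a ∧ Q a) ∧ Sig n (fun a => P a ∨ Q a)
  | 0, γ, _, P, Q, hP, hQ => by
    obtain ⟨f, hf, h1⟩ := sigA_cpred.1 hP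
    obtain ⟨g, hg, h2⟩ := sigA_cpred.1 hQ
    refine ⟨sigA_cpred.2 ⟨fun a => f a && g a, Primrec.and.to_comp.comp hf hg, ?_⟩,
      sigA_cpred.2 ⟨fun a => f a || g a, Primrec.or.to_comp.comp hf hg, ?_⟩⟩
    · intro a; rw [h1, h2, Bool.and_eq_true]
    · intro a; rw [h1, h2, Bool.or_eq_true]
  | n + 1, γ, _, P, Q, hP, hQ => by
    obtain ⟨P', hP', h1⟩ := hP
    obtain ⟨Q', hQ', h2⟩ := hQ
    have hu : Computable (fun x : γ × ℕ => (x.1, x.2.unpair.1)) :=
      Computable.fst.pair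
        (Computable.fst.comp ((Primrec.unpair.to_comp).comp Computable.snd))
    have hv : Computable (fun x : γ × ℕ => (x.1, x.2.unpair.2)) :=
      Computable.fst.pair
        (Computable.snd.comp ((Primrec.unpair.to_comp).comp Computable.snd))
    refine ⟨⟨fun x => P' (x.1, x.2.unpair.1) ∨ Q' (x.1, x.2.unpair.2),
      (sigA_and_or n (hP'.comp hu) (hQ'.comp hv)).2, ?_⟩,
      ⟨fun x => P' x ∧ Q' x, (sigA_and_or n hP' hQ').1, ?_⟩⟩
    · intro a
      change P a ∧ Q a ↔ _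
      rw [h1, h2]
      constructor
      · rintro ⟨⟨m, hm⟩, ⟨l, hl⟩⟩
        refine ⟨Nat.pair m l, ?_⟩
        simp only [Nat.unpair_pair]
        exact not_or.2 ⟨hm, hl⟩
      · rintro ⟨m, hm⟩
        rw [not_or] at hm
        exact ⟨⟨_, hm.1⟩, ⟨_, hm.2⟩⟩
    · intro a
      change P a ∨ Q a ↔ _
      rw [h1, h2]
      constructor
      · rintro (⟨m, hm⟩ | ⟨m, hm⟩)
        · exact ⟨m, fun h => hm h.1⟩
        · exact ⟨m, fun h => hm h.2⟩
      · rintro ⟨m, hm⟩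
        rcases not_and_or.1 hm with h | h
        · exact Or.inl ⟨m, h⟩
        · exact Or.inr ⟨m, h⟩

theorem Sig.and {n : ℕ} {P Q : α → Prop} (hP : Sig n P) (hQ : Sig n Q) :
    Sig n (fun a => P a ∧ Q a) := (sigA_and_or n hP hQ).1

theorem Sig.or {n : ℕ} {P Q : α → Prop} (hP : Sig n P) (hQ : Sig n Q) :
    Sig n (fun a => P a ∨ Q a) := (sigA_and_or n hP hQ).2

end Basic

end Pool.Agent.MP_fd2900_lc
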