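import Pool.Agent.Lib.MP_fd2900_lc.Defs

namespace Pool.Agent.MP_fd2900_lc

open Fr

variable {α β σ : Type} [Primcodable α] [Primcodable β] [Primcodable σ]

private theorem sigD_eq {γ : Type} [Primcodable γ] {f g : γ → σ} (hf : Computable f)
    (hg : Computable g) : ComputablePred (fun x => f x = g x) := by
  classical
  have : DecidableEq σ := Encodable.decidableEqOfEncodable σ
  refine ⟨fun x => inferInstance, ?_⟩
  have h : Primrec₂ (fun a b : σ => decide (a = b)) := by
    have := (Primrec.eq (α := σ))
    exact this.decide
  exact h.to_comp.comp hf hg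

private theorem sigD_path {E : σ → σ → Prop} [Inhabited σ] (s s' : σ) :
    Relation.ReflTransGen E s s' ↔
      ∃ l : List σ, l.getD 0 default = s ∧ l.getD (l.length - 1) default = s' ∧ l.length ≠ 0 ∧
        ∀ i < l.length - 1, E (l.getD i default) (l.getD (i + 1) default) := by
  constructor
  · intro h
    induction h with
    | refl => exact ⟨[s], by simp, by simp, by simp, by simp⟩
    | @tail b c hb hc ih =>
      obtain ⟨l, h0, h1, h2, h3⟩ := ih
      refine ⟨l ++ [c], ?_, ?_, ?_, ?_⟩
      · rw [List.getD_append _ _ _ _ (by omega)]; exact h0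
      · have e : (l ++ [c]).length - 1 = l.length := by simp
        rw [e, List.getD_append_right _ _ _ _ (le_refl _)]
        simp
      · simp
      · intro i hi
        have e : (l ++ [c]).length - 1 = l.length := by simp
        rw [e] at hi
        rw [List.getD_append _ _ _ _ hi]
        by_cases h : i + 1 < l.length
        · rw [List.getD_append _ _ _ _ h]
          exact h3 i (by omega)
        · have e2 : i + 1 = l.length := by omega
          rw [e2, List.getD_append_right _ _ _ _ (le_refl _)]
          have e3 : i = l.length - 1 := by omega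
          rw [e3, h1]
          simpa using hc
  · rintro ⟨l, h0, h1, h2, h3⟩
    have key : ∀ i, i ≤ l.length - 1 →
        Relation.ReflTransGen E (l.getD 0 default) (l.getD i default) := by
      intro i
      induction i with
      | zero => intro _; exact Relation.ReflTransGen.refl
      | succ i ih =>
        intro hi
        exact (ih (by omega)).tail (h3 i (by omega))
    have := key (l.length - 1) le_rfl
    rwa [h0, h1] at this

theorem Sig.rtg [Inhabited σ] {n : ℕ} {E : α × σ × σ → Prop} (h : Sig (n + 1) E) :
    Sig (n + 1) (fun q : α × σ × σ =>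
      Relation.ReflTransGen (fun s s' => E (q.1, s, s')) q.2.1 q.2.2) := by
  classical
  have hgd : Primrec₂ (fun (l : List σ) (i : ℕ) => l.getD i default) := Primrec.list_getD default
  let γ := (α × σ × σ) × List σ
  -- the four conditions
  have c1 : Sig (n + 1) (fun x : γ => x.2.getD 0 default = x.1.2.1) := by
    refine Sig.of_comp (sigD_eq ?_ ?_)
    · exact hgd.to_comp.comp Computable.snd (Computable.const 0)
    · exact Computable.fst.comp (Computable.snd.comp Computable.fst)
  have hlen : Computable (fun x : γ => x.2.length - 1) :=
    (Primrec.nat_sub.comp (Primrec.list_length.comp Primrec.snd) (Primrec.const 1)).to_comp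
  have c2 : Sig (n + 1) (fun x : γ => x.2.getD (x.2.length - 1) default = x.1.2.2) := by
    refine Sig.of_comp (sigD_eq ?_ ?_)
    · exact hgd.to_comp.comp Computable.snd hlen
    · exact Computable.snd.comp (Computable.snd.comp Computable.fst)
  have c3 : Sig (n + 1) (fun x : γ => x.2.length ≠ 0) := by
    refine Sig.of_comp ?_
    have h1 : ComputablePred (fun x : γ => x.2.length = 0) := by
      refine ⟨fun x => inferInstance, ?_⟩
      have h : Primrec₂ (fun a b : ℕ => decide (a = b)) := (Primrec.eq (α := ℕ)).decide
      exact h.to_comp.comp (Primrec.list_length.comp Primrec.snd).to_comp (Computable.const 0)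
    exact h1.not
  have c4 : Sig (n + 1) (fun x : γ => ∀ i < x.2.length - 1,
      E (x.1.1, x.2.getD i default, x.2.getD (i + 1) default)) := by
    have hc : Computable (fun y : γ × ℕ =>
        (y.1.1.1, y.1.2.getD y.2 default, y.1.2.getD (y.2 + 1) default)) := by
      refine Computable.pair ?_ (Computable.pair ?_ ?_)
      · exact Computable.fst.comp (Computable.fst.comp Computable.fst)
      · exact hgd.to_comp.comp (Computable.snd.comp Computable.fst) Computable.snd
      · exact hgd.to_comp.comp (Computable.snd.comp Computable.fst)
          (Computable.succ.comp Computable.snd)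
    exact (Sig.ball_lt (P := fun y : γ × ℕ =>
      E (y.1.1.1, y.1.2.getD y.2 default, y.1.2.getD (y.2 + 1) default)) (h.comp hc) hlen)
  have hall := (c1.and (c2.and (c3.and c4)))
  refine (Sig.ex (β := List σ) (P := fun x : γ => x.2.getD 0 default = x.1.2.1 ∧
      x.2.getD (x.2.length - 1) default = x.1.2.2 ∧ x.2.length ≠ 0 ∧
        ∀ i < x.2.length - 1, E (x.1.1, x.2.getD i default, x.2.getD (i + 1) default))
      hall).of_eq ?_
  intro q
  exact (sigD_path (E := fun s s' => E (q.1, s, s')) q.2.1 q.2.2).symm

end Pool.Agent.MP_fd2900_lc
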