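import Pool.Agent.Lib.MP_fd2900_lc.Defs

namespace Pool.Agent.MP_fd2900_lc

open Fr

variable {α β σ : Type} [Primcodable α] [Primcodable β] [Primcodable σ]

/-- decoding of codes of pairs -/
private def sigE_f [Inhabited σ] (n : ℕ) : σ × ℕ :=
  ((Encodable.decode (α := σ) n.unpair.1).getD default, n.unpair.2)

private theorem sigE_f_comp [Inhabited σ] : Computable (sigE_f : ℕ → σ × ℕ) := by
  have h1 : Primrec (fun n : ℕ => n.unpair.1) := Primrec.fst.comp Primrec.unpair
  have h2 : Primrec (fun n : ℕ => n.unpair.2) := Primrec.snd.comp Primrec.unpair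
  have h3 : Primrec (fun n : ℕ => (Encodable.decode (α := σ) n.unpair.1).getD default) :=
    Primrec.option_getD_default.comp (Primrec.decode.comp h1)
  exact (h3.pair h2).to_comp

private theorem sigE_f_surj [Inhabited σ] (s : σ) (w : ℕ) : ∃ n, sigE_f n = (s, w) :=
  ⟨Nat.pair (Encodable.encode s) w, by simp [sigE_f]⟩

private theorem sigE_eq {f g : α → β} (hf : Computable f) (hg : Computable g) :
    ComputablePred (fun a => f a = g a) := by
  classical
  have h := (Primrec.eq (α := β)).decide.to_comp.comp hf hg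
  refine ⟨inferInstance, ?_⟩
  refine h.of_eq (fun a => ?_)
  simp

/-- the states along a list of codes -/
private def sigE_st [Inhabited σ] (s0 : σ) (p : List ℕ × ℕ) : σ :=
  Nat.casesOn p.2 s0 (fun i => (sigE_f (p.1.getD i 0)).1)

private theorem sigE_st_comp [Inhabited σ] (s0 : σ) : Computable (sigE_st s0) := by
  unfold sigE_st
  refine Computable.nat_casesOn (f := fun p : List ℕ × ℕ => p.2) Computable.snd
    (Computable.const s0) ?_
  have h1 : Computable (fun p : (List ℕ × ℕ) × ℕ => (p.1.1).getD p.2 0) :=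
    ((Primrec.list_getD (0 : ℕ)).comp (Primrec.fst.comp Primrec.fst) Primrec.snd).to_comp
  exact (Computable.fst.comp (sigE_f_comp.comp h1)).to₂

/-- a total `Σ⁰₃` relation has a `Σ⁰₃` choice sequence -/
theorem exists_seq [Inhabited σ] {E : σ × σ → Prop} (hE : Sig 3 E) (Inv : σ → Prop) (s0 : σ)
    (h0 : Inv s0) (hstep : ∀ s, Inv s → ∃ s', E (s, s'))
    (hinv : ∀ s s', Inv s → E (s, s') → Inv s') :
    ∃ q : ℕ → σ, q 0 = s0 ∧ (∀ i, E (q i, q (i + 1))) ∧ (∀ i, Inv (q i)) ∧
      Sig 3 (fun p : ℕ × σ => q p.1 = p.2) := by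
  classical
  obtain ⟨Q, hQ, hEQ⟩ := hE
  -- the condition on a code
  let R : σ × ℕ → Prop := fun p => Q ((p.1, (sigE_f p.2 : σ × ℕ).1), (sigE_f p.2 : σ × ℕ).2)
  let G : σ × ℕ → Prop := fun p => ¬ R p ∧ ∀ i < p.2, R (p.1, i)
  have hR : Sig 2 R := by
    have h1 : Computable (fun p : σ × ℕ => (sigE_f p.2 : σ × ℕ)) := sigE_f_comp.comp Computable.snd
    exact hQ.comp ((Computable.fst.pair (Computable.fst.comp h1)).pair (Computable.snd.comp h1))
  have hG : Sig 3 G := by
    refine Sig.and hR.not_up (Sig.up ?_)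
    have h2 : Sig 2 (fun a : (σ × ℕ) × ℕ => R (a.1.1, a.2)) :=
      hR.comp ((Computable.fst.comp Computable.fst).pair Computable.snd)
    exact h2.ball_lt (f := fun p : σ × ℕ => p.2) Computable.snd
  have hex : ∀ s, Inv s → ∃ n, ¬ R (s, n) := by
    intro s hs
    obtain ⟨s', hs'⟩ := hstep s hs
    obtain ⟨w, hw⟩ := (hEQ _).1 hs'
    obtain ⟨n, hn⟩ := sigE_f_surj s' w
    refine ⟨n, ?_⟩
    change ¬ Q ((s, (sigE_f n : σ × ℕ).1), (sigE_f n : σ × ℕ).2)
    rw [hn]
    exact hw
  -- the code chosen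
  let c : σ → ℕ := fun s => if h : ∃ n, ¬ R (s, n) then Nat.find h else 0
  have hc : ∀ s, Inv s → G (s, c s) := by
    intro s hs
    have h := hex s hs
    have hcs : c s = Nat.find h := dif_pos h
    rw [hcs]
    exact ⟨Nat.find_spec h, fun i hi => not_not.1 (Nat.find_min h hi)⟩
  have huniq : ∀ s m m', G (s, m) → G (s, m') → m = m' := by
    intro s m m' h h'
    rcases lt_trichotomy m m' with hlt | heq | hlt
    · exact absurd (h'.2 m hlt) h.1
    · exact heq
    · exact absurd (h.2 m' hlt) h'.1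
  let nx : σ → σ := fun s => (sigE_f (c s) : σ × ℕ).1
  have hnx : ∀ s, Inv s → E (s, nx s) := by
    intro s hs
    rw [hEQ]
    exact ⟨(sigE_f (c s) : σ × ℕ).2, (hc s hs).1⟩
  let q : ℕ → σ := fun i => Nat.rec s0 (fun _ s => nx s) i
  have hq0 : q 0 = s0 := rfl
  have hqs : ∀ i, q (i + 1) = nx (q i) := fun i => rfl
  have hInv : ∀ i, Inv (q i) := by
    intro i
    induction i with
    | zero => exact h0
    | succ i ih => rw [hqs]; exact hinv _ _ ih (hnx _ ih)
  refine ⟨q, hq0, fun i => by rw [hqs]; exact hnx _ (hInv i), hInv, ?_⟩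
  -- the graph
  have hP : Sig 3 (fun a : (ℕ × σ) × List ℕ =>
      (∀ i < a.1.1, G (sigE_st s0 (a.2, i), a.2.getD i 0)) ∧ sigE_st s0 (a.2, a.1.1) = a.1.2) := by
    refine Sig.and ?_ (Sig.of_comp (sigE_eq ?_ ?_))
    · have h3 : Sig 3 (fun b : ((ℕ × σ) × List ℕ) × ℕ =>
          G (sigE_st s0 (b.1.2, b.2), b.1.2.getD b.2 0)) := by
        refine hG.comp (Computable.pair ?_ ?_)
        · exact (sigE_st_comp s0).comp ((Computable.snd.comp Computable.fst).pair Computable.snd)
        · exact ((Primrec.list_getD (0 : ℕ)).comp (Primrec.snd.comp Primrec.fst)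
            Primrec.snd).to_comp
      exact h3.ball_lt (f := fun a : (ℕ × σ) × List ℕ => a.1.1)
        (Computable.fst.comp Computable.fst)
    · exact (sigE_st_comp s0).comp (Computable.snd.pair (Computable.fst.comp Computable.fst))
    · exact Computable.snd.comp Computable.fst
  refine hP.ex.of_eq ?_
  rintro ⟨k, s⟩
  have hst : ∀ (l : List ℕ) (k : ℕ), (∀ i < k, G (sigE_st s0 (l, i), l.getD i 0)) →
      ∀ i ≤ k, sigE_st s0 (l, i) = q i := by
    intro l k hl i
    induction i with
    | zero => intro _; rfl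
    | succ i ih =>
      intro hi
      have h1 := ih (by omega)
      have h2 := hl i (by omega)
      rw [h1] at h2
      have h3 := huniq _ _ _ h2 (hc _ (hInv i))
      change (sigE_f (l.getD i 0) : σ × ℕ).1 = q (i + 1)
      rw [h3, hqs]
  constructor
  · rintro ⟨l, hl, hs⟩
    change q k = s
    exact (hst l k hl k le_rfl).symm.trans hs
  · intro h
    change q k = s at h
    let l : List ℕ := (List.range k).map (fun i => c (q i))
    have hl : ∀ i < k, l.getD i 0 = c (q i) := by
      intro i hi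
      simp [l, hi]
    have hsl : ∀ i ≤ k, sigE_st s0 (l, i) = q i := by
      intro i
      cases i with
      | zero => intro _; rfl
      | succ i =>
        intro hi
        change (sigE_f (l.getD i 0) : σ × ℕ).1 = q (i + 1)
        rw [hl i (by omega), hqs]
    refine ⟨l, ?_, ?_⟩
    · intro i hi
      change G (sigE_st s0 (l, i), l.getD i 0)
      rw [hsl i hi.le, hl i hi]
      exact hc _ (hInv i)
    · change sigE_st s0 (l, k) = s
      rw [hsl k le_rfl, h]

end Pool.Agent.MP_fd2900_lc
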