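import Pool.Agent.Lib.MP_fd2900_lc.Defs

namespace Pool.Agent.MP_fd2900_lc

open Fr

variable {α β σ : Type} [Primcodable α] [Primcodable β] [Primcodable σ]

private theorem sigC_eq {γ δ : Type} [Primcodable γ] [Primcodable δ] {f g : γ → δ}
    (hf : Computable f) (hg : Computable g) : ComputablePred (fun a => f a = g a) := by
  classical
  have h1 : Computable₂ (fun a b : ℕ => decide (a = b)) :=
    (Primrec.eq (α := ℕ)).decide.to_comp
  have h2 : Computable (fun a : γ => decide (Encodable.encode (f a) = Encodable.encode (g a))) :=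
    h1.comp (Computable.encode.comp hf) (Computable.encode.comp hg)
  refine ⟨fun a => Classical.dec _, h2.of_eq fun a => ?_⟩
  simp [Encodable.encode_inj]

private theorem sigC_lt {γ : Type} [Primcodable γ] {f g : γ → ℕ}
    (hf : Computable f) (hg : Computable g) : ComputablePred (fun a => f a < g a) := by
  classical
  have h1 : Computable₂ (fun a b : ℕ => decide (a < b)) :=
    Primrec.nat_lt.decide.to_comp
  exact ⟨fun a => inferInstance, h1.comp hf hg⟩

private theorem sigC_not {γ : Type} [Primcodable γ] {p : γ → Prop}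
    (h : ComputablePred p) : ComputablePred (fun a => ¬ p a) := by
  exact h.not

private theorem sigC_nodup {γ : Type} [Primcodable γ] (n : ℕ) {f : γ → List β}
    (hf : Computable f) : Sig n (fun a => (f a).Nodup) := by
  have hlen : Computable (fun a => (f a).length) := Computable.list_length.comp hf
  have hlen2 : Computable (fun q : γ × ℕ => (f q.1).length) := hlen.comp Computable.fst
  have e1 : Computable (fun q : (γ × ℕ) × ℕ => (f q.1.1)[q.1.2]?) :=
    Computable.list_getElem?.comp (hf.comp (Computable.fst.comp Computable.fst))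
      (Computable.snd.comp Computable.fst)
  have e2 : Computable (fun q : (γ × ℕ) × ℕ => (f q.1.1)[q.2]?) :=
    Computable.list_getElem?.comp (hf.comp (Computable.fst.comp Computable.fst)) Computable.snd
  have h1 : Sig n (fun q : (γ × ℕ) × ℕ => ¬ q.1.2 < q.2 ∨ ¬ (f q.1.1)[q.1.2]? = (f q.1.1)[q.2]?) :=
    Sig.or (Sig.of_comp (sigC_not (sigC_lt (Computable.snd.comp Computable.fst) Computable.snd)))
      (Sig.of_comp (sigC_not (sigC_eq e1 e2)))
  have h2 := Sig.ball_lt h1 hlen2
  have h3 := Sig.ball_lt h2 hlen
  refine h3.of_eq fun a => ?_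
  rw [List.nodup_iff_getElem?_ne_getElem?]
  constructor
  · intro h i j hij hj
    rcases h i (hij.trans hj) j hj with h | h
    · exact absurd hij h
    · exact h
  · intro h i _ j hj
    by_cases hij : i < j
    · exact Or.inr (h i j hij hj)
    · exact Or.inl hij

theorem Sig.atL [Inhabited β] {n : ℕ} {P : α × β → Prop} (h : Sig (n + 1) P) :
    Sig (n + 1) (fun a : α × ℕ => AtL a.2 (fun b => P (a.1, b))) := by
  have hb : Sig (n + 1) (fun q : (α × ℕ) × List β => ∀ b ∈ q.2, P (q.1.1, b)) := by
    have h1 : Sig (n + 1) (fun r : ((α × ℕ) × List β) × β => P (r.1.1.1, r.2)) :=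
      h.comp (f := fun r : ((α × ℕ) × List β) × β => (r.1.1.1, r.2))
        (Computable.pair (Computable.fst.comp (Computable.fst.comp Computable.fst))
          Computable.snd)
    exact Sig.ball_mem h1 Computable.snd
  have hn : Sig (n + 1) (fun q : (α × ℕ) × List β => q.2.Nodup) :=
    sigC_nodup (n + 1) Computable.snd
  have hl : Sig (n + 1) (fun q : (α × ℕ) × List β => q.2.length = q.1.2) :=
    Sig.of_comp (sigC_eq (Computable.list_length.comp Computable.snd)
      (Computable.snd.comp Computable.fst))
  exact Sig.ex (P := fun q : (α × ℕ) × List β =>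
    q.2.length = q.1.2 ∧ q.2.Nodup ∧ ∀ b ∈ q.2, P (q.1.1, b)) (Sig.and hl (Sig.and hn hb))

end Pool.Agent.MP_fd2900_lc
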