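import Pool.Agent.Lib.MP_fd2900_lc.UDb

/-! the counting predicates are uniformly definable -/

namespace Pool.Agent.MP_fd2900_lc

open FirstOrder FirstOrder.Language Fr

variable {ar : ℕ → ℕ}

private theorem UDc_take {S : Type} {n : ℕ} (v : Fin n → S) (m : ℕ) :
    (List.ofFn v).take m =
      List.ofFn (fun k : Fin (min m n) => v ⟨k.1, lt_of_lt_of_le k.2 (min_le_right _ _)⟩) := by
  apply List.ext_getElem
  · simp
  · intro i h1 h2
    simp

/-- the predicate `P` of a list of entries of `v` -/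
private theorem UDc_sub {d n m : ℕ}
    {P : ∀ (S : Type) [(Lg ar).Structure S], (ℕ → S) → (ℕ → S) → List S → Prop}
    (h : UDl ar d m P) (f : Fin m → Fin n)
    (L : ∀ S : Type, List S → List S)
    (hL : ∀ (S : Type) (v : Fin n → S), L S (List.ofFn v) = List.ofFn (fun k => v (f k))) :
    UDl ar d n (fun (S : Type) [(Lg ar).Structure S] (j : ℕ → S) (g : ℕ → S) (v : List S) =>
      P S j g (L S v)) := by
  refine UD.of_iff (UDl.sub h (fun k => Sum.inr (Sum.inr (f k)))) fun S _ j w => ?_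
  beta_reduce
  rw [hL]
  rfl

private theorem UDc_take10 (d n m : ℕ) (δ : List Lit) :
    UDl ar d n (fun (S : Type) [(Lg ar).Structure S] (j : ℕ → S) (_ : ℕ → S) (v : List S) =>
      (frM ar S j).Ex1 (frM ar S j).g0 (v.take m) δ) :=
  UDc_sub (UDl.ex10 d (min m n) δ)
    (fun k => ⟨k.1, lt_of_lt_of_le k.2 (min_le_right _ _)⟩) (fun _ v => v.take m)
    (fun _ v => UDc_take v m)

private theorem UDc_atL (d n k : ℕ) (δ : List Lit) :
    UDl ar d n (fun (S : Type) [(Lg ar).Structure S] (j : ℕ → S) (_ : ℕ → S) (v : List S) =>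
      AtL k (fun y => (frM ar S j).Ex1 (frM ar S j).g0 (v ++ [y]) δ)) :=
  UDl.atL1 k (UDl.ex10 d (n + 1) δ)

private theorem UDc_exa (d n k : ℕ) (δ : List Lit) :
    UDl ar d n (fun (S : Type) [(Lg ar).Structure S] (j : ℕ → S) (_ : ℕ → S) (v : List S) =>
      Exa k (fun y => (frM ar S j).Ex1 (frM ar S j).g0 (v ++ [y]) δ)) :=
  UD.and (UDc_atL d n k δ) (UD.not (UDc_atL d n (k + 1) δ))

private theorem UDc_exaTake (d n m k : ℕ) (δ : List Lit) :
    UDl ar d n (fun (S : Type) [(Lg ar).Structure S] (j : ℕ → S) (_ : ℕ → S) (v : List S) =>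
      Exa k (fun y => (frM ar S j).Ex1 (frM ar S j).g0 (v.take m ++ [y]) δ)) :=
  UDc_sub (UDc_exa d (min m n) k δ)
    (fun k => ⟨k.1, lt_of_lt_of_le k.2 (min_le_right _ _)⟩) (fun _ v => v.take m)
    (fun _ v => UDc_take v m)

/-- the entry `i` of `v` satisfies `ψ` -/
private theorem UDc_sat2 (d n : ℕ) (ψ : Psi) (i : Fin n) :
    UD ar (α := Fin d ⊕ Fin n) (fun (S : Type) [(Lg ar).Structure S] (j : ℕ → S)
      (w : Fin d ⊕ Fin n → S) =>
      (frM ar S j).Sat2 (fun i => (List.ofFn fun k => w (Sum.inl k)).getD i (j 0)) ψ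
        (w (Sum.inr i))) := by
  have h1 : UDl ar d (1 + ψ.1) (fun (S : Type) [(Lg ar).Structure S] (j : ℕ → S) (g : ℕ → S)
      (v : List S) => ∀ l ∈ ψ.2, ¬ (frM ar S j).Ex1 g v l) :=
    UD.ball_mem ψ.2 (fun l _ => UD.not (UDl.ex1 d (1 + ψ.1) l))
  refine UD.of_iff (UDl.sub (n := n) (UDl.exList ψ.1 h1) (fun _ => Sum.inr (Sum.inr i)))
    fun S _ j w => ?_
  have e : (List.ofFn fun _ : Fin 1 => Sum.elim j w (Sum.inr (Sum.inr i) : ℕ ⊕ (Fin d ⊕ Fin n))) =
      [w (Sum.inr i)] := by simp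
  rw [e]
  rfl

private theorem UDc_kind0 (d n m a : ℕ) :
    UDl ar d n (fun (S : Type) [(Lg ar).Structure S] (j : ℕ → S) (_ : ℕ → S) (v : List S) =>
      v.getD m ((frM ar S j).j 0) = (frM ar S j).j a) := by
  by_cases hm : m < n
  · refine UD.of_iff (UD.eq (Sum.inr (Sum.inr ⟨m, hm⟩)) (Sum.inl a)) fun S _ j w => ?_
    have e : (List.ofFn fun k => w (Sum.inr k)).getD m ((frM ar S j).j 0) =
        w (Sum.inr ⟨m, hm⟩) := by
      rw [List.getD_eq_getElem _ _ (by simpa using hm)]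
      simp
    beta_reduce
    rw [e]
    rfl
  · refine UD.of_iff (UD.eq (Sum.inl 0) (Sum.inl a)) fun S _ j w => ?_
    have e : (List.ofFn fun k => w (Sum.inr k)).getD m ((frM ar S j).j 0) = j 0 := by
      rw [List.getD_eq_default _ _ (by simpa using hm)]
      rfl
    beta_reduce
    rw [e]
    rfl

/-- the indices of the block `m, …, m + a - 1` -/
private def UDc_ix (n m a : ℕ) : List (Fin n) := ((List.finRange n).drop m).take a

private theorem UDc_block {S : Type} {n : ℕ} (v : Fin n → S) (m a : ℕ) :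
    ((List.ofFn v).drop m).take a = (UDc_ix n m a).map v := by
  rw [UDc_ix, List.map_take, List.map_drop, List.ofFn_eq_map]

private theorem UDc_nodup (d n m a : ℕ) :
    UDl ar d n (fun (S : Type) [(Lg ar).Structure S] (_ : ℕ → S) (_ : ℕ → S) (v : List S) =>
      ((v.drop m).take a).Nodup) := by
  have hnd : (UDc_ix n m a).Nodup :=
    ((List.nodup_finRange n).sublist (List.drop_sublist m _)).sublist (List.take_sublist a _)
  have h1 : UD ar (α := Fin d ⊕ Fin n) (fun (S : Type) [(Lg ar).Structure S] (j : ℕ → S)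
      (w : Fin d ⊕ Fin n → S) => ∀ i ∈ UDc_ix n m a, ∀ i' ∈ UDc_ix n m a,
        (¬ (w (Sum.inr i) = w (Sum.inr i'))) ∨ i = i') :=
    UD.ball_mem _ fun i _ => UD.ball_mem _ fun i' _ =>
      UD.or (UD.not (UD.eq (Sum.inr (Sum.inr i)) (Sum.inr (Sum.inr i')))) (UD.const _)
  refine UD.of_iff h1 fun S _ j w => ?_
  beta_reduce
  rw [UDc_block, List.nodup_map_iff_inj_on hnd]
  constructor
  · intro h x hx y hy hxy
    rcases h x hx y hy with h | h
    · exact absurd hxy h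
    · exact h
  · intro h x hx y hy
    by_cases hxy : w (Sum.inr x) = w (Sum.inr y)
    · exact Or.inr (h x hx y hy hxy)
    · exact Or.inl hxy

private theorem UDc_all2 (d n m a : ℕ) (ψ : Psi) :
    UDl ar d n (fun (S : Type) [(Lg ar).Structure S] (j : ℕ → S) (g : ℕ → S) (v : List S) =>
      ∀ y ∈ (v.drop m).take a, (frM ar S j).Sat2 g ψ y) := by
  refine UD.of_iff (UD.ball_mem (UDc_ix n m a) fun i _ => UDc_sat2 d n ψ i) fun S _ j w => ?_
  beta_reduce
  rw [UDc_block]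
  simp only [List.mem_map, forall_exists_index, and_imp, forall_apply_eq_imp_iff₂]

private theorem UDc_imp {α : Type} {P : ∀ (S : Type) [(Lg ar).Structure S], (ℕ → S) → (α → S) → Prop}
    (c : Prop) (h : UD ar P) : UD ar (fun S _ j v => c → P S j v) := by
  refine UD.of_iff (UD.or (UD.const (¬ c)) h) fun S _ j w => ?_
  tauto

theorem UDl.solE (d n : ℕ) (e : Ent) :
    UDl ar d n (fun (S : Type) [(Lg ar).Structure S] (j : ℕ → S) (g : ℕ → S) (v : List S) =>
      (frM ar S j).SolE g v e) :=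
  UD.and (UDc_imp _ (UD.and (UDc_kind0 d n e.2.1 e.2.2.1) (UDc_take10 d n (e.2.1 + 1) e.2.2.2.1)))
    (UD.and (UDc_imp _ (UD.and (UDc_exaTake d n e.2.1 e.2.2.1 e.2.2.2.1)
        (UDc_take10 d n (e.2.1 + 1) e.2.2.2.1)))
      (UDc_imp _ (UD.and (UDc_nodup d n e.2.1 e.2.2.1) (UDc_all2 d n e.2.1 e.2.2.1 e.2.2.2.2))))

private theorem UDc_const10 (d n a : ℕ) (δ : List Lit) :
    UDl ar d n (fun (S : Type) [(Lg ar).Structure S] (j : ℕ → S) (_ : ℕ → S) (v : List S) =>
      (frM ar S j).Ex1 (frM ar S j).g0 (v ++ [(frM ar S j).j a]) δ) := by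
  refine UD.of_iff (UDl.sub (UDl.ex10 d (n + 1) δ)
    (fun k => if h : k.1 < n then Sum.inr (Sum.inr ⟨k.1, h⟩) else Sum.inl a)) fun S _ j w => ?_
  have e : (List.ofFn fun k : Fin (n + 1) => Sum.elim j w
      (if h : k.1 < n then Sum.inr (Sum.inr ⟨k.1, h⟩) else Sum.inl a : ℕ ⊕ (Fin d ⊕ Fin n))) =
      (List.ofFn fun k => w (Sum.inr k)) ++ [(frM ar S j).j a] := by
    rw [List.ofFn_succ_last]
    congr 1
    · congr 1
      funext k
      simp
    · simp [frM]
  rw [e]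

theorem UDl.extP (d n : ℕ) (x : Ext) :
    UDl ar d n (fun (S : Type) [(Lg ar).Structure S] (j : ℕ → S) (_ : ℕ → S) (v : List S) =>
      (frM ar S j).ExtP v x) :=
  UD.and (UDc_imp _ (UD.not (UDl.ex10 d n x.2.2)))
    (UD.and (UDc_imp _ (UD.not (UDc_const10 d n x.2.1 x.2.2)))
      (UDc_imp _ (UD.not (UDc_exa d n x.2.1 x.2.2))))

theorem UD_Ge (d : ℕ) (p : Nm) (x : Ext) (k : ℕ) :
    UD ar (α := Fin d) (fun (S : Type) [(Lg ar).Structure S] (j : ℕ → S) (w : Fin d → S) =>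
      (frM ar S j).Ge (fun i => (List.ofFn w).getD i (j 0)) p x k) := by
  have h1 : UDl ar d p.1 (fun (S : Type) [(Lg ar).Structure S] (j : ℕ → S) (g : ℕ → S)
      (v : List S) => (∀ e ∈ p.2, (frM ar S j).SolE g v e) ∧ (frM ar S j).ExtP v x) :=
    UD.and (UD.ball_mem p.2 fun e _ => UDl.solE d p.1 e) (UDl.extP d p.1 x)
  have h2 := UDl.atList k p.1 h1
  refine UD.of_iff (UD.subst (β := Fin d) h2 (Sum.elim Sum.inr Fin.elim0)) fun S _ j w => ?_
  unfold Fr.Ge
  refine iff_of_eq (congrArg (AtL k) ?_)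
  funext v
  unfold Fr.Sol
  simp only [Sum.elim_inl, Sum.elim_inr, and_assoc]

end Pool.Agent.MP_fd2900_lc
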