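import Pool.Agent.Lib.MP_fd2900_lc.SigLe1
import Pool.Agent.Lib.MP_fd2900_lc.UDc
import Pool.Agent.Lib.MP_fd2900_lc.F1
import Pool.Agent.Lib.MP_fd2900_lc.CompB
import Pool.Agent.Lib.MP_fd2900_lc.CompTr

namespace Pool.Agent.MP_fd2900_lc

open FirstOrder FirstOrder.Language Fr

variable {ar : ℕ → ℕ}

private theorem SigLe_gen_comp : ComputablePred (fun q : ℕ × Tm => q.2.1 = 1 → q.2.2 < q.1) := by
  have h1 : Computable (fun q : ℕ × Tm => decide (q.2.1 = 1 → q.2.2 < q.1)) := by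
    have h2 : Primrec (fun q : ℕ × Tm => decide (q.2.1 = 1)) := by
      have : PrimrecPred (fun q : ℕ × Tm => q.2.1 = 1) :=
        Primrec.eq.comp (Primrec.fst.comp Primrec.snd) (Primrec.const 1)
      exact Primrec.of_eq this.decide (fun q => rfl)
    have h3 : Primrec (fun q : ℕ × Tm => decide (q.2.2 < q.1)) := by
      have : PrimrecPred (fun q : ℕ × Tm => q.2.2 < q.1) :=
        Primrec.nat_lt.comp (Primrec.snd.comp Primrec.snd) Primrec.fst
      exact Primrec.of_eq this.decide (fun q => rfl)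
    have h4 : Primrec (fun q : ℕ × Tm => (!decide (q.2.1 = 1)) || decide (q.2.2 < q.1)) :=
      Primrec.or.comp (Primrec.not.comp h2) h3
    refine (h4.to_comp).of_eq fun q => ?_
    by_cases hq : q.2.1 = 1 <;> simp [hq]
  exact ⟨fun q => inferInstance, h1⟩

private theorem SigLe_UG (n : ℕ) : Sig n (fun q : Nm × ℕ => UG q.2 q.1) := by
  have h0 : Sig n (fun q : ℕ × Tm => q.2.1 = 1 → q.2.2 < q.1) := Sig.of_comp SigLe_gen_comp
  have h1 : Sig n (fun q : ℕ × Lit => ∀ t ∈ q.2.2.2, t.1 = 1 → t.2 < q.1) := by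
    refine Sig.ball_mem (β := Tm) (P := fun r : (ℕ × Lit) × Tm => r.2.1 = 1 → r.2.2 < r.1.1) ?_
      (f := fun q : ℕ × Lit => q.2.2.2) ?_
    · exact h0.comp (f := fun r : (ℕ × Lit) × Tm => (r.1.1, r.2))
        ((Computable.fst.comp Computable.fst).pair Computable.snd)
    · exact Computable.snd.comp (Computable.snd.comp Computable.snd)
  have h2 : Sig n (fun q : ℕ × List Lit => ∀ a ∈ q.2, ∀ t ∈ a.2.2, t.1 = 1 → t.2 < q.1) := by
    refine Sig.ball_mem (β := Lit)
      (P := fun r : (ℕ × List Lit) × Lit => ∀ t ∈ r.2.2.2, t.1 = 1 → t.2 < r.1.1) ?_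
      (f := fun q : ℕ × List Lit => q.2) Computable.snd
    exact h1.comp (f := fun r : (ℕ × List Lit) × Lit => (r.1.1, r.2))
      ((Computable.fst.comp Computable.fst).pair Computable.snd)
  have h3 : Sig n (fun q : ℕ × Psi => UGψ q.1 q.2) := by
    refine Sig.ball_mem (β := List Lit)
      (P := fun r : (ℕ × Psi) × List Lit => ∀ a ∈ r.2, ∀ t ∈ a.2.2, t.1 = 1 → t.2 < r.1.1) ?_
      (f := fun q : ℕ × Psi => q.2.2) (Computable.snd.comp Computable.snd)
    exact h2.comp (f := fun r : (ℕ × Psi) × List Lit => (r.1.1, r.2))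
      ((Computable.fst.comp Computable.fst).pair Computable.snd)
  refine Sig.ball_mem (β := Ent)
    (P := fun r : (Nm × ℕ) × Ent => UGψ r.1.2 r.2.2.2.2.2) ?_
    (f := fun q : Nm × ℕ => q.1.2) (Computable.snd.comp Computable.fst)
  exact h3.comp (f := fun r : (Nm × ℕ) × Ent => (r.1.2, r.2.2.2.2.2))
    ((Computable.snd.comp Computable.fst).pair
      (Computable.snd.comp (Computable.snd.comp (Computable.snd.comp
        (Computable.snd.comp Computable.snd)))))

theorem sigLe_main (har : Computable ar) {D : ℕ × List ℕ → Prop} (hD : ComputablePred D)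
    {M : Type} [(Lg ar).Structure M] (f : Univ D ↪ₑ[Lg ar] M)
    (hmin : ∀ (n : ℕ) (φ : (Lg ar).Formula (Fin n ⊕ Unit)) (c : Fin n → M),
      {y : M | φ.Realize (Sum.elim c fun _ => y)}.Finite ∨
        {y : M | ¬ φ.Realize (Sum.elim c fun _ => y)}.Finite)
    (b : ℕ → M) (V : ℕ → Prop) (hV : ComputablePred V)
    (hb : ∀ d, V d → ∀ i < d, ¬ Alg (L := Lg ar) (fun k => f (toU D k)) (fun k : Fin i => b k) (b i)) :
    Sig 3 (fun q : Nm × Ext × ℕ => (∃ d, V d ∧ UG d q.1) ∧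
      (frM ar M (fun k => f (toU D k))).Le b q.1 q.2.1 q.2.2) := by
  have hR := comp_frA har hD
  obtain ⟨F, hF⟩ : ∃ F : Fr ℕ, F = (frM ar (Univ D) (toU D) : Fr (Univ D)) := ⟨_, rfl⟩
  have hR' : ComputablePred fun q : ℕ × List ℕ => F.Rel q.1 q.2 := by
    rw [hF]
    exact hR
  have hj : Computable F.j := by
    rw [hF]
    exact Computable.id
  have key : ∀ (d : ℕ) (p : Nm) (x : Ext) (k : ℕ), V d → UG d p →
      ((frM ar M (fun k => f (toU D k))).Ge b p x k ↔
        ∀ K, F.Tr (fun g => F.Ge g p x k) K d []) := by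
    intro d p x k hVd hUG
    have h1 : (frM ar M (fun k => f (toU D k))).Ge b p x k ↔
        (frM ar M (fun k => f (toU D k))).Ge
          (fun i => (List.ofFn fun k : Fin d => b k).getD i (f (toU D 0))) p x k := by
      refine ge_congr _ hUG (fun i hi => ?_) x k
      have h2 : i < (List.ofFn fun k : Fin d => b k).length := by simpa using hi
      rw [List.getD_eq_getElem _ _ h2]
      simp
    rw [h1]
    have h3 := generic_iff_tree f (toU D) hmin b d (hb d hVd)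
      (P := fun (S : Type) [(Lg ar).Structure S] (j : ℕ → S) (g : ℕ → S) =>
        (frM ar S j).Ge g p x k) (fun n => UD_Ge n p x k)
    rw [hF]
    exact h3
  -- the trees
  have hT : Sig 2 (fun q : (Nm × Ext × ℕ) × ℕ × ℕ =>
      F.Tr (fun g => F.Ge g q.1.1 q.1.2.1 (q.1.2.2 + 1)) q.2.1 q.2.2 []) := by
    refine sig_tr F (P := fun (q : Nm × Ext × ℕ) g => F.Ge g q.1 q.2.1 (q.2.2 + 1)) ?_
    refine (sig_ge hR' hj).comp (f := fun q : (Nm × Ext × ℕ) × List ℕ =>
      (q.2, q.1.1, q.1.2.1, q.1.2.2 + 1)) ?_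
    refine Computable.snd.pair ((Computable.fst.comp Computable.fst).pair
      ((Computable.fst.comp (Computable.snd.comp Computable.fst)).pair ?_))
    exact Computable.succ.comp (Computable.snd.comp (Computable.snd.comp Computable.fst))
  have hT' : Sig 3 (fun q : ((Nm × Ext × ℕ) × ℕ) × ℕ =>
      ¬ F.Tr (fun g => F.Ge g q.1.1.1 q.1.1.2.1 (q.1.1.2.2 + 1)) q.2 q.1.2 []) := by
    refine hT.not_up.comp (f := fun q : ((Nm × Ext × ℕ) × ℕ) × ℕ => (q.1.1, q.2, q.1.2)) ?_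
    exact (Computable.fst.comp Computable.fst).pair
      (Computable.snd.pair (Computable.snd.comp Computable.fst))
  have hE : Sig 3 (fun q : (Nm × Ext × ℕ) × ℕ =>
      ∃ K, ¬ F.Tr (fun g => F.Ge g q.1.1 q.1.2.1 (q.1.2.2 + 1)) K q.2 []) :=
    Sig.ex_nat hT'
  have hV3 : Sig 3 (fun q : (Nm × Ext × ℕ) × ℕ => V q.2) :=
    (Sig.of_comp hV).comp (f := fun q : (Nm × Ext × ℕ) × ℕ => q.2) Computable.snd
  have hU3 : Sig 3 (fun q : (Nm × Ext × ℕ) × ℕ => UG q.2 q.1.1) :=
    (SigLe_UG 3).comp (f := fun q : (Nm × Ext × ℕ) × ℕ => (q.1.1, q.2))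
      ((Computable.fst.comp Computable.fst).pair Computable.snd)
  have hAll := Sig.ex_nat ((hV3.and hU3).and hE)
  refine hAll.of_eq fun q => ?_
  constructor
  · rintro ⟨d, ⟨hVd, hUG⟩, K, hK⟩
    refine ⟨⟨d, hVd, hUG⟩, fun hGe => hK ?_⟩
    exact (key d q.1 q.2.1 (q.2.2 + 1) hVd hUG).1 hGe K
  · rintro ⟨⟨d, hVd, hUG⟩, hLe⟩
    refine ⟨d, ⟨hVd, hUG⟩, ?_⟩
    by_contra hno
    push Not at hno
    exact hLe ((key d q.1 q.2.1 (q.2.2 + 1) hVd hUG).2 hno)

end Pool.Agent.MP_fd2900_lc
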