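import Pool.Agent.Lib.MP_fd2900_lc.ModDefs

/-! at most `k` solutions is a `Σ⁰₃` predicate -/

namespace Pool.Agent.MP_fd2900_lc

open FirstOrder FirstOrder.Language Fr

variable {ar : ℕ → ℕ}

private theorem SigLe1_hold {M : Type} (F : Fr M) {g g' : ℕ → M} {d : ℕ} {v : List M} {a : Lit}
    (ha : ∀ t ∈ a.2.2, t.1 = 1 → t.2 < d) (h : ∀ i < d, g i = g' i) :
    F.hold g v a ↔ F.hold g' v a := by
  have h1 : a.2.2.map (F.ev g v) = a.2.2.map (F.ev g' v) := by
    refine List.map_congr_left fun t ht => ?_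
    unfold Fr.ev
    by_cases h0 : t.1 = 0
    · rw [if_pos h0, if_pos h0]
    · rw [if_neg h0, if_neg h0]
      by_cases h2 : t.1 = 1
      · rw [if_pos h2, if_pos h2]
        exact h _ (ha t ht h2)
      · rw [if_neg h2, if_neg h2]
  unfold Fr.hold
  rw [h1]

private theorem SigLe1_ex1 {M : Type} (F : Fr M) {g g' : ℕ → M} {d : ℕ} {v : List M}
    {δ : List Lit} (ha : ∀ a ∈ δ, ∀ t ∈ a.2.2, t.1 = 1 → t.2 < d) (h : ∀ i < d, g i = g' i) :
    F.Ex1 g v δ ↔ F.Ex1 g' v δ := by
  unfold Fr.Ex1 Fr.Holds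
  refine exists_congr fun z => forall_congr' fun l => forall_congr' fun hl => ?_
  exact SigLe1_hold F (ha l hl) h

private theorem SigLe1_sat2 {M : Type} (F : Fr M) {g g' : ℕ → M} {d : ℕ} {y : M}
    {ψ : Psi} (ha : UGψ d ψ) (h : ∀ i < d, g i = g' i) :
    F.Sat2 g ψ y ↔ F.Sat2 g' ψ y := by
  unfold Fr.Sat2
  refine exists_congr fun u => and_congr_right fun _ => forall_congr' fun l =>
    forall_congr' fun hl => not_congr ?_
  exact SigLe1_ex1 F (ha l hl) h

theorem ge_congr {M : Type} (F : Fr M) {g g' : ℕ → M} {d : ℕ} {p : Nm} (hp : UG d p)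
    (h : ∀ i < d, g i = g' i) (x : Ext) (k : ℕ) : F.Ge g p x k ↔ F.Ge g' p x k := by
  have h1 : ∀ v, F.Sol g p v ↔ F.Sol g' p v := by
    intro v
    unfold Fr.Sol Fr.SolE
    refine and_congr_right fun _ => forall_congr' fun e => forall_congr' fun he => ?_
    refine and_congr_right fun _ => and_congr_right fun _ => ?_
    refine forall_congr' fun _ => and_congr_right fun _ => forall_congr' fun y =>
      forall_congr' fun _ => ?_
    exact SigLe1_sat2 F (hp e he) h
  unfold Fr.Ge
  have h2 : (fun v => F.Sol g p v ∧ F.ExtP v x) = fun v => F.Sol g' p v ∧ F.ExtP v x :=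
    funext fun v => propext (and_congr_left fun _ => h1 v)
  rw [h2]

private theorem SigLe1_rel (D : ℕ × List ℕ → Prop) (i : ℕ) (l : List ℕ) :
    (frM ar (Univ D) (toU D)).Rel i l ↔ l.length = ar i ∧ D (i, l) := by
  have h1 : ∀ l : List ℕ, List.ofFn (fun k : Fin l.length => l.get k) = l := fun l => by
    simp
  constructor
  · rintro ⟨h, h2⟩
    refine ⟨h, ?_⟩
    have h3 : D (i, List.ofFn (fun k : Fin l.length => l.get k)) := h2
    rwa [h1] at h3
  · rintro ⟨h, h2⟩
    refine ⟨h, ?_⟩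
    have h3 : D (i, List.ofFn (fun k : Fin l.length => l.get k)) := by rwa [h1]
    exact h3

theorem comp_frA (har : Computable ar) {D : ℕ × List ℕ → Prop} (hD : ComputablePred D) :
    ComputablePred (fun q : ℕ × List ℕ => (frM ar (Univ D) (toU D)).Rel q.1 q.2) := by
  classical
  obtain ⟨_, hD⟩ := hD
  have e : (fun q : ℕ × List ℕ => (frM ar (Univ D) (toU D)).Rel q.1 q.2) =
      fun q : ℕ × List ℕ => q.2.length = ar q.1 ∧ D q :=
    funext fun q => propext (SigLe1_rel D q.1 q.2)
  rw [e]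
  refine ⟨fun q => inferInstance, ?_⟩
  have h1 : Computable fun q : ℕ × List ℕ => decide (q.2.length = ar q.1) :=
    Primrec.beq.to_comp.comp (Primrec.list_length.to_comp.comp Computable.snd)
      (har.comp Computable.fst)
  have h2 : Computable fun q : ℕ × List ℕ => (decide (q.2.length = ar q.1) && decide (D q)) :=
    Primrec.and.to_comp.comp h1 hD
  refine h2.of_eq fun q => ?_
  simp
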