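import Pool.Agent.Lib.MP_fd2900_lc.SetupDefs

namespace Pool.Agent.MP_fd2900_lc

open Fr

private theorem stepEx1_sign {M : Type} (F : Fr M) (v : List M) (α : ℕ × List ℕ) :
    ∃ s : Bool, F.hold F.g0 v (litOf s α) := by
  classical
  by_cases h : F.RelE α.1 ((α.2.map fun x => ((2, x) : Tm)).map (F.ev F.g0 v))
  · exact ⟨true, ⟨fun _ => rfl, fun _ => h⟩⟩
  · exact ⟨false, ⟨fun h' => absurd h' h, fun h' => absurd h' Bool.false_ne_true⟩⟩

/-- literals deciding the atomic formulas of number `< t` with variables `< n`, true at the list `v` -/
theorem exists_dec {M : Type} (F : Fr M) (t n : ℕ) (v : List M) :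
    ∃ ε : List Lit, VarsLt n ε ∧ F.Holds F.g0 v ε ∧
      ∀ δ : List Lit, Dec t n (δ ++ ε) := by
  classical
  induction t with
  | zero =>
    refine ⟨[], ?_, ?_, ?_⟩
    · intro l hl
      exact absurd hl List.not_mem_nil
    · intro l hl
      exact absurd hl List.not_mem_nil
    · intro δ u hu
      exact absurd hu (Nat.not_lt_zero u)
  | succ t ih =>
    obtain ⟨ε, h1, h2, h3⟩ := ih
    by_cases hv : ∀ x ∈ (atm t).2, x < n
    · obtain ⟨s, hs⟩ := stepEx1_sign F v (atm t)
      refine ⟨litOf s (atm t) :: ε, ?_, ?_, ?_⟩
      · intro l hl
        rcases List.mem_cons.1 hl with rfl | hl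
        · intro a ha
          obtain ⟨x, hx, rfl⟩ := List.mem_map.1 ha
          exact ⟨rfl, hv x hx⟩
        · exact h1 l hl
      · intro l hl
        rcases List.mem_cons.1 hl with rfl | hl
        · exact hs
        · exact h2 l hl
      · intro δ u hu hx
        rcases Nat.lt_succ_iff_lt_or_eq.1 hu with hu | rfl
        · rcases h3 δ u hu hx with h | h
          · left
            rcases List.mem_append.1 h with h | h
            · exact List.mem_append_left _ h
            · exact List.mem_append_right _ (List.mem_cons_of_mem _ h)
          · right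
            rcases List.mem_append.1 h with h | h
            · exact List.mem_append_left _ h
            · exact List.mem_append_right _ (List.mem_cons_of_mem _ h)
        · cases s
          · right
            exact List.mem_append_right _ List.mem_cons_self
          · left
            exact List.mem_append_right _ List.mem_cons_self
    · refine ⟨ε, h1, h2, ?_⟩
      intro δ u hu hx
      rcases Nat.lt_succ_iff_lt_or_eq.1 hu with hu | rfl
      · exact h3 δ u hu hx
      · exact absurd hx hv

end Pool.Agent.MP_fd2900_lc
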