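import Pool.Agent.Lib.MP_fd2900_lc.InvA
import Pool.Agent.Lib.MP_fd2900_lc.StepEx1

namespace Pool.Agent.MP_fd2900_lc

open Fr

namespace Setup

variable {A : Setup}

/-- a solution of the old name extends to the new one if the bound is right or trivial -/
private theorem StepEx2_ext {r κ : ℕ} {s s' : NmN} (h : CExt r κ s s') (hs : A.Ok s)
    (hκ : κ = A.kapInf r ∨ κ = 0) {v : List A.M} (hv : v ∈ A.sol s.nm) :
    ∃ v' ∈ A.sol s'.nm, v'.take s.1 = v := by
  obtain ⟨hw, -, -⟩ := hs
  have hvl : v.length = s.1 := hv.1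
  rcases h with ⟨-, rfl⟩ | ⟨K, hK, rfl⟩
  · refine ⟨v, ⟨hvl, ?_⟩, by rw [← hvl, List.take_length]⟩
    intro e he
    have he' : e ∈ s.2.1 ++ [((3, s.1, 0, [], ψ0) : Ent)] := he
    rw [List.mem_append, List.mem_singleton] at he'
    rcases he' with he' | rfl
    · exact hv.2 e he'
    · refine ⟨fun h => absurd h ?_, fun h => absurd h ?_, fun h => absurd h ?_⟩ <;> simp
  · have hk : K + 1 = A.kapInf r := by
      rcases hκ with h | h
      · rw [← hK, h]
      · omega
    rw [kapInf] at hk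
    split_ifs at hk with hc
    have hK' : K = {y | A.F.Sat2 A.b (psi r) y}.ncard := by omega
    set Y := hc.2.toFinset.toList with hY
    have hYl : Y.length = K := by
      rw [hY, Finset.length_toList, hK', Set.ncard_eq_toFinset_card _ hc.2]
    have hYn : Y.Nodup := Finset.nodup_toList _
    have hYs : ∀ y ∈ Y, A.F.Sat2 A.b (psi r) y := by
      intro y hy
      rw [hY, Finset.mem_toList, Set.Finite.mem_toFinset] at hy
      exact hy
    have hdrop : ((v ++ Y).drop s.1).take K = Y := by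
      rw [← hvl, List.drop_left, ← hYl, List.take_length]
    refine ⟨v ++ Y, ⟨?_, ?_⟩, ?_⟩
    · show (v ++ Y).length = s.1 + K
      rw [List.length_append, hvl, hYl]
    · intro e he
      have he' : e ∈ s.2.1 ++ [((2, s.1, K, [], psi r) : Ent)] := he
      rw [List.mem_append, List.mem_singleton] at he'
      rcases he' with he' | rfl
      · exact (solE_append A.F A.b hw he' hvl).mpr (hv.2 e he')
      · refine ⟨fun h => absurd h ?_, fun h => absurd h ?_, fun _ => ?_⟩
        · simp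
        · simp
        · show (((v ++ Y).drop s.1).take K).Nodup ∧
            ∀ y ∈ ((v ++ Y).drop s.1).take K, A.F.Sat2 A.b (psi r) y
          rw [hdrop]
          exact ⟨hYn, hYs⟩
    · rw [← hvl, List.take_left]

private theorem StepEx2_ev {M : Type} (F : Fr M) (g : ℕ → M) {n : ℕ} {v w : List M}
    (hn : n ≤ v.length) {t : Tm} (ht : t.1 = 2 ∧ t.2 < n) : F.ev g (v ++ w) t = F.ev g v t := by
  unfold ev
  rw [if_neg (by omega), if_neg (by omega), if_neg (by omega), if_neg (by omega),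
    List.getD_append _ _ _ _ (by omega)]

private theorem StepEx2_holds {M : Type} (F : Fr M) (g : ℕ → M) {n : ℕ} {v w : List M}
    (hn : n ≤ v.length) {δ : List Lit} (hδ : VarsLt n δ) :
    F.Holds g (v ++ w) δ ↔ F.Holds g v δ := by
  have h : ∀ l ∈ δ, (F.hold g (v ++ w) l ↔ F.hold g v l) := by
    intro l hl
    unfold hold
    have : l.2.2.map (F.ev g (v ++ w)) = l.2.2.map (F.ev g v) :=
      List.map_congr_left fun t ht => StepEx2_ev F g hn (hδ l hl t ht)
    rw [this]
  exact ⟨fun hH l hl => (h l hl).mp (hH l hl), fun hH l hl => (h l hl).mpr (hH l hl)⟩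

private theorem StepEx2_sol {δ : List Lit} {s : NmN} (hs : A.Ok s) (hg : A.Good δ s) :
    ∃ v ∈ A.sol s.nm, A.F.Ex1 A.F.g0 v δ := by
  obtain ⟨hN, -, hle⟩ := hg
  have hex : (A.sol s.nm).encard = (s.2.2 : ℕ∞) := hs.2.2
  rw [le_iff_encard] at hle
  by_contra hcon
  push Not at hcon
  have hsub : A.sol s.nm ⊆ {v | A.F.Sol A.b s.nm v ∧ A.F.ExtP v (1, 0, δ)} := by
    intro v hv
    refine ⟨hv, fun _ => hcon v hv, fun h => absurd h ?_, fun h => absurd h ?_⟩ <;> simp
  have h1 := (Set.encard_le_encard hsub).trans hle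
  rw [hex] at h1
  have h2 : s.2.2 ≤ s.2.2 - 1 := by exact_mod_cast h1
  omega

private theorem StepEx2_good_take {δ : List Lit} {s : NmN} (hs : A.Ok s) {w : List A.M}
    (hw : A.F.Holds A.F.g0 w δ) (hv : w.take s.1 ∈ A.sol s.nm) : A.Good δ s := by
  refine good_of_ok hs hv ⟨w.drop s.1, ?_⟩
  rw [List.take_append_drop]
  exact hw

private theorem StepEx2_nmAt {segs : List (ℕ × NmN)} (q : ℕ × NmN) {r : ℕ} (hr : r ≤ segs.length) :
    nmAt (segs ++ [q]) r = nmAt segs r := by
  unfold nmAt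
  split_ifs with h
  · rfl
  · rw [List.getD_append _ _ _ _ (by omega)]

private theorem StepEx2_nmAt_last (segs : List (ℕ × NmN)) (q : ℕ × NmN) :
    nmAt (segs ++ [q]) (segs.length + 1) = q.2 := by
  unfold nmAt
  rw [if_neg (by omega)]
  simp

/-- a new segment exists if all recorded bounds are right -/
theorem exists_stepC {s : State} (hI : A.Inv s) (hk : ∀ r < s.2.1.length, kAt s.2.1 r = A.kapInf r)
    (hm : ∀ r < s.2.1.length, ¬ A.Mis s.1 s.2.1 r) : ∃ s', A.StepC s s' := by
  obtain ⟨hL, hG, n, hn⟩ := hI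
  have hL' : A.Links s.2.1 := hL
  have hok : A.Ok (nmAt s.2.1 s.2.1.length) := links_ok hL' le_rfl hk
  obtain ⟨v, hv, hvδ⟩ := StepEx2_sol hok (hG s.2.1.length le_rfl)
  obtain ⟨n1, v1, hch, hn1, hp1, hv1, hv1t, hv1δ⟩ := exists_chain hok hv hvδ n
  have hok1 : A.Ok n1 := chain_ok hch hok
  obtain ⟨n2, hc⟩ := exists_cExt s.2.1.length (A.kap s.1 s.2.1.length) n1
  have hv1l : v1.length = n1.1 := hv1.1
  have hδ1 : VarsLt n1.1 s.2.2 := fun l hl t ht => ⟨(hn l hl t ht).1, (hn l hl t ht).2.trans_le hn1⟩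
  -- the committed literals hold at `v1`
  have hH1 : A.F.Holds A.F.g0 v1 s.2.2 := by
    obtain ⟨z, hz⟩ := hv1δ
    exact (StepEx2_holds A.F A.F.g0 hv1l.ge hδ1).mp hz
  -- the valuation
  obtain ⟨w, hw1, hw2⟩ : ∃ w : List A.M, w.take n1.1 = v1 ∧
      ((A.Ok n2 ∧ w ∈ A.sol n2.nm) ∨ ∀ δ, A.Good δ n2) := by
    by_cases hκ : A.kap s.1 s.2.1.length = A.kapInf s.2.1.length ∨ A.kap s.1 s.2.1.length = 0
    · obtain ⟨w, hw, hwt⟩ := StepEx2_ext hc hok1 hκ hv1
      refine ⟨w, hwt, Or.inl ⟨?_, hw⟩⟩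
      rcases hκ with h | h
      · exact CExt.ok A hc hok1 h
      · rw [h] at hc
        exact ok_of_zero hc hok1
    · push Not at hκ
      refine ⟨v1, by rw [← hv1l, List.take_length], Or.inr fun δ => ?_⟩
      refine good_of_wrong hc hok1 ?_ hκ.1 hκ.2
      have hex : (A.sol n1.nm).encard = (n1.2.2 : ℕ∞) := hok1.2.2
      have hne : (A.sol n1.nm).encard ≠ 0 := by
        rw [Set.encard_ne_zero]
        exact ⟨v1, hv1⟩
      rw [hex] at hne
      have : n1.2.2 ≠ 0 := by exact_mod_cast hne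
      omega
  obtain ⟨ε, hε, hεw, hdec⟩ := exists_dec A.F s.1 n2.1 w
  have hHw : A.F.Holds A.F.g0 w (s.2.2 ++ ε) := by
    intro l hl
    rw [List.mem_append] at hl
    rcases hl with hl | hl
    · have : A.F.Holds A.F.g0 w s.2.2 := by
        rw [← List.take_append_drop n1.1 w, hw1]
        exact (StepEx2_holds A.F A.F.g0 hv1l.ge hδ1).mpr hH1
      exact this l hl
    · exact hεw l hl
  refine ⟨_, hm, n1, n2, ε, rfl, hch, hc, hδ1, hε, hdec _, fun r hr => ?_⟩
  rcases Nat.lt_or_ge s.2.1.length r with h | h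
  · have hr' : r = s.2.1.length + 1 := by omega
    subst hr'
    rw [StepEx2_nmAt_last]
    rcases hw2 with ⟨h1, h2⟩ | h1
    · refine StepEx2_good_take h1 hHw ?_
      have : w.length = n2.1 := h2.1
      show w.take n2.1 ∈ _
      rw [← this, List.take_length]
      exact h2
    · exact h1 _
  · rw [StepEx2_nmAt _ h]
    obtain ⟨h1, h2⟩ := links_take hL' h le_rfl
    refine StepEx2_good_take (links_ok hL' h fun r' hr' => hk r' (by omega)) hHw ?_
    have h3 := h2 v hv
    rw [← hv1t, ← hw1, List.take_take, List.take_take] at h3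
    have : min (min (nmAt s.2.1 r).1 (nmAt s.2.1 s.2.1.length).1) n1.1 = (nmAt s.2.1 r).1 := by
      omega
    rwa [this] at h3

end Setup

end Pool.Agent.MP_fd2900_lc
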