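import Pool.Agent.Lib.MP_fd2900_lc.Kap1

namespace Pool.Agent.MP_fd2900_lc

open Fr

/-! `nmAt` is primitive recursive, `VarsLt` and `Dec` are computable by bounded quantifiers
(`Sig.ball_mem`, `Sig.ball_lt`, `Sig.bex_mem` at level `0`), `Mis` is `r < length` together with the
graph of `kap` (`sig_kap`, `sig_kap_ne`). -/

private theorem StepSig2_primNmAt :
    Primrec (fun q : List (ℕ × NmN) × ℕ => nmAt q.1 q.2) :=
  Primrec.ite (Primrec.eq.comp Primrec.snd (Primrec.const 0)) (Primrec.const base)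
    (Primrec.snd.comp ((Primrec.list_getD ((0, base) : ℕ × NmN)).comp Primrec.fst
      (Primrec.pred.comp Primrec.snd)))

private theorem StepSig2_primKAt :
    Primrec (fun q : List (ℕ × NmN) × ℕ => kAt q.1 q.2) :=
  Primrec.fst.comp ((Primrec.list_getD ((0, base) : ℕ × NmN)).comp Primrec.fst Primrec.snd)

private theorem StepSig2_primLitOf (s : Bool) :
    Primrec (fun α : ℕ × List ℕ => litOf s α) :=
  Primrec.pair (Primrec.const s) (Primrec.pair Primrec.fst
    (Primrec.list_map Primrec.snd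
      (Primrec.pair (Primrec.const 2) Primrec.snd : Primrec fun z : (ℕ × List ℕ) × ℕ => ((2 : ℕ), z.2))))

private theorem StepSig2_primAtm : Primrec (fun u : ℕ => atm u) :=
  Primrec.option_getD.comp Primrec.decode (Primrec.const (0, []))

private theorem StepSig2_mem (s : Bool) : Sig 0 (fun a : (ℕ × ℕ × List Lit) × ℕ =>
    litOf s (atm a.2) ∈ a.1.2.2) := by
  have h : Sig 0 (fun z : ((ℕ × ℕ × List Lit) × ℕ) × Lit => z.2 = litOf s (atm z.1.2)) :=
    PrimrecPred.computablePred (Primrec.eq.comp Primrec.snd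
      ((StepSig2_primLitOf s).comp (StepSig2_primAtm.comp (Primrec.snd.comp Primrec.fst))))
  have h2 := Sig.bex_mem (f := fun a : (ℕ × ℕ × List Lit) × ℕ => a.1.2.2) h
    (Computable.snd.comp (Computable.snd.comp Computable.fst))
  refine h2.of_eq fun a => ⟨?_, fun h => ⟨_, h, rfl⟩⟩
  rintro ⟨b, hb, he⟩
  exact he ▸ hb

namespace Setup

variable (A : Setup)

theorem sig_nmAt : Computable (fun q : List (ℕ × NmN) × ℕ => nmAt q.1 q.2) :=
  StepSig2_primNmAt.to_comp

theorem sig_varsLt : ComputablePred (fun q : ℕ × List Lit => VarsLt q.1 q.2) := by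
  have h : Sig 0 (fun z : ((ℕ × List Lit) × Lit) × Tm => z.2.1 = 2 ∧ z.2.2 < z.1.1.1) :=
    PrimrecPred.computablePred (PrimrecPred.and
      (Primrec.eq.comp (Primrec.fst.comp Primrec.snd) (Primrec.const 2))
      (Primrec.nat_lt.comp (Primrec.snd.comp Primrec.snd)
        (Primrec.fst.comp (Primrec.fst.comp Primrec.fst))))
  have h1 := Sig.ball_mem (f := fun z : (ℕ × List Lit) × Lit => z.2.2.2) h
    (Computable.snd.comp (Computable.snd.comp Computable.snd))
  have h2 := Sig.ball_mem (f := fun z : ℕ × List Lit => z.2) h1 Computable.snd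
  exact h2

theorem sig_dec : ComputablePred (fun q : ℕ × ℕ × List Lit => Dec q.1 q.2.1 q.2.2) := by
  have h : Sig 0 (fun z : ((ℕ × ℕ × List Lit) × ℕ) × ℕ => z.2 < z.1.1.2.1) :=
    PrimrecPred.computablePred (Primrec.nat_lt.comp Primrec.snd
      (Primrec.fst.comp (Primrec.snd.comp (Primrec.fst.comp Primrec.fst))))
  have h1 : Sig 0 (fun a : (ℕ × ℕ × List Lit) × ℕ => ∀ x ∈ (atm a.2).2, x < a.1.2.1) :=
    Sig.ball_mem (f := fun a : (ℕ × ℕ × List Lit) × ℕ => (atm a.2).2) h
      (Computable.snd.comp (StepSig2_primAtm.to_comp.comp Computable.snd))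
  have h2 : Sig 0 (fun a : (ℕ × ℕ × List Lit) × ℕ => ¬ ∀ x ∈ (atm a.2).2, x < a.1.2.1) :=
    ComputablePred.not h1
  have h3 := Sig.ball_lt (f := fun a : ℕ × ℕ × List Lit => a.1)
    (h2.or ((StepSig2_mem true).or (StepSig2_mem false))) Computable.fst
  refine h3.of_eq fun a => forall₂_congr fun u _ => ?_
  exact imp_iff_not_or.symm

theorem sig_mis : Sig 3 (fun q : ℕ × List (ℕ × NmN) × ℕ => A.Mis q.1 q.2.1 q.2.2) := by
  have h1 : Sig 3 (fun q : ℕ × List (ℕ × NmN) × ℕ => q.2.2 < q.2.1.length) :=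
    Sig.of_comp (PrimrecPred.computablePred (Primrec.nat_lt.comp (Primrec.snd.comp Primrec.snd)
      (Primrec.list_length.comp (Primrec.fst.comp Primrec.snd))))
  have h2 : Sig 3 (fun q : ℕ × List (ℕ × NmN) × ℕ => A.kap q.1 q.2.2 ≠ kAt q.2.1 q.2.2) :=
    A.sig_kap_ne.comp (f := fun q : ℕ × List (ℕ × NmN) × ℕ => ((q.1, q.2.2), kAt q.2.1 q.2.2))
      (Computable.pair (Computable.pair Computable.fst (Computable.snd.comp Computable.snd))
        (StepSig2_primKAt.to_comp.comp Computable.snd))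
  exact h1.and h2

theorem sig_not_mis : Sig 3 (fun q : ℕ × List (ℕ × NmN) × ℕ => ¬ A.Mis q.1 q.2.1 q.2.2) := by
  have h1 : Sig 3 (fun q : ℕ × List (ℕ × NmN) × ℕ => ¬ q.2.2 < q.2.1.length) :=
    Sig.of_comp (ComputablePred.not (PrimrecPred.computablePred
      (Primrec.nat_lt.comp (Primrec.snd.comp Primrec.snd)
        (Primrec.list_length.comp (Primrec.fst.comp Primrec.snd)))))
  have h2 : Sig 3 (fun q : ℕ × List (ℕ × NmN) × ℕ => A.kap q.1 q.2.2 = kAt q.2.1 q.2.2) :=
    A.sig_kap.comp (f := fun q : ℕ × List (ℕ × NmN) × ℕ => ((q.1, q.2.2), kAt q.2.1 q.2.2))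
      (Computable.pair (Computable.pair Computable.fst (Computable.snd.comp Computable.snd))
        (StepSig2_primKAt.to_comp.comp Computable.snd))
  refine (h1.or h2).of_eq fun q => ?_
  unfold Setup.Mis
  tauto

end Setup

end Pool.Agent.MP_fd2900_lc
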