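import Pool.Agent.Lib.MP_fd2900_lc.Kap1

/-! the step relation is `Σ⁰₃` -/

namespace Pool.Agent.MP_fd2900_lc

open Fr

private theorem StepSig1_eq {α β : Type} [Primcodable α] [Primcodable β] [DecidableEq β]
    {f g : α → β} (hf : Computable f) (hg : Computable g) : ComputablePred (fun a => f a = g a) := by
  have h1 : PrimrecRel (@Eq β) := Primrec.eq
  have h2 : Primrec (fun p : β × β => decide (p.1 = p.2)) := PrimrecPred.decide h1
  refine ⟨fun a => inferInstance, ?_⟩
  exact (h2.to_comp.comp (hf.pair hg)).of_eq fun a => rfl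

private instance StepSig1_d1 : DecidableEq Lit := inferInstanceAs (DecidableEq (Bool × ℕ × List (ℕ × ℕ)))
private instance StepSig1_d2 : DecidableEq Psi := inferInstanceAs (DecidableEq (ℕ × List (List Lit)))
private instance StepSig1_d3 : DecidableEq Ent :=
  inferInstanceAs (DecidableEq (ℕ × ℕ × ℕ × List Lit × Psi))
private instance StepSig1_d4 : DecidableEq NmN := inferInstanceAs (DecidableEq (ℕ × List Ent × ℕ))

private theorem StepSig1_eqS {α β : Type} [Primcodable α] [Primcodable β] [DecidableEq β]
    {n : ℕ} {f g : α → β} (hf : Computable f) (hg : Computable g) : Sig n (fun a => f a = g a) :=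
  Sig.of_comp (StepSig1_eq hf hg)

private theorem StepSig1_leS {α : Type} [Primcodable α] {n : ℕ} {f g : α → ℕ} (hf : Computable f)
    (hg : Computable g) : Sig n (fun a => f a ≤ g a) := by
  have h1 : PrimrecRel ((· ≤ ·) : ℕ → ℕ → Prop) := Primrec.nat_le
  have h2 : Primrec (fun p : ℕ × ℕ => decide (p.1 ≤ p.2)) := PrimrecPred.decide h1
  refine Sig.of_comp ⟨fun a => inferInstance, ?_⟩
  exact (h2.to_comp.comp (hf.pair hg)).of_eq fun a => rfl

private theorem StepSig1_fact : Computable Nat.factorial := by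
  have h : Primrec (Nat.rec 1 (fun n IH => (n + 1) * IH) : ℕ → ℕ) := by
    refine (Primrec.nat_rec₁ (f := fun n IH => (n + 1) * IH) 1 ?_)
    exact Primrec.nat_mul.comp₂ (Primrec.succ.comp₂ Primrec₂.left) Primrec₂.right
  refine (h.of_eq fun n => ?_).to_comp
  induction n with
  | zero => rfl
  | succ n ih => rw [Nat.factorial_succ, ← ih]

private theorem StepSig1_psi : Computable psi := by
  have h : Computable (fun r : ℕ => (Encodable.decode (α := Psi) r).getD ψ0) :=
    Computable.option_getD Computable.decode (Computable.const ψ0)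
  exact h

private theorem StepSig1_add : Computable₂ ((· + ·) : ℕ → ℕ → ℕ) := Primrec.nat_add.to_comp
private theorem StepSig1_mul : Computable₂ ((· * ·) : ℕ → ℕ → ℕ) := Primrec.nat_mul.to_comp
private theorem StepSig1_sub : Computable₂ ((· - ·) : ℕ → ℕ → ℕ) := Primrec.nat_sub.to_comp

private theorem StepSig1_snoc {α β : Type} [Primcodable α] [Primcodable β] {f : α → List β} {g : α → β}
    (hf : Computable f) (hg : Computable g) : Computable (fun a => f a ++ [g a]) :=
  (Computable.list_concat.comp hf hg)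

namespace Setup

variable (A : Setup)

theorem sig_le : Sig 3 (fun q : Nm × Ext × ℕ => A.le q.1 q.2.1 q.2.2) := A.sigLe

private theorem StepSig1_le {α : Type} [Primcodable α] {f : α → Nm} {g : α → Ext} {h : α → ℕ}
    (hf : Computable f) (hg : Computable g) (hh : Computable h) :
    Sig 3 (fun a => A.le (f a) (g a) (h a)) :=
  (A.sig_le).comp (hf.pair (hg.pair hh))

theorem sig_good : Sig 3 (fun q : List Lit × NmN => A.Good q.1 q.2) := by
  have hs : Computable (fun q : List Lit × NmN => (q.2.nm : Nm)) :=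
    (Computable.fst.comp Computable.snd).pair
      (Computable.fst.comp (Computable.snd.comp Computable.snd))
  have hN : Computable (fun q : List Lit × NmN => q.2.2.2) :=
    Computable.snd.comp (Computable.snd.comp Computable.snd)
  have hx : Computable (fun q : List Lit × NmN => ((1, 0, q.1) : Ext)) :=
    (Computable.const 1).pair ((Computable.const 0).pair Computable.fst)
  exact (StepSig1_leS (Computable.const 1) hN).and
    (A.StepSig1_le hs hx (StepSig1_sub.comp hN (Computable.const 1)))

private theorem StepSig1_kind (kd x : ℕ) {α : Type} [Primcodable α] {δ : α → List Lit} {s s' : α → NmN}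
    {a N c : α → ℕ} (hδ : Computable δ) (hs : Computable s) (hs' : Computable s') (ha : Computable a)
    (hN : Computable N) (hc : Computable c) :
    Sig 3 (fun z => s' z = ((s z).1 + 1, (s z).2.1 ++ [(kd, (s z).1, a z, δ z, ψ0)], c z) ∧
      ∃ N'', N z + N'' = (s z).2.2 ∧ A.le (s' z).nm x0 (c z) ∧ A.le (s z).nm (x, a z, δ z) N'') := by
  have h1 : Computable (fun z => (s z).1) := Computable.fst.comp hs
  have h2 : Computable (fun z => (s z).2.1) := Computable.fst.comp (Computable.snd.comp hs)
  have h3 : Computable (fun z => (s z).2.2) := Computable.snd.comp (Computable.snd.comp hs)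
  have h4 : Computable (fun z => ((s' z).nm : Nm)) :=
    (Computable.fst.comp hs').pair (Computable.fst.comp (Computable.snd.comp hs'))
  have h5 : Computable (fun z => ((s z).nm : Nm)) := h1.pair h2
  have hent : Computable (fun z => ((kd, (s z).1, a z, δ z, ψ0) : Ent)) :=
    (Computable.const kd).pair (h1.pair (ha.pair (hδ.pair (Computable.const ψ0))))
  have hr : Computable (fun z =>
      (((s z).1 + 1, (s z).2.1 ++ [(kd, (s z).1, a z, δ z, ψ0)], c z) : NmN)) :=
    (Computable.succ.comp h1).pair ((StepSig1_snoc h2 hent).pair hc)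
  have hx : Computable (fun z => ((x, a z, δ z) : Ext)) :=
    (Computable.const x).pair (ha.pair hδ)
  refine (StepSig1_eqS hs' hr).and ?_
  have hE : Sig 3 (fun w : α × ℕ => N w.1 + w.2 = (s w.1).2.2 ∧ A.le (s' w.1).nm x0 (c w.1) ∧
      A.le (s w.1).nm (x, a w.1, δ w.1) w.2) :=
    (StepSig1_eqS (StepSig1_add.comp (hN.comp Computable.fst) Computable.snd)
      (h3.comp Computable.fst)).and
      ((A.StepSig1_le (h4.comp Computable.fst) (Computable.const x0) (hc.comp Computable.fst)).and
        (A.StepSig1_le (h5.comp Computable.fst) (hx.comp Computable.fst) Computable.snd))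
  exact Sig.ex_nat hE

theorem sig_hExt : Sig 3 (fun q : List Lit × NmN × NmN => A.HExt q.1 q.2.1 q.2.2) := by
  have hδ : Computable (fun z : ((List Lit × NmN × NmN) × ℕ) × ℕ => z.1.1.1) :=
    Computable.fst.comp (Computable.fst.comp Computable.fst)
  have hs : Computable (fun z : ((List Lit × NmN × NmN) × ℕ) × ℕ => z.1.1.2.1) :=
    Computable.fst.comp (Computable.snd.comp (Computable.fst.comp Computable.fst))
  have hs' : Computable (fun z : ((List Lit × NmN × NmN) × ℕ) × ℕ => z.1.1.2.2) :=
    Computable.snd.comp (Computable.snd.comp (Computable.fst.comp Computable.fst))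
  have ha : Computable (fun z : ((List Lit × NmN × NmN) × ℕ) × ℕ => z.1.2) :=
    Computable.snd.comp Computable.fst
  have hN : Computable (fun z : ((List Lit × NmN × NmN) × ℕ) × ℕ => z.2) := Computable.snd
  have haN : Computable (fun z : ((List Lit × NmN × NmN) × ℕ) × ℕ => z.1.2 * z.2) :=
    StepSig1_mul.comp ha hN
  have hB := ((StepSig1_leS (n := 3) (Computable.const 1) hN).and
      (A.StepSig1_kind 0 2 hδ hs hs' ha hN hN)).or
    ((StepSig1_leS (n := 3) (Computable.const 1) hN).and
      ((StepSig1_leS (Computable.const 1) ha).and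
        (A.StepSig1_kind 1 3 hδ hs hs' ha hN haN)))
  exact Sig.ex_nat (Sig.ex_nat hB)

theorem sig_cExt : Sig 3 (fun q : (ℕ × ℕ) × NmN × NmN => CExt q.1.1 q.1.2 q.2.1 q.2.2) := by
  have hr : Computable (fun q : (ℕ × ℕ) × NmN × NmN => q.1.1) :=
    Computable.fst.comp Computable.fst
  have hk : Computable (fun q : (ℕ × ℕ) × NmN × NmN => q.1.2) :=
    Computable.snd.comp Computable.fst
  have hs : Computable (fun q : (ℕ × ℕ) × NmN × NmN => q.2.1) :=
    Computable.fst.comp Computable.snd
  have hs' : Computable (fun q : (ℕ × ℕ) × NmN × NmN => q.2.2) :=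
    Computable.snd.comp Computable.snd
  have h1 := Computable.fst.comp hs
  have h2 := Computable.fst.comp (Computable.snd.comp hs)
  have h3 := Computable.snd.comp (Computable.snd.comp hs)
  have he : Computable (fun q : (ℕ × ℕ) × NmN × NmN => ((3, q.2.1.1, 0, [], ψ0) : Ent)) :=
    (Computable.const 3).pair (h1.pair (Computable.const ((0, [], ψ0) : ℕ × List Lit × Psi)))
  have hr1 : Computable (fun q : (ℕ × ℕ) × NmN × NmN =>
      ((q.2.1.1, q.2.1.2.1 ++ [(3, q.2.1.1, 0, [], ψ0)], q.2.1.2.2) : NmN)) :=
    h1.pair ((StepSig1_snoc h2 he).pair h3)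
  have he2 : Computable (fun w : ((ℕ × ℕ) × NmN × NmN) × ℕ =>
      ((2, w.1.2.1.1, w.2, [], psi w.1.1.1) : Ent)) :=
    (Computable.const 2).pair ((h1.comp Computable.fst).pair (Computable.snd.pair
      ((Computable.const ([] : List Lit)).pair (StepSig1_psi.comp (hr.comp Computable.fst)))))
  have hr2 : Computable (fun w : ((ℕ × ℕ) × NmN × NmN) × ℕ =>
      ((w.1.2.1.1 + w.2, w.1.2.1.2.1 ++ [(2, w.1.2.1.1, w.2, [], psi w.1.1.1)],
        w.1.2.1.2.2 * w.2.factorial) : NmN)) :=
    (StepSig1_add.comp (h1.comp Computable.fst) Computable.snd).pair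
      ((StepSig1_snoc (h2.comp Computable.fst) he2).pair
        (StepSig1_mul.comp (h3.comp Computable.fst) (StepSig1_fact.comp Computable.snd)))
  have hA : Sig 3 (fun q : (ℕ × ℕ) × NmN × NmN => q.1.2 = 0 ∧
      q.2.2 = (q.2.1.1, q.2.1.2.1 ++ [(3, q.2.1.1, 0, [], ψ0)], q.2.1.2.2)) :=
    (StepSig1_eqS hk (Computable.const 0)).and (StepSig1_eqS hs' hr1)
  have hB : Sig 3 (fun w : ((ℕ × ℕ) × NmN × NmN) × ℕ => w.1.1.2 = w.2 + 1 ∧
      w.1.2.2 = (w.1.2.1.1 + w.2, w.1.2.1.2.1 ++ [(2, w.1.2.1.1, w.2, [], psi w.1.1.1)],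
        w.1.2.1.2.2 * w.2.factorial)) :=
    (StepSig1_eqS (hk.comp Computable.fst) (Computable.succ.comp Computable.snd)).and
      (StepSig1_eqS (hs'.comp Computable.fst) hr2)
  exact hA.or (Sig.ex_nat hB)

end Setup

end Pool.Agent.MP_fd2900_lc
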