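import Pool.Agent.Lib.MP_fd2900_lc.ModDefs

/-! uniformly definable predicates: closure -/

namespace Pool.Agent.MP_fd2900_lc

open FirstOrder FirstOrder.Language Fr

variable {ar : ℕ → ℕ} {α β : Type}

theorem UD.of_iff {P Q : ∀ (S : Type) [(Lg ar).Structure S], (ℕ → S) → (α → S) → Prop}
    (h : UD ar P) (e : ∀ (S : Type) [(Lg ar).Structure S] (j : ℕ → S) (v : α → S), P S j v ↔ Q S j v) :
    UD ar Q := by
  obtain ⟨φ, hφ⟩ := h
  exact ⟨φ, fun S _ j v => (hφ S j v).trans (e S j v)⟩

theorem UD.not {P : ∀ (S : Type) [(Lg ar).Structure S], (ℕ → S) → (α → S) → Prop}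
    (h : UD ar P) : UD ar (fun S _ j v => ¬ P S j v) := by
  obtain ⟨φ, hφ⟩ := h
  exact ⟨φ.not, fun S _ j v => Formula.realize_not.trans (not_congr (hφ S j v))⟩

theorem UD.and {P Q : ∀ (S : Type) [(Lg ar).Structure S], (ℕ → S) → (α → S) → Prop}
    (hP : UD ar P) (hQ : UD ar Q) : UD ar (fun S _ j v => P S j v ∧ Q S j v) := by
  obtain ⟨φ, hφ⟩ := hP
  obtain ⟨ψ, hψ⟩ := hQ
  exact ⟨φ ⊓ ψ, fun S _ j v => Formula.realize_inf.trans (and_congr (hφ S j v) (hψ S j v))⟩

theorem UD.or {P Q : ∀ (S : Type) [(Lg ar).Structure S], (ℕ → S) → (α → S) → Prop}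
    (hP : UD ar P) (hQ : UD ar Q) : UD ar (fun S _ j v => P S j v ∨ Q S j v) := by
  obtain ⟨φ, hφ⟩ := hP
  obtain ⟨ψ, hψ⟩ := hQ
  exact ⟨φ ⊔ ψ, fun S _ j v => Formula.realize_sup.trans (or_congr (hφ S j v) (hψ S j v))⟩

theorem UD.const (p : Prop) :
    UD ar (fun (S : Type) [(Lg ar).Structure S] (_ : ℕ → S) (_ : α → S) => p) := by
  by_cases hp : p
  · exact ⟨⊤, fun S _ j v => by simp [hp]⟩
  · exact ⟨⊥, fun S _ j v => by simp [hp]⟩

/-- conjunctions over a list -/
theorem UD.ball_mem {ι : Type} (l : List ι)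
    {P : ι → ∀ (S : Type) [(Lg ar).Structure S], (ℕ → S) → (α → S) → Prop}
    (h : ∀ i ∈ l, UD ar (P i)) : UD ar (fun S _ j v => ∀ i ∈ l, P i S j v) := by
  induction l with
  | nil => exact UD.of_iff (UD.const True) fun S _ j v => by simp
  | cons a l ih =>
    have h1 := UD.and (h a (by simp)) (ih fun i hi => h i (List.mem_cons_of_mem _ hi))
    exact UD.of_iff h1 fun S _ j v => by simp

/-- substitution of variables and constants -/
theorem UD.subst {P : ∀ (S : Type) [(Lg ar).Structure S], (ℕ → S) → (α → S) → Prop}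
    (h : UD ar P) (f : α → ℕ ⊕ β) :
    UD ar (fun (S : Type) [(Lg ar).Structure S] (j : ℕ → S) (v : β → S) =>
      P S j (fun a => Sum.elim j v (f a))) := by
  obtain ⟨φ, hφ⟩ := h
  refine ⟨φ.relabel (Sum.elim Sum.inl f), fun S _ j v => ?_⟩
  have e : Sum.elim j v ∘ Sum.elim Sum.inl f = Sum.elim j (fun a => Sum.elim j v (f a)) := by
    funext x
    cases x <;> rfl
  rw [Formula.realize_relabel, e]
  exact hφ S j _

theorem UD.ex [Finite β] {P : ∀ (S : Type) [(Lg ar).Structure S], (ℕ → S) → (α ⊕ β → S) → Prop}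
    (h : UD ar P) :
    UD ar (fun (S : Type) [(Lg ar).Structure S] (j : ℕ → S) (v : α → S) =>
      ∃ w : β → S, P S j (Sum.elim v w)) := by
  obtain ⟨φ, hφ⟩ := h
  refine ⟨(φ.relabel (Equiv.sumAssoc ℕ α β).symm).iExs β, fun S _ j v => ?_⟩
  rw [Formula.realize_iExs]
  refine exists_congr fun w => ?_
  rw [Formula.realize_relabel, ← hφ S j]
  have e : Sum.elim (Sum.elim j v) w ∘ (Equiv.sumAssoc ℕ α β).symm =
      Sum.elim j (Sum.elim v w) := by
    funext x
    rcases x with x | x | x <;> rfl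
  rw [← e]

/-- equality of two variables or constants -/
theorem UD.eq (s t : ℕ ⊕ α) :
    UD ar (fun (S : Type) [(Lg ar).Structure S] (j : ℕ → S) (v : α → S) =>
      Sum.elim j v s = Sum.elim j v t) :=
  ⟨(Term.var s).equal (Term.var t), fun _ _ _ _ => Formula.realize_equal⟩

/-- atomic formulas -/
theorem UD.relE (i : ℕ) (ts : List (ℕ ⊕ α)) :
    UD ar (fun (S : Type) [(Lg ar).Structure S] (j : ℕ → S) (v : α → S) =>
      (frM ar S j).RelE i (ts.map (Sum.elim j v))) := by
  by_cases hi : i = 0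
  · subst hi
    by_cases ht : ∃ s t, ts = [s, t]
    · obtain ⟨s, t, rfl⟩ := ht
      refine UD.of_iff (UD.eq s t) fun S _ j v => ?_
      simp only [Fr.RelE, List.map_cons, List.map_nil]
      constructor
      · intro h
        exact Or.inl ⟨trivial, _, by rw [h]⟩
      · rintro (⟨-, x, hx⟩ | ⟨h, -⟩)
        · simp only [List.cons.injEq, and_true] at hx
          rw [hx.1, hx.2]
        · exact absurd rfl h
    · refine UD.of_iff (UD.const False) fun S _ j v => ?_
      refine iff_of_false id ?_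
      rintro (⟨-, x, hx⟩ | ⟨h, -⟩)
      · apply ht
        rcases ts with _ | ⟨a, _ | ⟨b, _ | ⟨c, l⟩⟩⟩
        · simp at hx
        · simp at hx
        · exact ⟨a, b, rfl⟩
        · simp at hx
      · exact absurd rfl h
  · by_cases hl : ts.length = ar (i - 1)
    · refine ⟨Relations.formula (L := Lg ar) (n := ts.length) ⟨i - 1, hl.symm⟩
        (fun k => Term.var (ts.get k)), fun S _ j v => ?_⟩
      rw [Formula.realize_rel]
      have e : ∀ (l : List S) (hlen : l.length = ts.length)
          (hget : ∀ k : Fin ts.length, l.get (k.cast hlen.symm) = Sum.elim j v (ts.get k)),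
          ((frM ar S j).RelE i l ↔ Structure.RelMap (L := Lg ar) (n := ts.length)
            ⟨i - 1, hl.symm⟩ (fun k => Sum.elim j v (ts.get k))) := by
        intro l hlen hget
        have h1 : (frM ar S j).RelE i l ↔ ∃ h : l.length = ar (i - 1),
            Structure.RelMap (L := Lg ar) (n := l.length) ⟨i - 1, h.symm⟩ (fun k => l.get k) := by
          simp only [Fr.RelE, frM]
          constructor
          · rintro (⟨h, -⟩ | ⟨-, h⟩)
            · exact absurd h hi
            · exact h
          · intro h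
            exact Or.inr ⟨hi, h⟩
        rw [h1]
        have h2 : ∀ (n : ℕ) (hn : l.length = n) (h3 : n = ar (i - 1)) (xs : Fin n → S)
            (hxs : ∀ k, xs k = l.get (k.cast hn.symm)),
            ((∃ h : l.length = ar (i - 1), Structure.RelMap (L := Lg ar) (n := l.length)
              ⟨i - 1, h.symm⟩ (fun k => l.get k)) ↔
              Structure.RelMap (L := Lg ar) (n := n) ⟨i - 1, h3.symm⟩ xs) := by
          intro n hn h3 xs hxs
          subst hn
          have h4 : xs = fun k => l.get k := funext hxs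
          rw [h4]
          exact ⟨fun ⟨_, h⟩ => h, fun h => ⟨h3, h⟩⟩
        exact h2 ts.length hlen hl _ fun k => (hget k).symm
      exact (e (ts.map (Sum.elim j v)) (List.length_map _) fun k => by simp).symm
    · refine UD.of_iff (UD.const False) fun S _ j v => ?_
      refine iff_of_false id ?_
      rintro (⟨h, -⟩ | ⟨-, h, -⟩)
      · exact hi h
      · rw [List.length_map] at h
        exact hl h

/-- elementary embeddings preserve uniformly definable predicates -/
theorem UD.elem {P : ∀ (S : Type) [(Lg ar).Structure S], (ℕ → S) → (α → S) → Prop}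
    (h : UD ar P) {S T : Type} [(Lg ar).Structure S] [(Lg ar).Structure T] (f : S ↪ₑ[Lg ar] T)
    (j : ℕ → S) (v : α → S) :
    P S j v ↔ P T (fun a => f (j a)) (fun i => f (v i)) := by
  obtain ⟨φ, hφ⟩ := h
  rw [← hφ S j v, ← hφ T, ← f.map_formula φ]
  have e : (f ∘ Sum.elim j v) = Sum.elim (fun a => f (j a)) (fun i => f (v i)) := by
    funext x
    cases x <;> rfl
  rw [e]

end Pool.Agent.MP_fd2900_lc
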