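import Pool.Agent.Lib.MP_fd2900_lc.UDa

namespace Pool.Agent.MP_fd2900_lc

open FirstOrder FirstOrder.Language Fr

variable {ar : ℕ → ℕ} {α β : Type}

/-- at least `k` tuples -/
theorem UD.atL [Finite β] (k : ℕ)
    {P : ∀ (S : Type) [(Lg ar).Structure S], (ℕ → S) → (α ⊕ β → S) → Prop} (h : UD ar P) :
    UD ar (fun (S : Type) [(Lg ar).Structure S] (j : ℕ → S) (v : α → S) =>
      AtL k (fun w : β → S => P S j (Sum.elim v w))) := by
  classical
  have : Fintype β := Fintype.ofFinite β
  have h1 : ∀ i : Fin k, UD ar (fun (S : Type) [(Lg ar).Structure S] (j : ℕ → S)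
      (v : α ⊕ (Fin k × β) → S) => P S j (fun a => Sum.elim j v
        ((fun a : α ⊕ β => (Sum.inr (Sum.elim (fun a => Sum.inl a) (fun b => Sum.inr (i, b)) a) :
          ℕ ⊕ (α ⊕ (Fin k × β)))) a))) := fun i => UD.subst h _
  have h2 : ∀ p : Fin k × Fin k, UD ar (fun (S : Type) [(Lg ar).Structure S] (j : ℕ → S)
      (v : α ⊕ (Fin k × β) → S) => ¬ ∀ b ∈ (Finset.univ : Finset β).toList,
        Sum.elim j v (Sum.inr (Sum.inr (p.1, b)) : ℕ ⊕ (α ⊕ (Fin k × β))) =
          Sum.elim j v (Sum.inr (Sum.inr (p.2, b)) : ℕ ⊕ (α ⊕ (Fin k × β)))) :=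
    fun p => UD.not (UD.ball_mem _ fun b _ => UD.eq _ _)
  have h3 := UD.and (UD.ball_mem (List.finRange k) fun i _ => h1 i)
    (UD.ball_mem ((List.finRange k ×ˢ List.finRange k).filter (fun p => p.1 ≠ p.2))
      fun p _ => h2 p)
  have h4 := UD.ex h3
  refine UD.of_iff h4 ?_
  intro S _ j v
  constructor
  · rintro ⟨w, hw1, hw2⟩
    refine ⟨List.ofFn (fun i b => w (i, b)), by simp, ?_, ?_⟩
    · rw [List.nodup_ofFn]
      intro a b hab
      by_contra hne
      refine hw2 (a, b) (by simp [hne]) ?_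
      intro c _
      exact congrFun hab c
    · intro y hy
      rw [List.mem_ofFn] at hy
      obtain ⟨i, rfl⟩ := hy
      have h5 := hw1 i (List.mem_finRange i)
      convert h5 using 1
      funext a
      cases a <;> rfl
  · rintro ⟨Y, hY, hn, hP⟩
    subst hY
    refine ⟨fun p => Y.get p.1 p.2, ?_, ?_⟩
    · intro i _
      have h5 := hP (Y.get i) (List.get_mem Y i)
      convert h5 using 1
      funext a
      cases a <;> rfl
    · intro p hp hb
      simp only [List.mem_filter, ne_eq, decide_not, Bool.not_eq_true', decide_eq_false_iff_not] at hp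
      refine hp.2 ?_
      have h6 : Y.get p.1 = Y.get p.2 := by
        funext c
        exact hb c (by simp)
      exact (List.nodup_iff_injective_get.1 hn) h6

end Pool.Agent.MP_fd2900_lc
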