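import Pool.Agent.Lib.MP_fd2900_lc.UDb1

namespace Pool.Agent.MP_fd2900_lc

open FirstOrder FirstOrder.Language Fr

variable {ar : ℕ → ℕ}

/-- the symbol of a term -/
private def udbSym (d n : ℕ) (t : Tm) : ℕ ⊕ (Fin d ⊕ Fin n) :=
  if t.1 = 0 then Sum.inl t.2
  else if t.1 = 1 then (if h : t.2 < d then Sum.inr (Sum.inl ⟨t.2, h⟩) else Sum.inl 0)
  else (if h : t.2 < n then Sum.inr (Sum.inr ⟨t.2, h⟩) else Sum.inl 0)

private theorem udb_getD_ofFn {S : Type} {n : ℕ} (f : Fin n → S) (x : ℕ) (s : S) :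
    (List.ofFn f).getD x s = if h : x < n then f ⟨x, h⟩ else s := by
  by_cases h : x < n
  · rw [dif_pos h, List.getD_eq_getElem _ _ (by simpa using h)]
    simp
  · rw [dif_neg h, List.getD_eq_default]
    simpa using Nat.le_of_not_lt h

private theorem udb_ev (d n : ℕ) (t : Tm) (S : Type) [(Lg ar).Structure S] (j : ℕ → S)
    (w : Fin d ⊕ Fin n → S) :
    (frM ar S j).ev (fun i => (List.ofFn fun k => w (Sum.inl k)).getD i (j 0))
      (List.ofFn fun k => w (Sum.inr k)) t = Sum.elim j w (udbSym d n t) := by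
  unfold Fr.ev udbSym
  by_cases h0 : t.1 = 0
  · rw [if_pos h0, if_pos h0]; rfl
  · rw [if_neg h0, if_neg h0]
    by_cases h1 : t.1 = 1
    · rw [if_pos h1, if_pos h1]
      beta_reduce
      rw [udb_getD_ofFn]
      by_cases h : t.2 < d
      · rw [dif_pos h, dif_pos h]; rfl
      · rw [dif_neg h, dif_neg h]; rfl
    · rw [if_neg h1, if_neg h1, udb_getD_ofFn]
      by_cases h : t.2 < n
      · rw [dif_pos h, dif_pos h]; rfl
      · rw [dif_neg h, dif_neg h]; rfl

theorem UDl.hold (d n : ℕ) (l : Lit) :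
    UDl ar d n (fun (S : Type) [(Lg ar).Structure S] (j : ℕ → S) (g : ℕ → S) (v : List S) =>
      (frM ar S j).hold g v l) := by
  have h1 := UD.relE (ar := ar) (α := Fin d ⊕ Fin n) l.2.1 (l.2.2.map (udbSym d n))
  have key : ∀ (S : Type) [(Lg ar).Structure S] (j : ℕ → S) (w : Fin d ⊕ Fin n → S),
      (l.2.2.map (udbSym d n)).map (Sum.elim j w) =
        l.2.2.map ((frM ar S j).ev (fun i => (List.ofFn fun k => w (Sum.inl k)).getD i (j 0))
          (List.ofFn fun k => w (Sum.inr k))) := by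
    intro S _ j w
    rw [List.map_map]
    apply List.map_congr_left
    intro t _
    exact (udb_ev d n t S j w).symm
  rcases hl : l.1 with _ | _
  · refine UD.of_iff h1.not ?_
    intro S _ j w
    rw [key]
    unfold Fr.hold
    rw [hl]
    simp
  · refine UD.of_iff h1 ?_
    intro S _ j w
    rw [key]
    unfold Fr.hold
    rw [hl]
    simp

private theorem udb_hold_congr {S : Type} (F : Fr S) (g : ℕ → S) {v v' : List S} {l : Lit} {L : ℕ}
    (hL : ∀ t ∈ l.2.2, t.2 < L) (h : ∀ x < L, v.getD x (F.j 0) = v'.getD x (F.j 0)) :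
    F.hold g v l ↔ F.hold g v' l := by
  unfold Fr.hold
  have : l.2.2.map (F.ev g v) = l.2.2.map (F.ev g v') := by
    apply List.map_congr_left
    intro t ht
    unfold Fr.ev
    rw [h _ (hL t ht)]
  rw [this]

private theorem udb_bound (δ : List Lit) : ∃ L : ℕ, ∀ l ∈ δ, ∀ t ∈ l.2.2, t.2 < L := by
  induction δ with
  | nil => exact ⟨0, by simp⟩
  | cons l δ ih =>
    obtain ⟨L, hL⟩ := ih
    have h2 : ∃ L' : ℕ, ∀ t ∈ l.2.2, t.2 < L' := by
      generalize l.2.2 = ts
      induction ts with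
      | nil => exact ⟨0, by simp⟩
      | cons t ts iht =>
        obtain ⟨L', hL'⟩ := iht
        refine ⟨max L' (t.2 + 1), ?_⟩
        intro s hs
        rcases List.mem_cons.1 hs with rfl | hs
        · omega
        · have := hL' s hs
          omega
    obtain ⟨L', hL'⟩ := h2
    refine ⟨max L L', ?_⟩
    intro m hm t ht
    rcases List.mem_cons.1 hm with rfl | hm
    · have := hL' t ht
      omega
    · have := hL m hm t ht
      omega

private theorem udb_ex1_iff {S : Type} (F : Fr S) (g : ℕ → S) (v : List S) {δ : List Lit} {L : ℕ}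
    (hL : ∀ l ∈ δ, ∀ t ∈ l.2.2, t.2 < L) :
    (∃ z : List S, z.length = L ∧ ∀ l ∈ δ, F.hold g (v ++ z) l) ↔ F.Ex1 g v δ := by
  constructor
  · rintro ⟨z, _, h⟩
    exact ⟨z, h⟩
  · rintro ⟨z, h⟩
    refine ⟨List.ofFn fun k : Fin L => z.getD k (F.j 0), by simp, ?_⟩
    intro l hl
    refine (udb_hold_congr F g (hL l hl) ?_).1 (h l hl)
    intro x hx
    by_cases hxv : x < v.length
    · rw [List.getD_append _ _ _ _ hxv, List.getD_append _ _ _ _ hxv]
    · push Not at hxv
      rw [List.getD_append_right _ _ _ _ hxv, List.getD_append_right _ _ _ _ hxv, udb_getD_ofFn,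
        dif_pos (by omega)]

theorem UDl.ex1 (d n : ℕ) (δ : List Lit) :
    UDl ar d n (fun (S : Type) [(Lg ar).Structure S] (j : ℕ → S) (g : ℕ → S) (v : List S) =>
      (frM ar S j).Ex1 g v δ) := by
  obtain ⟨L, hL⟩ := udb_bound δ
  have h1 : UDl ar d (n + L) (fun (S : Type) [(Lg ar).Structure S] (j : ℕ → S) (g : ℕ → S)
      (v : List S) => ∀ l ∈ δ, (frM ar S j).hold g v l) :=
    UD.ball_mem δ fun l _ => UDl.hold d (n + L) l
  refine UD.of_iff (UDl.exList L h1) ?_
  intro S _ j w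
  exact udb_ex1_iff (frM ar S j) _ _ hL

theorem UDl.ex10 (d n : ℕ) (δ : List Lit) :
    UDl ar d n (fun (S : Type) [(Lg ar).Structure S] (j : ℕ → S) (_ : ℕ → S) (v : List S) =>
      (frM ar S j).Ex1 (frM ar S j).g0 v δ) := by
  have h1 := UD.subst (β := Fin d ⊕ Fin n) (UDl.ex1 (ar := ar) 0 n δ)
    (Sum.elim (fun k => k.elim0) fun k => Sum.inr (Sum.inr k))
  refine UD.of_iff h1 ?_
  intro S _ j w
  have e : (fun i => (List.ofFn fun k : Fin 0 => Sum.elim j w
      ((Sum.elim (fun k => k.elim0) fun k => Sum.inr (Sum.inr k) :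
        Fin 0 ⊕ Fin n → ℕ ⊕ (Fin d ⊕ Fin n)) (Sum.inl k))).getD i (j 0)) =
      (frM ar S j).g0 := by
    funext i
    simp [Fr.g0, frM]
  rw [e]
  rfl

end Pool.Agent.MP_fd2900_lc
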