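import Pool.Agent.Lib.MP_fd2900_lc.UDaL

/-! uniformly definable predicates of lists; literals and existential closures -/

namespace Pool.Agent.MP_fd2900_lc

open FirstOrder FirstOrder.Language Fr

/-- `P` is uniformly definable as a predicate of generics `g_0, …, g_{d-1}` and lists of length `n` -/
def UDl (ar : ℕ → ℕ) (d n : ℕ)
    (P : ∀ (S : Type) [(Lg ar).Structure S], (ℕ → S) → (ℕ → S) → List S → Prop) : Prop :=
  UD ar (α := Fin d ⊕ Fin n) (fun (S : Type) [(Lg ar).Structure S] (j : ℕ → S) (w : Fin d ⊕ Fin n → S) =>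
    P S j (fun i => (List.ofFn fun k => w (Sum.inl k)).getD i (j 0)) (List.ofFn fun k => w (Sum.inr k)))

variable {ar : ℕ → ℕ} {d n : ℕ}

/-- substitution: the list `v` of length `m` is replaced by a list of constants, generics and entries of the new `v` -/
theorem UDl.sub {m : ℕ} {P : ∀ (S : Type) [(Lg ar).Structure S], (ℕ → S) → (ℕ → S) → List S → Prop}
    (h : UDl ar d m P) (f : Fin m → ℕ ⊕ (Fin d ⊕ Fin n)) :
    UD ar (α := Fin d ⊕ Fin n) (fun (S : Type) [(Lg ar).Structure S] (j : ℕ → S) (w : Fin d ⊕ Fin n → S) =>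
      P S j (fun i => (List.ofFn fun k => w (Sum.inl k)).getD i (j 0))
        (List.ofFn fun k => Sum.elim j w (f k))) := by
  exact (UD.subst h (Sum.elim (fun k => Sum.inr (Sum.inl k)) f)).of_iff
    (fun S _ j v => Iff.rfl)

private theorem UDb1_exists_list {S : Type} (m : ℕ) (Q : List S → Prop) :
    (∃ z : List S, z.length = m ∧ Q z) ↔ ∃ w : Fin m → S, Q (List.ofFn w) := by
  constructor
  · rintro ⟨z, rfl, hz⟩
    exact ⟨fun k => z.get k, by rwa [List.ofFn_get]⟩
  · rintro ⟨w, hw⟩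
    exact ⟨List.ofFn w, List.length_ofFn, hw⟩

private theorem UDb1_addCases {S : Type} {n m : ℕ} (a : Fin n → S) (b : Fin m → S) :
    (List.ofFn fun k : Fin (n + m) => (Fin.addCases a b k : S)) = List.ofFn a ++ List.ofFn b :=
  List.ofFn_fin_append a b

/-- rearrangement of the variables: the last `m` entries become new variables -/
private theorem UDb1_split {m : ℕ}
    {P : ∀ (S : Type) [(Lg ar).Structure S], (ℕ → S) → (ℕ → S) → List S → Prop}
    (h : UDl ar d (n + m) P) :
    UD ar (α := (Fin d ⊕ Fin n) ⊕ Fin m)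
      (fun (S : Type) [(Lg ar).Structure S] (j : ℕ → S) (w : (Fin d ⊕ Fin n) ⊕ Fin m → S) =>
      P S j (fun i => (List.ofFn fun k => w (Sum.inl (Sum.inl k))).getD i (j 0))
        ((List.ofFn fun k => w (Sum.inl (Sum.inr k))) ++ List.ofFn fun k => w (Sum.inr k))) := by
  refine (UD.subst (β := (Fin d ⊕ Fin n) ⊕ Fin m) h (Sum.elim
    (fun k => Sum.inr (Sum.inl (Sum.inl k)))
    (fun k : Fin (n + m) => Fin.addCases (fun i => Sum.inr (Sum.inl (Sum.inr i)))
      (fun i => Sum.inr (Sum.inr i)) k))).of_iff ?_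
  intro S _ j w
  have e : (List.ofFn fun k : Fin (n + m) => Sum.elim j w
      (Fin.addCases (motive := fun _ => ℕ ⊕ ((Fin d ⊕ Fin n) ⊕ Fin m))
        (fun i => Sum.inr (Sum.inl (Sum.inr i))) (fun i => Sum.inr (Sum.inr i)) k)) =
      (List.ofFn fun k => w (Sum.inl (Sum.inr k))) ++ List.ofFn fun k => w (Sum.inr k) := by
    rw [← UDb1_addCases]
    congr 1
    funext k
    refine Fin.addCases (fun i => ?_) (fun i => ?_) k
    · simp
    · simp
  simp only [Sum.elim_inl, Sum.elim_inr]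
  rw [e]

private theorem UDb1_atL_iff {A B : Type} (k : ℕ) (Q : A → Prop) (R : B → Prop) (f : A → B)
    (hf : Function.Injective f) (hQ : ∀ a, Q a → R (f a)) (hR : ∀ b, R b → ∃ a, f a = b ∧ Q a) :
    AtL k Q ↔ AtL k R := by
  constructor
  · rintro ⟨Y, hY, hn, hq⟩
    refine ⟨Y.map f, by rw [List.length_map, hY], hn.map hf, ?_⟩
    intro b hb
    obtain ⟨a, ha, rfl⟩ := List.mem_map.1 hb
    exact hQ a (hq a ha)
  · rintro ⟨Y, hY, hn, hq⟩
    choose g hg using hR
    refine ⟨Y.attach.map (fun b => g b.1 (hq b.1 b.2)), by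
      rw [List.length_map, List.length_attach, hY], ?_, ?_⟩
    · refine List.Nodup.map ?_ (List.nodup_attach.2 hn)
      intro b c hbc
      have h1 := (hg b.1 (hq b.1 b.2)).1
      have h2 := (hg c.1 (hq c.1 c.2)).1
      apply Subtype.ext
      rw [← h1, ← h2]
      exact congrArg f hbc
    · intro a ha
      obtain ⟨b, -, rfl⟩ := List.mem_map.1 ha
      exact (hg b.1 (hq b.1 b.2)).2


theorem UDl.exList (m : ℕ)
    {P : ∀ (S : Type) [(Lg ar).Structure S], (ℕ → S) → (ℕ → S) → List S → Prop}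
    (h : UDl ar d (n + m) P) :
    UDl ar d n (fun (S : Type) [(Lg ar).Structure S] (j : ℕ → S) (g : ℕ → S) (v : List S) =>
      ∃ z : List S, z.length = m ∧ P S j g (v ++ z)) := by
  refine (UD.ex (UDb1_split h)).of_iff ?_
  intro S _ j v
  exact (UDb1_exists_list m (fun z : List S =>
    P S j (fun i => (List.ofFn fun k => v (Sum.inl k)).getD i (j 0))
      ((List.ofFn fun k => v (Sum.inr k)) ++ z))).symm

theorem UDl.atL1 (k : ℕ)
    {P : ∀ (S : Type) [(Lg ar).Structure S], (ℕ → S) → (ℕ → S) → List S → Prop}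
    (h : UDl ar d (n + 1) P) :
    UDl ar d n (fun (S : Type) [(Lg ar).Structure S] (j : ℕ → S) (g : ℕ → S) (v : List S) =>
      AtL k (fun y => P S j g (v ++ [y]))) := by
  refine (UD.atL k (UDb1_split h)).of_iff ?_
  intro S _ j v
  refine UDb1_atL_iff k _ _ (fun w : Fin 1 → S => w 0) ?_ ?_ ?_
  · intro a b hab
    funext i
    rw [Subsingleton.elim i 0]
    exact hab
  · intro w hw
    simpa [List.ofFn_succ] using hw
  · intro y hy
    refine ⟨fun _ => y, rfl, ?_⟩
    simpa [List.ofFn_succ] using hy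

theorem UDl.atList (k m : ℕ)
    {P : ∀ (S : Type) [(Lg ar).Structure S], (ℕ → S) → (ℕ → S) → List S → Prop}
    (h : UDl ar d m P) :
    UDl ar d 0 (fun (S : Type) [(Lg ar).Structure S] (j : ℕ → S) (g : ℕ → S) (_ : List S) =>
      AtL k (fun v : List S => v.length = m ∧ P S j g v)) := by
  have h1 := UD.subst (β := (Fin d ⊕ Fin 0) ⊕ Fin m) h (Sum.elim
    (fun k => Sum.inr (Sum.inl (Sum.inl k))) (fun k => Sum.inr (Sum.inr k)))
  refine (UD.atL k h1).of_iff ?_
  intro S _ j v
  refine UDb1_atL_iff k _ _ (fun w : Fin m → S => List.ofFn w) ?_ ?_ ?_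
  · exact List.ofFn_injective
  · intro w hw
    exact ⟨List.length_ofFn, hw⟩
  · rintro z ⟨rfl, hz⟩
    refine ⟨fun k => z.get k, List.ofFn_get z, ?_⟩
    have e : List.ofFn (fun k => z.get k) = z := List.ofFn_get z
    show P S j _ (List.ofFn fun k => z.get k)
    rw [e]
    exact hz

end Pool.Agent.MP_fd2900_lc
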